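import Pool.Agent.Lib.MP_f4ebb7_co.CHD.Defs

/-! CHD-ArA: powers of `q` modulo `N = p^b M`, general lemma.

PROOF. `cyc_lemma`: `G` a finite cyclic group, `a` of prime order `r`, `r ∣ orderOf g`, `m` coprime to `r`. `g1 = g^m` has order divisible by `r`
(`orderOf_pow`: `orderOf g / gcd (orderOf g) m`; the gcd is coprime to `r`), so `a' = g1 ^ (orderOf g1 / r)` has order `r`.
The elements `x` with `x^r = 1` number at most `r` (`IsCyclic.card_pow_eq_one_le`), so they are the powers of `a'`; `a^r = 1`,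
so `a = a' ^ j`.
`tot_lemma`: `r` prime, `r ∤ M`, `r ∤ s - 1` for all primes `s ∣ M`, `M' ∣ M`, `M ≠ 0`: `r ∤ φ(M')` (`Nat.totient_eq_prod_factorization` or
`Nat.recOnPosPrimePosCoprime`: `φ(s^k) = s^(k-1) (s-1)`, `Prime.dvd_finset_prod_iff`).
`pow_gen`: `N = q^a w`, `¬ q ∣ w` (`a = N.factorization q`, `Nat.ordProj_mul_ordCompl_eq_self`), `w = p^b M'` with `M = q^a M'` (`q ≠ p`, `q^a` is coprime
to `p^b`). `m = φ(M')` is coprime to `r` (`tot_lemma`). `cyc_lemma` in `G = (ZMod (p^b))ˣ` (cyclic: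
`ZMod.isCyclic_units_of_prime_pow p hp hp2 b`): `(g^m)^k = a0`, so `q^(m k) ≡ t.val mod p^b`. `q^m ≡ 1 mod M'` (`Nat.ModEq.pow_totient`, `q` and `M'`
coprime), `t.val ≡ 1 mod M'` (`M' ∣ M`), so `q^(m k) ≡ t.val mod M'`. Coprime moduli `p^b`, `M'`:
`Nat.modEq_and_modEq_iff_modEq_mul`. So `Fx N q t` with `a, w, j = m k`.
-/

set_option autoImplicit false

namespace Pool.CHD

open Finset

theorem cyc_lemma {G : Type} [CommGroup G] [Fintype G] [IsCyclic G] (r : ℕ) (hr : r.Prime) (a g : G)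
    (ha : orderOf a = r) (hg : r ∣ orderOf g) (m : ℕ) (hm : Nat.Coprime r m) : ∃ k : ℕ, (g ^ m) ^ k = a := by
  classical
  have hg1 : r ∣ orderOf (g ^ m) := by
    rw [orderOf_pow]
    have h1 : orderOf g / (orderOf g).gcd m * (orderOf g).gcd m = orderOf g :=
      Nat.div_mul_cancel (Nat.gcd_dvd_left _ _)
    rw [← h1] at hg
    have h2 : Nat.Coprime r ((orderOf g).gcd m) := Nat.Coprime.coprime_dvd_right (Nat.gcd_dvd_right _ _) hm
    exact h2.dvd_of_dvd_mul_right hg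
  have hpos : orderOf (g ^ m) ≠ 0 := (orderOf_pos _).ne'
  have ho : orderOf ((g ^ m) ^ (orderOf (g ^ m) / r)) = r := orderOf_pow_orderOf_div hpos hg1
  set a' := (g ^ m) ^ (orderOf (g ^ m) / r) with ha'
  have hcard : (Finset.univ.filter (fun x : G => x ^ r = 1)).card ≤ r := IsCyclic.card_pow_eq_one_le hr.pos
  have hsub : (Finset.range r).image (fun i => a' ^ i) ⊆ Finset.univ.filter (fun x : G => x ^ r = 1) := by
    intro x hx
    obtain ⟨i, _, rfl⟩ := Finset.mem_image.1 hx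
    refine Finset.mem_filter.2 ⟨Finset.mem_univ _, ?_⟩
    rw [← pow_mul, mul_comm, pow_mul, ← ho, pow_orderOf_eq_one, one_pow]
  have hci : ((Finset.range r).image (fun i => a' ^ i)).card = r := by
    rw [Finset.card_image_of_injOn, Finset.card_range]
    intro i hi j hj hij
    have hi' : i < orderOf a' := by rw [ho]; exact Finset.mem_range.1 hi
    have hj' : j < orderOf a' := by rw [ho]; exact Finset.mem_range.1 hj
    exact pow_injOn_Iio_orderOf hi' hj' hij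
  have heq := Finset.eq_of_subset_of_card_le hsub (by rw [hci]; exact hcard)
  have hmem : a ∈ Finset.univ.filter (fun x : G => x ^ r = 1) := by
    refine Finset.mem_filter.2 ⟨Finset.mem_univ _, ?_⟩
    rw [← ha, pow_orderOf_eq_one]
  rw [← heq] at hmem
  obtain ⟨i, _, hi⟩ := Finset.mem_image.1 hmem
  refine ⟨(orderOf (g ^ m) / r) * i, ?_⟩
  rw [pow_mul, ← ha']
  exact hi

theorem tot_lemma (r : ℕ) (hr : r.Prime) (M M' : ℕ) (hM : M ≠ 0) (hM' : M' ∣ M) (hrM : ¬ r ∣ M)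
    (hs : ∀ s : ℕ, s.Prime → s ∣ M → ¬ r ∣ s - 1) : Nat.Coprime r (Nat.totient M') := by
  rw [Nat.Prime.coprime_iff_not_dvd hr]
  intro h
  have h1 : r ∣ Nat.totient M := h.trans (Nat.totient_dvd_of_dvd hM')
  rw [Nat.totient_eq_prod_factorization hM, Finsupp.prod] at h1
  obtain ⟨s, hsm, hd⟩ := (Prime.dvd_finset_prod_iff hr.prime _).1 h1
  rw [Nat.support_factorization] at hsm
  have hsp := Nat.prime_of_mem_primeFactors hsm
  have hsd := Nat.dvd_of_mem_primeFactors hsm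
  rcases (Nat.Prime.dvd_mul hr).1 hd with h2 | h2
  · have h3 := hr.dvd_of_dvd_pow h2
    exact hrM (h3.trans hsd)
  · exact hs s hsp hsd h2

theorem pow_gen {N p b M r : ℕ} [NeZero N] (h : Par N p b M) (hr : r.Prime) (hrM : ¬ r ∣ M)
    (hs : ∀ s : ℕ, s.Prime → s ∣ M → ¬ r ∣ s - 1) (q : ℕ) (hq : q.Prime) (hqp : q ≠ p) (t : (ZMod N)ˣ)
    (htM : (t : ZMod N).val ≡ 1 [MOD M]) (a0 g : (ZMod (p ^ b))ˣ)
    (ha : (a0 : ZMod (p ^ b)) = (((t : ZMod N).val : ℕ) : ZMod (p ^ b)))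
    (hg : (g : ZMod (p ^ b)) = ((q : ℕ) : ZMod (p ^ b))) (ha0 : orderOf a0 = r) (hg0 : r ∣ orderOf g) : Fx N q t := by
  have hM0 : M ≠ 0 := by
    rintro rfl
    exact NeZero.ne N (by rw [h.hN, mul_zero])
  obtain ⟨e, M', hqM', hMe⟩ := Nat.exists_eq_pow_mul_and_not_dvd hM0 q hq.ne_one
  have hM'M : M' ∣ M := by rw [hMe]; exact dvd_mul_left _ _
  haveI : NeZero (p ^ b) := ⟨pow_ne_zero _ h.hp.ne_zero⟩
  haveI : IsCyclic (ZMod (p ^ b))ˣ := ZMod.isCyclic_units_of_prime_pow p h.hp h.hp2 b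
  obtain ⟨k, hk⟩ := cyc_lemma r hr a0 g ha0 hg0 (Nat.totient M') (tot_lemma r hr M M' hM0 hM'M hrM hs)
  refine ⟨e, p ^ b * M', Nat.totient M' * k, ?_, ?_⟩
  · rw [h.hN, hMe]; ring
  · have hcop : Nat.Coprime (p ^ b) M' := by
      apply Nat.Coprime.pow_left
      rw [Nat.Prime.coprime_iff_not_dvd h.hp]
      intro hd
      exact h.hM (hd.trans hM'M)
    rw [← Nat.modEq_and_modEq_iff_modEq_mul hcop]
    constructor
    · rw [← ZMod.natCast_eq_natCast_iff, ← ha, ← hk]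
      push_cast
      rw [hg, pow_mul]
    · have h1 : (t : ZMod N).val ≡ 1 [MOD M'] := htM.of_dvd hM'M
      have h2 : q ^ (Nat.totient M' * k) ≡ 1 [MOD M'] := by
        have hqc : Nat.Coprime q M' := (Nat.Prime.coprime_iff_not_dvd hq).2 hqM'
        have h3 := (Nat.ModEq.pow_totient hqc).pow k
        rw [one_pow, ← pow_mul] at h3
        exact h3
      exact h1.trans h2.symm

end Pool.CHD
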