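import Pool.Agent.Lib.MP_f4ebb7_co.CHD.ArA

/-! CHD-ArB: `τ = σ_{1 + N/p}` and powers of `q`.

PROOF. `exists_tau`: `1 + N/p` is coprime to `N`: a prime `s ∣ N` divides `N/p` (`s = p`: `b ≥ 2`; `s ≠ p`: `s ∣ M ∣ N/p`); `ZMod.unitOfCoprime`.
`tau_val`: `τ.val ≡ 1 + N/p mod N` (`ZMod.natCast_eq_natCast_iff`, `ZMod.natCast_zmod_val`).
`pow_tau`: `pow_gen` with `r = p`, `t = τ`. `τ.val ≡ 1 mod M` (`M ∣ N/p = p^(b-1) M`). `a0 = 1 + N/p` in `ZMod (p^b)` (a unit) has order `p`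
(`orderOf_eq_prime`): `≠ 1` since `p^b ∤ p^(b-1) M`; `a0^p = 1` since `(1 + y)^p = 1 + p y` when `y² = 0` (`(1 + y)^k = 1 + k y` by induction),
`y = N/p`, `y² = 0` and `p y = N = 0` in `ZMod (p^b)` (`b ≥ 2`). `g = q` (unit, `q ≠ p`): `p ∣ orderOf g`: otherwise `orderOf g` divides
`φ(p^b) = p^(b-1) (p-1)` (`ZMod.card_units_eq_totient`, `orderOf_dvd_card`) and is coprime to `p`, so it divides `p - 1` and
`q^(p-1) ≡ 1 mod p^b`, hence mod `p²`: contradiction to `hw`. `p ∤ M` is `Par.hM`.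
`pow_tau_p`: `N = p^b * M`, `τ.val ≡ 1 = p^0 mod M`.
-/

set_option autoImplicit false

namespace Pool.CHD

open Finset

private theorem arB_div {N p b M : ℕ} (h : Par N p b M) : N / p = p ^ (b - 1) * M := by
  have hb : b = (b - 1) + 1 := by have := h.hb; omega
  have e : N = p * (p ^ (b - 1) * M) := by
    rw [h.hN]
    conv_lhs => rw [hb, pow_succ]
    ring
  rw [e]
  exact Nat.mul_div_cancel_left _ h.hp.pos

private theorem arB_mul {N p b M : ℕ} (h : Par N p b M) : p * (N / p) = N := by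
  rw [arB_div h, h.hN]
  have hb : b = (b - 1) + 1 := by have := h.hb; omega
  conv_rhs => rw [hb, pow_succ]
  ring

private theorem arB_sq {N p b M : ℕ} (h : Par N p b M) : N ∣ (N / p) ^ 2 := by
  rw [arB_div h]
  conv_lhs => rw [h.hN]
  rw [mul_pow, ← pow_mul]
  refine mul_dvd_mul (pow_dvd_pow p ?_) (dvd_pow_self M (by norm_num))
  have := h.hb
  omega

private theorem arB_cop {N p b M : ℕ} (h : Par N p b M) : Nat.Coprime (1 + N / p) N := by
  have h1 : Nat.Coprime (1 + N / p) (N / p) := by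
    simp
  exact Nat.Coprime.coprime_dvd_right (arB_sq h) (Nat.Coprime.pow_right 2 h1)

private theorem arB_val {N p b M : ℕ} [NeZero N] (_h : Par N p b M) {τ : (ZMod N)ˣ} (hτ : IsTau N p τ) :
    (τ : ZMod N).val ≡ 1 + N / p [MOD N] := by
  rw [← ZMod.natCast_eq_natCast_iff]
  rw [ZMod.natCast_zmod_val]
  have h1 : (τ : ZMod N) = 1 + ((N / p : ℕ) : ZMod N) := hτ
  rw [h1]
  push_cast
  rfl

private theorem arB_valM {N p b M : ℕ} [NeZero N] (h : Par N p b M) {τ : (ZMod N)ˣ} (hτ : IsTau N p τ) :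
    (τ : ZMod N).val ≡ 1 [MOD M] := by
  have hMN : M ∣ N := ⟨p ^ b, by rw [h.hN, mul_comm]⟩
  have h1 : (τ : ZMod N).val ≡ 1 + N / p [MOD M] := (arB_val h hτ).of_dvd hMN
  have h2 : 1 + N / p ≡ 1 + 0 [MOD M] := by
    refine Nat.ModEq.add_left 1 ?_
    refine (Nat.modEq_zero_iff_dvd).2 ?_
    rw [arB_div h]
    exact dvd_mul_left M _
  exact h1.trans h2

private theorem arB_bin {R : Type} [CommRing R] (y : R) (hy : y ^ 2 = 0) (k : ℕ) :
    (1 + y) ^ k = 1 + k * y := by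
  induction k with
  | zero => simp
  | succ k ih =>
    rw [pow_succ, ih]
    push_cast
    linear_combination (k : R) * hy

theorem exists_tau {N p b M : ℕ} [NeZero N] (h : Par N p b M) : ∃ τ : (ZMod N)ˣ, IsTau N p τ := by
  refine ⟨ZMod.unitOfCoprime (1 + N / p) (arB_cop h), ?_⟩
  show ((ZMod.unitOfCoprime (1 + N / p) (arB_cop h) : (ZMod N)ˣ) : ZMod N) = 1 + ((N / p : ℕ) : ZMod N)
  rw [ZMod.coe_unitOfCoprime]
  push_cast
  rfl

theorem pow_tau {N p b M : ℕ} [NeZero N] (h : Par N p b M) (hs : ∀ s : ℕ, s.Prime → s ∣ M → ¬ p ∣ s - 1)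
    {τ : (ZMod N)ˣ} (hτ : IsTau N p τ) (q : ℕ) (hq : q.Prime) (hqp : q ≠ p)
    (hw : ¬ q ^ (p - 1) ≡ 1 [MOD p ^ 2]) : Fx N q τ := by
  haveI : NeZero (p ^ b) := ⟨pow_ne_zero _ h.hp.ne_zero⟩
  have hpbN : p ^ b ∣ N := ⟨M, h.hN⟩
  have hc1 : Nat.Coprime (1 + N / p) (p ^ b) := Nat.Coprime.coprime_dvd_right hpbN (arB_cop h)
  have hc2 : Nat.Coprime q (p ^ b) :=
    Nat.Coprime.pow_right b ((Nat.coprime_primes hq h.hp).2 hqp)
  have hval : ((ZMod.unitOfCoprime (1 + N / p) hc1 : (ZMod (p ^ b))ˣ) : ZMod (p ^ b)) =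
      1 + ((N / p : ℕ) : ZMod (p ^ b)) := by
    rw [ZMod.coe_unitOfCoprime]
    push_cast
    rfl
  refine pow_gen h h.hp h.hM hs q hq hqp τ (arB_valM h hτ) (ZMod.unitOfCoprime (1 + N / p) hc1)
    (ZMod.unitOfCoprime q hc2) ?_ ?_ ?_ ?_
  · rw [ZMod.coe_unitOfCoprime]
    exact ((ZMod.natCast_eq_natCast_iff _ _ _).2 ((arB_val h hτ).of_dvd hpbN)).symm
  · rw [ZMod.coe_unitOfCoprime]
  · haveI : Fact p.Prime := ⟨h.hp⟩
    refine orderOf_eq_prime ?_ ?_
    · apply Units.ext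
      rw [Units.val_pow_eq_pow_val, hval, arB_bin]
      · have h1 : ((p : ℕ) : ZMod (p ^ b)) * ((N / p : ℕ) : ZMod (p ^ b)) = 0 := by
          rw [← Nat.cast_mul, arB_mul h]
          exact (ZMod.natCast_eq_zero_iff _ _).2 hpbN
        rw [h1, add_zero, Units.val_one]
      · rw [← Nat.cast_pow]
        exact (ZMod.natCast_eq_zero_iff _ _).2 (hpbN.trans (arB_sq h))
    · intro h1
      have h2 : ((ZMod.unitOfCoprime (1 + N / p) hc1 : (ZMod (p ^ b))ˣ) : ZMod (p ^ b)) = 1 := by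
        rw [h1, Units.val_one]
      rw [hval] at h2
      have h3 : ((N / p : ℕ) : ZMod (p ^ b)) = 0 := by
        simpa using h2
      rw [ZMod.natCast_eq_zero_iff, arB_div h] at h3
      have hb : b = (b - 1) + 1 := by have := h.hb; omega
      have h4 : p ^ (b - 1) * p ∣ p ^ (b - 1) * M := by
        rw [← pow_succ, ← hb]
        exact h3
      exact h.hM ((Nat.mul_dvd_mul_iff_left (pow_pos h.hp.pos _)).1 h4)
  · by_contra hcon
    have h1 : Nat.Coprime (orderOf (ZMod.unitOfCoprime q hc2)) (p ^ (b - 1)) :=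
      Nat.Coprime.pow_right _ (Nat.Coprime.symm ((Nat.Prime.coprime_iff_not_dvd h.hp).2 hcon))
    have h2 : orderOf (ZMod.unitOfCoprime q hc2) ∣ p ^ (b - 1) * (p - 1) := by
      have h3 := orderOf_dvd_card (x := ZMod.unitOfCoprime q hc2)
      rw [ZMod.card_units_eq_totient, Nat.totient_prime_pow h.hp (by have := h.hb; omega)] at h3
      exact h3
    have h4 : orderOf (ZMod.unitOfCoprime q hc2) ∣ p - 1 := Nat.Coprime.dvd_of_dvd_mul_left h1 h2
    have h5 : (ZMod.unitOfCoprime q hc2) ^ (p - 1) = 1 := orderOf_dvd_iff_pow_eq_one.1 h4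
    have h6 : ((q : ℕ) : ZMod (p ^ b)) ^ (p - 1) = 1 := by
      rw [← ZMod.coe_unitOfCoprime q hc2, ← Units.val_pow_eq_pow_val, h5, Units.val_one]
    have h7 : q ^ (p - 1) ≡ 1 [MOD p ^ b] := by
      rw [← ZMod.natCast_eq_natCast_iff]
      push_cast
      exact h6
    exact hw (h7.of_dvd (pow_dvd_pow p h.hb))

theorem pow_tau_p {N p b M : ℕ} [NeZero N] (h : Par N p b M) {τ : (ZMod N)ˣ} (hτ : IsTau N p τ) : Fx N p τ := by
  refine ⟨b, M, 0, h.hN, ?_⟩
  rw [pow_zero]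
  exact arB_valM h hτ

end Pool.CHD
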