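import Pool.Agent.Lib.MP_f4ebb7_co.CHD.ArA

/-! CHD-ArC: the element `t` of order `ℓ`.

PROOF. `ℓ ∣ p - 1 ∣ card G`, `G = (ZMod (p^b))ˣ` (`ZMod.card_units_eq_totient`, `Nat.totient_prime_pow`): `t0 ∈ G` of order `ℓ`
(`exists_prime_orderOf_dvd_card`). `t ∈ (ZMod N)ˣ` with `t.val ≡ t0 mod p^b`, `t.val ≡ 1 mod M`: `Nat.chineseRemainder` (`p^b`, `M` coprime), the
result is coprime to `p^b` and to `M`, `ZMod.unitOfCoprime`; `(t : ZMod N).val ≡` it mod `N`. `t^ℓ = 1`: `t.val^ℓ ≡ 1` mod `p^b` and mod `M`, so mod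
`N` (`Units.ext`, `ZMod.natCast_eq_natCast_iff`). `t.val ≢ 1 mod p`: else `t.val^(p^(b-1)) ≡ 1 mod p^b` (`Int.ModEq`/`dvd_sub_pow_of_dvd_sub`:
`x ≡ y mod p → x^(p^k) ≡ y^(p^k) mod p^(k+1)`), so `t0^(p^(b-1)) = 1`, `ℓ ∣ p^(b-1)`, `ℓ = p`, but `ℓ ≤ p - 1`.
For `q`: `pow_gen` with `r = ℓ`, `a0 = t0`, `g = q`: `ℓ ∣ orderOf g`: let `o = orderOf g`; if `ℓ ∤ o`: the order `o1` of `q` in `(ZMod p)ˣ` divides `o`
(`q^o ≡ 1 mod p^b`, so mod `p`) so `ℓ ∤ o1`, and `o1 ∣ p - 1 = ℓ * ((p-1)/ℓ)`, so `o1 ∣ (p-1)/ℓ`, `q^((p-1)/ℓ) ≡ 1 mod p`: contradiction.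
-/

set_option autoImplicit false

namespace Pool.CHD

open Finset

/-- the order of `q` -/
private theorem ArC_ord {p b ℓ q : ℕ} (hp : p.Prime) (hb : 1 ≤ b) (hl : ℓ.Prime) (hlp : ℓ ∣ p - 1)
    (hqp : Nat.Coprime q p) (hq : ¬ q ^ ((p - 1) / ℓ) ≡ 1 [MOD p])
    (g : (ZMod (p ^ b))ˣ) (hg : (g : ZMod (p ^ b)) = ((q : ℕ) : ZMod (p ^ b))) : ℓ ∣ orderOf g := by
  have : Fact p.Prime := ⟨hp⟩
  by_contra hcon
  have h1 : (q ^ orderOf g) ≡ 1 [MOD p ^ b] := by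
    rw [← ZMod.natCast_eq_natCast_iff]
    push_cast
    rw [← hg, ← Units.val_pow_eq_pow_val, pow_orderOf_eq_one, Units.val_one]
  have h2 : (q ^ orderOf g) ≡ 1 [MOD p] := h1.of_dvd (dvd_pow_self p (by omega))
  have h3 : ((q : ℕ) : ZMod p) ^ orderOf g = 1 := by
    have := (ZMod.natCast_eq_natCast_iff _ _ _).2 h2
    push_cast at this
    exact this
  have h4 : orderOf ((q : ℕ) : ZMod p) ∣ orderOf g := orderOf_dvd_of_pow_eq_one h3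
  have hq0 : ((q : ℕ) : ZMod p) ≠ 0 := by
    intro h0
    rw [ZMod.natCast_eq_zero_iff] at h0
    exact (Nat.Prime.not_coprime_iff_dvd.2 ⟨p, hp, h0, dvd_refl p⟩) hqp
  have h5 : orderOf ((q : ℕ) : ZMod p) ∣ p - 1 :=
    orderOf_dvd_of_pow_eq_one (ZMod.pow_card_sub_one_eq_one hq0)
  have h6 : Nat.Coprime (orderOf ((q : ℕ) : ZMod p)) ℓ := by
    rw [Nat.coprime_comm, Nat.Prime.coprime_iff_not_dvd hl]
    exact fun h => hcon (h.trans h4)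
  have h7 : orderOf ((q : ℕ) : ZMod p) ∣ (p - 1) / ℓ := by
    refine h6.dvd_of_dvd_mul_left ?_
    rw [Nat.mul_div_cancel' hlp]
    exact h5
  have h8 : ((q : ℕ) : ZMod p) ^ ((p - 1) / ℓ) = 1 := orderOf_dvd_iff_pow_eq_one.1 h7
  apply hq
  rw [← ZMod.natCast_eq_natCast_iff]
  push_cast
  exact h8

theorem exists_t {N p b M ℓ : ℕ} [NeZero N] (h : Par N p b M) (hl : ℓ.Prime) (hlp : ℓ ∣ p - 1) (hlM : ¬ ℓ ∣ M)
    (hs : ∀ s : ℕ, s.Prime → s ∣ M → ¬ ℓ ∣ s - 1) :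
    ∃ t : (ZMod N)ˣ, IsT N p M ℓ t ∧ ∀ q : ℕ, q.Prime → q ≠ p → ¬ q ^ ((p - 1) / ℓ) ≡ 1 [MOD p] → Fx N q t := by
  have hp := h.hp
  have : Fact p.Prime := ⟨hp⟩
  have : Fact ℓ.Prime := ⟨hl⟩
  have hpos : 0 < p ^ b := pow_pos hp.pos b
  have : NeZero (p ^ b) := ⟨hpos.ne'⟩
  have hb := h.hb
  obtain ⟨b', hb'⟩ : ∃ b', b = b' + 1 := ⟨b - 1, by omega⟩
  have hcard : Fintype.card (ZMod (p ^ b))ˣ = p ^ b' * (p - 1) := by
    rw [ZMod.card_units_eq_totient, hb', Nat.totient_prime_pow_succ hp]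
  obtain ⟨t0, ht0⟩ := exists_prime_orderOf_dvd_card (G := (ZMod (p ^ b))ˣ) ℓ (by
    rw [hcard]
    exact hlp.mul_left _)
  have hcop : Nat.Coprime (p ^ b) M :=
    Nat.Coprime.pow_left b ((Nat.Prime.coprime_iff_not_dvd hp).2 h.hM)
  obtain ⟨x, hx1, hx2⟩ := Nat.chineseRemainder hcop (t0 : ZMod (p ^ b)).val 1
  have hxn : Nat.Coprime x (p ^ b) := by
    have h1 : Nat.gcd x (p ^ b) = Nat.gcd (t0 : ZMod (p ^ b)).val (p ^ b) := hx1.gcd_eq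
    rw [Nat.Coprime, h1]
    exact ZMod.val_coe_unit_coprime t0
  have hxM : Nat.Coprime x M := by
    have h1 : Nat.gcd x M = Nat.gcd 1 M := hx2.gcd_eq
    rw [Nat.Coprime, h1]
    exact Nat.gcd_one_left M
  have hxN : Nat.Coprime x N := by
    rw [h.hN]
    exact Nat.Coprime.mul_right hxn hxM
  obtain ⟨t, ht⟩ : ∃ t : (ZMod N)ˣ, (t : ZMod N) = ((x : ℕ) : ZMod N) :=
    ⟨ZMod.unitOfCoprime x hxN, ZMod.coe_unitOfCoprime x hxN⟩
  have hval : (t : ZMod N).val ≡ x [MOD N] := by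
    rw [ht, ZMod.val_natCast]
    exact Nat.mod_modEq x N
  have hMN : M ∣ N := ⟨p ^ b, by rw [h.hN, mul_comm]⟩
  have hnN : p ^ b ∣ N := ⟨M, h.hN⟩
  have hvM : (t : ZMod N).val ≡ 1 [MOD M] := (hval.of_dvd hMN).trans hx2
  have hvn : (t : ZMod N).val ≡ (t0 : ZMod (p ^ b)).val [MOD p ^ b] := (hval.of_dvd hnN).trans hx1
  have ht0x : (t0 : ZMod (p ^ b)) = ((x : ℕ) : ZMod (p ^ b)) := by
    rw [(ZMod.natCast_eq_natCast_iff _ _ _).2 hx1, ZMod.natCast_zmod_val]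
  have hpn : p ∣ p ^ b := dvd_pow_self p (by omega)
  refine ⟨t, ⟨hvM, ?_, ?_⟩, ?_⟩
  · have h1 : x ^ ℓ ≡ 1 [MOD p ^ b] := by
      rw [← ZMod.natCast_eq_natCast_iff]
      push_cast
      rw [← ht0x, ← Units.val_pow_eq_pow_val, ← ht0, pow_orderOf_eq_one, Units.val_one]
    have h2 : x ^ ℓ ≡ 1 [MOD M] := by
      have := hx2.pow ℓ
      rwa [one_pow] at this
    have h3 : x ^ ℓ ≡ 1 [MOD N] := by
      rw [h.hN]
      exact (Nat.modEq_and_modEq_iff_modEq_mul hcop).1 ⟨h1, h2⟩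
    apply Units.ext
    rw [Units.val_pow_eq_pow_val, ht, Units.val_one]
    have := (ZMod.natCast_eq_natCast_iff _ _ _).2 h3
    push_cast at this
    exact this
  · intro hcon
    have h1 : x ≡ 1 [MOD p] := ((hval.of_dvd (hpn.trans hnN)).symm).trans hcon
    have h2 : (p : ℤ) ∣ (x : ℤ) - 1 := by
      have := (Nat.modEq_iff_dvd.1 h1.symm)
      push_cast at this
      exact this
    have h3 := dvd_sub_pow_of_dvd_sub h2 b'
    rw [one_pow, ← hb'] at h3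
    have h4 : x ^ p ^ b' ≡ 1 [MOD p ^ b] := by
      refine (Nat.modEq_iff_dvd.2 ?_).symm
      push_cast
      exact h3
    have h5 : t0 ^ p ^ b' = 1 := by
      apply Units.ext
      rw [Units.val_pow_eq_pow_val, ht0x, Units.val_one]
      have := (ZMod.natCast_eq_natCast_iff _ _ _).2 h4
      push_cast at this
      exact this
    have h6 : ℓ ∣ p ^ b' := by
      rw [← ht0]
      exact orderOf_dvd_of_pow_eq_one h5
    have h7 : ℓ = p := (Nat.prime_dvd_prime_iff_eq hl hp).1 (hl.dvd_of_dvd_pow h6)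
    have h8 : ℓ ≤ p - 1 := Nat.le_of_dvd (by have := hp.two_le; omega) hlp
    have := hp.two_le
    omega
  · intro q hq hqp hqo
    have hqc : Nat.Coprime q p := (Nat.coprime_primes hq hp).2 hqp
    have hqb : Nat.Coprime q (p ^ b) := Nat.Coprime.pow_right b hqc
    refine pow_gen h hl hlM hs q hq hqp t hvM t0 (ZMod.unitOfCoprime q hqb) ?_
      (ZMod.coe_unitOfCoprime q hqb) ht0 ?_
    · rw [(ZMod.natCast_eq_natCast_iff _ _ _).2 hvn, ZMod.natCast_zmod_val]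
    · exact ArC_ord hp (by omega) hl hlp hqc hqo _ (ZMod.coe_unitOfCoprime q hqb)

end Pool.CHD
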