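import Pool.Agent.Lib.MP_f4ebb7_co.CHD.Defs

/-! CHD-Asy: the parameters `y = exp(L^β)`, `z = L^12`, `D = √y`, `K = L^(β/2)`, `T = z^K`, `L = log x`.

PROOF. Elementary asymptotics (`isLittleO_log_rpow_atTop`, `tendsto_rpow_atTop`, `Real.tendsto_log_atTop`; work with `L → ∞`). `log y ∈ [L^β - 1, L^β]`,
`log z ≤ 12 log L + 1`, `log D ≥ L^β/2 - 2`, `log (T^k c)^4 = 4 k K log z + 4 log c ≤ 4 k L^(β/2) (12 log L + 1) + 4 log c ≤ L^β/2 - 2` for large `L`; `K ≥ L^(β/2) - 1`, so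
`z (2/3)^K ≤ (L^12 + 1) exp(-0.4 (L^(β/2) - 1)) ≤ 1/L`. `z^2 y^(-2η) ≤ (L^12 + 1)² exp(-2η (L^β - 1)) ≤ 1/L`. `L² (z^(-1/4) + y^(-1/2)) ≤ L² (L^(-3) + ..) ≤ 2/L`.
`(1 + L)²/D ≤ 1/L`. `Nat.log 2 (4 (c x^k)²) ≤ (2 log c + 2 k log x + 2)/log 2 ≤ C L`, and `y ≥ exp(L^β) - 1`. `log log (y+1) ≤ β log L + 1`.
It is convenient to prove each item separately as `∀ᶠ x : ℕ in atTop` and to combine them (`Filter.Eventually.and`).
-/

set_option autoImplicit false

namespace Pool.CHD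

open Finset

/-- the parameters -/
noncomputable def yy (β : ℝ) (x : ℕ) : ℕ := ⌊Real.exp (Real.log x ^ β)⌋₊

/-- the parameters -/
noncomputable def zz (x : ℕ) : ℕ := ⌈Real.log x ^ 12⌉₊

/-- the parameters -/
noncomputable def kk (β : ℝ) (x : ℕ) : ℕ := ⌊Real.log x ^ (β / 2)⌋₊

theorem asy_base (β A B : ℝ) (hβ : 0 < β) : ∀ᶠ x : ℕ in Filter.atTop, B ≤ Real.log x ∧
    A * Real.log (Real.log x) + B ≤ Real.log x ^ (β / 2) := by
  have h1 : Filter.Tendsto (fun x : ℕ => Real.log x) Filter.atTop Filter.atTop :=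
    Real.tendsto_log_atTop.comp tendsto_natCast_atTop_atTop
  have h2 : ∀ᶠ L : ℝ in Filter.atTop, A * Real.log L + B ≤ L ^ (β / 2) := by
    have h3 := (isLittleO_log_rpow_atTop (half_pos hβ)).def
      (c := 1 / (2 * (|A| + 1))) (by positivity)
    have h4 : ∀ᶠ L : ℝ in Filter.atTop, 2 * |B| ≤ L ^ (β / 2) :=
      (tendsto_rpow_atTop (half_pos hβ)).eventually_ge_atTop _
    filter_upwards [h3, h4, Filter.eventually_ge_atTop (1 : ℝ)] with L h5 h6 h7
    have hp : 0 ≤ L ^ (β / 2) := Real.rpow_nonneg (by linarith) _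
    rw [Real.norm_eq_abs, Real.norm_eq_abs, abs_of_nonneg hp] at h5
    have h8 : A * Real.log L ≤ |A| * |Real.log L| := by
      rw [← abs_mul]; exact le_abs_self _
    have h9 : |A| * |Real.log L| ≤ L ^ (β / 2) / 2 := by
      calc |A| * |Real.log L| ≤ |A| * (1 / (2 * (|A| + 1)) * L ^ (β / 2)) :=
            mul_le_mul_of_nonneg_left h5 (abs_nonneg _)
        _ ≤ (|A| + 1) * (1 / (2 * (|A| + 1)) * L ^ (β / 2)) := by
            refine mul_le_mul_of_nonneg_right (by linarith) (by positivity)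
        _ = L ^ (β / 2) / 2 := by
            have : |A| + 1 ≠ 0 := by positivity
            field_simp
    have := le_abs_self B
    linarith
  exact (h1.eventually_ge_atTop B).and (h1.eventually h2)

theorem asy_pow (L : ℝ) (hL : 0 < L) (n : ℕ) (u : ℝ) (h : n * Real.log L ≤ u) :
    L ^ n ≤ Real.exp u := by
  have h1 : L ^ n = Real.exp (n * Real.log L) := by
    rw [Real.exp_nat_mul, Real.exp_log hL]
  rw [h1]
  exact Real.exp_le_exp.2 h

theorem asy_sq (β L : ℝ) (hL : 0 ≤ L) : L ^ β = (L ^ (β / 2)) ^ 2 := by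
  rw [← Real.rpow_natCast, ← Real.rpow_mul hL]
  congr 1
  push_cast
  ring

theorem asy_ceil (L : ℝ) (hL : 2 ≤ L) (n : ℕ) (hn : 1 ≤ n) : (⌈L ^ n⌉₊ : ℝ) ≤ L ^ (n + 1) := by
  have h1 : (⌈L ^ n⌉₊ : ℝ) < L ^ n + 1 := Nat.ceil_lt_add_one (by positivity)
  have h2 : (1 : ℝ) ≤ L ^ n := one_le_pow₀ (by linarith)
  have h3 : L ^ (n + 1) = L ^ n * L := pow_succ L n
  nlinarith

theorem asy_a (β : ℝ) (hβ : 0 < β) (hβ1 : β < 1) (c k Y0 : ℕ) : ∃ x0 : ℕ, ∀ x : ℕ, x0 ≤ x →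
    3 ≤ x ∧ c ≤ zz x ∧ 2 ≤ zz x ∧ zz x ≤ Nat.sqrt (yy β x) ∧ Y0 ≤ yy β x ∧ 3 ≤ yy β x ∧ yy β x ≤ x ∧
    (c * (zz x ^ kk β x) ^ k) ^ 4 ≤ Nat.sqrt (yy β x) ∧
    4 * (Nat.log 2 (4 * (c * x ^ k) ^ 2) + 1) ≤ yy β x := by
  obtain ⟨x1, hx1⟩ := Filter.eventually_atTop.1
    (asy_base β (26 + 8 + 104 * k) (12 + 8 * c + 24 * k + Y0 + 3) hβ)
  refine ⟨max x1 3, fun x hx => ?_⟩
  have hx3 : 3 ≤ x := le_of_max_le_right hx
  obtain ⟨hL, ht⟩ := hx1 x (le_of_max_le_left hx)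
  set L := Real.log x with hLdef
  set t := L ^ (β / 2) with htdef
  have hc0 : (0 : ℝ) ≤ c := by positivity
  have hk0 : (0 : ℝ) ≤ k := by positivity
  have hY0 : (0 : ℝ) ≤ Y0 := by positivity
  have hL15 : 15 ≤ L := by linarith
  have hL0 : 0 < L := by linarith
  have hcL : (c : ℝ) ≤ L := by linarith
  have hlog : 0 ≤ Real.log L := Real.log_nonneg (by linarith)
  have hkl : 0 ≤ (k : ℝ) * Real.log L := by positivity
  have ht15 : 15 ≤ t := by nlinarith
  have htl : (26 + 8 + 104 * k) * Real.log L ≤ t := by linarith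
  have hsq : L ^ β = t ^ 2 := asy_sq β L hL0.le
  have hYt : yy β x = ⌊Real.exp (t ^ 2)⌋₊ := by
    unfold yy
    rw [← hLdef, hsq]
  have hkt : kk β x = ⌊t⌋₊ := rfl
  have hkk : (kk β x : ℝ) ≤ t := by rw [hkt]; exact Nat.floor_le (by linarith)
  have hzL : (zz x : ℝ) ≤ L ^ 13 := asy_ceil L (by linarith) 12 (by norm_num)
  have hzL' : L ^ 12 ≤ (zz x : ℝ) := Nat.le_ceil _
  have hL12 : L ≤ L ^ 12 := le_self_pow₀ (by linarith) (by norm_num)
  have htt : t ≤ t ^ 2 := by nlinarith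
  -- criterion
  have crit : ∀ M : ℕ, (M : ℝ) ≤ Real.exp (t ^ 2) → M ≤ yy β x := by
    intro M hM
    rw [hYt]
    exact Nat.le_floor hM
  have hexp : t ^ 2 + 1 ≤ Real.exp (t ^ 2) := Real.add_one_le_exp _
  have h26 : L ^ 26 ≤ Real.exp (t ^ 2) := by
    refine asy_pow L hL0 26 _ ?_
    push_cast
    nlinarith
  have htY : (Y0 : ℝ) + 3 ≤ t := by nlinarith
  refine ⟨hx3, ?_, ?_, ?_, ?_, ?_, ?_, ?_, ?_⟩
  · have : (c : ℝ) ≤ (zz x : ℝ) := by linarith
    exact_mod_cast this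
  · have : (2 : ℝ) ≤ (zz x : ℝ) := by linarith
    exact_mod_cast this
  · rw [Nat.le_sqrt']
    apply crit
    push_cast
    calc (zz x : ℝ) ^ 2 ≤ (L ^ 13) ^ 2 := pow_le_pow_left₀ (by positivity) hzL 2
      _ = L ^ 26 := by ring
      _ ≤ _ := h26
  · apply crit
    linarith
  · apply crit
    push_cast
    linarith
  · rw [hYt, ← hsq]
    refine Nat.floor_le_of_le ?_
    have hxp : (0 : ℝ) < x := by
      have : 0 < x := by omega
      exact_mod_cast this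
    calc Real.exp (L ^ β) ≤ Real.exp (L ^ (1 : ℝ)) :=
          Real.exp_le_exp.2 (Real.rpow_le_rpow_of_exponent_le (by linarith) hβ1.le)
      _ = x := by rw [Real.rpow_one, hLdef, Real.exp_log hxp]
  · rw [Nat.le_sqrt']
    apply crit
    push_cast
    have h1 : (c : ℝ) * ((zz x : ℝ) ^ kk β x) ^ k ≤ L * ((L ^ 13) ^ kk β x) ^ k := by
      refine mul_le_mul hcL ?_ (by positivity) hL0.le
      exact pow_le_pow_left₀ (by positivity) (pow_le_pow_left₀ (by positivity) hzL _) _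
    calc (((c : ℝ) * ((zz x : ℝ) ^ kk β x) ^ k) ^ 4) ^ 2
        ≤ ((L * ((L ^ 13) ^ kk β x) ^ k) ^ 4) ^ 2 :=
          pow_le_pow_left₀ (by positivity) (pow_le_pow_left₀ (by positivity) h1 4) 2
      _ = L ^ (8 + 104 * (kk β x * k)) := by
          rw [← pow_mul, ← pow_mul, ← pow_mul, mul_pow, ← pow_mul, ← pow_add]
          congr 1
          ring
      _ ≤ Real.exp (t ^ 2) := by
          refine asy_pow L hL0 _ _ ?_
          push_cast
          have h2 : (kk β x : ℝ) * k ≤ t * k := mul_le_mul_of_nonneg_right hkk hk0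
          calc (8 + 104 * ((kk β x : ℝ) * k)) * Real.log L
              ≤ (8 * t + 104 * (t * k)) * Real.log L := by
                refine mul_le_mul_of_nonneg_right ?_ hlog
                nlinarith
            _ = t * ((8 + 104 * k) * Real.log L) := by ring
            _ ≤ t * t := by
                refine mul_le_mul_of_nonneg_left ?_ (by linarith)
                nlinarith
            _ = t ^ 2 := by ring
  · apply crit
    set n := ⌈2 * L⌉₊ with hn
    have hn1 : (n : ℝ) < 2 * L + 1 := Nat.ceil_lt_add_one (by positivity)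
    have hxn : x ≤ 2 ^ n := by
      have hxp : (0 : ℝ) < x := by
        have : 0 < x := by omega
        exact_mod_cast this
      have h1 : (x : ℝ) ≤ (2 : ℝ) ^ n := by
        have h2 : (x : ℝ) = Real.exp L := by rw [hLdef, Real.exp_log hxp]
        have h3 : ((2 : ℝ) ^ n) = Real.exp (n * Real.log 2) := by
          rw [Real.exp_nat_mul, Real.exp_log (by norm_num)]
        rw [h2, h3]
        refine Real.exp_le_exp.2 ?_
        have h4 : 2 * L ≤ (n : ℝ) := Nat.le_ceil _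
        have h5 := Real.log_two_gt_d9
        nlinarith
      exact_mod_cast h1
    have hN : 4 * (c * x ^ k) ^ 2 ≤ 2 ^ (2 + 2 * c + 2 * (k * n)) := by
      have h1 : c ≤ 2 ^ c := Nat.lt_two_pow_self.le
      calc 4 * (c * x ^ k) ^ 2 ≤ 4 * (2 ^ c * (2 ^ n) ^ k) ^ 2 := by gcongr
        _ = 2 ^ (2 + 2 * c + 2 * (k * n)) := by
            rw [show (4 : ℕ) = 2 ^ 2 by norm_num, ← pow_mul, ← pow_add, ← pow_mul, ← pow_add]
            congr 1
            ring
    have hlogN : Nat.log 2 (4 * (c * x ^ k) ^ 2) ≤ 2 + 2 * c + 2 * (k * n) := by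
      calc Nat.log 2 (4 * (c * x ^ k) ^ 2) ≤ Nat.log 2 (2 ^ (2 + 2 * c + 2 * (k * n))) :=
            Nat.log_mono_right hN
        _ = _ := Nat.log_pow (by norm_num) _
    have hlogN' : (Nat.log 2 (4 * (c * x ^ k) ^ 2) : ℝ) ≤ 2 + 2 * c + 2 * (k * n) := by
      exact_mod_cast hlogN
    have h2 : (k : ℝ) * n ≤ k * (2 * L + 1) := mul_le_mul_of_nonneg_left hn1.le hk0
    have h3 : L ^ 2 ≤ Real.exp (t ^ 2) := by
      refine le_trans ?_ h26
      exact pow_le_pow_right₀ (by linarith) (by norm_num)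
    push_cast
    calc 4 * ((Nat.log 2 (4 * (c * x ^ k) ^ 2) : ℝ) + 1)
        ≤ (12 + 8 * c + 24 * k) * L := by nlinarith
      _ ≤ L * L := mul_le_mul_of_nonneg_right (by linarith) hL0.le
      _ = L ^ 2 := by ring
      _ ≤ _ := h3

theorem asy_b (β η : ℝ) (hβ : 0 < β) (hβ1 : β < 1) (hη : 0 < η) : ∃ x0 : ℕ, ∀ x : ℕ, x0 ≤ x →
    (1 + Real.log x) ^ 2 / (Nat.sqrt (yy β x) : ℝ) ≤ 1 / Real.log x ∧
    Real.log x ^ 2 * ((zz x : ℝ) ^ (-(1 / 4) : ℝ) + (yy β x : ℝ) ^ (-(1 / 2) : ℝ)) ≤ 2 / Real.log x ∧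
    (zz x : ℝ) ^ 2 * (yy β x : ℝ) ^ (-(2 * η)) ≤ 1 / Real.log x ∧
    (zz x : ℝ) * (2 / 3 : ℝ) ^ (kk β x) ≤ 1 / Real.log x ∧
    Real.log (Real.log ((yy β x + 1 : ℕ) : ℝ)) ≤ β * Real.log (Real.log x) + 1 := by
  obtain ⟨x1, hx1⟩ := Filter.eventually_atTop.1 (asy_base β (42 + 27 / η) 15 hβ)
  refine ⟨max x1 3, fun x hx => ?_⟩
  have hx3 : 3 ≤ x := le_of_max_le_right hx
  obtain ⟨hL, ht⟩ := hx1 x (le_of_max_le_left hx)
  set L := Real.log x with hLdef
  set t := L ^ (β / 2) with htdef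
  have hL0 : 0 < L := by linarith
  have hlog : 0 ≤ Real.log L := Real.log_nonneg (by linarith)
  have hη1 : 0 ≤ 27 / η * Real.log L := by positivity
  have ht15 : 15 ≤ t := by nlinarith
  have ht42 : 42 * Real.log L + 15 ≤ t := by nlinarith
  have htη : 27 / η * Real.log L ≤ t := by nlinarith
  have hsq : L ^ β = t ^ 2 := asy_sq β L hL0.le
  have hYt : yy β x = ⌊Real.exp (t ^ 2)⌋₊ := by
    unfold yy
    rw [← hLdef, hsq]
  have hkt : kk β x = ⌊t⌋₊ := rfl
  have hzL : (zz x : ℝ) ≤ L ^ 13 := asy_ceil L (by linarith) 12 (by norm_num)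
  have hzL' : L ^ 12 ≤ (zz x : ℝ) := Nat.le_ceil _
  have htt : t ≤ t ^ 2 := by nlinarith
  have crit : ∀ M : ℕ, (M : ℝ) ≤ Real.exp (t ^ 2) → M ≤ yy β x := by
    intro M hM
    rw [hYt]
    exact Nat.le_floor hM
  have h26 : L ^ 26 ≤ Real.exp (t ^ 2) := by
    refine asy_pow L hL0 26 _ ?_
    push_cast
    nlinarith
  -- `Y ≥ exp (t^2 / 2)`
  have hYlow : Real.exp (t ^ 2 / 2) ≤ (yy β x : ℝ) := by
    have h1 : Real.exp (t ^ 2) - 1 < (yy β x : ℝ) := by
      rw [hYt]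
      exact Nat.sub_one_lt_floor _
    have h2 : Real.exp (t ^ 2) = Real.exp (t ^ 2 / 2) * Real.exp (t ^ 2 / 2) := by
      rw [← Real.exp_add]
      congr 1
      ring
    have h3 : (2 : ℝ) ≤ Real.exp (t ^ 2 / 2) := by
      have := Real.add_one_le_exp (t ^ 2 / 2)
      nlinarith
    nlinarith
  have hY0 : 0 < (yy β x : ℝ) := lt_of_lt_of_le (Real.exp_pos _) hYlow
  have hz0 : 0 < (zz x : ℝ) := lt_of_lt_of_le (by positivity) hzL'
  refine ⟨?_, ?_, ?_, ?_, ?_⟩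
  · have h1 : ⌈L ^ 4⌉₊ ≤ Nat.sqrt (yy β x) := by
      rw [Nat.le_sqrt']
      apply crit
      push_cast
      calc (⌈L ^ 4⌉₊ : ℝ) ^ 2 ≤ (L ^ 5) ^ 2 :=
            pow_le_pow_left₀ (by positivity) (asy_ceil L (by linarith) 4 (by norm_num)) 2
        _ = L ^ 10 := by ring
        _ ≤ L ^ 26 := pow_le_pow_right₀ (by linarith) (by norm_num)
        _ ≤ _ := h26
    have h2 : L ^ 4 ≤ (Nat.sqrt (yy β x) : ℝ) := by
      have h3 : (⌈L ^ 4⌉₊ : ℝ) ≤ (Nat.sqrt (yy β x) : ℝ) := by exact_mod_cast h1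
      exact (Nat.le_ceil _).trans h3
    have h3 : (0 : ℝ) < (Nat.sqrt (yy β x) : ℝ) := lt_of_lt_of_le (by positivity) h2
    rw [div_le_div_iff₀ h3 hL0, one_mul]
    refine le_trans ?_ h2
    have h4 : (1 + L) ^ 2 ≤ L ^ 3 := by nlinarith [sq_nonneg L]
    calc (1 + L) ^ 2 * L ≤ L ^ 3 * L := mul_le_mul_of_nonneg_right h4 hL0.le
      _ = L ^ 4 := by ring
  · have h1 : (zz x : ℝ) ^ (-(1 / 4) : ℝ) ≤ L ^ (-3 : ℝ) := by
      calc (zz x : ℝ) ^ (-(1 / 4) : ℝ) ≤ (L ^ 12) ^ (-(1 / 4) : ℝ) :=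
            Real.rpow_le_rpow_of_nonpos (by positivity) hzL' (by norm_num)
        _ = L ^ (-3 : ℝ) := by
            rw [← Real.rpow_natCast, ← Real.rpow_mul hL0.le]
            congr 1
            norm_num
    have h2 : (yy β x : ℝ) ^ (-(1 / 2) : ℝ) ≤ L ^ (-3 : ℝ) := by
      have h3 : L ^ 6 ≤ (yy β x : ℝ) := by
        refine le_trans (asy_pow L hL0 6 _ ?_) hYlow
        push_cast
        nlinarith
      calc (yy β x : ℝ) ^ (-(1 / 2) : ℝ) ≤ (L ^ 6) ^ (-(1 / 2) : ℝ) :=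
            Real.rpow_le_rpow_of_nonpos (by positivity) h3 (by norm_num)
        _ = L ^ (-3 : ℝ) := by
            rw [← Real.rpow_natCast, ← Real.rpow_mul hL0.le]
            congr 1
            norm_num
    have h3 : L ^ 2 * L ^ (-3 : ℝ) = 1 / L := by
      rw [Real.rpow_neg hL0.le, show (3 : ℝ) = ((3 : ℕ) : ℝ) by norm_num, Real.rpow_natCast]
      field_simp
    calc L ^ 2 * ((zz x : ℝ) ^ (-(1 / 4) : ℝ) + (yy β x : ℝ) ^ (-(1 / 2) : ℝ))
        ≤ L ^ 2 * (L ^ (-3 : ℝ) + L ^ (-3 : ℝ)) :=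
          mul_le_mul_of_nonneg_left (by linarith) (by positivity)
      _ = 2 * (L ^ 2 * L ^ (-3 : ℝ)) := by ring
      _ = 2 / L := by rw [h3]; ring
  · have h1 : (yy β x : ℝ) ^ (-(2 * η)) ≤ Real.exp (-(η * t ^ 2)) := by
      calc (yy β x : ℝ) ^ (-(2 * η)) ≤ (Real.exp (t ^ 2 / 2)) ^ (-(2 * η)) :=
            Real.rpow_le_rpow_of_nonpos (Real.exp_pos _) hYlow (by linarith)
        _ = Real.exp (-(η * t ^ 2)) := by
            rw [← Real.exp_mul]
            congr 1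
            ring
    have h2 : L ^ 27 ≤ Real.exp (η * t ^ 2) := by
      refine asy_pow L hL0 27 _ ?_
      push_cast
      have h3 : 27 * Real.log L ≤ η * t := by
        have h4 : η * (27 / η * Real.log L) ≤ η * t := mul_le_mul_of_nonneg_left htη hη.le
        have h5 : η * (27 / η * Real.log L) = 27 * Real.log L := by field_simp
        linarith
      have h6 : η * t ≤ η * t ^ 2 := mul_le_mul_of_nonneg_left htt hη.le
      linarith
    rw [le_div_iff₀ hL0]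
    calc (zz x : ℝ) ^ 2 * (yy β x : ℝ) ^ (-(2 * η)) * L
        ≤ (L ^ 13) ^ 2 * Real.exp (-(η * t ^ 2)) * L := by
          refine mul_le_mul_of_nonneg_right ?_ hL0.le
          exact mul_le_mul (pow_le_pow_left₀ hz0.le hzL 2) h1 (by positivity) (by positivity)
      _ = L ^ 27 * Real.exp (-(η * t ^ 2)) := by ring
      _ ≤ Real.exp (η * t ^ 2) * Real.exp (-(η * t ^ 2)) :=
          mul_le_mul_of_nonneg_right h2 (Real.exp_pos _).le
      _ = 1 := by rw [← Real.exp_add, add_neg_cancel, Real.exp_zero]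
  · have h1 : (2 / 3 : ℝ) ^ (kk β x) ≤ Real.exp (-((t - 1) / 3)) := by
      have h2 : t - 1 < (kk β x : ℝ) := by rw [hkt]; exact Nat.sub_one_lt_floor _
      have h3 : (2 / 3 : ℝ) ≤ Real.exp (-(1 / 3)) := by
        have := Real.add_one_le_exp (-(1 / 3) : ℝ)
        linarith
      calc (2 / 3 : ℝ) ^ (kk β x) ≤ (Real.exp (-(1 / 3))) ^ (kk β x) :=
            pow_le_pow_left₀ (by norm_num) h3 _
        _ = Real.exp ((kk β x : ℝ) * (-(1 / 3))) := by rw [Real.exp_nat_mul]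
        _ ≤ Real.exp (-((t - 1) / 3)) := by
            refine Real.exp_le_exp.2 ?_
            linarith
    have h2 : L ^ 14 ≤ Real.exp ((t - 1) / 3) := by
      refine asy_pow L hL0 14 _ ?_
      push_cast
      linarith
    rw [le_div_iff₀ hL0]
    calc (zz x : ℝ) * (2 / 3 : ℝ) ^ (kk β x) * L
        ≤ L ^ 13 * Real.exp (-((t - 1) / 3)) * L := by
          refine mul_le_mul_of_nonneg_right ?_ hL0.le
          exact mul_le_mul hzL h1 (by positivity) (by positivity)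
      _ = L ^ 14 * Real.exp (-((t - 1) / 3)) := by ring
      _ ≤ Real.exp ((t - 1) / 3) * Real.exp (-((t - 1) / 3)) :=
          mul_le_mul_of_nonneg_right h2 (Real.exp_pos _).le
      _ = 1 := by rw [← Real.exp_add, add_neg_cancel, Real.exp_zero]
  · have h1 : ((yy β x + 1 : ℕ) : ℝ) ≤ Real.exp (t ^ 2 + 1) := by
      push_cast
      have h2 : (yy β x : ℝ) ≤ Real.exp (t ^ 2) := by
        rw [hYt]
        exact Nat.floor_le (Real.exp_pos _).le
      have h3 : Real.exp (t ^ 2 + 1) = Real.exp (t ^ 2) * Real.exp 1 := Real.exp_add _ _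
      have h4 : (2 : ℝ) ≤ Real.exp 1 := by
        have := Real.add_one_le_exp (1 : ℝ)
        linarith
      have h5 : (1 : ℝ) ≤ Real.exp (t ^ 2) := Real.one_le_exp (by positivity)
      nlinarith
    have h2 : Real.log ((yy β x + 1 : ℕ) : ℝ) ≤ t ^ 2 + 1 := by
      rw [Real.log_le_iff_le_exp (by positivity)]
      exact h1
    have h3 : 0 < Real.log ((yy β x + 1 : ℕ) : ℝ) := by
      apply Real.log_pos
      push_cast
      linarith
    have h4 : t ^ 2 + 1 ≤ Real.exp 1 * L ^ β := by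
      rw [hsq]
      have h5 : (2 : ℝ) ≤ Real.exp 1 := by
        have := Real.add_one_le_exp (1 : ℝ)
        linarith
      nlinarith
    calc Real.log (Real.log ((yy β x + 1 : ℕ) : ℝ)) ≤ Real.log (Real.exp 1 * L ^ β) :=
          Real.log_le_log h3 (h2.trans h4)
      _ = β * Real.log L + 1 := by
          rw [Real.log_mul (Real.exp_pos 1).ne' (Real.rpow_pos_of_pos hL0 β).ne', Real.log_exp,
            Real.log_rpow hL0]
          ring

end Pool.CHD
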