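import Pool.Agent.Lib.MP_f4ebb7_co.CHD.Asy

/-! CHD-AsyG: the parameters `y = x^δ`, `z = L^12`, `D = √y`, `K = L^(1/4)`, `T = z^K`, `L = log x`, `G0 = x^(δ/2)`.

PROOF. Elementary asymptotics as in `CHD_mod_Asy.lean` (with `β = 1/2`, `kk (1/2) x = ⌊L^(1/4)⌋`). `log y ∈ [δ L - 1, δ L]`, `log z ≤ 12 log L + 1`, `D = Nat.sqrt y ≥ x^(δ/2)/2`. For `c ≤ x^(δ/16)`:
`(c T^2)^4 = c^4 z^(8 K) ≤ x^(δ/4) exp(8 L^(1/4) (12 log L + 1)) ≤ x^(δ/4) x^(δ/8) ≤ D`. `Nat.log 2 (4 (c x²)²) ≤ 10 L`, so `4 (10 L + 1) x^(δ/2) ≤ x^δ - 1 ≤ y`.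
Error terms: `(1+L)²/D ≤ 1/L`; `L² (z^(-1/4) + y^(-1/2)) ≤ 2/L`; `z² y^(-2η) ≤ 1/L`; `z (2/3)^K ≤ 1/L`; `log log (y+1) ≤ log (δ L) + 1 = log δ + log L + 1`
(`log (y+1) ≤ δ L + 1 ≤ e δ L`).
-/

set_option autoImplicit false

namespace Pool.CHD

open Finset

/-- the parameter `y = x^δ` -/
noncomputable def yg (δ : ℝ) (x : ℕ) : ℕ := ⌊(x : ℝ) ^ δ⌋₊

private theorem yg_eq (δ : ℝ) (x : ℕ) (hx : 1 ≤ x) :
    yg δ x = ⌊Real.exp (δ * Real.log x)⌋₊ := by
  unfold yg
  have hxp : (0 : ℝ) < x := by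
    have : 0 < x := by omega
    exact_mod_cast this
  rw [Real.rpow_def_of_pos hxp, mul_comm]

private theorem yg_crit (δ : ℝ) (x : ℕ) (hx : 1 ≤ x) (M : ℕ)
    (hM : (M : ℝ) ≤ Real.exp (δ * Real.log x)) : M ≤ yg δ x := by
  rw [yg_eq δ x hx]
  exact Nat.le_floor hM

theorem asyg_a (δ : ℝ) (hδ : 0 < δ) (hδ1 : δ ≤ 1) (Y0 : ℕ) : ∃ x0 : ℕ, ∀ x : ℕ, x0 ≤ x →
    3 ≤ x ∧ 3 ≤ zz x ∧ zz x ≤ Nat.sqrt (yg δ x) ∧ Y0 ≤ yg δ x ∧ 3 ≤ yg δ x ∧ yg δ x ≤ x ∧
    ∀ c : ℕ, (c : ℝ) ≤ (x : ℝ) ^ (δ / 16) → (c * (zz x ^ kk (1 / 2) x) ^ 2) ^ 4 ≤ Nat.sqrt (yg δ x) ∧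
      4 * (Nat.log 2 (4 * (c * x ^ 2) ^ 2) + 1) * yg (δ / 2) x ≤ yg δ x := by
  obtain ⟨x1, hx1⟩ := Filter.eventually_atTop.1
    (asy_base (1 / 2) (1000 / δ) ((Y0 + 15) / δ + 100) (by norm_num))
  refine ⟨max x1 3, fun x hx => ?_⟩
  have hx3 : 3 ≤ x := le_of_max_le_right hx
  have hx1' : 1 ≤ x := by omega
  have hxp : (0 : ℝ) < x := by
    have : 0 < x := by omega
    exact_mod_cast this
  obtain ⟨hL, ht⟩ := hx1 x (le_of_max_le_left hx)
  set L := Real.log x with hLdef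
  set t := L ^ ((1 / 2 : ℝ) / 2) with htdef
  have hB : 0 ≤ ((Y0 : ℝ) + 15) / δ := by positivity
  have hL100 : 100 ≤ L := by linarith
  have hL0 : 0 < L := by linarith
  have hlog : 0 ≤ Real.log L := Real.log_nonneg (by linarith)
  have hA : 0 ≤ 1000 / δ * Real.log L := by positivity
  have ht100 : 100 ≤ t := by linarith
  have hLt : L = t ^ 4 := by
    have h1 : (1 / 2 : ℝ) / 2 * ((4 : ℕ) : ℝ) = 1 := by norm_num
    rw [htdef, ← Real.rpow_natCast, ← Real.rpow_mul hL0.le, h1, Real.rpow_one]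
  have hδt : 1000 * Real.log L + Y0 + 15 ≤ δ * t := by
    have h1 : δ * (1000 / δ * Real.log L + ((Y0 + 15) / δ + 100)) ≤ δ * t :=
      mul_le_mul_of_nonneg_left ht hδ.le
    have h2 : δ * (1000 / δ * Real.log L + ((Y0 + 15) / δ + 100)) =
        1000 * Real.log L + (Y0 + 15) + δ * 100 := by
      field_simp
      ring
    nlinarith
  have htt : t ≤ t ^ 2 := by nlinarith
  have htt2 : t ^ 2 ≤ L := by
    rw [hLt]
    exact pow_le_pow_right₀ (by linarith) (by norm_num)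
  have htL : t ≤ L := htt.trans htt2
  set D := δ * L with hDdef
  have hDt2 : δ * t ^ 2 ≤ D := mul_le_mul_of_nonneg_left htt2 hδ.le
  have hDt : δ * t ≤ D := mul_le_mul_of_nonneg_left htL hδ.le
  have hD : 1000 * Real.log L + Y0 + 15 ≤ D := hδt.trans hDt
  have hY0 : (0 : ℝ) ≤ Y0 := by positivity
  have hD0 : 0 ≤ D := by linarith
  have hkt : kk (1 / 2) x = ⌊t⌋₊ := rfl
  have hkk : (kk (1 / 2) x : ℝ) ≤ t := by rw [hkt]; exact Nat.floor_le (by linarith)
  have hzL : (zz x : ℝ) ≤ L ^ 13 := asy_ceil L (by linarith) 12 (by norm_num)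
  have hzL' : L ^ 12 ≤ (zz x : ℝ) := Nat.le_ceil _
  have hL12 : L ≤ L ^ 12 := le_self_pow₀ (by linarith) (by norm_num)
  have crit : ∀ M : ℕ, (M : ℝ) ≤ Real.exp D → M ≤ yg δ x := fun M hM =>
    yg_crit δ x hx1' M hM
  have hexp : D + 1 ≤ Real.exp D := Real.add_one_le_exp _
  have h26 : L ^ 26 ≤ Real.exp D := by
    refine asy_pow L hL0 26 _ ?_
    push_cast
    nlinarith
  have hxL : (x : ℝ) = Real.exp L := by rw [hLdef, Real.exp_log hxp]
  refine ⟨hx3, ?_, ?_, ?_, ?_, ?_, ?_⟩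
  · have : (3 : ℝ) ≤ (zz x : ℝ) := by linarith
    exact_mod_cast this
  · rw [Nat.le_sqrt']
    apply crit
    push_cast
    calc (zz x : ℝ) ^ 2 ≤ (L ^ 13) ^ 2 := pow_le_pow_left₀ (by positivity) hzL 2
      _ = L ^ 26 := by ring
      _ ≤ _ := h26
  · apply crit
    linarith
  · apply crit
    push_cast
    linarith
  · rw [yg_eq δ x hx1']
    refine Nat.floor_le_of_le ?_
    rw [hxL]
    refine Real.exp_le_exp.2 ?_
    rw [← hxL]
    nlinarith
  · intro c hc
    have hc' : (c : ℝ) ≤ Real.exp (D / 16) := by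
      refine hc.trans (le_of_eq ?_)
      rw [Real.rpow_def_of_pos hxp]
      congr 1
      rw [← hLdef, hDdef]
      ring
    have hc0 : (0 : ℝ) ≤ c := by positivity
    refine ⟨?_, ?_⟩
    · rw [Nat.le_sqrt']
      apply crit
      push_cast
      have h1 : (c : ℝ) * ((zz x : ℝ) ^ kk (1 / 2) x) ^ 2 ≤
          Real.exp (D / 16) * ((L ^ 13) ^ kk (1 / 2) x) ^ 2 := by
        refine mul_le_mul hc' ?_ (by positivity) (by positivity)
        exact pow_le_pow_left₀ (by positivity) (pow_le_pow_left₀ (by positivity) hzL _) _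
      calc (((c : ℝ) * ((zz x : ℝ) ^ kk (1 / 2) x) ^ 2) ^ 4) ^ 2
          ≤ ((Real.exp (D / 16) * ((L ^ 13) ^ kk (1 / 2) x) ^ 2) ^ 4) ^ 2 :=
            pow_le_pow_left₀ (by positivity) (pow_le_pow_left₀ (by positivity) h1 4) 2
        _ = Real.exp (D / 16) ^ 8 * L ^ (208 * kk (1 / 2) x) := by
            rw [← pow_mul, mul_pow, ← pow_mul, ← pow_mul, ← pow_mul]
            congr 2
            ring
        _ = Real.exp (D / 2) * L ^ (208 * kk (1 / 2) x) := by
            rw [← Real.exp_nat_mul]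
            congr 2
            push_cast
            ring
        _ ≤ Real.exp (D / 2) * Real.exp (D / 2) := by
            refine mul_le_mul_of_nonneg_left ?_ (Real.exp_pos _).le
            refine asy_pow L hL0 _ _ ?_
            push_cast
            have h2 : 208 * (kk (1 / 2) x : ℝ) * Real.log L ≤ 208 * t * Real.log L := by
              refine mul_le_mul_of_nonneg_right ?_ hlog
              linarith
            have h3 : t * (1000 * Real.log L) ≤ t * (δ * t) := by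
              refine mul_le_mul_of_nonneg_left ?_ (by linarith)
              linarith
            have h4 : 0 ≤ t * Real.log L := mul_nonneg (by linarith) hlog
            nlinarith
        _ = Real.exp D := by
            rw [← Real.exp_add]
            congr 1
            ring
    · apply crit
      set n := ⌈2 * L⌉₊ with hn
      have hn1 : (n : ℝ) < 2 * L + 1 := Nat.ceil_lt_add_one (by positivity)
      have hxn : x ≤ 2 ^ n := by
        have h1 : (x : ℝ) ≤ (2 : ℝ) ^ n := by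
          have h3 : ((2 : ℝ) ^ n) = Real.exp (n * Real.log 2) := by
            rw [Real.exp_nat_mul, Real.exp_log (by norm_num)]
          rw [hxL, h3]
          refine Real.exp_le_exp.2 ?_
          have h4 : 2 * L ≤ (n : ℝ) := Nat.le_ceil _
          have h5 := Real.log_two_gt_d9
          nlinarith
        exact_mod_cast h1
      have hcx : c ≤ x := by
        have h1 : (c : ℝ) ≤ x := by
          refine hc'.trans ?_
          rw [hxL]
          refine Real.exp_le_exp.2 ?_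
          nlinarith
        exact_mod_cast h1
      have hcn : c ≤ 2 ^ n := hcx.trans hxn
      have hN : 4 * (c * x ^ 2) ^ 2 ≤ 2 ^ (2 + 6 * n) := by
        calc 4 * (c * x ^ 2) ^ 2 ≤ 4 * (2 ^ n * (2 ^ n) ^ 2) ^ 2 := by gcongr
          _ = 2 ^ (2 + 6 * n) := by
              rw [show (4 : ℕ) = 2 ^ 2 by norm_num, ← pow_mul, ← pow_add, ← pow_mul, ← pow_add]
              congr 1
              ring
      have hlogN : Nat.log 2 (4 * (c * x ^ 2) ^ 2) ≤ 2 + 6 * n := by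
        calc Nat.log 2 (4 * (c * x ^ 2) ^ 2) ≤ Nat.log 2 (2 ^ (2 + 6 * n)) :=
              Nat.log_mono_right hN
          _ = _ := Nat.log_pow (by norm_num) _
      have hlogN' : (Nat.log 2 (4 * (c * x ^ 2) ^ 2) : ℝ) ≤ 2 + 6 * n := by
        exact_mod_cast hlogN
      have h3 : L ^ 2 ≤ Real.exp (D / 2) := by
        refine asy_pow L hL0 2 _ ?_
        push_cast
        nlinarith
      have h4 : (yg (δ / 2) x : ℝ) ≤ Real.exp (D / 2) := by
        rw [yg_eq (δ / 2) x hx1', ← hLdef]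
        refine (Nat.floor_le (Real.exp_pos _).le).trans (le_of_eq ?_)
        congr 1
        rw [hDdef]
        ring
      push_cast
      calc 4 * ((Nat.log 2 (4 * (c * x ^ 2) ^ 2) : ℝ) + 1) * (yg (δ / 2) x : ℝ)
          ≤ L ^ 2 * Real.exp (D / 2) := by
            refine mul_le_mul ?_ h4 (by positivity) (by positivity)
            nlinarith
        _ ≤ Real.exp (D / 2) * Real.exp (D / 2) :=
            mul_le_mul_of_nonneg_right h3 (Real.exp_pos _).le
        _ = Real.exp D := by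
            rw [← Real.exp_add]
            congr 1
            ring

theorem asyg_b (δ η : ℝ) (hδ : 0 < δ) (hδ1 : δ ≤ 1) (hη : 0 < η) : ∃ x0 : ℕ, ∀ x : ℕ, x0 ≤ x →
    (1 + Real.log x) ^ 2 / (Nat.sqrt (yg δ x) : ℝ) ≤ 1 / Real.log x ∧
    Real.log x ^ 2 * ((zz x : ℝ) ^ (-(1 / 4) : ℝ) + (yg δ x : ℝ) ^ (-(1 / 2) : ℝ)) ≤ 2 / Real.log x ∧
    (zz x : ℝ) ^ 2 * (yg δ x : ℝ) ^ (-(2 * η)) ≤ 1 / Real.log x ∧
    (zz x : ℝ) * (2 / 3 : ℝ) ^ (kk (1 / 2) x) ≤ 1 / Real.log x ∧
    Real.log (Real.log ((yg δ x + 1 : ℕ) : ℝ)) ≤ Real.log δ + Real.log (Real.log x) + 1 := by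
  obtain ⟨x1, hx1⟩ := Filter.eventually_atTop.1
    (asy_base (1 / 2) (100 / δ + 27 / η / δ) (15 / δ + 100) (by norm_num))
  refine ⟨max x1 3, fun x hx => ?_⟩
  have hx3 : 3 ≤ x := le_of_max_le_right hx
  have hx1' : 1 ≤ x := by omega
  obtain ⟨hL, ht⟩ := hx1 x (le_of_max_le_left hx)
  set L := Real.log x with hLdef
  set t := L ^ ((1 / 2 : ℝ) / 2) with htdef
  have hB : 0 ≤ 15 / δ := by positivity
  have hL100 : 100 ≤ L := by linarith
  have hL0 : 0 < L := by linarith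
  have hlog : 0 ≤ Real.log L := Real.log_nonneg (by linarith)
  have hA1 : 0 ≤ 100 / δ * Real.log L := by positivity
  have hA2 : 0 ≤ 27 / η / δ * Real.log L := by positivity
  have ht100 : 100 ≤ t := by nlinarith
  have hLt : L = t ^ 4 := by
    have h1 : (1 / 2 : ℝ) / 2 * ((4 : ℕ) : ℝ) = 1 := by norm_num
    rw [htdef, ← Real.rpow_natCast, ← Real.rpow_mul hL0.le, h1, Real.rpow_one]
  have hδt : (100 + 27 / η) * Real.log L + 15 ≤ δ * t := by
    have h1 : δ * ((100 / δ + 27 / η / δ) * Real.log L + (15 / δ + 100)) ≤ δ * t :=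
      mul_le_mul_of_nonneg_left ht hδ.le
    have h2 : δ * ((100 / δ + 27 / η / δ) * Real.log L + (15 / δ + 100)) =
        (100 + 27 / η) * Real.log L + 15 + δ * 100 := by
      field_simp
      ring
    nlinarith
  have ht42 : 42 * Real.log L + 15 ≤ t := by
    have h1 : δ * t ≤ 1 * t := mul_le_mul_of_nonneg_right hδ1 (by linarith)
    have h2 : 0 ≤ 27 / η * Real.log L := by positivity
    nlinarith
  have htt2 : t ^ 2 ≤ L := by
    rw [hLt]
    exact pow_le_pow_right₀ (by linarith) (by norm_num)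
  have htt : t ≤ t ^ 2 := by nlinarith
  have htL : t ≤ L := htt.trans htt2
  set D := δ * L with hDdef
  have hDt : δ * t ≤ D := mul_le_mul_of_nonneg_left htL hδ.le
  have hD : (100 + 27 / η) * Real.log L + 15 ≤ D := hδt.trans hDt
  have hη0 : 0 ≤ 27 / η * Real.log L := by positivity
  have hD1 : 100 * Real.log L + 15 ≤ D := by nlinarith
  have hD2 : 27 / η * Real.log L ≤ D := by nlinarith
  have hD0 : 0 ≤ D := by nlinarith
  have hkt : kk (1 / 2) x = ⌊t⌋₊ := rfl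
  have hzL : (zz x : ℝ) ≤ L ^ 13 := asy_ceil L (by linarith) 12 (by norm_num)
  have hzL' : L ^ 12 ≤ (zz x : ℝ) := Nat.le_ceil _
  have crit : ∀ M : ℕ, (M : ℝ) ≤ Real.exp D → M ≤ yg δ x := fun M hM =>
    yg_crit δ x hx1' M hM
  have h26 : L ^ 26 ≤ Real.exp D := by
    refine asy_pow L hL0 26 _ ?_
    push_cast
    nlinarith
  have hYlow : Real.exp (D / 2) ≤ (yg δ x : ℝ) := by
    have h1 : Real.exp D - 1 < (yg δ x : ℝ) := by
      rw [yg_eq δ x hx1']
      exact Nat.sub_one_lt_floor _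
    have h2 : Real.exp D = Real.exp (D / 2) * Real.exp (D / 2) := by
      rw [← Real.exp_add]
      congr 1
      ring
    have h3 : (2 : ℝ) ≤ Real.exp (D / 2) := by
      have := Real.add_one_le_exp (D / 2)
      nlinarith
    nlinarith
  have hY0 : 0 < (yg δ x : ℝ) := lt_of_lt_of_le (Real.exp_pos _) hYlow
  have hz0 : 0 < (zz x : ℝ) := lt_of_lt_of_le (by positivity) hzL'
  refine ⟨?_, ?_, ?_, ?_, ?_⟩
  · have h1 : ⌈L ^ 4⌉₊ ≤ Nat.sqrt (yg δ x) := by
      rw [Nat.le_sqrt']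
      apply crit
      push_cast
      calc (⌈L ^ 4⌉₊ : ℝ) ^ 2 ≤ (L ^ 5) ^ 2 :=
            pow_le_pow_left₀ (by positivity) (asy_ceil L (by linarith) 4 (by norm_num)) 2
        _ = L ^ 10 := by ring
        _ ≤ L ^ 26 := pow_le_pow_right₀ (by linarith) (by norm_num)
        _ ≤ _ := h26
    have h2 : L ^ 4 ≤ (Nat.sqrt (yg δ x) : ℝ) := by
      have h3 : (⌈L ^ 4⌉₊ : ℝ) ≤ (Nat.sqrt (yg δ x) : ℝ) := by exact_mod_cast h1
      exact (Nat.le_ceil _).trans h3
    have h3 : (0 : ℝ) < (Nat.sqrt (yg δ x) : ℝ) := lt_of_lt_of_le (by positivity) h2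
    rw [div_le_div_iff₀ h3 hL0, one_mul]
    refine le_trans ?_ h2
    have h4 : (1 + L) ^ 2 ≤ L ^ 3 := by nlinarith [sq_nonneg L]
    calc (1 + L) ^ 2 * L ≤ L ^ 3 * L := mul_le_mul_of_nonneg_right h4 hL0.le
      _ = L ^ 4 := by ring
  · have h1 : (zz x : ℝ) ^ (-(1 / 4) : ℝ) ≤ L ^ (-3 : ℝ) := by
      calc (zz x : ℝ) ^ (-(1 / 4) : ℝ) ≤ (L ^ 12) ^ (-(1 / 4) : ℝ) :=
            Real.rpow_le_rpow_of_nonpos (by positivity) hzL' (by norm_num)
        _ = L ^ (-3 : ℝ) := by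
            rw [← Real.rpow_natCast, ← Real.rpow_mul hL0.le]
            congr 1
            norm_num
    have h2 : (yg δ x : ℝ) ^ (-(1 / 2) : ℝ) ≤ L ^ (-3 : ℝ) := by
      have h3 : L ^ 6 ≤ (yg δ x : ℝ) := by
        refine le_trans (asy_pow L hL0 6 _ ?_) hYlow
        push_cast
        nlinarith
      calc (yg δ x : ℝ) ^ (-(1 / 2) : ℝ) ≤ (L ^ 6) ^ (-(1 / 2) : ℝ) :=
            Real.rpow_le_rpow_of_nonpos (by positivity) h3 (by norm_num)
        _ = L ^ (-3 : ℝ) := by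
            rw [← Real.rpow_natCast, ← Real.rpow_mul hL0.le]
            congr 1
            norm_num
    have h3 : L ^ 2 * L ^ (-3 : ℝ) = 1 / L := by
      rw [Real.rpow_neg hL0.le, show (3 : ℝ) = ((3 : ℕ) : ℝ) by norm_num, Real.rpow_natCast]
      field_simp
    calc L ^ 2 * ((zz x : ℝ) ^ (-(1 / 4) : ℝ) + (yg δ x : ℝ) ^ (-(1 / 2) : ℝ))
        ≤ L ^ 2 * (L ^ (-3 : ℝ) + L ^ (-3 : ℝ)) :=
          mul_le_mul_of_nonneg_left (by linarith) (by positivity)
      _ = 2 * (L ^ 2 * L ^ (-3 : ℝ)) := by ring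
      _ = 2 / L := by rw [h3]; ring
  · have h1 : (yg δ x : ℝ) ^ (-(2 * η)) ≤ Real.exp (-(η * D)) := by
      calc (yg δ x : ℝ) ^ (-(2 * η)) ≤ (Real.exp (D / 2)) ^ (-(2 * η)) :=
            Real.rpow_le_rpow_of_nonpos (Real.exp_pos _) hYlow (by linarith)
        _ = Real.exp (-(η * D)) := by
            rw [← Real.exp_mul]
            congr 1
            ring
    have h2 : L ^ 27 ≤ Real.exp (η * D) := by
      refine asy_pow L hL0 27 _ ?_
      push_cast
      have h4 : η * (27 / η * Real.log L) ≤ η * D := mul_le_mul_of_nonneg_left hD2 hη.le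
      have h5 : η * (27 / η * Real.log L) = 27 * Real.log L := by field_simp
      linarith
    rw [le_div_iff₀ hL0]
    calc (zz x : ℝ) ^ 2 * (yg δ x : ℝ) ^ (-(2 * η)) * L
        ≤ (L ^ 13) ^ 2 * Real.exp (-(η * D)) * L := by
          refine mul_le_mul_of_nonneg_right ?_ hL0.le
          exact mul_le_mul (pow_le_pow_left₀ hz0.le hzL 2) h1 (by positivity) (by positivity)
      _ = L ^ 27 * Real.exp (-(η * D)) := by ring
      _ ≤ Real.exp (η * D) * Real.exp (-(η * D)) :=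
          mul_le_mul_of_nonneg_right h2 (Real.exp_pos _).le
      _ = 1 := by rw [← Real.exp_add, add_neg_cancel, Real.exp_zero]
  · have h1 : (2 / 3 : ℝ) ^ (kk (1 / 2) x) ≤ Real.exp (-((t - 1) / 3)) := by
      have h2 : t - 1 < (kk (1 / 2) x : ℝ) := by rw [hkt]; exact Nat.sub_one_lt_floor _
      have h3 : (2 / 3 : ℝ) ≤ Real.exp (-(1 / 3)) := by
        have := Real.add_one_le_exp (-(1 / 3) : ℝ)
        linarith
      calc (2 / 3 : ℝ) ^ (kk (1 / 2) x) ≤ (Real.exp (-(1 / 3))) ^ (kk (1 / 2) x) :=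
            pow_le_pow_left₀ (by norm_num) h3 _
        _ = Real.exp ((kk (1 / 2) x : ℝ) * (-(1 / 3))) := by rw [Real.exp_nat_mul]
        _ ≤ Real.exp (-((t - 1) / 3)) := by
            refine Real.exp_le_exp.2 ?_
            linarith
    have h2 : L ^ 14 ≤ Real.exp ((t - 1) / 3) := by
      refine asy_pow L hL0 14 _ ?_
      push_cast
      linarith
    rw [le_div_iff₀ hL0]
    calc (zz x : ℝ) * (2 / 3 : ℝ) ^ (kk (1 / 2) x) * L
        ≤ L ^ 13 * Real.exp (-((t - 1) / 3)) * L := by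
          refine mul_le_mul_of_nonneg_right ?_ hL0.le
          exact mul_le_mul hzL h1 (by positivity) (by positivity)
      _ = L ^ 14 * Real.exp (-((t - 1) / 3)) := by ring
      _ ≤ Real.exp ((t - 1) / 3) * Real.exp (-((t - 1) / 3)) :=
          mul_le_mul_of_nonneg_right h2 (Real.exp_pos _).le
      _ = 1 := by rw [← Real.exp_add, add_neg_cancel, Real.exp_zero]
  · have h1 : ((yg δ x + 1 : ℕ) : ℝ) ≤ Real.exp (D + 1) := by
      push_cast
      have h2 : (yg δ x : ℝ) ≤ Real.exp D := by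
        rw [yg_eq δ x hx1']
        exact Nat.floor_le (Real.exp_pos _).le
      have h3 : Real.exp (D + 1) = Real.exp D * Real.exp 1 := Real.exp_add _ _
      have h4 : (2 : ℝ) ≤ Real.exp 1 := by
        have := Real.add_one_le_exp (1 : ℝ)
        linarith
      have h5 : (1 : ℝ) ≤ Real.exp D := Real.one_le_exp hD0
      nlinarith
    have h2 : Real.log ((yg δ x + 1 : ℕ) : ℝ) ≤ D + 1 := by
      rw [Real.log_le_iff_le_exp (by positivity)]
      exact h1
    have h3 : 0 < Real.log ((yg δ x + 1 : ℕ) : ℝ) := by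
      apply Real.log_pos
      push_cast
      linarith
    have h4 : D + 1 ≤ Real.exp 1 * D := by
      have h5 : (2 : ℝ) ≤ Real.exp 1 := by
        have := Real.add_one_le_exp (1 : ℝ)
        linarith
      nlinarith
    have hD0' : 0 < D := by positivity
    calc Real.log (Real.log ((yg δ x + 1 : ℕ) : ℝ)) ≤ Real.log (Real.exp 1 * D) :=
          Real.log_le_log h3 (h2.trans h4)
      _ = Real.log δ + Real.log L + 1 := by
          rw [Real.log_mul (Real.exp_pos 1).ne' hD0'.ne', Real.log_exp, hDdef,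
            Real.log_mul hδ.ne' hL0.ne']
          ring

end Pool.CHD
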