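import Pool.Agent.Lib.MP_f4ebb7_co.CHD.Defs

/-! CHD-BDefs: the ring of integers of the cyclotomic field. Do not change. -/

set_option autoImplicit false

namespace Pool.CHD

open NumberField

/-- the field -/
abbrev KK (N : ℕ) [NeZero N] : Type := CyclotomicField N ℚ

instance instCyc (N : ℕ) [NeZero N] : IsCyclotomicExtension {N} ℚ (KK N) := CyclotomicField.isCyclotomicExtension N ℚ

/-- its ring of integers -/
abbrev RR (N : ℕ) [NeZero N] : Type := 𝓞 (KK N)

/-- the root of unity in the field -/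
noncomputable def zK (N : ℕ) [NeZero N] : KK N := IsCyclotomicExtension.zeta N ℚ (KK N)

theorem zK_prim (N : ℕ) [NeZero N] : IsPrimitiveRoot (zK N) N := IsCyclotomicExtension.zeta_spec N ℚ (KK N)

/-- the root of unity in the ring -/
noncomputable def zR (N : ℕ) [NeZero N] : RR N := (zK_prim N).toInteger

theorem coe_zR (N : ℕ) [NeZero N] : ((zR N : RR N) : KK N) = zK N := rfl

/-- the Galois automorphism -/
noncomputable def gK (N : ℕ) [NeZero N] (t : (ZMod N)ˣ) : KK N ≃ₐ[ℚ] KK N :=
  (IsCyclotomicExtension.Rat.galEquivZMod N (KK N)).symm t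

/-- the Galois automorphism on the ring -/
noncomputable def gR (N : ℕ) [NeZero N] (t : (ZMod N)ˣ) : RR N ≃+* RR N :=
  RingOfIntegers.mapRingEquiv (gK N t).toRingEquiv

theorem coe_gR (N : ℕ) [NeZero N] (t : (ZMod N)ˣ) (x : RR N) : ((gR N t x : RR N) : KK N) = gK N t (x : KK N) := rfl

theorem exists_iK (N : ℕ) [NeZero N] :
    ∃ φ : KK N →+* ℂ, φ (zK N) = Complex.exp (2 * Real.pi * Complex.I / N) := by
  have hN : N ≠ 0 := NeZero.ne N
  have h1 : IsPrimitiveRoot (Complex.exp (2 * Real.pi * Complex.I / N)) N := Complex.isPrimitiveRoot_exp N hN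
  have hirr : Irreducible (Polynomial.cyclotomic N ℚ) := Polynomial.cyclotomic.irreducible_rat (NeZero.pos N)
  let e := (zK_prim N).embeddingsEquivPrimitiveRoots ℂ hirr
  refine ⟨(e.symm ⟨_, (mem_primitiveRoots (NeZero.pos N)).2 h1⟩).toRingHom, ?_⟩
  have h2 := congrArg Subtype.val (e.apply_symm_apply ⟨_, (mem_primitiveRoots (NeZero.pos N)).2 h1⟩)
  rwa [IsPrimitiveRoot.embeddingsEquivPrimitiveRoots_apply_coe] at h2

/-- the embedding into `ℂ` -/
noncomputable def iK (N : ℕ) [NeZero N] : KK N →+* ℂ := (exists_iK N).choose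

theorem iK_z (N : ℕ) [NeZero N] : iK N (zK N) = Complex.exp (2 * Real.pi * Complex.I / N) :=
  (exists_iK N).choose_spec

/-- the embedding of the ring -/
noncomputable def iR (N : ℕ) [NeZero N] : RR N →+* ℂ := (iK N).comp (algebraMap (RR N) (KK N))

theorem iR_apply (N : ℕ) [NeZero N] (x : RR N) : iR N x = iK N (x : KK N) := rfl

theorem iR_inj (N : ℕ) [NeZero N] : Function.Injective (iR N) :=
  (iK N).injective.comp (RingOfIntegers.coe_injective)

end Pool.CHD
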