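import Pool.Agent.Lib.MP_f4ebb7_co.CHD.BDefs

/-! CHD-BKron: an integer of the cyclotomic field (`N` even) all of whose conjugates have absolute value one is a power of `ζ`.

PROOF. Every ring homomorphism `φ : KK N →+* ℂ` is `(iK N) ∘ (gK N t)` for some `t`: `φ (zK N)` is a primitive `N`-th root of unity
in `ℂ` and so is `iK N (zK N)`, hence `φ (zK N) = (iK N (zK N)) ^ i` with `i` coprime to `N` (`IsPrimitiveRoot.isPrimitiveRoot_iff`),
take `t = i`; `gK N t (zK N) = zK N ^ t.val` by `IsCyclotomicExtension.Rat.galEquivZMod_apply_of_pow_eq`; the two homomorphisms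
agree at `zK N`, so they are equal (make them `ℚ`-algebra homs and use `(zK_prim N).powerBasis ℚ` with `PowerBasis.algHom_ext`, or
`IsPrimitiveRoot.embeddingsEquivPrimitiveRoots` injectivity). So `NumberField.Embeddings.pow_eq_one_of_norm_eq_one (KK N) ℂ`
gives `x ^ n = 1`, `n > 0`. So `x` is a root of unity; as `x : 𝓞`, the unit `x` is in `torsion K` whose order is
`torsionOrder K = N` (`IsCyclotomicExtension.Rat.torsionOrder_eq`, `N` even). Hence `x ^ N = 1` and
`(zK_prim N).eq_pow_of_pow_eq_one` gives `x = z ^ i`.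
-/

set_option autoImplicit false

namespace Pool.CHD

open NumberField

private theorem kron_gK (N : ℕ) [NeZero N] (i : ℕ) (hi : i < N) (hc : i.Coprime N) :
    gK N (ZMod.unitOfCoprime i hc) (zK N) = zK N ^ i := by
  rw [IsCyclotomicExtension.Rat.galEquivZMod_apply_of_pow_eq N (KK N)
    (gK N (ZMod.unitOfCoprime i hc)) (zK_prim N).pow_eq_one]
  have h3 : IsCyclotomicExtension.Rat.galEquivZMod N (KK N) (gK N (ZMod.unitOfCoprime i hc)) =
      ZMod.unitOfCoprime i hc := MulEquiv.apply_symm_apply _ _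
  rw [h3, ZMod.coe_unitOfCoprime, ZMod.val_natCast, Nat.mod_eq_of_lt hi]

private theorem kron_emb (N : ℕ) [NeZero N] (φ : KK N →+* ℂ) :
    ∃ t : (ZMod N)ˣ, ∀ y : KK N, φ y = iK N (gK N t y) := by
  have h1 : IsPrimitiveRoot (φ (zK N)) N := (zK_prim N).map_of_injective φ.injective
  have h2 : IsPrimitiveRoot (iK N (zK N)) N := (zK_prim N).map_of_injective (iK N).injective
  obtain ⟨i, hi, hc, hpow⟩ := (h2.isPrimitiveRoot_iff).1 h1
  refine ⟨ZMod.unitOfCoprime i hc, ?_⟩
  have hz := kron_gK N i hi hc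
  have h3 : φ.toRatAlgHom =
      ((iK N).comp (gK N (ZMod.unitOfCoprime i hc)).toRingEquiv.toRingHom).toRatAlgHom := by
    refine ((zK_prim N).powerBasis ℚ).algHom_ext ?_
    rw [IsPrimitiveRoot.powerBasis_gen]
    show φ (zK N) = iK N (gK N (ZMod.unitOfCoprime i hc) (zK N))
    rw [hz, map_pow, hpow]
  intro y
  exact DFunLike.congr_fun h3 y

theorem kron_R (N : ℕ) [NeZero N] (hN : Even N) (x : RR N) (hx : ∀ t : (ZMod N)ˣ, ‖iR N (gR N t x)‖ = 1) :
    ∃ i : ℕ, x = zR N ^ i := by
  obtain ⟨n, hn, hpow⟩ := NumberField.Embeddings.pow_eq_one_of_norm_eq_one (KK N) ℂ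
    (x := (x : KK N)) x.isIntegral_coe (fun φ => by
      obtain ⟨t, ht⟩ := kron_emb N φ
      rw [ht]
      exact hx t)
  have hx1 : x ^ n = 1 := by
    apply RingOfIntegers.coe_injective
    rw [map_pow, map_one]
    exact hpow
  set u : (RR N)ˣ := Units.ofPowEqOne x n hx1 hn.ne' with hu
  have hux : (u : RR N) = x := rfl
  have hun : u ^ n = 1 := Units.pow_ofPowEqOne hx1 hn.ne'
  have htor : u ∈ NumberField.Units.torsion (KK N) := by
    rw [NumberField.Units.torsion, CommGroup.mem_torsion, isOfFinOrder_iff_pow_eq_one]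
    exact ⟨n, hn, hun⟩
  rw [← NumberField.Units.rootsOfUnity_eq_torsion, mem_rootsOfUnity,
    IsCyclotomicExtension.Rat.torsionOrder_eq (n := N) (K := KK N), if_pos hN] at htor
  have hxN : (x : KK N) ^ N = 1 := by
    have h := congrArg (fun v : (RR N)ˣ => ((v : RR N) : KK N)) htor
    simp only [Units.val_pow_eq_pow_val, hux, Units.val_one, map_pow, map_one] at h
    exact h
  obtain ⟨i, -, hi⟩ := (zK_prim N).eq_pow_of_pow_eq_one hxN
  refine ⟨i, ?_⟩
  apply RingOfIntegers.coe_injective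
  rw [map_pow]
  exact hi.symm

end Pool.CHD
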