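import Pool.Agent.Lib.MP_f4ebb7_co.CHD.BDefs

/-! CHD-BNorm: the norm of a nonzero algebraic integer has absolute value at least one.

PROOF. `KK N` is Galois over `ℚ` (`IsCyclotomicExtension.isGalois {N} ℚ _`) and a number field.
`Algebra.norm_eq_prod_automorphisms ℚ (x : KK N) : algebraMap ℚ (KK N) (Algebra.norm ℚ x) = ∏ σ : Gal, σ x`; reindex with
`(galEquivZMod N (KK N)).toEquiv` to get `∏ t : (ZMod N)ˣ, gK N t x`. `Algebra.norm ℚ (x : KK N) = (Algebra.norm ℤ x : ℤ)`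
(`Algebra.coe_norm_int` or `RingOfIntegers.norm`), nonzero for `x ≠ 0` (`Algebra.norm_ne_zero_iff`), so its absolute value is
`≥ 1`. Apply `iK N` (a ring homomorphism; `map_prod`, `map_ratCast`/`map_intCast`) and take norms (`norm_prod`).
-/

set_option autoImplicit false

namespace Pool.CHD

open NumberField

theorem one_le_R (N : ℕ) [NeZero N] (x : RR N) (hx : x ≠ 0) : 1 ≤ ∏ t : (ZMod N)ˣ, ‖iR N (gR N t x)‖ := by
  classical
  have : NumberField (KK N) := IsCyclotomicExtension.numberField {N} ℚ (KK N)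
  have : IsGalois ℚ (KK N) := IsCyclotomicExtension.isGalois {N} ℚ (KK N)
  have h1 := Algebra.norm_eq_prod_automorphisms ℚ (x : KK N)
  have h2 : (∏ σ : Gal(KK N/ℚ), σ (x : KK N)) = ∏ t : (ZMod N)ˣ, gK N t (x : KK N) := by
    refine (Fintype.prod_equiv (IsCyclotomicExtension.Rat.galEquivZMod N (KK N)).symm.toEquiv
      (fun t => gK N t (x : KK N)) (fun σ => σ (x : KK N)) ?_).symm
    intro t
    rfl
  rw [h2, ← Algebra.coe_norm_int x] at h1
  have h3 := congrArg (fun y => ‖iK N y‖) h1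
  simp only [map_prod, norm_prod] at h3
  have h4 : (∏ t : (ZMod N)ˣ, ‖iR N (gR N t x)‖) = ∏ t : (ZMod N)ˣ, ‖iK N (gK N t (x : KK N))‖ :=
    Finset.prod_congr rfl fun t _ => rfl
  rw [h4, ← h3]
  have h5 : Algebra.norm ℤ x ≠ 0 := Algebra.norm_ne_zero_iff.2 hx
  have h6 : iK N (algebraMap ℚ (KK N) ((Algebra.norm ℤ x : ℤ) : ℚ)) =
      ((Algebra.norm ℤ x : ℤ) : ℂ) := by
    rw [map_intCast, map_intCast]
  rw [h6, Complex.norm_intCast]
  exact_mod_cast Int.one_le_abs h5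

end Pool.CHD
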