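import Pool.Agent.Lib.MP_f4ebb7_co.CHD.BDefs

/-! CHD-BSpan: `𝓞 = ℤ[ζ]` and the Galois action on `ζ`.

PROOF. `gR_z`: `IsCyclotomicExtension.Rat.galEquivZMod_apply_of_pow_eq` with `σ = (galEquivZMod N _).symm t`, `x = zK N`
(`(zK_prim N).pow_eq_one`) and `MulEquiv.apply_symm_apply`; then `RingOfIntegers.ext`.
`span_R`: `IsCyclotomicExtension.Rat.adjoin_singleton_eq_top (zK_prim N) : ℤ[(zK_prim N).toInteger] = ⊤` (Mathlib,
NumberTheory/NumberField/Cyclotomic/Basic.lean); `Algebra.adjoin_singleton_eq_range_aeval`: every `x` is `P(zR N)` with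
`P : ℤ[X]`, i.e. `∑ (P.coeff j) * z ^ j` (`Polynomial.aeval_eq_sum_range`); group the `j` by their residue mod `N`
(`z ^ j = z ^ (j % N)`). Or: the set of all `x` of the required form is closed under `+`, `*` by integers and by `z`
(shift `c`), contains `1`; use `Algebra.adjoin_induction`, or prove the statement for `aeval z P` by `Polynomial.induction_on'`
(sums: add the coefficient functions; monomials `n X^j`: the function `i ↦ if i = j then n else 0`).
-/

set_option autoImplicit false

namespace Pool.CHD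

open NumberField

theorem gR_z (N : ℕ) [NeZero N] (t : (ZMod N)ˣ) : gR N t (zR N) = zR N ^ (t : ZMod N).val := by
  apply RingOfIntegers.coe_injective
  rw [map_pow]
  change gK N t (zK N) = (zK N) ^ (t : ZMod N).val
  have h := IsCyclotomicExtension.Rat.galEquivZMod_apply_of_pow_eq N (KK N)
    ((IsCyclotomicExtension.Rat.galEquivZMod N (KK N)).symm t) (zK_prim N).pow_eq_one
  rw [MulEquiv.apply_symm_apply] at h
  exact h

private theorem bspan_pow (N : ℕ) [NeZero N] : (zR N) ^ N = 1 := by
  apply RingOfIntegers.coe_injective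
  rw [map_pow, map_one]
  exact (zK_prim N).pow_eq_one

private theorem bspan_aeval (N : ℕ) [NeZero N] (P : Polynomial ℤ) :
    ∃ c : ZMod N → ℤ, Polynomial.aeval (zR N) P = ∑ i : ZMod N, (c i : RR N) * zR N ^ i.val := by
  induction P using Polynomial.induction_on' with
  | add p q hp hq =>
    obtain ⟨c, hc⟩ := hp
    obtain ⟨d, hd⟩ := hq
    refine ⟨fun i => c i + d i, ?_⟩
    rw [map_add, hc, hd, ← Finset.sum_add_distrib]
    refine Finset.sum_congr rfl fun i _ => ?_
    push_cast
    ring
  | monomial j a =>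
    refine ⟨fun i => if i = (j : ZMod N) then a else 0, ?_⟩
    rw [Polynomial.aeval_monomial, Finset.sum_eq_single (j : ZMod N)]
    · simp only [if_true]
      rw [ZMod.val_natCast]
      have h1 : (zR N) ^ j = (zR N) ^ (j % N) := by
        conv_lhs => rw [← Nat.div_add_mod j N, pow_add, pow_mul, bspan_pow, one_pow, one_mul]
      rw [h1, algebraMap_int_eq, eq_intCast]
    · intro i _ hi
      simp only [if_neg hi]
      simp
    · intro h
      exact absurd (Finset.mem_univ _) h

theorem span_R (N : ℕ) [NeZero N] (x : RR N) :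
    ∃ c : ZMod N → ℤ, x = ∑ i : ZMod N, (c i : RR N) * zR N ^ i.val := by
  have h : Algebra.adjoin ℤ ({zR N} : Set (RR N)) = ⊤ :=
    IsCyclotomicExtension.Rat.adjoin_singleton_eq_top (zK_prim N)
  have hx : x ∈ Algebra.adjoin ℤ ({zR N} : Set (RR N)) := by
    rw [h]
    exact Algebra.mem_top
  rw [Algebra.adjoin_singleton_eq_range_aeval] at hx
  obtain ⟨P, hP⟩ := hx
  obtain ⟨c, hc⟩ := bspan_aeval N P
  exact ⟨c, hP.symm.trans hc⟩

end Pool.CHD
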