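import Pool.Agent.Lib.MP_f4ebb7_co.CHD.Defs
import Pool.Agent.Lib.MP_dd84fd_nt.L2G.BrunT

/-! CHD-BTP: Brun-Titchmarsh for prime moduli.

PROOF. Copy `Pool/Agent/Lib/MP_dd84fd_nt/L2G/BrunT.lean` (its lemmas are private; copy what is needed into this file, renamed) and change the last step:
for a prime modulus `r` one has `r.primeFactors.card = 1`, so `1 + log (1 + card) = 1 + log 2 ≤ 2` replaces `brunT_omega`. This gives
`#{p ∈ (x, x+y] : p ≡ c mod r} ≤ C (y/r)/log(y/r)` for `4 r ≤ y`. With `x = 0`, `y = X`, `r = ℓ ≤ X^(3/4)`: `log (X/ℓ) ≥ (1/4) log X`, and `4 ℓ ≤ X` if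
`X ≥ 256`. So `tp X ℓ ≤ log X * # ≤ 4 C X/ℓ`. For `X < 256`: `tp X ℓ ≤ X log X ≤ 256 * 6` and `X/ℓ ≥ X^(1/4) ≥ 1`. (For `X ≥ 2`.)
-/

set_option autoImplicit false

namespace Pool.CHD

open Finset Pool.MP_67663b_nt.Odd

/-- the moduli of the sieve -/
private def btp_S (r z : ℕ) : Finset ℕ :=
  (Icc 1 z).filter (fun s => Squarefree s ∧ ∀ p ∈ r.primeFactors, ¬ p ∣ s)

private theorem btp_coprime {r s : ℕ} (hr : 1 ≤ r) (hs : ∀ p ∈ r.primeFactors, ¬ p ∣ s) :
    Nat.Coprime s r := by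
  apply Nat.coprime_of_dvd
  intro k hk h1 h2
  exact hs k (Nat.mem_primeFactors.2 ⟨hk, h2, by omega⟩) h1

private theorem btp_spacing {r z s b s' b' : ℕ} (hs : 1 ≤ s) (hs' : 1 ≤ s') (hsz : s ≤ z)
    (hsz' : s' ≤ z) (hsr : Nat.Coprime s r) (hsr' : Nat.Coprime s' r) (hb : Nat.Coprime s b)
    (hb' : Nat.Coprime s' b') (hbs : b < s) (hbs' : b' < s') (hne : ¬ (s = s' ∧ b = b')) (k : ℤ) :
    1 / (z : ℝ) ^ 2 ≤ |(r : ℝ) * b / s - (r : ℝ) * b' / s' - k| := by
  have hs0 : (0 : ℝ) < s := by exact_mod_cast hs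
  have hs0' : (0 : ℝ) < s' := by exact_mod_cast hs'
  have hz0 : (0 : ℝ) < z := by exact_mod_cast (by omega : 0 < z)
  set M : ℤ := (r : ℤ) * b * s' - (r : ℤ) * b' * s - k * s * s' with hM
  have hM0 : M ≠ 0 := by
    intro h0
    apply hne
    have h1 : (r : ℤ) * b * s' = (r : ℤ) * b' * s + k * s * s' := by
      rw [hM] at h0
      linarith
    have h2 : (s : ℤ) ∣ (s' : ℤ) := by
      have h3 : (s : ℤ) ∣ ((r * b : ℕ) : ℤ) * s' := by
        refine ⟨(r : ℤ) * b' + k * s', ?_⟩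
        push_cast
        rw [h1]
        ring
      have h4 : IsCoprime (s : ℤ) ((r * b : ℕ) : ℤ) :=
        Nat.isCoprime_iff_coprime.2 (Nat.Coprime.mul_right hsr hb)
      exact h4.dvd_of_dvd_mul_left h3
    have h3 : (s' : ℤ) ∣ (s : ℤ) := by
      have h3 : (s' : ℤ) ∣ ((r * b' : ℕ) : ℤ) * s := by
        refine ⟨(r : ℤ) * b - k * s, ?_⟩
        push_cast
        have : (r : ℤ) * b' * s = (r : ℤ) * b * s' - k * s * s' := by rw [h1]; ring
        rw [this]
        ring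
      have h4 : IsCoprime (s' : ℤ) ((r * b' : ℕ) : ℤ) :=
        Nat.isCoprime_iff_coprime.2 (Nat.Coprime.mul_right hsr' hb')
      exact h4.dvd_of_dvd_mul_left h3
    have h4 : s = s' := Nat.dvd_antisymm (by exact_mod_cast h2) (by exact_mod_cast h3)
    subst h4
    refine ⟨rfl, ?_⟩
    have h5 : (s : ℤ) ∣ (b : ℤ) - b' := by
      have h6 : (s : ℤ) ∣ (r : ℤ) * ((b : ℤ) - b') := by
        refine ⟨k, ?_⟩
        have hs1 : (s : ℤ) ≠ 0 := by exact_mod_cast (by omega : s ≠ 0)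
        apply mul_right_cancel₀ hs1
        linear_combination h1
      have h7 : IsCoprime (s : ℤ) (r : ℤ) := Nat.isCoprime_iff_coprime.2 hsr
      exact h7.dvd_of_dvd_mul_left h6
    obtain ⟨m, hm⟩ := h5
    have hm0 : m = 0 := by
      by_contra hne0
      rcases lt_or_gt_of_ne hne0 with h | h
      · have : m ≤ -1 := by omega
        have hs1 : (0 : ℤ) < s := by exact_mod_cast hs
        nlinarith [(by exact_mod_cast hbs' : (b' : ℤ) < s)]
      · have : 1 ≤ m := by omega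
        have hs1 : (0 : ℤ) < s := by exact_mod_cast hs
        nlinarith [(by exact_mod_cast hbs : (b : ℤ) < s)]
    rw [hm0, mul_zero] at hm
    omega
  have hM1 : (1 : ℝ) ≤ |(M : ℝ)| := by
    have : 1 ≤ |M| := Int.one_le_abs hM0
    exact_mod_cast this
  have heq : (r : ℝ) * b / s - (r : ℝ) * b' / s' - k = (M : ℝ) / ((s : ℝ) * s') := by
    rw [hM]
    push_cast
    field_simp
  rw [heq, abs_div, abs_of_pos (mul_pos hs0 hs0')]
  apply div_le_div₀ (by positivity) hM1 (mul_pos hs0 hs0')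
  have h1 : (s : ℝ) ≤ z := by exact_mod_cast hsz
  have h2 : (s' : ℝ) ≤ z := by exact_mod_cast hsz'
  rw [pow_two]
  exact mul_le_mul h1 h2 hs0'.le hz0.le

/-- the sieve part -/
private theorem btp_sieve (r c x y z : ℕ) (hr : 1 ≤ r) (hz : 1 ≤ z) :
    (((Ioc x (x + y)).filter (fun p => (p.Prime ∧ p ≡ c [MOD r]) ∧ z < p)).card : ℝ) *
      ∑ s ∈ btp_S r z, 1 / (Nat.totient s : ℝ) ≤
      (z : ℝ) ^ 2 + 4 * Real.pi * ((y : ℝ) / r + 1) := by
  set A := (Ioc x (x + y)).filter (fun p => (p.Prime ∧ p ≡ c [MOD r]) ∧ z < p) with hA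
  have hr0 : (0 : ℝ) < r := by exact_mod_cast hr
  have hz0 : (0 : ℝ) < z := by exact_mod_cast hz
  have hπ := Real.pi_pos
  rcases Nat.eq_zero_or_pos A.card with hA0 | hA0
  · rw [hA0, Nat.cast_zero, zero_mul]
    positivity
  have hA0' : (0 : ℝ) < A.card := by exact_mod_cast hA0
  -- the translated set
  set f : ℕ → ℕ := fun p => p / r - x / r with hf
  have hfA : ∀ p ∈ A, p = c % r + r * (x / r) + r * f p := by
    intro p hp
    rw [hA, Finset.mem_filter, Finset.mem_Ioc] at hp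
    have h1 : p % r = c % r := hp.2.1.2
    have h2 : x / r ≤ p / r := Nat.div_le_div_right hp.1.1.le
    have h3 : p % r + r * (p / r) = p := Nat.mod_add_div p r
    simp only [hf]
    rw [Nat.mul_sub, add_assoc, ← Nat.add_sub_assoc (Nat.mul_le_mul_left r h2),
      Nat.add_sub_cancel_left, ← h1, h3]
  have hinj : Set.InjOn f A := by
    intro p hp q hq hpq
    rw [hfA p hp, hfA q hq, hpq]
  set A' := A.image f with hA'
  have hcard : A'.card = A.card := Finset.card_image_of_injOn hinj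
  have hA'N : ∀ n ∈ A', (n : ℝ) ≤ (y : ℝ) / r + 1 := by
    intro n hn
    rw [hA', Finset.mem_image] at hn
    obtain ⟨p, hp, rfl⟩ := hn
    rw [hA, Finset.mem_filter, Finset.mem_Ioc] at hp
    have h1 : p / r ≤ (x + y) / r := Nat.div_le_div_right hp.1.2
    have h2 : (x + y) / r ≤ x / r + (y / r + 1) := by
      have h4 : x + y < r * (x / r + (y / r + 1) + 1) := by
        have h5 := Nat.lt_mul_div_succ x (show 0 < r by omega)
        have h6 := Nat.lt_mul_div_succ y (show 0 < r by omega)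
        calc x + y < r * (x / r + 1) + r * (y / r + 1) := by omega
          _ = r * (x / r + (y / r + 1) + 1) := by ring
      have := (Nat.div_lt_iff_lt_mul (show 0 < r by omega)).2 (by rwa [mul_comm] at h4)
      omega
    have h3 : f p ≤ y / r + 1 := by
      simp only [hf]
      exact Nat.sub_le_iff_le_add.2 (h1.trans (h2.trans (le_of_eq (Nat.add_comm _ _))))
    calc (f p : ℝ) ≤ ((y / r + 1 : ℕ) : ℝ) := by exact_mod_cast h3
      _ ≤ (y : ℝ) / r + 1 := by
        push_cast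
        have := Nat.cast_div_le (α := ℝ) (m := y) (n := r)
        linarith
  set T : Finset (Σ _ : ℕ, ℕ) := (btp_S r z).sigma (fun s => (range s).filter (Nat.Coprime s))
    with hT
  have hLS := large_sieve_c (J := Σ _ : ℕ, ℕ) T (fun j => (r : ℝ) * j.2 / j.1)
    (δ := 1 / (z : ℝ) ^ 2) (by positivity) (by
      rw [div_le_one (by positivity)]
      have : (1 : ℝ) ≤ z := by exact_mod_cast hz
      nlinarith) (by
      intro i hi j hj hij k
      rw [hT, Finset.mem_sigma, Finset.mem_filter, Finset.mem_range, btp_S,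
        Finset.mem_filter, Finset.mem_Icc] at hi hj
      refine btp_spacing hi.1.1.1 hj.1.1.1 hi.1.1.2 hj.1.1.2 (btp_coprime hr hi.1.2.2)
        (btp_coprime hr hj.1.2.2) hi.2.2 hj.2.2 hi.2.1 hj.2.1 ?_ k
      rintro ⟨h1, h2⟩
      apply hij
      obtain ⟨i1, i2⟩ := i
      obtain ⟨j1, j2⟩ := j
      simp only at h1 h2
      rw [h1, h2]) A' (fun _ => (1 : ℂ)) (N := (y : ℝ) / r + 1) (by positivity) hA'N
  rw [one_div, inv_inv] at hLS
  have hnorm : ∀ s b : ℕ, ‖∑ n ∈ A, (1 : ℂ) * ee (n * (0 + (b : ℝ) / s))‖ =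
      ‖∑ n ∈ A', (1 : ℂ) * ee (n * ((r : ℝ) * b / s))‖ := by
    intro s b
    have h1 : ∑ n ∈ A, (1 : ℂ) * ee (n * (0 + (b : ℝ) / s)) =
        ee (((c % r + r * (x / r) : ℕ) : ℝ) * ((b : ℝ) / s)) *
          ∑ n ∈ A', (1 : ℂ) * ee (n * ((r : ℝ) * b / s)) := by
      rw [hA', Finset.sum_image hinj, Finset.mul_sum]
      refine Finset.sum_congr rfl fun p hp => ?_
      rw [one_mul, one_mul, ← ee_add]
      congr 1
      conv_lhs => rw [hfA p hp]
      push_cast
      ring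
    rw [h1, norm_mul, norm_ee, one_mul]
  have hmont : ∀ s ∈ btp_S r z, (A.card : ℝ) ^ 2 * (1 / (Nat.totient s : ℝ)) ≤
      ∑ b ∈ (range s).filter (Nat.Coprime s), ‖∑ n ∈ A', (1 : ℂ) * ee (n * ((r : ℝ) * b / s))‖ ^ 2 := by
    intro s hs
    rw [btp_S, Finset.mem_filter, Finset.mem_Icc] at hs
    have hφ : (0 : ℝ) < Nat.totient s := by exact_mod_cast Nat.totient_pos.2 hs.1.1
    have h1 := montgomery hs.2.1 A (by
      intro n hn
      rw [hA, Finset.mem_filter] at hn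
      rw [Nat.Prime.coprime_iff_not_dvd hn.2.1.1]
      intro h2
      have := Nat.le_of_dvd hs.1.1 h2
      omega) (fun _ => (1 : ℂ)) 0
    have h2 : ‖∑ n ∈ A, (1 : ℂ) * ee (n * 0)‖ = A.card := by
      simp only [mul_zero, ee_zero, one_mul]
      rw [Finset.sum_const, nsmul_eq_mul, mul_one, Complex.norm_natCast]
    rw [h2] at h1
    rw [mul_one_div, div_le_iff₀ hφ, mul_comm]
    refine h1.trans (le_of_eq ?_)
    congr 1
    refine Finset.sum_congr rfl fun b _ => ?_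
    rw [hnorm s b]
  have hsum : (A.card : ℝ) ^ 2 * ∑ s ∈ btp_S r z, 1 / (Nat.totient s : ℝ) ≤
      ((z : ℝ) ^ 2 + 4 * Real.pi * ((y : ℝ) / r + 1)) * A.card := by
    rw [Finset.mul_sum]
    refine (Finset.sum_le_sum hmont).trans ?_
    rw [hT, Finset.sum_sigma] at hLS
    refine hLS.trans (le_of_eq ?_)
    congr 1
    rw [Finset.sum_congr rfl fun n _ => (by simp : ‖(1 : ℂ)‖ ^ 2 = (1 : ℝ)), Finset.sum_const,
      nsmul_eq_mul, mul_one, hcard]
  have h3 : (A.card : ℝ) * ((A.card : ℝ) * ∑ s ∈ btp_S r z, 1 / (Nat.totient s : ℝ)) ≤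
      (A.card : ℝ) * ((z : ℝ) ^ 2 + 4 * Real.pi * ((y : ℝ) / r + 1)) := by
    calc (A.card : ℝ) * ((A.card : ℝ) * ∑ s ∈ btp_S r z, 1 / (Nat.totient s : ℝ)) =
        (A.card : ℝ) ^ 2 * ∑ s ∈ btp_S r z, 1 / (Nat.totient s : ℝ) := by ring
      _ ≤ ((z : ℝ) ^ 2 + 4 * Real.pi * ((y : ℝ) / r + 1)) * A.card := hsum
      _ = _ := by ring
  exact le_of_mul_le_mul_left h3 hA0'

private theorem btp_bt : ∃ C : ℝ, 0 < C ∧ ∀ r c x y : ℕ, r.Prime → 4 * r ≤ y →
    (((Ioc x (x + y)).filter (fun p => p.Prime ∧ p ≡ c [MOD r])).card : ℝ) ≤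
      C * ((y : ℝ) / r) / Real.log ((y : ℝ) / r) := by
  obtain ⟨c0, hc0, hG⟩ := gsum_ge
  refine ⟨(1 + 8 * Real.pi) * (8 / c0) + 2, by positivity, fun r c x y hrp hy => ?_⟩
  have hr : 1 ≤ r := hrp.one_lt.le
  have hr0 : (0 : ℝ) < r := by exact_mod_cast hr
  have hπ := Real.pi_pos
  set u : ℝ := (y : ℝ) / r with hu
  have hu4 : 4 ≤ u := by
    rw [hu, le_div_iff₀ hr0]
    exact_mod_cast hy
  set z : ℕ := Nat.sqrt (y / r) with hz
  have hz1 : z * z ≤ y / r := Nat.sqrt_le (y / r)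
  have hz2 : y / r < (z + 1) * (z + 1) := Nat.lt_succ_sqrt (y / r)
  have hz3 : 2 ≤ z := by
    rw [hz, Nat.le_sqrt]
    rw [Nat.le_div_iff_mul_le hr]
    exact hy
  have hz3' : (2 : ℝ) ≤ z := by exact_mod_cast hz3
  have hzu : (z : ℝ) ^ 2 ≤ u := by
    have h1 : ((z * z : ℕ) : ℝ) ≤ ((y / r : ℕ) : ℝ) := by exact_mod_cast hz1
    have h2 := Nat.cast_div_le (α := ℝ) (m := y) (n := r)
    push_cast at h1
    rw [pow_two]
    exact h1.trans h2
  have huz : u < ((z : ℝ) + 1) ^ 2 := by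
    have h1 : y < r * (y / r + 1) := Nat.lt_mul_div_succ y (show 0 < r by omega)
    have h2 : y < r * ((z + 1) * (z + 1)) := h1.trans_le (Nat.mul_le_mul_left r (by omega))
    rw [hu, div_lt_iff₀ hr0]
    have h3 : (y : ℝ) < ((r * ((z + 1) * (z + 1)) : ℕ) : ℝ) := by exact_mod_cast h2
    push_cast at h3
    linarith
  have hz4 : (z : ℝ) + 1 ≤ (z : ℝ) ^ 2 := by nlinarith
  have hlogu : Real.log u ≤ 4 * Real.log z := by
    have h1 : u ≤ (z : ℝ) ^ 4 := by
      calc u ≤ ((z : ℝ) + 1) ^ 2 := huz.le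
        _ ≤ ((z : ℝ) ^ 2) ^ 2 := pow_le_pow_left₀ (by positivity) hz4 2
        _ = (z : ℝ) ^ 4 := by ring
    have h2 := Real.log_le_log (by linarith) h1
    rwa [Real.log_pow] at h2
  have hlu : 0 < Real.log u := Real.log_pos (by linarith)
  obtain ⟨Lr, hLr⟩ : ∃ Lr : ℝ, Lr = 1 := ⟨1, rfl⟩
  have hLr1 : 1 ≤ Lr := by linarith
  set A1 := (Ioc x (x + y)).filter (fun p => p.Prime ∧ p ≡ c [MOD r]) with hA1
  set A := (Ioc x (x + y)).filter (fun p => (p.Prime ∧ p ≡ c [MOD r]) ∧ z < p) with hA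
  have hsplit : (A1.card : ℝ) ≤ A.card + z := by
    have h1 : A1 ⊆ A ∪ Icc 1 z := by
      intro p hp
      rw [hA1, Finset.mem_filter] at hp
      rw [Finset.mem_union, hA, Finset.mem_filter, Finset.mem_Icc]
      by_cases h : z < p
      · exact Or.inl ⟨hp.1, hp.2, h⟩
      · exact Or.inr ⟨hp.2.1.one_lt.le, by omega⟩
    have h2 := (Finset.card_le_card h1).trans (Finset.card_union_le _ _)
    rw [Nat.card_Icc, Nat.add_sub_cancel] at h2
    exact_mod_cast h2
  have hsieve := btp_sieve r c x y z hr (by omega)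
  have hG1 := hG z r.primeFactors (by omega) (fun p hp => Nat.prime_of_mem_primeFactors hp)
  have hG2 : c0 * Real.log u / (8 * Lr) ≤ ∑ s ∈ btp_S r z, 1 / (Nat.totient s : ℝ) := by
    refine le_trans ?_ hG1
    have h1 : 1 + Real.log (1 + (r.primeFactors.card : ℝ)) ≤ 2 * Lr := by
      rw [hrp.primeFactors, Finset.card_singleton, hLr]
      have h3 : Real.log (1 + ((1 : ℕ) : ℝ)) ≤ 1 := by
        have := Real.log_le_sub_one_of_pos (show (0 : ℝ) < 1 + ((1 : ℕ) : ℝ) by norm_num)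
        push_cast at this ⊢
        linarith
      linarith
    have h2 : (0 : ℝ) < 1 + Real.log (1 + (r.primeFactors.card : ℝ)) := by
      have : 0 ≤ Real.log (1 + (r.primeFactors.card : ℝ)) :=
        Real.log_nonneg (by
          have : (0 : ℝ) ≤ r.primeFactors.card := Nat.cast_nonneg _
          linarith)
      linarith
    rw [div_le_div_iff₀ (by positivity) h2]
    calc c0 * Real.log u * (1 + Real.log (1 + (r.primeFactors.card : ℝ)))
        ≤ c0 * (4 * Real.log z) * (2 * Lr) := by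
          apply mul_le_mul _ h1 h2.le _
          · exact mul_le_mul_of_nonneg_left hlogu hc0.le
          · have : 0 ≤ Real.log (z : ℝ) := Real.log_natCast_nonneg z
            positivity
      _ = c0 * Real.log z * (8 * Lr) := by ring
  have hA2 : (A.card : ℝ) * (c0 * Real.log u / (8 * Lr)) ≤ (1 + 8 * Real.pi) * u := by
    refine (mul_le_mul_of_nonneg_left hG2 (Nat.cast_nonneg _)).trans (hsieve.trans ?_)
    rw [← hu]
    nlinarith
  have hA3 : (A.card : ℝ) ≤ (1 + 8 * Real.pi) * (8 / c0) * u * Lr / Real.log u := by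
    rw [le_div_iff₀ hlu]
    have h1 : (A.card : ℝ) * (c0 * Real.log u / (8 * Lr)) * (8 * Lr / c0) =
        (A.card : ℝ) * Real.log u := by
      field_simp
    rw [← h1]
    calc (A.card : ℝ) * (c0 * Real.log u / (8 * Lr)) * (8 * Lr / c0)
        ≤ (1 + 8 * Real.pi) * u * (8 * Lr / c0) :=
          mul_le_mul_of_nonneg_right hA2 (by positivity)
      _ = (1 + 8 * Real.pi) * (8 / c0) * u * Lr := by ring
  have hz5 : (z : ℝ) ≤ 2 * u * Lr / Real.log u := by
    rw [le_div_iff₀ hlu]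
    have h1 : Real.log u ≤ 2 * Real.sqrt u := by
      have h2 : Real.log u = 2 * Real.log (Real.sqrt u) := by
        rw [Real.log_sqrt (by linarith)]
        ring
      have h3 := Real.log_le_self (Real.sqrt_nonneg u)
      linarith
    have h4 : (z : ℝ) ≤ Real.sqrt u := Real.le_sqrt_of_sq_le hzu
    have h5 : Real.sqrt u * Real.sqrt u = u := Real.mul_self_sqrt (by linarith)
    calc (z : ℝ) * Real.log u ≤ Real.sqrt u * (2 * Real.sqrt u) :=
          mul_le_mul h4 h1 hlu.le (Real.sqrt_nonneg u)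
      _ = 2 * u * 1 := by rw [mul_one]; linarith
      _ ≤ 2 * u * Lr := mul_le_mul_of_nonneg_left hLr1 (by linarith)
  calc (A1.card : ℝ) ≤ A.card + z := hsplit
    _ ≤ (1 + 8 * Real.pi) * (8 / c0) * u * Lr / Real.log u + 2 * u * Lr / Real.log u :=
        add_le_add hA3 hz5
    _ = ((1 + 8 * Real.pi) * (8 / c0) + 2) * u / Real.log u := by rw [hLr]; ring


theorem btp : ∃ C : ℝ, 0 < C ∧ ∀ X ℓ : ℕ, 2 ≤ X → ℓ.Prime → (ℓ : ℝ) ≤ (X : ℝ) ^ (3 / 4 : ℝ) →
    tp X ℓ ≤ C * (X / ℓ) := by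
  obtain ⟨C, hC, hBT⟩ := btp_bt
  refine ⟨max (4 * C) 1536, by positivity, fun X ℓ hX hℓ hle => ?_⟩
  have hℓ0 : (0 : ℝ) < ℓ := by exact_mod_cast hℓ.pos
  have hX2 : (2 : ℝ) ≤ X := by exact_mod_cast hX
  have hX0 : (0 : ℝ) < X := by linarith
  have hlX : 0 < Real.log X := Real.log_pos (by linarith)
  have hXl : 0 ≤ (X : ℝ) / ℓ := by positivity
  have hq : (X : ℝ) ^ (1 / 4 : ℝ) ≤ X / ℓ := by
    rw [le_div_iff₀ hℓ0]
    calc (X : ℝ) ^ (1 / 4 : ℝ) * ℓ ≤ (X : ℝ) ^ (1 / 4 : ℝ) * (X : ℝ) ^ (3 / 4 : ℝ) :=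
          mul_le_mul_of_nonneg_left hle (by positivity)
      _ = X := by
          rw [← Real.rpow_add hX0]
          norm_num
  have htp : tp X ℓ ≤ Real.log X *
      (((Ioc 0 (0 + X)).filter (fun p => p.Prime ∧ p ≡ 1 [MOD ℓ])).card : ℝ) := by
    unfold tp
    have h1 : Ioc 0 (0 + X) = Icc 1 X := by
      ext p
      rw [mem_Ioc, mem_Icc]
      omega
    rw [h1, mul_comm, ← nsmul_eq_mul]
    refine Finset.sum_le_card_nsmul _ _ _ fun p hp => ?_
    rw [mem_filter, mem_Icc] at hp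
    exact Real.log_le_log (by exact_mod_cast hp.1.1) (by exact_mod_cast hp.1.2)
  by_cases h256 : 256 ≤ X
  · have h256' : (256 : ℝ) ≤ X := by exact_mod_cast h256
    have h4 : (4 : ℝ) ≤ (X : ℝ) ^ (1 / 4 : ℝ) := by
      have h5 : (4 : ℝ) = (256 : ℝ) ^ (1 / 4 : ℝ) := by
        rw [show (256 : ℝ) = 4 ^ (4 : ℝ) by norm_num, ← Real.rpow_mul (by norm_num)]
        norm_num
      exact h5.le.trans (Real.rpow_le_rpow (by norm_num) h256' (by norm_num))
    have h6 : 4 * ℓ ≤ X := by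
      have h7 : (4 : ℝ) ≤ X / ℓ := h4.trans hq
      rw [le_div_iff₀ hℓ0] at h7
      exact_mod_cast h7
    have hl : (1 / 4) * Real.log X ≤ Real.log (X / ℓ) := by
      rw [← Real.log_rpow hX0]
      exact Real.log_le_log (by positivity) hq
    have hl0 : 0 < Real.log ((X : ℝ) / ℓ) := by linarith
    have h8 := hBT ℓ 1 0 X hℓ h6
    have h9 : Real.log X * (C * ((X : ℝ) / ℓ) / Real.log ((X : ℝ) / ℓ)) ≤ 4 * C * (X / ℓ) := by
      rw [← mul_div_assoc, div_le_iff₀ hl0]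
      have h10 : Real.log X ≤ 4 * Real.log ((X : ℝ) / ℓ) := by linarith
      have h11 : 0 ≤ C * ((X : ℝ) / ℓ) := by positivity
      calc Real.log X * (C * ((X : ℝ) / ℓ)) ≤ (4 * Real.log ((X : ℝ) / ℓ)) * (C * ((X : ℝ) / ℓ)) :=
            mul_le_mul_of_nonneg_right h10 h11
        _ = 4 * C * (X / ℓ) * Real.log ((X : ℝ) / ℓ) := by ring
    calc tp X ℓ ≤ Real.log X *
          (((Ioc 0 (0 + X)).filter (fun p => p.Prime ∧ p ≡ 1 [MOD ℓ])).card : ℝ) := htp
      _ ≤ Real.log X * (C * ((X : ℝ) / ℓ) / Real.log ((X : ℝ) / ℓ)) :=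
          mul_le_mul_of_nonneg_left h8 hlX.le
      _ ≤ 4 * C * (X / ℓ) := h9
      _ ≤ max (4 * C) 1536 * (X / ℓ) := mul_le_mul_of_nonneg_right (le_max_left _ _) hXl
  · have hX256 : X ≤ 256 := by omega
    have hX256' : (X : ℝ) ≤ 256 := by exact_mod_cast hX256
    have h1 : (1 : ℝ) ≤ X / ℓ :=
      le_trans (Real.one_le_rpow (by linarith) (by norm_num)) hq
    have h2 : (((Ioc 0 (0 + X)).filter (fun p => p.Prime ∧ p ≡ 1 [MOD ℓ])).card : ℝ) ≤ 256 := by
      have h3 : ((Ioc 0 (0 + X)).filter (fun p => p.Prime ∧ p ≡ 1 [MOD ℓ])).card ≤ X := by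
        refine (Finset.card_filter_le _ _).trans ?_
        rw [Nat.card_Ioc]
        omega
      exact_mod_cast h3.trans hX256
    have h3 : Real.log X ≤ 6 := by
      have h4 : Real.log X ≤ Real.log 256 := Real.log_le_log hX0 hX256'
      have h5 : Real.log 256 = 8 * Real.log 2 := by
        rw [show (256 : ℝ) = 2 ^ 8 by norm_num, Real.log_pow]
        norm_num
      have := Real.log_two_lt_d9
      linarith
    calc tp X ℓ ≤ Real.log X *
          (((Ioc 0 (0 + X)).filter (fun p => p.Prime ∧ p ≡ 1 [MOD ℓ])).card : ℝ) := htp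
      _ ≤ 6 * 256 := mul_le_mul h3 h2 (Nat.cast_nonneg _) (by norm_num)
      _ = 1536 * 1 := by norm_num
      _ ≤ max (4 * C) 1536 * (X / ℓ) := mul_le_mul (le_max_right _ _) h1 (by norm_num) (by positivity)

end Pool.CHD
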