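import Pool.Agent.Lib.MP_f4ebb7_co.CHD.BSpan
import Pool.Agent.Lib.MP_f4ebb7_co.CHD.BNorm
import Pool.Agent.Lib.MP_f4ebb7_co.CHD.BKron

/-! CHD-Base: existence of the structure `Cyc`. (complete) -/

set_option autoImplicit false

namespace Pool.CHD

open NumberField

/-- the structure on the ring of integers -/
noncomputable def cycR (N : ℕ) [NeZero N] (hN : Even N) : Cyc N (RR N) where
  z := zR N
  z_pow := (zK_prim N).toInteger_isPrimitiveRoot.pow_eq_one
  sg := gR N
  sg_z := gR_z N
  io := iR N
  io_inj := iR_inj N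
  io_z := iK_z N
  span := span_R N
  one_le := one_le_R N
  kron := kron_R N hN

theorem cyc_exists (N : ℕ) [NeZero N] (hN : Even N) :
    ∃ (R : Type) (_ : CommRing R) (_ : IsDomain R) (_ : IsDedekindDomain R) (_ : CharZero R), Nonempty (Cyc N R) :=
  ⟨RR N, inferInstance, inferInstance, inferInstance, inferInstance, ⟨cycR N hN⟩⟩

end Pool.CHD
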