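import Pool.Agent.Lib.MP_f4ebb7_co.CHD.Defs

/-! CHD-Basic: first consequences of the structure `Cyc`.

PROOF. `io_z`, `Complex.isPrimitiveRoot_exp` and `io_inj` give: `z ^ i = z ^ j ↔ i ≡ j [MOD N]`
(`IsPrimitiveRoot.pow_inj_mod`/`(h.pow_eq_one_iff_dvd _)`; or `IsPrimitiveRoot.of_map_of_injective`).
`sg_pow_z`: `map_pow, sg_z, pow_mul`. Two ring homomorphisms `R →+* S` that agree on `z` agree (`span`, `map_sum`, `map_mul`,
`map_intCast`, `map_pow`): this is `hom_ext`. It gives `sg_mul` (`(s*t).val ≡ s.val * t.val mod N`, `ZMod.val_mul`), `sg_one`,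
`io_cj` (`z ^ (-1).val`, `(-1 : (ZMod N)ˣ)`: `z ^ ((-1 : ZMod N).val) * z = 1`, and `io z⁻¹ = conj (io z)` since `‖io z‖ = 1`,
compare the homs `io ∘ sg (-1)` and `conj ∘ io`), `io_sg_cj` (`sg s (sg (-1) x) = sg (-1) (sg s x)` by `sg_mul`, commutativity).
`cj_cj`, `norm_z`: `‖io (z ^ i)‖ = 1`. `norm_sg_z` the same after `sg_pow_z`. `nsq`: if `x * cj x = (n : R)` then
`‖io (sg s x)‖ ^ 2 = n`: apply `io ∘ sg s`, `Complex.mul_conj`, `Complex.normSq_eq_norm_sq`. `sg_iter`: induction on `k`.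
`zp_pow`: `z ^ (N/p * p) = z ^ N = 1`.
-/

set_option autoImplicit false

namespace Pool.CHD

open Finset

variable {N : ℕ} [NeZero N] {R : Type} [CommRing R] (C : Cyc N R)

theorem z_prim : IsPrimitiveRoot C.z N := by
  have h := Complex.isPrimitiveRoot_exp N (NeZero.ne N)
  rw [← C.io_z] at h
  exact h.of_map_of_injective C.io_inj

theorem z_pow_eq_iff (i j : ℕ) : C.z ^ i = C.z ^ j ↔ i ≡ j [MOD N] := by
  have h := z_prim C
  have hu : IsUnit C.z := h.isUnit (NeZero.ne N)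
  have h1 : IsPrimitiveRoot hu.unit N := by
    rw [← IsPrimitiveRoot.coe_units_iff, hu.unit_spec]
    exact h
  have h2 := @pow_eq_pow_iff_modEq Rˣ _ hu.unit j i
  rw [← h1.eq_orderOf, Units.ext_iff] at h2
  rw [← h2]
  push_cast
  rw [hu.unit_spec]

theorem hom_ext {S : Type} [CommRing S] (f g : R →+* S) (h : f C.z = g C.z) : f = g := by
  refine RingHom.ext fun x => ?_
  obtain ⟨c, rfl⟩ := C.span x
  rw [map_sum, map_sum]
  refine Finset.sum_congr rfl fun i _ => ?_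
  rw [map_mul, map_mul, map_intCast, map_intCast, map_pow, map_pow, h]

theorem sg_pow_z (t : (ZMod N)ˣ) (i : ℕ) : C.sg t (C.z ^ i) = C.z ^ ((t : ZMod N).val * i) := by
  rw [map_pow, C.sg_z, pow_mul]

theorem sg_mul (s t : (ZMod N)ˣ) (x : R) : C.sg (s * t) x = C.sg s (C.sg t x) := by
  have h := hom_ext C ((C.sg (s * t)) : R →+* R)
    (((C.sg s) : R →+* R).comp ((C.sg t) : R →+* R)) (by
      change C.sg (s * t) C.z = C.sg s (C.sg t C.z)
      rw [C.sg_z, C.sg_z, sg_pow_z, z_pow_eq_iff, Units.val_mul, ZMod.val_mul]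
      exact Nat.mod_modEq _ _)
  exact congrArg (fun f : R →+* R => f x) h

theorem sg_one (x : R) : C.sg 1 x = x := by
  have h := hom_ext C ((C.sg 1) : R →+* R) (RingHom.id R) (by
      change C.sg 1 C.z = C.z
      have h1 : C.z = C.z ^ 1 := (pow_one _).symm
      conv_rhs => rw [h1]
      rw [C.sg_z, z_pow_eq_iff, Units.val_one, ZMod.val_one_eq_one_mod]
      exact Nat.mod_modEq _ _)
  exact congrArg (fun f : R →+* R => f x) h

theorem sg_comm (s t : (ZMod N)ˣ) (x : R) : C.sg s (C.sg t x) = C.sg t (C.sg s x) := by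
  rw [← sg_mul, ← sg_mul, mul_comm]

theorem sg_iter (t : (ZMod N)ˣ) (k : ℕ) (x : R) : (fun y => C.sg t y)^[k] x = C.sg (t ^ k) x := by
  induction k with
  | zero => rw [Function.iterate_zero, id, pow_zero, sg_one]
  | succ k ih => rw [Function.iterate_succ_apply', ih, ← sg_mul, pow_succ']

private theorem norm_io_z : ‖C.io C.z‖ = 1 := by
  refine Complex.norm_eq_one_of_pow_eq_one (n := N) ?_ (NeZero.ne N)
  rw [← map_pow, C.z_pow, map_one]

theorem io_cj (x : R) : C.io (C.cj x) = (starRingEnd ℂ) (C.io x) := by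
  have h := hom_ext C (C.io.comp ((C.sg (-1)) : R →+* R)) ((starRingEnd ℂ).comp C.io) (by
      change C.io (C.sg (-1) C.z) = (starRingEnd ℂ) (C.io C.z)
      have h0 : C.io C.z ≠ 0 := by
        intro h0
        have h1 := norm_io_z C
        rw [h0, norm_zero] at h1
        exact zero_ne_one h1
      have h1 : C.io (C.sg (-1) C.z) * C.io C.z = 1 := by
        rw [← map_mul, C.sg_z, ← pow_succ]
        have h2 : C.z ^ (((-1 : (ZMod N)ˣ) : ZMod N).val + 1) = C.z ^ 0 := by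
          rw [z_pow_eq_iff]
          have h3 : (((((-1 : (ZMod N)ˣ) : ZMod N).val + 1 : ℕ)) : ZMod N) = ((0 : ℕ) : ZMod N) := by
            push_cast
            rw [ZMod.natCast_zmod_val]
            simp
          exact (ZMod.natCast_eq_natCast_iff _ _ _).1 h3
        rw [h2, pow_zero, map_one]
      have h2 : (starRingEnd ℂ) (C.io C.z) * C.io C.z = 1 := by
        rw [mul_comm, Complex.mul_conj, Complex.normSq_eq_norm_sq, norm_io_z C]
        norm_num
      exact mul_right_cancel₀ h0 (h1.trans h2.symm))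
  exact congrArg (fun f : R →+* ℂ => f x) h

theorem io_sg_cj (s : (ZMod N)ˣ) (x : R) : C.io (C.sg s (C.cj x)) = (starRingEnd ℂ) (C.io (C.sg s x)) := by
  rw [← io_cj]
  unfold Cyc.cj
  rw [sg_comm]

theorem norm_z (i : ℕ) : ‖C.io (C.z ^ i)‖ = 1 := by
  rw [map_pow, norm_pow, norm_io_z, one_pow]

theorem norm_sg_z (s : (ZMod N)ˣ) (i : ℕ) : ‖C.io (C.sg s (C.z ^ i))‖ = 1 := by
  rw [sg_pow_z, norm_z]

theorem nsq (x : R) (n : ℕ) (h : x * C.cj x = (n : R)) (s : (ZMod N)ˣ) : ‖C.io (C.sg s x)‖ ^ 2 = n := by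
  have h1 := congrArg (fun y => C.io (C.sg s y)) h
  simp only [map_mul, map_natCast] at h1
  rw [io_sg_cj, Complex.mul_conj, Complex.normSq_eq_norm_sq] at h1
  exact_mod_cast h1

theorem zp_pow (p : ℕ) (h : p ∣ N) : C.zp p ^ p = 1 := by
  unfold Cyc.zp
  rw [← pow_mul, Nat.div_mul_cancel h, C.z_pow]

theorem zp_pow_mod (p : ℕ) (h : p ∣ N) (i : ℕ) : C.zp p ^ i = C.zp p ^ (i % p) :=
  pow_eq_pow_mod i (zp_pow C p h)

theorem zp_prim (p : ℕ) (h : p ∣ N) : IsPrimitiveRoot (C.zp p) p := by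
  unfold Cyc.zp
  exact (z_prim C).pow (NeZero.pos N) (Nat.div_mul_cancel h).symm

end Pool.CHD
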