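import Pool.Agent.Lib.MP_f4ebb7_co.CHD.Defs

/-! CHD-CB13: the integers with two prime factors that are `0` or `1` modulo some `d > D`.

PROOF. For `m ≤ x` with `B13 D m`: `d, p, r`, `p ≠ r`, so `p r ∣ m`, `d ≤ x` (`d ∣ p` or `d ∣ p - 1 ≥ 1`, so `d ≤ p ≤ x`). The number is at most
`∑_{D < d ≤ x} ∑_{p, r} x/(p r) ≤ x ∑_{D < d ≤ x} S_d²`, `S_d = ∑_{n ≤ x, n ≥ 2, d ∣ n or d ∣ n-1} 1/n ≤ 2 ∑_{j ≤ x/d} 1/(d j) ≤ 2 (1 + log x)/d` (`n = d j` or `n = d j + 1 ≥ d j`,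
`j ≥ 1`; for `d ∣ n - 1`, `n ≥ 2`: `j = (n-1)/d ≥ 1`). `∑_{d > D} 1/d² ≤ 1/D`. Total `4 x (1 + log x)²/D`.
-/

set_option autoImplicit false

namespace Pool.CHD

open Finset

private theorem harm (x : ℕ) : ∑ j ∈ Icc 1 x, 1 / (j : ℝ) ≤ 1 + Real.log x := by
  have h := harmonic_le_one_add_log x
  rw [harmonic_eq_sum_Icc] at h
  push_cast at h
  simpa [one_div] using h

/-- the multiples -/
private theorem part1 (x d : ℕ) (hd : 1 ≤ d) :
    ∑ n ∈ (Icc 2 x).filter (fun n => d ∣ n), 1 / (n : ℝ) ≤ (1 + Real.log x) / d := by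
  have hd0 : (0 : ℝ) < d := by exact_mod_cast hd
  have h1 : ∑ n ∈ (Icc 2 x).filter (fun n => d ∣ n), 1 / (n : ℝ) =
      ∑ n ∈ (Icc 2 x).filter (fun n => d ∣ n), 1 / (d : ℝ) * (1 / ((n / d : ℕ) : ℝ)) := by
    refine sum_congr rfl fun n hn => ?_
    rw [mem_filter] at hn
    obtain ⟨k, rfl⟩ := hn.2
    rw [Nat.mul_div_cancel_left k hd, Nat.cast_mul, one_div_mul_one_div]
  rw [h1, ← mul_sum]
  have h2 : ∑ n ∈ (Icc 2 x).filter (fun n => d ∣ n), 1 / ((n / d : ℕ) : ℝ) ≤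
      ∑ j ∈ Icc 1 x, 1 / (j : ℝ) := by
    rw [← sum_image (f := fun j : ℕ => 1 / (j : ℝ)) (g := fun n => n / d)]
    · refine sum_le_sum_of_subset_of_nonneg ?_ fun q _ _ => by positivity
      intro j hj
      rw [mem_image] at hj
      obtain ⟨n, hn, rfl⟩ := hj
      rw [mem_filter, mem_Icc] at hn
      rw [mem_Icc]
      refine ⟨(Nat.one_le_div_iff hd).2 (Nat.le_of_dvd (by omega) hn.2), ?_⟩
      exact (Nat.div_le_self n d).trans hn.1.2
    · intro a ha b hb hab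
      rw [mem_coe, mem_filter] at ha hb
      have h3 := Nat.div_mul_cancel ha.2
      have h4 := Nat.div_mul_cancel hb.2
      simp only at hab
      rw [← h3, ← h4, hab]
  calc 1 / (d : ℝ) * ∑ n ∈ (Icc 2 x).filter (fun n => d ∣ n), 1 / ((n / d : ℕ) : ℝ)
      ≤ 1 / (d : ℝ) * (1 + Real.log x) :=
        mul_le_mul_of_nonneg_left (h2.trans (harm x)) (by positivity)
    _ = (1 + Real.log x) / d := by ring

/-- the multiples plus one -/
private theorem part2 (x d : ℕ) (hd : 1 ≤ d) :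
    ∑ n ∈ (Icc 2 x).filter (fun n => d ∣ n - 1), 1 / (n : ℝ) ≤ (1 + Real.log x) / d := by
  have hd0 : (0 : ℝ) < d := by exact_mod_cast hd
  have hk : ∀ n ∈ (Icc 2 x).filter (fun n => d ∣ n - 1), 1 ≤ (n - 1) / d := by
    intro n hn
    rw [mem_filter, mem_Icc] at hn
    exact (Nat.one_le_div_iff hd).2 (Nat.le_of_dvd (by omega) hn.2)
  have h1 : ∑ n ∈ (Icc 2 x).filter (fun n => d ∣ n - 1), 1 / (n : ℝ) ≤
      ∑ n ∈ (Icc 2 x).filter (fun n => d ∣ n - 1),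
        1 / (d : ℝ) * (1 / (((n - 1) / d : ℕ) : ℝ)) := by
    refine sum_le_sum fun n hn => ?_
    have h3 := hk n hn
    rw [mem_filter, mem_Icc] at hn
    have h4 : d * ((n - 1) / d) = n - 1 := Nat.mul_div_cancel' hn.2
    rw [one_div_mul_one_div]
    apply one_div_le_one_div_of_le
    · have : (0 : ℝ) < (((n - 1) / d : ℕ) : ℝ) := by exact_mod_cast h3
      positivity
    · have h5 : d * ((n - 1) / d) ≤ n := by omega
      exact_mod_cast h5
  refine h1.trans ?_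
  rw [← mul_sum]
  have h2 : ∑ n ∈ (Icc 2 x).filter (fun n => d ∣ n - 1), 1 / (((n - 1) / d : ℕ) : ℝ) ≤
      ∑ j ∈ Icc 1 x, 1 / (j : ℝ) := by
    rw [← sum_image (f := fun j : ℕ => 1 / (j : ℝ)) (g := fun n => (n - 1) / d)]
    · refine sum_le_sum_of_subset_of_nonneg ?_ fun q _ _ => by positivity
      intro j hj
      rw [mem_image] at hj
      obtain ⟨n, hn, rfl⟩ := hj
      have h3 := hk n hn
      rw [mem_filter, mem_Icc] at hn
      rw [mem_Icc]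
      refine ⟨h3, ?_⟩
      exact (Nat.div_le_self (n - 1) d).trans (by omega)
    · intro a ha b hb hab
      rw [mem_coe, mem_filter, mem_Icc] at ha hb
      have h3 := Nat.div_mul_cancel ha.2
      have h4 := Nat.div_mul_cancel hb.2
      simp only at hab
      rw [hab] at h3
      omega
  calc 1 / (d : ℝ) * ∑ n ∈ (Icc 2 x).filter (fun n => d ∣ n - 1), 1 / (((n - 1) / d : ℕ) : ℝ)
      ≤ 1 / (d : ℝ) * (1 + Real.log x) :=
        mul_le_mul_of_nonneg_left (h2.trans (harm x)) (by positivity)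
    _ = (1 + Real.log x) / d := by ring

private theorem Sd (x d : ℕ) (hd : 1 ≤ d) :
    ∑ n ∈ (Icc 2 x).filter (fun n => d ∣ n ∨ d ∣ n - 1), 1 / (n : ℝ) ≤
      2 * (1 + Real.log x) / d := by
  rw [filter_or]
  have h1 : ∑ n ∈ (Icc 2 x).filter (fun n => d ∣ n) ∪ (Icc 2 x).filter (fun n => d ∣ n - 1),
      1 / (n : ℝ) ≤ ∑ n ∈ (Icc 2 x).filter (fun n => d ∣ n), 1 / (n : ℝ) +
        ∑ n ∈ (Icc 2 x).filter (fun n => d ∣ n - 1), 1 / (n : ℝ) := by
    rw [← sum_union_inter]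
    have : 0 ≤ ∑ n ∈ (Icc 2 x).filter (fun n => d ∣ n) ∩ (Icc 2 x).filter (fun n => d ∣ n - 1),
      1 / (n : ℝ) := sum_nonneg fun _ _ => by positivity
    linarith
  have h2 := part1 x d hd
  have h3 := part2 x d hd
  have h4 : 2 * (1 + Real.log x) / d = (1 + Real.log x) / d + (1 + Real.log x) / d := by ring
  linarith

private theorem mult_card (x k : ℕ) :
    (((Icc 1 x).filter (fun m => k ∣ m)).card : ℝ) ≤ x * (1 / (k : ℝ)) := by
  have h1 : Icc 1 x = Ioc 0 x := by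
    ext n
    rw [mem_Icc, mem_Ioc]
    omega
  rw [h1, Nat.Ioc_filter_dvd_card_eq_div, mul_one_div]
  exact Nat.cast_div_le

open Classical in
theorem cb13 (x D : ℕ) (hx : 1 ≤ x) (hD : 1 ≤ D) :
    (((Icc 1 x).filter (fun m => B13 D m)).card : ℝ) ≤ 4 * x * (1 + Real.log x) ^ 2 / D := by
  have hD0 : (0 : ℝ) < D := by exact_mod_cast hD
  have hx0 : (0 : ℝ) < x := by exact_mod_cast hx
  have hlog : 0 ≤ Real.log x := Real.log_nonneg (by exact_mod_cast hx)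
  set A : ℕ → Finset ℕ := fun d => (Icc 2 x).filter (fun n => d ∣ n ∨ d ∣ n - 1) with hA
  have hsub : (Icc 1 x).filter (fun m => B13 D m) ⊆
      (Ioc D x).biUnion fun d => (A d ×ˢ A d).biUnion fun q =>
        (Icc 1 x).filter (fun m => q.1 * q.2 ∣ m) := by
    intro m hm
    rw [mem_filter, mem_Icc] at hm
    obtain ⟨⟨hm1, hmx⟩, d, p, r, hDd, hp, hr, hpr, hpm, hrm, hdp, hdr⟩ := hm
    have hpx : p ≤ x := (Nat.le_of_dvd (by omega) hpm).trans hmx
    have hrx : r ≤ x := (Nat.le_of_dvd (by omega) hrm).trans hmx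
    have hp2 := hp.two_le
    have hr2 := hr.two_le
    rw [mem_biUnion]
    refine ⟨d, ?_, ?_⟩
    · rw [mem_Ioc]
      refine ⟨hDd, ?_⟩
      rcases hdp with h | h
      · exact (Nat.le_of_dvd (by omega) h).trans hpx
      · exact (Nat.le_of_dvd (by omega) h).trans (by omega)
    · rw [mem_biUnion]
      refine ⟨(p, r), ?_, ?_⟩
      · rw [mem_product, hA]
        simp only [mem_filter, mem_Icc]
        exact ⟨⟨⟨hp2, hpx⟩, hdp⟩, ⟨hr2, hrx⟩, hdr⟩
      · rw [mem_filter, mem_Icc]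
        exact ⟨⟨hm1, hmx⟩, Nat.Coprime.mul_dvd_of_dvd_of_dvd
          ((Nat.coprime_primes hp hr).2 hpr) hpm hrm⟩
  have h1 : (((Icc 1 x).filter (fun m => B13 D m)).card : ℝ) ≤
      ∑ d ∈ Ioc D x, ∑ q ∈ A d ×ˢ A d, (x : ℝ) * (1 / ((q.1 * q.2 : ℕ) : ℝ)) := by
    calc (((Icc 1 x).filter (fun m => B13 D m)).card : ℝ)
        ≤ (((Ioc D x).biUnion fun d => (A d ×ˢ A d).biUnion fun q =>
        (Icc 1 x).filter (fun m => q.1 * q.2 ∣ m)).card : ℝ) := by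
          exact_mod_cast card_le_card hsub
      _ ≤ ((∑ d ∈ Ioc D x, ∑ q ∈ A d ×ˢ A d,
            ((Icc 1 x).filter (fun m => q.1 * q.2 ∣ m)).card : ℕ) : ℝ) := by
          exact_mod_cast card_biUnion_le.trans (sum_le_sum fun d _ => card_biUnion_le)
      _ ≤ _ := by
          push_cast
          refine sum_le_sum fun d _ => sum_le_sum fun q _ => ?_
          have := mult_card x (q.1 * q.2)
          push_cast at this
          exact this
  refine h1.trans ?_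
  have h2 : ∀ d ∈ Ioc D x, ∑ q ∈ A d ×ˢ A d, (x : ℝ) * (1 / ((q.1 * q.2 : ℕ) : ℝ)) ≤
      x * (4 * (1 + Real.log x) ^ 2) * ((d : ℝ) ^ 2)⁻¹ := by
    intro d hd
    rw [mem_Ioc] at hd
    have hd1 : 1 ≤ d := by omega
    have hd0 : (0 : ℝ) < d := by exact_mod_cast hd1
    rw [← mul_sum]
    have h3 : ∑ q ∈ A d ×ˢ A d, 1 / ((q.1 * q.2 : ℕ) : ℝ) =
        (∑ n ∈ A d, 1 / (n : ℝ)) ^ 2 := by
      rw [sq, sum_mul_sum, sum_product]
      refine sum_congr rfl fun a _ => sum_congr rfl fun b _ => ?_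
      rw [Nat.cast_mul, one_div_mul_one_div]
    rw [h3]
    have h4 : ∑ n ∈ A d, 1 / (n : ℝ) ≤ 2 * (1 + Real.log x) / d := Sd x d hd1
    have h5 : 0 ≤ ∑ n ∈ A d, 1 / (n : ℝ) := sum_nonneg fun _ _ => by positivity
    have h6 : (∑ n ∈ A d, 1 / (n : ℝ)) ^ 2 ≤ (2 * (1 + Real.log x) / d) ^ 2 :=
      pow_le_pow_left₀ h5 h4 2
    calc (x : ℝ) * (∑ n ∈ A d, 1 / (n : ℝ)) ^ 2
        ≤ x * (2 * (1 + Real.log x) / d) ^ 2 := mul_le_mul_of_nonneg_left h6 hx0.le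
      _ = x * (4 * (1 + Real.log x) ^ 2) * ((d : ℝ) ^ 2)⁻¹ := by
          rw [div_pow, div_eq_mul_inv]
          ring
  refine (sum_le_sum h2).trans ?_
  rw [← mul_sum]
  have h3 : ∑ d ∈ Ioc D x, ((d : ℝ) ^ 2)⁻¹ ≤ (D : ℝ)⁻¹ := by
    rcases le_or_gt D x with h | h
    · have h4 := sum_Ioc_inv_sq_le_sub (α := ℝ) (by omega : D ≠ 0) h
      have h5 : (0 : ℝ) ≤ (x : ℝ)⁻¹ := by positivity
      linarith
    · rw [Ioc_eq_empty (by omega), sum_empty]
      positivity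
  calc (x : ℝ) * (4 * (1 + Real.log x) ^ 2) * ∑ d ∈ Ioc D x, ((d : ℝ) ^ 2)⁻¹
      ≤ (x : ℝ) * (4 * (1 + Real.log x) ^ 2) * (D : ℝ)⁻¹ :=
        mul_le_mul_of_nonneg_left h3 (by positivity)
    _ = 4 * x * (1 + Real.log x) ^ 2 / D := by
        rw [div_eq_mul_inv]
        ring

end Pool.CHD
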