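import Pool.Agent.Lib.MP_f4ebb7_co.CHD.WfS

/-! CHD-CB2: the integers with a Wieferich type pair of prime factors.

PROOF. For `m ≤ x` with `B2 y z m`: `p r ∣ m` (distinct primes), `p ≤ x`, `r ∈ Wf p x`, `z < r`, `y < p`. The number is at most
`∑_{p} ∑_{r} x/(p r)` (number of multiples of `p r` in `Icc 1 x`; `Finset.card_biUnion_le`), so at most
`x ∑_{y < p ≤ x} (1/p) C log x (z^(-1/4) + p^(-1/2)) ≤ x C log x (z^(-1/4) + y^(-1/2)) (1 + log x)` (`∑_{n ≤ x} 1/n ≤ 1 + log x`, `harmonic_le_one_add_log`), and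
`1 + log x ≤ 2 log x`.
-/

set_option autoImplicit false

namespace Pool.CHD

open Finset

private theorem card_mult (x d : ℕ) :
    ((((Icc 1 x).filter (fun m => d ∣ m)).card : ℕ) : ℝ) ≤ (x : ℝ) / d := by
  have h : ((Icc 1 x).filter (fun m => d ∣ m)).card = x / d := by
    have h1 := Nat.Ioc_filter_dvd_card_eq_div x d
    rw [← h1]
    rfl
  rw [h]
  exact Nat.cast_div_le

private theorem harm (x : ℕ) : ∑ p ∈ Icc 1 x, (1 : ℝ) / p ≤ 1 + Real.log x := by
  have h := harmonic_le_one_add_log x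
  rw [harmonic_eq_sum_Icc] at h
  push_cast at h
  simpa [one_div] using h

open Classical in
theorem cb2 : ∃ C : ℝ, 0 < C ∧ ∀ x y z : ℕ, 3 ≤ x → 1 ≤ y → 2 ≤ z →
    (((Icc 1 x).filter (fun m => B2 y z m)).card : ℝ) ≤
      C * x * Real.log x ^ 2 * ((z : ℝ) ^ (-(1 / 4) : ℝ) + (y : ℝ) ^ (-(1 / 2) : ℝ)) := by
  obtain ⟨C, hC, hW⟩ := wf_sum
  refine ⟨2 * C, by positivity, ?_⟩
  intro x y z hx hy hz
  have hx0 : (0 : ℝ) < x := by
    have : 0 < x := by omega
    exact_mod_cast this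
  have hy0 : (0 : ℝ) < y := by
    have : 0 < y := by omega
    exact_mod_cast this
  have hlog : 1 ≤ Real.log x := by
    rw [Real.le_log_iff_exp_le hx0]
    have h1 : Real.exp 1 < 3 := lt_trans Real.exp_one_lt_d9 (by norm_num)
    have h2 : (3 : ℝ) ≤ x := by exact_mod_cast hx
    linarith
  set S : Finset ℕ := (Icc 1 x).filter (fun p => p.Prime ∧ y < p) with hS
  set T : ℕ → Finset ℕ := fun p => (Wf p x).filter (fun r => z < r) with hT
  set Q : ℝ := (z : ℝ) ^ (-(1 / 4) : ℝ) + (y : ℝ) ^ (-(1 / 2) : ℝ) with hQ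
  have hQ0 : 0 ≤ Q := by positivity
  have hsub : (Icc 1 x).filter (fun m => B2 y z m) ⊆
      S.biUnion (fun p => (T p).biUnion (fun r => (Icc 1 x).filter (fun m => p * r ∣ m))) := by
    intro m hm
    rw [Finset.mem_filter] at hm
    obtain ⟨hm1, p, r, hp, hr, hpr, hpm, hrm, hyp, hzr, hw⟩ := hm
    have hm2 := Finset.mem_Icc.1 hm1
    have hpx : p ≤ x := le_trans (Nat.le_of_dvd (by omega) hpm) hm2.2
    have hrx : r ≤ x := le_trans (Nat.le_of_dvd (by omega) hrm) hm2.2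
    rw [Finset.mem_biUnion]
    refine ⟨p, ?_, ?_⟩
    · rw [hS, Finset.mem_filter, Finset.mem_Icc]
      exact ⟨⟨hp.one_lt.le, hpx⟩, hp, hyp⟩
    · rw [Finset.mem_biUnion]
      refine ⟨r, ?_, ?_⟩
      · show r ∈ (Wf p x).filter (fun r => z < r)
        rw [Finset.mem_filter, Wf, Finset.mem_filter, Finset.mem_Icc]
        exact ⟨⟨⟨hr.one_lt.le, hrx⟩, hr, hw⟩, hzr⟩
      · rw [Finset.mem_filter]
        exact ⟨hm1, ((Nat.coprime_primes hp hr).2 hpr).mul_dvd_of_dvd_of_dvd hpm hrm⟩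
  have h1 : (((Icc 1 x).filter (fun m => B2 y z m)).card : ℝ) ≤
      ∑ p ∈ S, ∑ r ∈ T p, (x : ℝ) / ((p * r : ℕ) : ℝ) := by
    have h2 : ((Icc 1 x).filter (fun m => B2 y z m)).card ≤
        ∑ p ∈ S, ∑ r ∈ T p, ((Icc 1 x).filter (fun m => p * r ∣ m)).card := by
      refine le_trans (Finset.card_le_card hsub) ?_
      refine le_trans Finset.card_biUnion_le ?_
      exact Finset.sum_le_sum fun p _ => Finset.card_biUnion_le
    calc (((Icc 1 x).filter (fun m => B2 y z m)).card : ℝ)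
        ≤ ((∑ p ∈ S, ∑ r ∈ T p, ((Icc 1 x).filter (fun m => p * r ∣ m)).card : ℕ) : ℝ) := by
          exact_mod_cast h2
      _ = ∑ p ∈ S, ∑ r ∈ T p, ((((Icc 1 x).filter (fun m => p * r ∣ m)).card : ℕ) : ℝ) := by
          push_cast
          rfl
      _ ≤ _ := Finset.sum_le_sum fun p _ => Finset.sum_le_sum fun r _ => card_mult x (p * r)
  have h3 : ∀ p ∈ S, ∑ r ∈ T p, (x : ℝ) / ((p * r : ℕ) : ℝ) ≤
      (x * (C * Real.log x * Q)) * (1 / p) := by
    intro p hp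
    rw [hS, Finset.mem_filter, Finset.mem_Icc] at hp
    have hp0 : (0 : ℝ) < p := by
      have : 0 < p := by omega
      exact_mod_cast this
    have h4 : ∑ r ∈ T p, (x : ℝ) / ((p * r : ℕ) : ℝ) = (x * (1 / p)) * ∑ r ∈ T p, (1 : ℝ) / r := by
      rw [Finset.mul_sum]
      refine Finset.sum_congr rfl fun r _ => ?_
      push_cast
      rw [div_eq_mul_one_div, mul_assoc, one_div_mul_one_div]
    rw [h4]
    have h5 := hW p x z hp.2.1 hx hp.1.2 hz
    have h6 : (p : ℝ) ^ (-(1 / 2) : ℝ) ≤ (y : ℝ) ^ (-(1 / 2) : ℝ) := by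
      apply Real.rpow_le_rpow_of_nonpos hy0
      · exact_mod_cast hp.2.2.le
      · norm_num
    have h7 : ∑ r ∈ T p, (1 : ℝ) / r ≤ C * Real.log x * Q := by
      refine le_trans h5 ?_
      apply mul_le_mul_of_nonneg_left _ (by positivity)
      rw [hQ]
      linarith
    calc x * (1 / (p : ℝ)) * ∑ r ∈ T p, (1 : ℝ) / r
        ≤ x * (1 / (p : ℝ)) * (C * Real.log x * Q) :=
          mul_le_mul_of_nonneg_left h7 (by positivity)
      _ = _ := by ring
  have h8 : ∑ p ∈ S, (1 : ℝ) / p ≤ 1 + Real.log x := by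
    refine le_trans ?_ (harm x)
    refine Finset.sum_le_sum_of_subset_of_nonneg (Finset.filter_subset _ _) ?_
    intro i _ _
    positivity
  calc (((Icc 1 x).filter (fun m => B2 y z m)).card : ℝ)
      ≤ ∑ p ∈ S, ∑ r ∈ T p, (x : ℝ) / ((p * r : ℕ) : ℝ) := h1
    _ ≤ ∑ p ∈ S, (x * (C * Real.log x * Q)) * (1 / p) := Finset.sum_le_sum h3
    _ = (x * (C * Real.log x * Q)) * ∑ p ∈ S, (1 : ℝ) / p := by rw [Finset.mul_sum]
    _ ≤ (x * (C * Real.log x * Q)) * (1 + Real.log x) :=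
        mul_le_mul_of_nonneg_left h8 (by positivity)
    _ ≤ (x * (C * Real.log x * Q)) * (2 * Real.log x) :=
        mul_le_mul_of_nonneg_left (by linarith) (by positivity)
    _ = 2 * C * x * Real.log x ^ 2 * Q := by ring

end Pool.CHD
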