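import Pool.Agent.Lib.MP_f4ebb7_co.CHD.Defs

/-! CHD-CB4: the integers with a prime factor `p > y` modulo which some `2 ≤ r ≤ z` has a small order.

PROOF. Call a prime `p` exceptional if `p ∣ r^k - 1` for some `2 ≤ r ≤ z`, `1 ≤ k ≤ p^(1/2-η)`. Exceptional primes in `(Y, 2Y]`, `Y ≥ y ≥ 3`: for given `r, k` the
primes `p > Y ≥ 3` dividing `r^k - 1` (which is `≥ 1` and `< z^k`) number at most `log (z^k)/log 3 ≤ k z` (their product divides it), and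
`k ≤ K = (2Y)^(1/2-η)`. So at most `z * ∑_{k ≤ K} k z ≤ z² K² = z² (2Y)^(1-2η)` exceptional primes in the block, the sum of `1/p` over them is
`≤ 2 z² (2Y)^(-2η)`. Blocks `Y = 2^i y`: the sum of `1/p` over all exceptional `p > y` with `p ≤ x` is `≤ 2 z² y^(-2η) ∑_i 2^(-2η (i+1)) ≤ C_η z² y^(-2η)`. The number of
`m ≤ x` with `B4 η y z m` is at most `∑_p x/p`.
-/

set_option autoImplicit false

namespace Pool.CHD

open Finset

private theorem cb4_card (r k z x : ℕ) (hr : 2 ≤ r) (hrz : r ≤ z) (hk : 1 ≤ k) :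
    ((Icc 1 x).filter (fun p => p.Prime ∧ p ∣ r ^ k - 1)).card ≤ k * z := by
  set S := (Icc 1 x).filter (fun p => p.Prime ∧ p ∣ r ^ k - 1) with hS
  have hrk : 1 < r ^ k := Nat.one_lt_pow (by omega) (by omega)
  have h1 : ∏ p ∈ S, p ∣ r ^ k - 1 :=
    Finset.prod_primes_dvd _ (fun p hp => ((Finset.mem_filter.1 hp).2.1).prime)
      (fun p hp => (Finset.mem_filter.1 hp).2.2)
  have h2 : ∏ p ∈ S, p ≤ r ^ k - 1 := Nat.le_of_dvd (by omega) h1
  have h3 : 2 ^ S.card ≤ ∏ p ∈ S, p := by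
    rw [← Finset.prod_const]
    exact Finset.prod_le_prod' (fun p hp => ((Finset.mem_filter.1 hp).2.1).two_le)
  have h4 : r ^ k ≤ 2 ^ (k * z) := by
    calc r ^ k ≤ (2 ^ z) ^ k := Nat.pow_le_pow_left (hrz.trans (Nat.lt_two_pow_self).le) k
      _ = 2 ^ (k * z) := by rw [← pow_mul, mul_comm]
  have h5 : 2 ^ S.card < 2 ^ (k * z) := by omega
  exact ((Nat.pow_lt_pow_iff_right (by norm_num)).1 h5).le

private theorem cb4_dvd (x p : ℕ) (hp : 1 ≤ p) :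
    (((Icc 1 x).filter (fun m => p ∣ m)).card : ℝ) ≤ (x : ℝ) / p := by
  have h1 : ((Icc 1 x).filter (fun m => p ∣ m)).card ≤ x / p := by
    have h2 : ((Icc 1 x).filter (fun m => p ∣ m)).card ≤ (Icc 1 (x / p)).card := by
      refine Finset.card_le_card_of_injOn (fun m => m / p) ?_ ?_
      · intro m hm
        obtain ⟨h3, h4⟩ := Finset.mem_filter.1 (Finset.mem_coe.1 hm)
        obtain ⟨h5, h6⟩ := Finset.mem_Icc.1 h3
        refine Finset.mem_coe.2 (Finset.mem_Icc.2 ⟨?_, Nat.div_le_div_right h6⟩)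
        exact Nat.div_pos (Nat.le_of_dvd (by omega) h4) (by omega)
      · intro m hm m' hm' h
        obtain ⟨_, h4⟩ := Finset.mem_filter.1 (Finset.mem_coe.1 hm)
        obtain ⟨_, h5⟩ := Finset.mem_filter.1 (Finset.mem_coe.1 hm')
        have h : m / p = m' / p := h
        rw [← Nat.div_mul_cancel h4, h, Nat.div_mul_cancel h5]
    simpa using h2
  have h3 : ((x / p : ℕ) : ℝ) ≤ (x : ℝ) / p := Nat.cast_div_le
  exact (Nat.cast_le.2 h1).trans h3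

open Classical in
private theorem cb4_blk (η : ℝ) (hη : 0 < η) (hη2 : η < 1 / 4) (x y z i : ℕ) (hy : 3 ≤ y) :
    (((Icc 1 x).filter (fun p => p.Prime ∧ p ≤ 2 ^ (i + 1) * y ∧ ∃ r k : ℕ, 2 ≤ r ∧ r ≤ z ∧
      1 ≤ k ∧ (k : ℝ) ≤ (p : ℝ) ^ (1 / 2 - η) ∧ p ∣ r ^ k - 1)).card : ℝ) ≤
      (z : ℝ) ^ 2 * ((2 : ℝ) ^ (i + 1) * y) ^ (1 - 2 * η) := by
  set T : ℝ := (2 : ℝ) ^ (i + 1) * y with hT
  have hT0 : 0 < T := by
    have : (0 : ℝ) < y := by exact_mod_cast (by omega : 0 < y)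
    positivity
  set n : ℕ := ⌊T ^ (1 / 2 - η)⌋₊ with hn
  have hnT : (n : ℝ) ≤ T ^ (1 / 2 - η) := Nat.floor_le (by positivity)
  have h1 : ((Icc 1 x).filter (fun p => p.Prime ∧ p ≤ 2 ^ (i + 1) * y ∧ ∃ r k : ℕ, 2 ≤ r ∧ r ≤ z ∧
      1 ≤ k ∧ (k : ℝ) ≤ (p : ℝ) ^ (1 / 2 - η) ∧ p ∣ r ^ k - 1)) ⊆
      (Icc 2 z).biUnion (fun r => (Icc 1 n).biUnion (fun k =>
        (Icc 1 x).filter (fun p => p.Prime ∧ p ∣ r ^ k - 1))) := by
    intro p hp
    obtain ⟨hpx, hpp, hpT, r, k, hr, hrz, hk, hkp, hd⟩ := Finset.mem_filter.1 hp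
    refine Finset.mem_biUnion.2 ⟨r, Finset.mem_Icc.2 ⟨hr, hrz⟩, Finset.mem_biUnion.2 ⟨k,
      Finset.mem_Icc.2 ⟨hk, ?_⟩, Finset.mem_filter.2 ⟨hpx, hpp, hd⟩⟩⟩
    refine Nat.le_floor (hkp.trans ?_)
    refine Real.rpow_le_rpow (by positivity) ?_ (by linarith)
    rw [hT]
    exact_mod_cast hpT
  have h2 : ((Icc 1 x).filter (fun p => p.Prime ∧ p ≤ 2 ^ (i + 1) * y ∧ ∃ r k : ℕ, 2 ≤ r ∧ r ≤ z ∧
      1 ≤ k ∧ (k : ℝ) ≤ (p : ℝ) ^ (1 / 2 - η) ∧ p ∣ r ^ k - 1)).card ≤ z * (n * (n * z)) := by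
    refine (Finset.card_le_card h1).trans (Finset.card_biUnion_le.trans ?_)
    refine (Finset.sum_le_card_nsmul _ _ (n * (n * z)) (fun r hr => ?_)).trans ?_
    · refine Finset.card_biUnion_le.trans ?_
      refine (Finset.sum_le_card_nsmul _ _ (n * z) (fun k hk => ?_)).trans ?_
      · refine (cb4_card r k z x (Finset.mem_Icc.1 hr).1 (Finset.mem_Icc.1 hr).2
          (Finset.mem_Icc.1 hk).1).trans ?_
        exact Nat.mul_le_mul_right _ (Finset.mem_Icc.1 hk).2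
      · simp
    · rw [smul_eq_mul]
      refine Nat.mul_le_mul_right _ ?_
      rw [Nat.card_Icc]
      omega
  have h3 : ((z * (n * (n * z)) : ℕ) : ℝ) ≤ (z : ℝ) ^ 2 * T ^ (1 - 2 * η) := by
    push_cast
    have h4 : (n : ℝ) ^ 2 ≤ (T ^ (1 / 2 - η)) ^ 2 := pow_le_pow_left₀ (by positivity) hnT 2
    have h5 : (T ^ (1 / 2 - η)) ^ 2 = T ^ (1 - 2 * η) := by
      rw [← Real.rpow_natCast, ← Real.rpow_mul hT0.le]
      congr 1
      push_cast
      ring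
    rw [h5] at h4
    calc (z : ℝ) * (n * (n * z)) = (z : ℝ) ^ 2 * (n : ℝ) ^ 2 := by ring
      _ ≤ (z : ℝ) ^ 2 * T ^ (1 - 2 * η) := mul_le_mul_of_nonneg_left h4 (by positivity)
  exact (Nat.cast_le.2 h2).trans h3

open Classical in
theorem cb4 (η : ℝ) (hη : 0 < η) (hη2 : η < 1 / 4) : ∃ C : ℝ, 0 < C ∧ ∀ x y z : ℕ, 1 ≤ x → 3 ≤ y → 2 ≤ z →
    (((Icc 1 x).filter (fun m => B4 η y z m)).card : ℝ) ≤ C * x * (z : ℝ) ^ 2 * (y : ℝ) ^ (-(2 * η)) := by
  set ρ : ℝ := (2 : ℝ) ^ (-(2 * η)) with hρ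
  have hρ0 : 0 < ρ := by positivity
  have hρ1 : ρ < 1 := Real.rpow_lt_one_of_one_lt_of_neg (by norm_num) (by linarith)
  refine ⟨2 / (1 - ρ), by have := sub_pos.2 hρ1; positivity, ?_⟩
  intro x y z hx hy hz
  have hy0 : (0 : ℝ) < y := by exact_mod_cast (by omega : 0 < y)
  have hx0 : (0 : ℝ) < x := by exact_mod_cast (by omega : 0 < x)
  let E : ℕ → Finset ℕ := fun i => (Icc 1 x).filter (fun p => p.Prime ∧ p ≤ 2 ^ (i + 1) * y ∧
    ∃ r k : ℕ, 2 ≤ r ∧ r ≤ z ∧ 1 ≤ k ∧ (k : ℝ) ≤ (p : ℝ) ^ (1 / 2 - η) ∧ p ∣ r ^ k - 1)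
  have hsub : (Icc 1 x).filter (fun m => B4 η y z m) ⊆ (range (x + 1)).biUnion (fun i =>
      ((E i).filter (fun p => 2 ^ i * y < p)).biUnion
        (fun p => (Icc 1 x).filter (fun m => p ∣ m))) := by
    intro m hm
    obtain ⟨hmx, p, r, k, hp, hpm, hyp, hr, hrz, hk, hkp, hd⟩ := Finset.mem_filter.1 hm
    have hm1 := Finset.mem_Icc.1 hmx
    have hpx : p ≤ x := (Nat.le_of_dvd (by omega) hpm).trans hm1.2
    have hq1 : 1 ≤ (p - 1) / y := Nat.div_pos (by omega) (by omega)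
    set q := (p - 1) / y with hq
    have h1 : 2 ^ Nat.log 2 q ≤ q := Nat.pow_log_le_self 2 (by omega)
    have h2 : q < 2 ^ (Nat.log 2 q + 1) := Nat.lt_pow_succ_log_self (by norm_num) q
    have h3 : q * y ≤ p - 1 := Nat.div_mul_le_self _ _
    have h4 : p - 1 < (q + 1) * y := by
      have := Nat.lt_div_mul_add (a := p - 1) (b := y) (by omega)
      rw [add_mul, one_mul]
      exact this
    have h5 : 2 ^ Nat.log 2 q * y ≤ q * y := Nat.mul_le_mul_right _ h1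
    have h6 : (q + 1) * y ≤ 2 ^ (Nat.log 2 q + 1) * y := Nat.mul_le_mul_right _ h2
    have h7 : Nat.log 2 q < x + 1 := by
      have h8 : Nat.log 2 q < 2 ^ Nat.log 2 q := Nat.lt_two_pow_self
      have h9 : q ≤ p - 1 := Nat.div_le_self _ _
      omega
    refine Finset.mem_biUnion.2 ⟨Nat.log 2 q, Finset.mem_range.2 h7,
      Finset.mem_biUnion.2 ⟨p, Finset.mem_filter.2 ⟨Finset.mem_filter.2
        ⟨Finset.mem_Icc.2 ⟨hp.one_lt.le, hpx⟩, hp, by omega, r, k, hr, hrz, hk, hkp, hd⟩,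
          by have := hp.one_lt; omega⟩, Finset.mem_filter.2 ⟨hmx, hpm⟩⟩⟩
  have hblk : ∀ i : ℕ, ((((E i).filter (fun p => 2 ^ i * y < p)).biUnion
      (fun p => (Icc 1 x).filter (fun m => p ∣ m))).card : ℝ) ≤
      2 * x * (z : ℝ) ^ 2 * (y : ℝ) ^ (-(2 * η)) * ρ ^ (i + 1) := by
    intro i
    have h1 : ((((E i).filter (fun p => 2 ^ i * y < p)).biUnion
      (fun p => (Icc 1 x).filter (fun m => p ∣ m))).card : ℝ) ≤
        ∑ p ∈ (E i).filter (fun p => 2 ^ i * y < p),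
          (((Icc 1 x).filter (fun m => p ∣ m)).card : ℝ) := by
      exact_mod_cast Finset.card_biUnion_le
    have h2 : ∑ p ∈ (E i).filter (fun p => 2 ^ i * y < p),
          (((Icc 1 x).filter (fun m => p ∣ m)).card : ℝ) ≤
        ((E i).filter (fun p => 2 ^ i * y < p)).card • ((x : ℝ) / (2 ^ i * y)) := by
      refine Finset.sum_le_card_nsmul _ _ _ (fun p hp => ?_)
      have hp2 := (Finset.mem_filter.1 hp).2
      refine (cb4_dvd x p (by omega)).trans ?_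
      refine div_le_div_of_nonneg_left hx0.le (by positivity) ?_
      have : ((2 ^ i * y : ℕ) : ℝ) ≤ (p : ℝ) := by exact_mod_cast hp2.le
      push_cast at this
      exact this
    have h3 : (((E i).filter (fun p => 2 ^ i * y < p)).card : ℝ) ≤
        (z : ℝ) ^ 2 * ((2 : ℝ) ^ (i + 1) * y) ^ (1 - 2 * η) :=
      (Nat.cast_le.2 (Finset.card_filter_le _ _)).trans (cb4_blk η hη hη2 x y z i hy)
    have hT0 : (0 : ℝ) < (2 : ℝ) ^ (i + 1) * y := by positivity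
    have h4 : ((2 : ℝ) ^ (i + 1) * y) ^ (1 - 2 * η) =
        ((2 : ℝ) ^ (i + 1) * y) * (ρ ^ (i + 1) * (y : ℝ) ^ (-(2 * η))) := by
      rw [sub_eq_add_neg, Real.rpow_add hT0, Real.rpow_one,
        Real.mul_rpow (by positivity) hy0.le, hρ, ← Real.rpow_natCast (2 : ℝ) (i + 1),
        ← Real.rpow_mul (by norm_num : (0 : ℝ) ≤ 2), ← Real.rpow_natCast _ (i + 1),
        ← Real.rpow_mul (by norm_num : (0 : ℝ) ≤ 2), mul_comm (((i + 1 : ℕ) : ℝ)) (-(2 * η))]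
    refine h1.trans (h2.trans ?_)
    rw [nsmul_eq_mul]
    refine (mul_le_mul_of_nonneg_right h3 (by positivity)).trans (le_of_eq ?_)
    rw [h4]
    have h5 : ((2 : ℝ) ^ i * y) ≠ 0 := by positivity
    field_simp
    ring
  have hsum : ∑ i ∈ range (x + 1), ρ ^ (i + 1) ≤ 1 / (1 - ρ) := by
    have h1 : ∑ i ∈ range (x + 1), ρ ^ (i + 1) ≤ ∑ i ∈ range (x + 1), ρ ^ i := by
      refine Finset.sum_le_sum fun i _ => ?_
      exact pow_le_pow_of_le_one hρ0.le hρ1.le (by omega)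
    refine h1.trans ?_
    rw [one_div]
    rw [← tsum_geometric_of_lt_one hρ0.le hρ1]
    exact (summable_geometric_of_lt_one hρ0.le hρ1).sum_le_tsum (range (x + 1))
      (fun _ _ => by positivity)
  have h1 : (((Icc 1 x).filter (fun m => B4 η y z m)).card : ℝ) ≤
      ∑ i ∈ range (x + 1), 2 * x * (z : ℝ) ^ 2 * (y : ℝ) ^ (-(2 * η)) * ρ ^ (i + 1) := by
    refine (Nat.cast_le.2 (Finset.card_le_card hsub)).trans ?_
    refine (Nat.cast_le.2 Finset.card_biUnion_le).trans ?_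
    rw [Nat.cast_sum]
    exact Finset.sum_le_sum fun i _ => hblk i
  refine h1.trans ?_
  rw [← Finset.mul_sum]
  refine (mul_le_mul_of_nonneg_left hsum (by positivity)).trans (le_of_eq ?_)
  ring

end Pool.CHD
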