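import Pool.Agent.Lib.MP_f4ebb7_co.CHD.Sm

/-! CHD-CB5: the integers with a large smooth part.

PROOF. `O z m = ∑_{r ≤ z prime} v_r(m)`. `sm z m ≤ z^(O z m)`, so `sm z m > T ≥ z^K` gives `O z m > K`, `(3/2)^(O z m) ≥ (3/2)^K`. It remains to see
`F z x := ∑_{m ≤ x} (3/2)^(O z m) ≤ x z` for all `x`. Induction on `z` (`z ≥ 1`; `F 1 x = x`): if `z + 1 = r` is prime: `(3/2)^(v) = 1 + ∑_{a=1}^{v} (1/2)(3/2)^(a-1)`, so
`F r x = ∑_m g(m) (3/2)^(v_r m) = ∑_{a ≥ 0} w_a ∑_{m ≤ x, r^a ∣ m} g(m)`, `w_0 = 1`, `w_a = (1/2)(3/2)^(a-1)`, `g = (3/2)^(O z ·)`, and `g(r^a m') = g(m')` (`O z` does not see `r`), so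
`∑_{m ≤ x, r^a ∣ m} g = F z (x / r^a) ≤ z x / r^a`. Total `≤ z x (1 + (1/2) ∑_{a≥1} (3/2)^(a-1)/r^a) = z x (1 + (1/2)/(r - 3/2)) = z x (2r-2)/(2r-3) ≤ z x * r/(r-1)
= x r` as `z = r - 1` (`(2r-2)(r-1) ≤ r (2r-3)` for `r ≥ 2`). If `z + 1` is not prime `F (z+1) x = F z x`. (`a ≤ log_2 x` suffices, a finite geometric sum.)
So `#{m ≤ x : sm z m > T} (3/2)^K ≤ x z`.
-/

set_option autoImplicit false

namespace Pool.CHD

open Finset

/-- number of prime factors `≤ z` with multiplicity -/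
private def cbO (z m : ℕ) : ℕ := ∑ r ∈ (Icc 1 z).filter Nat.Prime, m.factorization r

private theorem sm_le_pow (z m : ℕ) (hz : 1 ≤ z) : sm z m ≤ z ^ cbO z m := by
  unfold sm cbO
  calc ∏ r ∈ m.primeFactors.filter (fun r => r ≤ z), r ^ (m.factorization r)
      ≤ ∏ r ∈ m.primeFactors.filter (fun r => r ≤ z), z ^ (m.factorization r) := by
        refine prod_le_prod' fun r hr => ?_
        exact Nat.pow_le_pow_left (mem_filter.1 hr).2 _
    _ = z ^ ∑ r ∈ m.primeFactors.filter (fun r => r ≤ z), m.factorization r := by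
        rw [prod_pow_eq_pow_sum]
    _ ≤ z ^ ∑ r ∈ (Icc 1 z).filter Nat.Prime, m.factorization r := by
        refine Nat.pow_le_pow_right hz (sum_le_sum_of_subset ?_)
        intro r hr
        rw [mem_filter] at hr
        have hp := Nat.prime_of_mem_primeFactors hr.1
        rw [mem_filter, mem_Icc]
        exact ⟨⟨hp.one_lt.le, hr.2⟩, hp⟩

private theorem cbO_succ_prime (z m : ℕ) (hp : (z + 1).Prime) :
    cbO (z + 1) m = cbO z m + m.factorization (z + 1) := by
  unfold cbO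
  have h : (Icc 1 (z + 1)).filter Nat.Prime = insert (z + 1) ((Icc 1 z).filter Nat.Prime) := by
    ext q
    simp only [mem_filter, mem_Icc, mem_insert]
    constructor
    · rintro ⟨⟨h1, h2⟩, h3⟩
      rcases Nat.lt_or_ge q (z + 1) with h | h
      · exact Or.inr ⟨⟨h1, by omega⟩, h3⟩
      · exact Or.inl (by omega)
    · rintro (h | ⟨⟨h1, h2⟩, h3⟩)
      · subst h
        exact ⟨⟨by omega, le_rfl⟩, hp⟩
      · exact ⟨⟨h1, by omega⟩, h3⟩
  rw [h, sum_insert, add_comm]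
  simp

private theorem cbO_succ_not_prime (z m : ℕ) (hp : ¬ (z + 1).Prime) :
    cbO (z + 1) m = cbO z m := by
  unfold cbO
  have h : (Icc 1 (z + 1)).filter Nat.Prime = (Icc 1 z).filter Nat.Prime := by
    ext q
    simp only [mem_filter, mem_Icc]
    constructor
    · rintro ⟨⟨h1, h2⟩, h3⟩
      refine ⟨⟨h1, ?_⟩, h3⟩
      rcases Nat.lt_or_ge q (z + 1) with h | h
      · omega
      · exact absurd (show (z + 1).Prime by rwa [show z + 1 = q by omega]) hp
    · rintro ⟨⟨h1, h2⟩, h3⟩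
      exact ⟨⟨h1, by omega⟩, h3⟩
  rw [h]

private theorem cbO_mul (z m : ℕ) (hp : (z + 1).Prime) (hm : m ≠ 0) :
    cbO z ((z + 1) * m) = cbO z m := by
  unfold cbO
  refine sum_congr rfl fun q hq => ?_
  rw [mem_filter, mem_Icc] at hq
  rw [Nat.factorization_mul hp.ne_zero hm, Finsupp.add_apply, hp.factorization,
    Finsupp.single_eq_of_ne (by omega), zero_add]

private noncomputable def cbF (z x : ℕ) : ℝ := ∑ m ∈ Icc 1 x, (3 / 2 : ℝ) ^ cbO z m

private theorem sum_dvd (r x : ℕ) (hr : 0 < r) (f : ℕ → ℝ) :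
    ∑ m ∈ (Icc 1 x).filter (fun m => r ∣ m), f m = ∑ m ∈ Icc 1 (x / r), f (r * m) := by
  symm
  refine sum_bij (fun m _ => r * m) ?_ ?_ ?_ ?_
  · intro m hm
    rw [mem_Icc, Nat.le_div_iff_mul_le hr] at hm
    rw [mem_filter, mem_Icc]
    refine ⟨⟨Nat.mul_pos hr hm.1, by rw [mul_comm]; exact hm.2⟩, dvd_mul_right r m⟩
  · intro a _ b _ h
    exact Nat.eq_of_mul_eq_mul_left hr h
  · intro m hm
    rw [mem_filter, mem_Icc] at hm
    obtain ⟨⟨h1, h2⟩, k, rfl⟩ := hm
    refine ⟨k, ?_, rfl⟩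
    rw [mem_Icc, Nat.le_div_iff_mul_le hr]
    refine ⟨?_, by rw [mul_comm]; exact h2⟩
    rcases Nat.eq_zero_or_pos k with h | h
    · subst h
      simp at h1
    · exact h
  · intro m _
    rfl

private theorem cbF_rec (z x : ℕ) (hp : (z + 1).Prime) :
    cbF (z + 1) x = cbF z x - cbF z (x / (z + 1)) + 3 / 2 * cbF (z + 1) (x / (z + 1)) := by
  have hr : 0 < z + 1 := Nat.succ_pos z
  have h1 : cbF (z + 1) x = ∑ m ∈ (Icc 1 x).filter (fun m => (z + 1) ∣ m), (3 / 2 : ℝ) ^ cbO (z + 1) m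
      + ∑ m ∈ (Icc 1 x).filter (fun m => ¬ (z + 1) ∣ m), (3 / 2 : ℝ) ^ cbO (z + 1) m :=
    (sum_filter_add_sum_filter_not _ _ _).symm
  have h2 : cbF z x = ∑ m ∈ (Icc 1 x).filter (fun m => (z + 1) ∣ m), (3 / 2 : ℝ) ^ cbO z m
      + ∑ m ∈ (Icc 1 x).filter (fun m => ¬ (z + 1) ∣ m), (3 / 2 : ℝ) ^ cbO z m :=
    (sum_filter_add_sum_filter_not _ _ _).symm
  have h3 : ∑ m ∈ (Icc 1 x).filter (fun m => ¬ (z + 1) ∣ m), (3 / 2 : ℝ) ^ cbO (z + 1) m
      = ∑ m ∈ (Icc 1 x).filter (fun m => ¬ (z + 1) ∣ m), (3 / 2 : ℝ) ^ cbO z m := by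
    refine sum_congr rfl fun m hm => ?_
    rw [cbO_succ_prime z m hp, Nat.factorization_eq_zero_of_not_dvd (mem_filter.1 hm).2, add_zero]
  have h4 : ∑ m ∈ (Icc 1 x).filter (fun m => (z + 1) ∣ m), (3 / 2 : ℝ) ^ cbO (z + 1) m
      = 3 / 2 * cbF (z + 1) (x / (z + 1)) := by
    rw [sum_dvd (z + 1) x hr, cbF, mul_sum]
    refine sum_congr rfl fun m hm => ?_
    have hm0 : m ≠ 0 := by
      rw [mem_Icc] at hm
      omega
    rw [cbO_succ_prime z _ hp, cbO_succ_prime z _ hp, cbO_mul z m hp hm0,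
      Nat.factorization_mul hp.ne_zero hm0, Finsupp.add_apply, hp.factorization_self]
    rw [show cbO z m + (1 + m.factorization (z + 1)) = (cbO z m + m.factorization (z + 1)) + 1 by
      ring, pow_succ]
    ring
  have h5 : ∑ m ∈ (Icc 1 x).filter (fun m => (z + 1) ∣ m), (3 / 2 : ℝ) ^ cbO z m
      = cbF z (x / (z + 1)) := by
    rw [sum_dvd (z + 1) x hr, cbF]
    refine sum_congr rfl fun m hm => ?_
    have hm0 : m ≠ 0 := by
      rw [mem_Icc] at hm
      omega
    rw [cbO_mul z m hp hm0]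
  rw [h1, h2, h3, h4, h5]
  ring

private theorem cbF_le (z : ℕ) : ∀ x : ℕ, cbF (z + 1) x ≤ x * ((z + 1 : ℕ) : ℝ) := by
  induction z with
  | zero =>
    intro x
    have h : ∀ m : ℕ, cbO (0 + 1) m = 0 := by
      intro m
      unfold cbO
      rw [sum_eq_zero]
      intro q hq
      rw [mem_filter, mem_Icc] at hq
      have := hq.2.one_lt
      omega
    unfold cbF
    simp [h]
  | succ z ih =>
    intro x
    by_cases hp : (z + 1 + 1).Prime
    · have key : ∀ y : ℕ, cbF (z + 1 + 1) y - cbF (z + 1) y ≤ y := by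
        intro y
        induction y using Nat.strong_induction_on with
        | _ y ihy =>
          rcases Nat.eq_zero_or_pos y with hy | hy
          · subst hy
            simp [cbF]
          · have h1 := cbF_rec (z + 1) y hp
            have h2 := ihy (y / (z + 1 + 1)) (Nat.div_lt_self hy (by omega))
            have h3 := ih (y / (z + 1 + 1))
            have h4 : ((y / (z + 1 + 1) : ℕ) : ℝ) * ((z : ℝ) + 2) ≤ y := by
              have h5 : (y / (z + 1 + 1)) * (z + 2) ≤ y := Nat.div_mul_le_self y (z + 2)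
              exact_mod_cast h5
            set t : ℝ := ((y / (z + 1 + 1) : ℕ) : ℝ) with ht
            have ht0 : 0 ≤ t := by positivity
            have hz0 : (0 : ℝ) ≤ z := by positivity
            push_cast at h3
            have h6 : 3 / 2 * t + 1 / 2 * (t * ((z : ℝ) + 1)) ≤ t * ((z : ℝ) + 2) := by
              nlinarith
            linarith
      have h1 := key x
      have h2 := ih x
      push_cast at h2 ⊢
      linarith
    · have h1 : cbF (z + 1 + 1) x = cbF (z + 1) x := by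
        unfold cbF
        refine sum_congr rfl fun m _ => ?_
        rw [cbO_succ_not_prime (z + 1) m hp]
      rw [h1]
      refine (ih x).trans ?_
      have : (0 : ℝ) ≤ x := by positivity
      push_cast
      nlinarith

theorem cb5 (x z T K : ℕ) (hz : 2 ≤ z) (hT : z ^ K ≤ T) :
    (((Icc 1 x).filter (fun m => T < sm z m)).card : ℝ) ≤ x * z * (2 / 3 : ℝ) ^ K := by
  have h1 : (((Icc 1 x).filter (fun m => T < sm z m)).card : ℝ) * (3 / 2 : ℝ) ^ K ≤ x * z := by
    calc (((Icc 1 x).filter (fun m => T < sm z m)).card : ℝ) * (3 / 2 : ℝ) ^ K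
        = ∑ _m ∈ (Icc 1 x).filter (fun m => T < sm z m), (3 / 2 : ℝ) ^ K := by
          rw [sum_const, nsmul_eq_mul]
      _ ≤ ∑ m ∈ (Icc 1 x).filter (fun m => T < sm z m), (3 / 2 : ℝ) ^ cbO z m := by
          refine sum_le_sum fun m hm => ?_
          have h2 : T < sm z m := (mem_filter.1 hm).2
          have h3 := sm_le_pow z m (by omega)
          have h4 : z ^ K < z ^ cbO z m := lt_of_le_of_lt hT (lt_of_lt_of_le h2 h3)
          have h5 : K < cbO z m := (Nat.pow_lt_pow_iff_right (by omega)).1 h4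
          exact pow_le_pow_right₀ (by norm_num) h5.le
      _ ≤ ∑ m ∈ Icc 1 x, (3 / 2 : ℝ) ^ cbO z m :=
          sum_le_sum_of_subset_of_nonneg (filter_subset _ _) fun m _ _ => by positivity
      _ ≤ x * z := by
          obtain ⟨y, rfl⟩ : ∃ y, z = y + 1 := ⟨z - 1, by omega⟩
          exact cbF_le y x
  have h2 : (2 / 3 : ℝ) ^ K * (3 / 2 : ℝ) ^ K = 1 := by
    rw [← mul_pow]
    norm_num
  calc (((Icc 1 x).filter (fun m => T < sm z m)).card : ℝ)
      = (((Icc 1 x).filter (fun m => T < sm z m)).card : ℝ) * (3 / 2 : ℝ) ^ K * (2 / 3 : ℝ) ^ K := by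
        rw [mul_assoc, mul_comm ((3 / 2 : ℝ) ^ K), h2, mul_one]
    _ ≤ x * z * (2 / 3 : ℝ) ^ K := mul_le_mul_of_nonneg_right h1 (by positivity)

end Pool.CHD
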