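import Pool.Agent.Lib.MP_f4ebb7_co.CHD.Comp

/-! CHD-Coef: an eigenvector of `τ` with small coefficients is small.

PROOF. By `comp_coef` and `comp_eig`, `X = ∑_{i ∈ S} f i z^i`, `S = {i : ZMod N | i.val ≡ k mod p}`, `#S ≤ N / p` (`p ∣ N`: the residues
`0 ≤ i < N` with `i % p = k % p`; `Nat.count_modEq_card` or the injection `i ↦ i / p` into `range (N / p)`). For `s : ZMod N` let
`F s = ∑_{i ∈ S} f i e(s i / N)` (`e(j/N) = io z ^ j = ZMod.stdAddChar`-like; `io z ^ (s.val * i.val)`). Parseval: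
`∑_{s : ZMod N} ‖F s‖² = N ∑_{i ∈ S} (f i)²` (expand, `∑_s w^(s (i - j)) = N` or `0`, `w = io z` primitive `N`-th root of unity).
For a unit `s = t`: `F s = io (sg t X)`, `‖F s‖² = n`; drop the nonunits: `card (ZMod N)ˣ * n ≤ N ∑_{i ∈ S} (f i)² ≤ N (N/p) B²`; the units
inject into `ZMod N` (`Units.val_injective`, `Finset.sum_le_univ_sum_of_nonneg` on the image). `ZMod.card_units_eq_totient`.
Multiply by `p`.
-/

set_option autoImplicit false

namespace Pool.CHD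

open Finset

private theorem coef_val_sum {N : ℕ} [NeZero N] (g : ℕ → ℂ) :
    ∑ s : ZMod N, g s.val = ∑ m ∈ range N, g m := by
  refine Finset.sum_bij (fun s _ => s.val) ?_ ?_ ?_ ?_
  · intro s _
    exact mem_range.2 (ZMod.val_lt s)
  · intro s _ t _ h
    exact ZMod.val_injective N h
  · intro m hm
    exact ⟨(m : ZMod N), mem_univ _, ZMod.val_cast_of_lt (mem_range.1 hm)⟩
  · intro s _
    rfl

private theorem coef_orth {N : ℕ} [NeZero N] {w : ℂ} (hw : IsPrimitiveRoot w N) (i j : ZMod N) :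
    ∑ s : ZMod N, w ^ (s.val * i.val) * (starRingEnd ℂ) (w ^ (s.val * j.val)) =
      if i = j then (N : ℂ) else 0 := by
  have hw1 : ‖w‖ = 1 := hw.norm'_eq_one (NeZero.ne N)
  have hw0 : w ≠ 0 := hw.ne_zero (NeZero.ne N)
  have hconj : (starRingEnd ℂ) w = w⁻¹ := (Complex.inv_eq_conj hw1).symm
  have hterm : ∀ s : ZMod N, w ^ (s.val * i.val) * (starRingEnd ℂ) (w ^ (s.val * j.val)) =
      (w ^ i.val * (w⁻¹) ^ j.val) ^ s.val := by
    intro s
    rw [map_pow, hconj, mul_comm s.val, mul_comm s.val, pow_mul, pow_mul, mul_pow]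
  simp_rw [hterm]
  rw [coef_val_sum (fun m => (w ^ i.val * (w⁻¹) ^ j.val) ^ m)]
  by_cases hij : i = j
  · rw [if_pos hij, hij]
    have h1 : w ^ j.val * (w⁻¹) ^ j.val = 1 := by
      rw [← mul_pow, mul_inv_cancel₀ hw0, one_pow]
    rw [h1]
    simp
  · rw [if_neg hij]
    have hq : w ^ i.val * (w⁻¹) ^ j.val ≠ 1 := by
      intro h
      apply hij
      apply ZMod.val_injective N
      refine hw.pow_inj (ZMod.val_lt i) (ZMod.val_lt j) ?_
      rw [inv_pow] at h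
      exact (mul_inv_eq_one₀ (pow_ne_zero _ hw0)).1 h
    have hqN : (w ^ i.val * (w⁻¹) ^ j.val) ^ N = 1 := by
      rw [mul_pow, ← pow_mul, ← pow_mul, mul_comm i.val, mul_comm j.val, pow_mul, pow_mul, inv_pow,
        hw.pow_eq_one, inv_one, one_pow, one_pow, mul_one]
    rw [geom_sum_eq hq, hqN, sub_self, zero_div]

private theorem coef_parseval {N : ℕ} [NeZero N] {w : ℂ} (hw : IsPrimitiveRoot w N)
    (S : Finset (ZMod N)) (f : ZMod N → ℤ) :
    ∑ s : ZMod N, ‖∑ i ∈ S, (f i : ℂ) * w ^ (s.val * i.val)‖ ^ 2 =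
      (N : ℝ) * ∑ i ∈ S, ((f i : ℤ) : ℝ) ^ 2 := by
  have h1 : ∀ s : ZMod N, ((‖∑ i ∈ S, (f i : ℂ) * w ^ (s.val * i.val)‖ ^ 2 : ℝ) : ℂ) =
      ∑ i ∈ S, ∑ j ∈ S, ((f i : ℂ) * (f j : ℂ)) *
        (w ^ (s.val * i.val) * (starRingEnd ℂ) (w ^ (s.val * j.val))) := by
    intro s
    rw [← Complex.normSq_eq_norm_sq, ← Complex.mul_conj, map_sum, Finset.sum_mul_sum]
    refine Finset.sum_congr rfl fun i _ => Finset.sum_congr rfl fun j _ => ?_
    rw [map_mul, map_intCast]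
    ring
  have h2 : ((∑ s : ZMod N, ‖∑ i ∈ S, (f i : ℂ) * w ^ (s.val * i.val)‖ ^ 2 : ℝ) : ℂ) =
      ((((N : ℝ) * ∑ i ∈ S, ((f i : ℤ) : ℝ) ^ 2 : ℝ)) : ℂ) := by
    rw [Complex.ofReal_sum]
    simp_rw [h1]
    rw [Finset.sum_comm]
    push_cast
    rw [Finset.mul_sum]
    refine Finset.sum_congr rfl fun i hi => ?_
    rw [Finset.sum_comm]
    simp_rw [← Finset.mul_sum, coef_orth hw]
    simp_rw [mul_ite, mul_zero]
    rw [Finset.sum_ite_eq S i, if_pos hi]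
    ring
  exact_mod_cast h2

private theorem coef_card {N p : ℕ} [NeZero N] (hpN : p ∣ N) (k : ℕ) :
    p * (univ.filter (fun i : ZMod N => ((i.val : ℕ) : ZMod p) = (k : ZMod p))).card ≤ N := by
  have h1 : (univ.filter (fun i : ZMod N => ((i.val : ℕ) : ZMod p) = (k : ZMod p))).card ≤
      (range (N / p)).card := by
    refine Finset.card_le_card_of_injOn (fun i => i.val / p) ?_ ?_
    · intro i _
      rw [Finset.mem_coe, mem_range]
      exact Nat.div_lt_div_of_lt_of_dvd hpN (ZMod.val_lt i)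
    · intro i hi j hj hij
      have hi' := (mem_filter.1 hi).2
      have hj' := (mem_filter.1 hj).2
      have h2 : i.val ≡ j.val [MOD p] := (ZMod.natCast_eq_natCast_iff _ _ _).1 (hi'.trans hj'.symm)
      have h3 : i.val / p = j.val / p := hij
      apply ZMod.val_injective N
      rw [← Nat.div_add_mod i.val p, ← Nat.div_add_mod j.val p, h3]
      congr 1
  rw [card_range] at h1
  calc p * _ ≤ p * (N / p) := Nat.mul_le_mul_left _ h1
    _ ≤ N := Nat.mul_div_le _ _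

theorem coef {N : ℕ} [NeZero N] {R : Type} [CommRing R] [IsDomain R] [CharZero R] (C : Cyc N R) {p b M : ℕ}
    (h : Par N p b M) {τ : (ZMod N)ˣ} (hτ : IsTau N p τ) (f : ZMod N → ℤ) (B n : ℕ) (hB : ∀ i, |f i| ≤ B)
    (hn : ∀ t : (ZMod N)ˣ, ‖C.io (C.sg t (∑ i : ZMod N, (f i : R) * C.z ^ i.val))‖ ^ 2 = n) (k : ℕ)
    (hk : C.sg τ (∑ i : ZMod N, (f i : R) * C.z ^ i.val) = C.zp p ^ k * (∑ i : ZMod N, (f i : R) * C.z ^ i.val)) :
    p * (Nat.totient N * n) ≤ N ^ 2 * B ^ 2 := by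
  have hp0 : 0 < p := h.hp.pos
  have : NeZero p := ⟨hp0.ne'⟩
  have hpN : p ∣ N := by
    rw [h.hN]
    exact Dvd.dvd.mul_right (dvd_pow_self p (by have := h.hb; omega)) M
  have hw : IsPrimitiveRoot (C.io C.z) N := by
    rw [C.io_z]
    exact Complex.isPrimitiveRoot_exp N (NeZero.ne N)
  have hX := comp_eig C h hτ (comp_coef C h hτ f) k hk
  set S := univ.filter (fun i : ZMod N => ((i.val : ℕ) : ZMod p) = (k : ZMod p)) with hS
  have hF : ∀ t : (ZMod N)ˣ,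
      ‖∑ i ∈ S, (f i : ℂ) * C.io C.z ^ ((t : ZMod N).val * i.val)‖ ^ 2 = n := by
    intro t
    rw [← hn t, hX]
    congr 2
    rw [map_sum, map_sum]
    refine Finset.sum_congr rfl fun i _ => ?_
    rw [map_mul, map_mul, map_intCast, map_intCast, sg_pow_z, map_pow]
  have hpars := coef_parseval hw S f
  have hlow : ((Nat.totient N : ℕ) : ℝ) * n ≤
      ∑ s : ZMod N, ‖∑ i ∈ S, (f i : ℂ) * C.io C.z ^ (s.val * i.val)‖ ^ 2 := by
    have e1 : ((Nat.totient N : ℕ) : ℝ) * n = ∑ s ∈ univ.image (fun t : (ZMod N)ˣ => (t : ZMod N)),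
        ‖∑ i ∈ S, (f i : ℂ) * C.io C.z ^ (s.val * i.val)‖ ^ 2 := by
      rw [Finset.sum_image (fun x _ y _ hxy => Units.ext hxy)]
      simp_rw [hF]
      rw [Finset.sum_const, card_univ, ZMod.card_units_eq_totient, nsmul_eq_mul]
    rw [e1]
    exact Finset.sum_le_univ_sum_of_nonneg fun s => by positivity
  have hup : ∑ i ∈ S, ((f i : ℤ) : ℝ) ^ 2 ≤ (S.card : ℝ) * (B : ℝ) ^ 2 := by
    rw [← nsmul_eq_mul]
    refine Finset.sum_le_card_nsmul _ _ _ fun i _ => ?_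
    have h1 : |((f i : ℤ) : ℝ)| ≤ (B : ℝ) := by exact_mod_cast hB i
    calc ((f i : ℤ) : ℝ) ^ 2 = |((f i : ℤ) : ℝ)| ^ 2 := (sq_abs _).symm
      _ ≤ (B : ℝ) ^ 2 := pow_le_pow_left₀ (abs_nonneg _) h1 2
  have hcard : (p : ℝ) * (S.card : ℝ) ≤ (N : ℝ) := by
    have := coef_card hpN k
    exact_mod_cast this
  have hfin : (p : ℝ) * (((Nat.totient N : ℕ) : ℝ) * n) ≤ (N : ℝ) ^ 2 * (B : ℝ) ^ 2 := by
    calc (p : ℝ) * (((Nat.totient N : ℕ) : ℝ) * n)
        ≤ (p : ℝ) * ((N : ℝ) * ((S.card : ℝ) * (B : ℝ) ^ 2)) := by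
          refine mul_le_mul_of_nonneg_left ?_ (Nat.cast_nonneg _)
          rw [hpars] at hlow
          exact hlow.trans (mul_le_mul_of_nonneg_left hup (Nat.cast_nonneg _))
      _ = ((p : ℝ) * (S.card : ℝ)) * ((N : ℝ) * (B : ℝ) ^ 2) := by ring
      _ ≤ (N : ℝ) * ((N : ℝ) * (B : ℝ) ^ 2) :=
          mul_le_mul_of_nonneg_right hcard (by positivity)
      _ = (N : ℝ) ^ 2 * (B : ℝ) ^ 2 := by ring
  exact_mod_cast hfin

end Pool.CHD
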