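import Pool.Agent.Lib.MP_f4ebb7_co.CHD.Basic

/-! CHD-Comp: components of an element under `τ = σ_{1 + N/p}`.

PROOF. `tau_z`: `τ (z ^ i) = z ^ i * zp ^ i`: `τ.val ≡ 1 + N/p mod N` (`hτ`, `z_pow_eq_iff`), `z ^ ((1 + N/p) * i)`.
`tau_zp`: `p² ∣ N` gives `N / p * (N / p) ≡ 0 mod N`. `tau_pow`: `τ ^ p = 1`: `(1 + N/p)^p = 1` in `ZMod N` (binomial:
`(N/p)² = 0`, `p * (N/p) = 0`; use `add_pow` or induction `(1 + N/p)^k = 1 + k N/p`).
`comp_exists`: from `span`: `y = ∑ i, c i z^i`, put `comp r = ∑_{i : i.val % p = r.val} c i z^i`, i.e. the filter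
`(i.val : ZMod p) = r`; sum over fibres (`Finset.sum_fiberwise`); `tau_z` and `zp ^ i = zp ^ (i % p)` (`zp_pow_mod`).
`comp_coef`: the same with given coefficients.
`comp_unique`: `d r = c r - c' r` satisfies `∑ d r = 0`, `τ (d r) = zp^r d r`. Apply `τ^i` (`i < p`): `∑_r zp^(r i) d r = 0` (`tau_zp`);
multiply by `zp^(p i - s i)` and sum over `i < p`: `p d s = 0` (`IsPrimitiveRoot.geom_sum_eq_zero`: `∑_{i<p} zp^((r-s) i) = 0` for
`r ≠ s`; use that `zp ^ k` is a primitive `p`-th root for `p ∤ k`, `IsPrimitiveRoot.pow_of_prime`). `p ≠ 0` in the domain `R`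
(`CharZero`). (Simplest: apply `io` and work in `ℂ`.)
`comp_eig`: if `τ X = zp^c X` and `X = ∑ X_r` are components then `X = X_{c mod p}`: the family with `X` at the index `c` and `0`
elsewhere is also a family of components; uniqueness.
`comp_sg`: if `sg t y = y` and `c` are components of `y` then `sg t (c r) = c (t r)`, where `t r` is the product in `ZMod p` with
`(t.val : ZMod p)`: the family `r ↦ sg t (c (t⁻¹ r))` is a family of components of `sg t y = y` (`τ` and `sg t` commute,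
`sg t zp = zp ^ (t.val)`), `t.val` is a unit mod `p` since `p ∣ N`.
-/

set_option autoImplicit false

namespace Pool.CHD

open Finset

variable {N : ℕ} [NeZero N] {R : Type} [CommRing R] [IsDomain R] [CharZero R] (C : Cyc N R)

omit [NeZero N] in
private theorem Comp_dvd {p b M : ℕ} (h : Par N p b M) : p ∣ N ∧ p ∣ N / p := by
  obtain ⟨b', hb'⟩ : ∃ b', b = b' + 2 := ⟨b - 2, by have := h.hb; omega⟩
  have hp := h.hp.pos
  have h1 : N = p * (p * (p ^ b' * M)) := by
    rw [h.hN, hb']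
    ring
  refine ⟨⟨_, h1⟩, ?_⟩
  rw [h1, Nat.mul_div_cancel_left _ hp]
  exact ⟨_, rfl⟩

private theorem Comp_val {p : ℕ} {τ : (ZMod N)ˣ} (hτ : IsTau N p τ) :
    (τ : ZMod N).val ≡ 1 + N / p [MOD N] := by
  rw [← ZMod.natCast_eq_natCast_iff, ZMod.natCast_val, ZMod.cast_id', id_eq, hτ]
  push_cast
  rfl

theorem tau_z {p b M : ℕ} (h : Par N p b M) {τ : (ZMod N)ˣ} (hτ : IsTau N p τ) (i : ℕ) :
    C.sg τ (C.z ^ i) = C.zp p ^ i * C.z ^ i := by
  rw [sg_pow_z, Cyc.zp, ← pow_mul, ← pow_add, z_pow_eq_iff]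
  have h1 := (Comp_val hτ).mul_right i
  have h2 : (1 + N / p) * i = N / p * i + i := by ring
  rw [h2] at h1
  exact h1

theorem tau_zp {p b M : ℕ} (h : Par N p b M) {τ : (ZMod N)ˣ} (hτ : IsTau N p τ) (i : ℕ) :
    C.sg τ (C.zp p ^ i) = C.zp p ^ i := by
  obtain ⟨h1, k, hk⟩ := Comp_dvd h
  have h2 : C.zp p ^ i = C.z ^ (N / p * i) := by rw [Cyc.zp, ← pow_mul]
  rw [h2, tau_z C h hτ, hk, mul_assoc p k i, pow_mul (C.zp p), zp_pow C p h1, one_pow, one_mul]

omit [IsDomain R] [CharZero R] in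
private theorem Comp_tz {p : ℕ} (t : (ZMod N)ˣ) (k : ℕ) :
    C.sg t (C.zp p ^ k) = C.zp p ^ ((t : ZMod N).val * k) := by
  rw [Cyc.zp, ← pow_mul, sg_pow_z, ← pow_mul]
  congr 1
  ring

theorem tau_pow {p b M : ℕ} (h : Par N p b M) {τ : (ZMod N)ˣ} (hτ : IsTau N p τ) : τ ^ p = 1 := by
  obtain ⟨h1, k, hk⟩ := Comp_dvd h
  have hNp : p * (N / p) = N := Nat.mul_div_cancel' h1
  have hpa : (p : ZMod N) * ((N / p : ℕ) : ZMod N) = 0 := by
    rw [← Nat.cast_mul, hNp, ZMod.natCast_self]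
  have haa : ((N / p : ℕ) : ZMod N) * ((N / p : ℕ) : ZMod N) = 0 := by
    have e : ((N / p : ℕ) : ZMod N) * ((N / p : ℕ) : ZMod N) =
        ((p * k : ℕ) : ZMod N) * ((N / p : ℕ) : ZMod N) := by rw [← hk]
    rw [e]
    push_cast
    rw [mul_assoc, mul_comm (k : ZMod N), ← mul_assoc]
    rw [hpa, zero_mul]
  have key : ∀ j : ℕ, (1 + ((N / p : ℕ) : ZMod N)) ^ j = 1 + (j : ZMod N) * ((N / p : ℕ) : ZMod N) := by
    intro j
    induction j with
    | zero => simp
    | succ j ih =>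
      rw [pow_succ, ih]
      have e : (1 + (j : ZMod N) * ((N / p : ℕ) : ZMod N)) * (1 + ((N / p : ℕ) : ZMod N)) =
          1 + ((j + 1 : ℕ) : ZMod N) * ((N / p : ℕ) : ZMod N) +
          (j : ZMod N) * (((N / p : ℕ) : ZMod N) * ((N / p : ℕ) : ZMod N)) := by
        rw [Nat.cast_add, Nat.cast_one]
        ring
      rw [e, haa, mul_zero, add_zero]
  apply Units.ext
  rw [Units.val_pow_eq_pow_val, hτ, key, hpa, add_zero, Units.val_one]

theorem comp_coef {p b M : ℕ} [NeZero p] (h : Par N p b M) {τ : (ZMod N)ˣ} (hτ : IsTau N p τ) (f : ZMod N → ℤ) :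
    IsComp C p τ (∑ i : ZMod N, (f i : R) * C.z ^ i.val)
      (fun r => ∑ i ∈ univ.filter (fun i : ZMod N => ((i.val : ℕ) : ZMod p) = r), (f i : R) * C.z ^ i.val) := by
  refine ⟨?_, ?_⟩
  · exact (Finset.sum_fiberwise (s := (univ : Finset (ZMod N)))
      (g := fun i : ZMod N => ((i.val : ℕ) : ZMod p)) (f := fun i => (f i : R) * C.z ^ i.val)).symm
  · intro r
    rw [map_sum, Finset.mul_sum]
    refine Finset.sum_congr rfl fun i hi => ?_
    obtain ⟨-, hi⟩ := Finset.mem_filter.1 hi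
    rw [map_mul, map_intCast, tau_z C h hτ, zp_pow_mod C p (Comp_dvd h).1 i.val, ← hi,
      ZMod.val_natCast]
    ring

theorem comp_exists {p b M : ℕ} [NeZero p] (h : Par N p b M) {τ : (ZMod N)ˣ} (hτ : IsTau N p τ) (y : R) :
    ∃ c : ZMod p → R, IsComp C p τ y c := by
  obtain ⟨f, hf⟩ := C.span y
  rw [hf]
  exact ⟨_, comp_coef C h hτ f⟩

theorem comp_unique {p b M : ℕ} [NeZero p] (h : Par N p b M) {τ : (ZMod N)ˣ} (hτ : IsTau N p τ) {y : R}
    {c c' : ZMod p → R} (hc : IsComp C p τ y c) (hc' : IsComp C p τ y c') : c = c' := by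
  have hpN := (Comp_dvd h).1
  have hprim := zp_prim C p hpN
  have hpp := h.hp.pos
  obtain ⟨d, hd⟩ : ∃ d : ZMod p → R, d = fun r => c r - c' r := ⟨_, rfl⟩
  have hsum : ∑ r, d r = 0 := by
    rw [hd, Finset.sum_sub_distrib, ← hc.sum, ← hc'.sum, sub_self]
  have heig : ∀ r, C.sg τ (d r) = C.zp p ^ r.val * d r := by
    intro r
    rw [hd]
    simp only
    rw [map_sub, hc.eig, hc'.eig, mul_sub]
  have hit : ∀ (i : ℕ) (r : ZMod p), C.sg (τ ^ i) (d r) = C.zp p ^ (r.val * i) * d r := by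
    intro i r
    induction i with
    | zero => rw [pow_zero, sg_one, mul_zero, pow_zero, one_mul]
    | succ i ih =>
      rw [pow_succ, mul_comm (τ ^ i) τ, sg_mul, ih, map_mul, tau_zp C h hτ, heig, ← mul_assoc,
        ← pow_add]
      congr 2
  have hz : ∀ i : ℕ, ∑ r, C.zp p ^ (r.val * i) * d r = 0 := by
    intro i
    have h1 : C.sg (τ ^ i) (∑ r, d r) = 0 := by rw [hsum, map_zero]
    rw [map_sum] at h1
    rw [← h1]
    exact Finset.sum_congr rfl fun r _ => (hit i r).symm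
  have hd0 : ∀ s, d s = 0 := by
    intro s
    have hs : s.val < p := ZMod.val_lt s
    have h1 : ∑ i ∈ range p, C.zp p ^ ((p - s.val) * i) * ∑ r, C.zp p ^ (r.val * i) * d r = 0 :=
      Finset.sum_eq_zero fun i _ => by rw [hz, mul_zero]
    have h2 : ∑ i ∈ range p, C.zp p ^ ((p - s.val) * i) * ∑ r, C.zp p ^ (r.val * i) * d r =
        ∑ r, (∑ i ∈ range p, (C.zp p ^ (p - s.val + r.val)) ^ i) * d r := by
      simp only [Finset.mul_sum, Finset.sum_mul]
      rw [Finset.sum_comm]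
      refine Finset.sum_congr rfl fun r _ => Finset.sum_congr rfl fun i _ => ?_
      rw [← mul_assoc, ← pow_add, ← pow_mul]
      congr 2
      ring
    rw [h2] at h1
    have h3 : ∀ r, r ≠ s → (∑ i ∈ range p, (C.zp p ^ (p - s.val + r.val)) ^ i) * d r = 0 := by
      intro r hr
      have h4 : C.zp p ^ (p - s.val + r.val) ≠ 1 := by
        intro h5
        rw [hprim.pow_eq_one_iff_dvd] at h5
        apply hr
        have h6 : ((p - s.val + r.val : ℕ) : ZMod p) = 0 := (ZMod.natCast_eq_zero_iff _ _).2 h5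
        rw [Nat.cast_add, Nat.cast_sub hs.le, ZMod.natCast_self, ZMod.natCast_val, ZMod.natCast_val,
          ZMod.cast_id', id_eq, id_eq, zero_sub, neg_add_eq_zero] at h6
        exact h6.symm
      have h7 : (∑ i ∈ range p, (C.zp p ^ (p - s.val + r.val)) ^ i) *
          (C.zp p ^ (p - s.val + r.val) - 1) = 0 := by
        rw [geom_sum_mul, ← pow_mul, mul_comm, pow_mul, zp_pow C p hpN, one_pow, sub_self]
      rcases mul_eq_zero.1 h7 with h8 | h8
      · rw [h8, zero_mul]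
      · exact absurd (sub_eq_zero.1 h8) h4
    rw [Finset.sum_eq_single s (fun r _ hr => h3 r hr) (fun hs => absurd (Finset.mem_univ s) hs),
      Nat.sub_add_cancel hs.le, zp_pow C p hpN] at h1
    simp only [one_pow, Finset.sum_const, Finset.card_range, nsmul_eq_mul, mul_one] at h1
    rcases mul_eq_zero.1 h1 with h9 | h9
    · exact absurd h9 (by exact_mod_cast hpp.ne')
    · exact h9
  funext s
  have := hd0 s
  rw [hd] at this
  exact sub_eq_zero.1 this

theorem comp_eig {p b M : ℕ} [NeZero p] (h : Par N p b M) {τ : (ZMod N)ˣ} (hτ : IsTau N p τ) {X : R}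
    {c : ZMod p → R} (hc : IsComp C p τ X c) (k : ℕ) (hk : C.sg τ X = C.zp p ^ k * X) : X = c (k : ZMod p) := by
  have h1 : IsComp C p τ X (fun r => if r = (k : ZMod p) then X else 0) := by
    refine ⟨?_, ?_⟩
    · rw [Finset.sum_ite_eq' Finset.univ (k : ZMod p) (fun _ => X), if_pos (Finset.mem_univ _)]
    · intro r
      by_cases hr : r = (k : ZMod p)
      · simp only [hr, if_true]
        rw [hk, ZMod.val_natCast, ← zp_pow_mod C p (Comp_dvd h).1]
      · simp only [hr, if_false, map_zero, mul_zero]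
  have h2 := comp_unique C h hτ hc h1
  rw [h2]
  simp

theorem comp_sg {p b M : ℕ} [NeZero p] (h : Par N p b M) {τ : (ZMod N)ˣ} (hτ : IsTau N p τ) {y : R}
    {c : ZMod p → R} (hc : IsComp C p τ y c) (t : (ZMod N)ˣ) (ht : C.sg t y = y) (r : ZMod p) :
    C.sg t (c r) = c ((((t : ZMod N).val : ℕ) : ZMod p) * r) := by
  have : Fact p.Prime := ⟨h.hp⟩
  have hpN := (Comp_dvd h).1
  obtain ⟨u, hu⟩ : ∃ u : ZMod p, u = (((t : ZMod N).val : ℕ) : ZMod p) := ⟨_, rfl⟩
  have hu0 : u ≠ 0 := by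
    intro h0
    rw [hu, ZMod.natCast_eq_zero_iff] at h0
    have h1 : Nat.Coprime (t : ZMod N).val N := ZMod.val_coe_unit_coprime t
    exact (Nat.Prime.not_coprime_iff_dvd.2 ⟨p, h.hp, h0, hpN⟩) h1
  have h1 : IsComp C p τ y (fun r => C.sg t (c (u⁻¹ * r))) := by
    refine ⟨?_, ?_⟩
    · rw [← map_sum]
      have e : ∑ r : ZMod p, c (u⁻¹ * r) = ∑ r, c r :=
        Fintype.sum_equiv (Equiv.mulLeft₀ u⁻¹ (inv_ne_zero hu0)) _ _ fun r => rfl
      rw [e, ← hc.sum, ht]
    · intro r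
      rw [sg_comm, hc.eig, map_mul, Comp_tz, zp_pow_mod C p hpN]
      congr 2
      have e : r = (((t : ZMod N).val * (u⁻¹ * r).val : ℕ) : ZMod p) := by
        rw [Nat.cast_mul, ← hu, ZMod.natCast_val, ZMod.cast_id', id_eq, ← mul_assoc,
          mul_inv_cancel₀ hu0, one_mul]
      conv_rhs => rw [e]
      rw [ZMod.val_natCast]
  have h2 := comp_unique C h hτ hc h1
  rw [← hu]
  have h3 := congrFun h2 (u * r)
  rw [h3, ← mul_assoc, inv_mul_cancel₀ hu0, one_mul]

end Pool.CHD
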