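import Pool.Agent.Lib.MP_f4ebb7_co.CHD.Energy

/-! CHD-CoreB: the orbit argument.

PROOF. `comp_exists` for `Y`: components `c`. Suppose `c r ≠ 0`, `r ≠ 0`. By `comp_sg` (and induction on `j`) `c (T^j r) = sg (t^j) (c r) ≠ 0`,
`T = (t.val : ZMod p)`. `T^ℓ = 1`, `T ≠ 1` in `ZMod p` (`IsT`: `t^ℓ = 1` gives `T^ℓ = 1` since `p ∣ N`: `T` is the image of `t` under
`ZMod.castHom`/`ZMod.natCast_val`), so `T` has order `ℓ` (`orderOf_eq_prime`) and the `T^j r`, `j < ℓ`, are distinct (`r ≠ 0`,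
`ZMod p` a field, `pow_injOn_Iio_orderOf`): `ℓ ≤ card {c r ≠ 0} ≤ nS ^ 2` (`few`), contradiction. So `Y = c 0` (`IsComp.sum`,
`Finset.sum_eq_single`) and `sg τ Y = zp^0 * Y = Y` (`IsComp.eig`).
-/

set_option autoImplicit false

namespace Pool.CHD

open Finset

variable {N : ℕ} [NeZero N] {R : Type} [CommRing R] [IsDomain R] [CharZero R] (C : Cyc N R)

theorem core3 {p b M ℓ : ℕ} (h : Par N p b M) (hl : ℓ.Prime) {τ t : (ZMod N)ˣ} (hτ : IsTau N p τ) (ht : IsT N p M ℓ t)
    (nS : ℕ) (hs : nS ^ 2 < ℓ) (Y : R) (hY : ∀ s : (ZMod N)ˣ, ‖C.io (C.sg s Y)‖ = nS) (hf : C.sg t Y = Y) :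
    C.sg τ Y = Y := by
  classical
  have hfp : Fact p.Prime := ⟨h.hp⟩
  have hfl : Fact ℓ.Prime := ⟨hl⟩
  have : NeZero p := ⟨h.hp.ne_zero⟩
  have hpN : p ∣ N := by
    rw [h.hN]
    exact Dvd.dvd.mul_right (dvd_pow_self p (by have := h.hb; omega)) M
  obtain ⟨c, hc⟩ := comp_exists C h hτ Y
  obtain ⟨T, hT⟩ : ∃ T : ZMod p, T = (((t : ZMod N).val : ℕ) : ZMod p) := ⟨_, rfl⟩
  have hcast : T = ZMod.castHom hpN (ZMod p) (t : ZMod N) := by
    rw [hT, ZMod.castHom_apply, ZMod.natCast_val]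
  have hT1 : T ≠ 1 := by
    intro h1
    apply ht.hp
    rw [← ZMod.natCast_eq_natCast_iff, ← hT, h1, Nat.cast_one]
  have hTl : T ^ ℓ = 1 := by
    rw [hcast, ← map_pow, ← Units.val_pow_eq_pow_val, ht.hl, Units.val_one, map_one]
  have hord : orderOf T = ℓ := orderOf_eq_prime hTl hT1
  have hzero : ∀ r : ZMod p, r ≠ 0 → c r = 0 := by
    intro r hr
    by_contra hcr
    have hj : ∀ j : ℕ, c (T ^ j * r) ≠ 0 := by
      intro j
      induction j with
      | zero => rwa [pow_zero, one_mul]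
      | succ j ih =>
        have h1 := comp_sg C h hτ hc t hf (T ^ j * r)
        rw [← hT, ← mul_assoc, ← pow_succ'] at h1
        rw [← h1]
        intro h2
        exact ih ((map_eq_zero_iff _ (C.sg t).injective).1 h2)
    have h1 : ℓ ≤ (univ.filter (fun r : ZMod p => c r ≠ 0)).card := by
      have h2 : ((range ℓ).image (fun j => T ^ j * r)).card = ℓ := by
        rw [Finset.card_image_of_injOn, card_range]
        intro i hi j hj' hij
        simp only [Finset.coe_range, Set.mem_Iio] at hi hj'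
        have h3 : T ^ i = T ^ j := mul_right_cancel₀ hr hij
        exact pow_injOn_Iio_orderOf (by rw [hord]; exact hi) (by rw [hord]; exact hj') h3
      rw [← h2]
      refine Finset.card_le_card ?_
      intro x hx
      obtain ⟨j, -, rfl⟩ := Finset.mem_image.1 hx
      exact Finset.mem_filter.2 ⟨Finset.mem_univ _, hj j⟩
    have h2 := few C h hτ hc nS hY
    have h3 : (univ.filter (fun r : ZMod p => c r ≠ 0)).card ≤ nS ^ 2 := by
      convert h2
    omega
  have hY0 : Y = c 0 := by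
    rw [hc.sum]
    exact Finset.sum_eq_single 0 (fun r _ hr => hzero r hr) (fun h0 => absurd (Finset.mem_univ _) h0)
  have h4 := hc.eig 0
  rw [ZMod.val_zero, pow_zero, one_mul, ← hY0] at h4
  exact h4

end Pool.CHD
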