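import Pool.Agent.Lib.MP_f4ebb7_co.CHD.Comp

/-! CHD-CoreC: the norm argument.

PROOF. Let `P w = ∏_{i ∈ range p} sg (τ^i) w` (multiplicative in `w`). `P (sg τ X) = P X` (`τ^p = 1`, `tau_pow`; `Finset.prod_range_succ'`,
`Finset.prod_range_succ`). Apply `P` to `n0 * Y = z^m * (sg τ X * cj X)`: `sg τ Y = Y` gives `P Y = Y^p`, so
`n0^p Y^p = P (z^m) * P X * P (cj X) = z^k1 * P (nS * n0) = z^k1 (nS n0)^p` (`sg_pow_z`; a product of powers of `z` is a power of `z`).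
Cancel `n0^p`: `Y^p = z^k1 nS^p`; so `nS^p ∣ Y^p` and `nS ∣ Y` (`R` is integrally closed: `IsIntegrallyClosed.pow_dvd_pow_iff` if it exists,
or with ideals `span {Y} ^ p = span {nS} ^ p`, unique factorization of ideals / `Ideal` is a normalized GCD monoid:
`pow_dvd_pow_iff`-type lemma for the cancel comm monoid with zero of ideals), `Y = nS ε`, `ε^p = z^k1`, so all absolute values of
`ε` are `1` (`‖io (sg s ε)‖^p = 1`, `norm_sg_z`), `ε = z^e` (`C.kron`).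
Then `z^m (sg τ X * cj X) = z^e nS n0 = z^e X cj X`; cancel `cj X ≠ 0`: `z^m sg τ X = z^e X`; multiply by `z^((N-1) m)`:
`sg τ X = z^(e + (N-1) m) X`.
-/

set_option autoImplicit false

namespace Pool.CHD

open Finset

variable {N : ℕ} [NeZero N] {R : Type} [CommRing R] [IsDedekindDomain R] [CharZero R] (C : Cyc N R)

/-- the norm for the powers of `τ` -/
private noncomputable def CoreC_P (p : ℕ) (τ : (ZMod N)ˣ) (w : R) : R :=
  ∏ i ∈ range p, C.sg (τ ^ i) w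

omit [IsDedekindDomain R] [CharZero R] in
private theorem CoreC_mul (p : ℕ) (τ : (ZMod N)ˣ) (v w : R) :
    CoreC_P C p τ (v * w) = CoreC_P C p τ v * CoreC_P C p τ w := by
  unfold CoreC_P
  rw [← Finset.prod_mul_distrib]
  exact Finset.prod_congr rfl fun i _ => map_mul _ _ _

omit [IsDedekindDomain R] [CharZero R] in
private theorem CoreC_fix {p : ℕ} {τ : (ZMod N)ˣ} {Y : R} (hf : C.sg τ Y = Y) :
    CoreC_P C p τ Y = Y ^ p := by
  have h1 : ∀ i : ℕ, C.sg (τ ^ i) Y = Y := by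
    intro i
    induction i with
    | zero => rw [pow_zero, sg_one]
    | succ i ih => rw [pow_succ, sg_mul, hf, ih]
  unfold CoreC_P
  rw [Finset.prod_congr rfl fun i _ => h1 i, Finset.prod_const, Finset.card_range]

omit [IsDedekindDomain R] [CharZero R] in
private theorem CoreC_z (p : ℕ) (τ : (ZMod N)ˣ) (m : ℕ) :
    ∃ k : ℕ, CoreC_P C p τ (C.z ^ m) = C.z ^ k := by
  refine ⟨∑ i ∈ range p, (((τ ^ i : (ZMod N)ˣ) : ZMod N).val * m), ?_⟩
  unfold CoreC_P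
  rw [← Finset.prod_pow_eq_pow_sum]
  exact Finset.prod_congr rfl fun i _ => sg_pow_z C _ _

omit [CharZero R] in
private theorem CoreC_shift {p : ℕ} {τ : (ZMod N)ˣ} (hp : τ ^ p = 1) {X : R} (hX : X ≠ 0) :
    CoreC_P C p τ (C.sg τ X) = CoreC_P C p τ X := by
  unfold CoreC_P
  have h1 : ∏ i ∈ range p, C.sg (τ ^ i) (C.sg τ X) = ∏ i ∈ range p, C.sg (τ ^ (i + 1)) X := by
    refine Finset.prod_congr rfl fun i _ => ?_
    rw [pow_succ, sg_mul]
  have h2 := Finset.prod_range_succ' (fun i => C.sg (τ ^ i) X) p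
  rw [Finset.prod_range_succ, hp, pow_zero, sg_one] at h2
  rw [h1]
  exact (mul_right_cancel₀ hX h2).symm

theorem core4 {p b M : ℕ} (h : Par N p b M) {τ : (ZMod N)ˣ} (hτ : IsTau N p τ) (X Y : R) (nS n0 m : ℕ) (hn : nS * n0 ≠ 0)
    (hX : X * C.cj X = (nS : R) * (n0 : R)) (hY : C.z ^ m * (C.sg τ X * C.cj X) = (n0 : R) * Y) (hf : C.sg τ Y = Y) :
    ∃ c : ℕ, C.sg τ X = C.z ^ c * X := by
  have hp0 : p ≠ 0 := h.hp.ne_zero
  have hS : (nS : R) ≠ 0 := Nat.cast_ne_zero.2 (left_ne_zero_of_mul hn)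
  have h0 : (n0 : R) ≠ 0 := Nat.cast_ne_zero.2 (right_ne_zero_of_mul hn)
  have hne : X * C.cj X ≠ 0 := by
    rw [hX]
    exact mul_ne_zero hS h0
  have hX0 : X ≠ 0 := left_ne_zero_of_mul hne
  have hXc : C.cj X ≠ 0 := right_ne_zero_of_mul hne
  have hτp : τ ^ p = 1 := tau_pow h hτ
  obtain ⟨k1, hk1⟩ := CoreC_z C p τ m
  have e1 : CoreC_P C p τ (C.z ^ m * (C.sg τ X * C.cj X)) = C.z ^ k1 * ((nS : R) * (n0 : R)) ^ p := by
    rw [CoreC_mul, CoreC_mul, CoreC_shift C hτp hX0, ← CoreC_mul, hX, hk1]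
    congr 1
    refine CoreC_fix C ?_
    rw [map_mul, map_natCast, map_natCast]
  have e2 : CoreC_P C p τ ((n0 : R) * Y) = (n0 : R) ^ p * Y ^ p := by
    rw [CoreC_mul, CoreC_fix C hf]
    congr 1
    refine CoreC_fix C ?_
    rw [map_natCast]
  rw [hY, e2, mul_pow] at e1
  have e3 : Y ^ p = C.z ^ k1 * (nS : R) ^ p := by
    refine mul_left_cancel₀ (pow_ne_zero p h0) ?_
    rw [e1]
    ring
  have hdvd : (nS : R) ∣ Y := by
    rw [← IsIntegrallyClosed.pow_dvd_pow_iff hp0]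
    exact ⟨C.z ^ k1, by rw [e3, mul_comm]⟩
  obtain ⟨ε, hε⟩ := hdvd
  have e4 : ε ^ p = C.z ^ k1 := by
    refine mul_left_cancel₀ (pow_ne_zero p hS) ?_
    rw [← mul_pow, ← hε, e3, mul_comm]
  obtain ⟨e, he⟩ := C.kron ε fun t => by
    have h1 : ‖C.io (C.sg t ε)‖ ^ p = 1 := by
      rw [← norm_pow, ← map_pow, ← map_pow, e4]
      exact norm_sg_z C t k1
    exact (pow_eq_one_iff_of_nonneg (norm_nonneg _) hp0).1 h1
  have e5 : C.z ^ m * C.sg τ X = C.z ^ e * X := by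
    refine mul_right_cancel₀ hXc ?_
    rw [mul_assoc, hY, mul_assoc, hX, hε, he]
    ring
  have hN : 1 ≤ N := Nat.one_le_iff_ne_zero.2 (NeZero.ne N)
  have e6 : C.z ^ ((N - 1) * m) * C.z ^ m = 1 := by
    rw [← pow_add]
    have : (N - 1) * m + m = N * m := by
      obtain ⟨N', hN'⟩ : ∃ N', N = N' + 1 := ⟨N - 1, by omega⟩
      rw [hN']
      simp only [Nat.add_sub_cancel]
      ring
    rw [this, pow_mul, C.z_pow, one_pow]
  refine ⟨e + (N - 1) * m, ?_⟩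
  calc C.sg τ X = (C.z ^ ((N - 1) * m) * C.z ^ m) * C.sg τ X := by rw [e6, one_mul]
    _ = C.z ^ ((N - 1) * m) * (C.z ^ m * C.sg τ X) := by ring
    _ = C.z ^ (e + (N - 1) * m) * X := by
      rw [e5, pow_add]
      ring

end Pool.CHD
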