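import Pool.Agent.Lib.MP_f4ebb7_co.CHD.Comp

/-! CHD-CoreD: `τ X = z^c X` implies that `z^c` is a power of `ζ_p`.

PROOF. By induction on `k` (`tau_z`, `tau_zp`, `sg_mul`): `sg (τ^k) X = zp^(c k (k-1)/2) z^(c k) X`
(`sg τ (zp^u z^(c k) X) = zp^u * (zp^(c k) z^(c k)) * z^c X`; use `Nat.choose k 2` or `∑ i ∈ range k, i` for `k (k-1)/2`). For `k = p`:
`p ∣ p (p-1)/2` as `p` is odd, `zp^p = 1` (`zp_pow`), `τ^p = 1` (`tau_pow`), `X ≠ 0`: `z^(c p) = 1`, so `N ∣ c p` (`z_prim`),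
`N / p ∣ c` (`p ∣ N`), `z^c = (z^(N/p))^(c / (N/p)) = zp^k`.
-/

set_option autoImplicit false

namespace Pool.CHD

open Finset

variable {N : ℕ} [NeZero N] {R : Type} [CommRing R] [IsDomain R] [CharZero R] (C : Cyc N R)

private theorem cored_iter {p b M : ℕ} (h : Par N p b M) {τ : (ZMod N)ˣ} (hτ : IsTau N p τ) (X : R) (c : ℕ)
    (hc : C.sg τ X = C.z ^ c * X) (k : ℕ) :
    C.sg (τ ^ k) X = C.zp p ^ (c * k.choose 2) * C.z ^ (c * k) * X := by
  induction k with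
  | zero => simp [sg_one]
  | succ k ih =>
    rw [pow_succ', sg_mul, ih, map_mul, map_mul, tau_zp C h hτ, tau_z C h hτ, hc,
      show (k + 1).choose 2 = k + k.choose 2 by
        rw [Nat.choose_succ_succ' k 1, Nat.choose_one_right]]
    ring

theorem core5 {p b M : ℕ} (h : Par N p b M) {τ : (ZMod N)ˣ} (hτ : IsTau N p τ) (X : R) (hne : X ≠ 0) (c : ℕ)
    (hc : C.sg τ X = C.z ^ c * X) : ∃ k : ℕ, C.sg τ X = C.zp p ^ k * X := by
  have hpN : p ∣ N := by
    rw [h.hN]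
    exact Dvd.dvd.mul_right (dvd_pow_self p (by have := h.hb; omega)) M
  have h1 := cored_iter C h hτ X c hc p
  rw [tau_pow h hτ, sg_one] at h1
  have hch : p ∣ p.choose 2 := by
    refine h.hp.dvd_choose_self (by norm_num) ?_
    have h2 := h.hp.two_le
    have h3 := h.hp2
    omega
  obtain ⟨d, hd⟩ := hch
  have h2 : C.zp p ^ (c * p.choose 2) = 1 := by
    rw [hd, show c * (p * d) = p * (c * d) by ring, pow_mul, zp_pow C p hpN, one_pow]
  rw [h2, one_mul] at h1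
  have h3 : C.z ^ (c * p) = 1 := by
    have h4 : (C.z ^ (c * p) - 1) * X = 0 := by
      rw [sub_mul, one_mul, ← h1, sub_self]
    rcases mul_eq_zero.1 h4 with h5 | h5
    · exact sub_eq_zero.1 h5
    · exact absurd h5 hne
  have h4 : N ∣ c * p := (z_prim C).dvd_of_pow_eq_one _ h3
  have hp0 : 0 < p := h.hp.pos
  have h5 : N / p ∣ c := by
    obtain ⟨e, he⟩ := hpN
    rw [he, Nat.mul_div_cancel_left e hp0]
    rw [he, mul_comm c p] at h4
    exact Nat.dvd_of_mul_dvd_mul_left hp0 h4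
  obtain ⟨k, hk⟩ := h5
  refine ⟨k, ?_⟩
  rw [hc]
  unfold Cyc.zp
  rw [← pow_mul, ← hk]

end Pool.CHD
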