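import Pool.Agent.Lib.MP_f4ebb7_co.CHD.CoreA
import Pool.Agent.Lib.MP_f4ebb7_co.CHD.CoreB
import Pool.Agent.Lib.MP_f4ebb7_co.CHD.CoreC
import Pool.Agent.Lib.MP_f4ebb7_co.CHD.CoreD

/-! CHD-Core: the descent theorem (A7) (complete). -/

set_option autoImplicit false

namespace Pool.CHD

open Finset

variable {N : ℕ} [NeZero N] {R : Type} [CommRing R] [IsDedekindDomain R] [CharZero R] (C : Cyc N R)

/-- **The descent theorem** -/
theorem core {p b M ℓ : ℕ} (h : Par N p b M) (hl : ℓ.Prime) (hlM : ¬ ℓ ∣ M) {τ t : (ZMod N)ˣ} (hτ : IsTau N p τ)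
    (ht : IsT N p M ℓ t) (X : R) (nS n0 : ℕ) (hn : nS * n0 ≠ 0) (hX : X * C.cj X = (nS : R) * (n0 : R))
    (h0 : ∀ q : ℕ, q.Prime → q ∣ n0 → Fx N q τ) (hS : ∀ q : ℕ, q.Prime → q ∣ nS → Fx N q t) (hs : nS ^ 2 < ℓ) :
    ∃ k : ℕ, C.sg τ X = C.zp p ^ k * X := by
  have hnS : nS ≠ 0 := fun e => hn (by rw [e, zero_mul])
  have hn' : ((nS : R) * (n0 : R)) ≠ 0 := by exact_mod_cast hn
  have hne : X ≠ 0 := by
    intro e
    rw [e, zero_mul] at hX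
    exact hn' hX.symm
  obtain ⟨Y, hY, hYn⟩ := core1 C h hτ X nS n0 hn hX h0
  obtain ⟨m, hm⟩ := core2 C h hl hlM ht nS hnS hS Y hYn
  have hYn' : ∀ s : (ZMod N)ˣ, ‖C.io (C.sg s (C.z ^ m * Y))‖ = nS := by
    intro s
    rw [map_mul, map_mul, norm_mul, norm_sg_z, one_mul, hYn]
  have h3 := core3 C h hl hτ ht nS hs (C.z ^ m * Y) hYn' hm
  obtain ⟨c, hc⟩ := core4 C h hτ X (C.z ^ m * Y) nS n0 m hn hX (by rw [hY]; ring) h3
  exact core5 C h hτ X hne c hc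

end Pool.CHD
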