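import Pool.Agent.Lib.MP_f4ebb7_co.CHD.Defs

/-! CHD-Ded: ideals with fixed prime factors in a Dedekind domain.

PROOF. `fix_of_primes`: `FixI σ I` is equivalent to `Ideal.map σ I = I` (`Ideal.map_comap_of_equiv`/`Ideal.comap_symm`: `x ∈ map σ I ↔
σ.symm x ∈ I`, `Ideal.mem_map_of_equiv`). `I = (normalizedFactors I).prod` (`Ideal.prod_normalizedFactors_eq_self`), each factor `P`
is prime (`UniqueFactorizationMonoid.prime_of_normalized_factor`, `Ideal.isPrime_of_prime`) and contains `I`
(`dvd_of_mem_normalizedFactors`, `Ideal.dvd_iff_le`); `Ideal.map` is multiplicative (`Ideal.mapHom`/`Ideal.map_mul`,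
`Multiset.prod_hom`), so `map σ I = ∏ map σ P = ∏ P = I`.
`exists_prime_mem`: `n ≠ 0`, a prime ideal `P ∋ (n : R)`: write `n` as the product of its prime factors (`Nat.prod_primeFactorsList`,
`Nat.cast`) or induction on `n` with `Nat.minFac`; `P ≠ ⊤` excludes `n = 1`.
`div_lemma`: `I = span {X, (n0 : R)}`, `I ≠ ⊥`, a prime `P ≥ I` contains `n0`. So `FixI σ I`, `σ X ∈ I`,
`σ X = a * X + b * n0` (`Ideal.mem_span_pair`), `σ X * Xc = a * (X * Xc) + b * n0 * Xc = n0 * (a * nS + b * Xc)`.
`unit_lemma`: `I = span {Y}`: a prime `P ≥ I` contains `Y`, so `Y * Yc = (nS : R) ^ 2 ∈ P`, `nS ∈ P`. So `FixI σ (span {Y})`: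
`σ Y ∈ span {Y}` and (take `x = σ.symm Y`) `σ.symm Y ∈ span {Y}`; so `Y ∣ σ Y` and `σ Y ∣ Y` (apply `σ` to `Y ∣ σ.symm Y`);
associated elements of a domain (`associated_of_dvd_dvd`).
-/

set_option autoImplicit false

namespace Pool.CHD

open Finset

variable {R : Type} [CommRing R] [IsDedekindDomain R]

omit [IsDedekindDomain R] in
theorem map_eq_of_fix (σ : R ≃+* R) (I : Ideal R) (h : FixI σ I) : Ideal.map (σ : R →+* R) I = I := by
  ext x
  rw [Ideal.map_comap_of_equiv, Ideal.mem_comap]
  have := h (σ.symm x)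
  rw [RingEquiv.apply_symm_apply] at this
  exact this.symm

omit [IsDedekindDomain R] in
theorem fix_of_map_eq (σ : R ≃+* R) (I : Ideal R) (h : Ideal.map (σ : R →+* R) I = I) : FixI σ I := by
  intro x
  constructor
  · intro hx
    rw [← h, Ideal.map_comap_of_equiv, Ideal.mem_comap] at hx
    simpa using hx
  · intro hx
    rw [← h]
    exact Ideal.mem_map_of_mem (σ : R →+* R) hx

theorem fix_of_primes (σ : R ≃+* R) (I : Ideal R) (hI : I ≠ ⊥)
    (h : ∀ P : Ideal R, P.IsPrime → I ≤ P → FixI σ P) : FixI σ I := by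
  apply fix_of_map_eq
  have key : ∀ s : Multiset (Ideal R), (∀ P ∈ s, Ideal.map (σ : R →+* R) P = P) →
      Ideal.map (σ : R →+* R) s.prod = s.prod := by
    intro s
    induction s using Multiset.induction_on with
    | empty =>
      intro _
      rw [Multiset.prod_zero, Ideal.one_eq_top, Ideal.map_top]
    | cons a t ih =>
      intro hs
      rw [Multiset.prod_cons, Ideal.map_mul, hs a (Multiset.mem_cons_self a t),
        ih (fun P hP => hs P (Multiset.mem_cons_of_mem hP))]
  have h0 : (UniqueFactorizationMonoid.normalizedFactors I).prod = I :=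
    Ideal.prod_normalizedFactors_eq_self hI
  rw [← h0]
  apply key
  intro P hP
  apply map_eq_of_fix
  apply h P
  · exact Ideal.isPrime_of_prime (UniqueFactorizationMonoid.prime_of_normalized_factor P hP)
  · exact Ideal.dvd_iff_le.mp (UniqueFactorizationMonoid.dvd_of_mem_normalizedFactors hP)

theorem exists_prime_mem (n : ℕ) (hn : n ≠ 0) (P : Ideal R) (hP : P.IsPrime) (h : (n : R) ∈ P) :
    ∃ q : ℕ, q.Prime ∧ q ∣ n ∧ (q : R) ∈ P := by
  induction n using Nat.strong_induction_on with
  | _ n ih =>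
    by_cases h1 : n = 1
    · exfalso
      apply hP.ne_top
      rw [Ideal.eq_top_iff_one]
      simpa [h1] using h
    · have hq : (n.minFac).Prime := Nat.minFac_prime h1
      have hd : n.minFac ∣ n := Nat.minFac_dvd n
      obtain ⟨m, hm⟩ := hd
      have hmul : ((n.minFac : ℕ) : R) * (m : R) ∈ P := by
        rw [← Nat.cast_mul, ← hm]
        exact h
      rcases hP.mem_or_mem hmul with h2 | h2
      · exact ⟨n.minFac, hq, Nat.minFac_dvd n, h2⟩
      · have hm0 : m ≠ 0 := by
          rintro rfl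
          exact hn (by simpa using hm)
        have hlt : m < n := by
          have h3 := hq.two_le
          have hmpos : 0 < m := Nat.pos_of_ne_zero hm0
          calc m < 2 * m := by omega
            _ ≤ n.minFac * m := Nat.mul_le_mul_right m h3
            _ = n := hm.symm
        obtain ⟨q, hq1, hq2, hq3⟩ := ih m hlt hm0 h2
        exact ⟨q, hq1, hq2.trans (Dvd.intro_left n.minFac hm.symm), hq3⟩

theorem div_lemma (σ : R ≃+* R) (X Xc : R) (nS n0 : ℕ) (hX : X * Xc = (nS : R) * (n0 : R)) (hne : X ≠ 0)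
    (h : ∀ P : Ideal R, P.IsPrime → (n0 : R) ∈ P → FixI σ P) : (n0 : R) ∣ σ X * Xc := by
  have hI : Ideal.span {X, (n0 : R)} ≠ ⊥ := by
    intro hb
    apply hne
    have : X ∈ Ideal.span {X, (n0 : R)} := Ideal.subset_span (by simp)
    rw [hb] at this
    simpa using this
  have hf : FixI σ (Ideal.span {X, (n0 : R)}) := by
    apply fix_of_primes σ _ hI
    intro P hP hle
    apply h P hP
    exact hle (Ideal.subset_span (by simp))
  have hx : X ∈ Ideal.span {X, (n0 : R)} := Ideal.subset_span (by simp)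
  have h2 := (hf X).mpr hx
  rw [Ideal.mem_span_pair] at h2
  obtain ⟨a, b, hab⟩ := h2
  refine ⟨a * nS + b * Xc, ?_⟩
  rw [← hab]
  linear_combination a * hX

theorem unit_lemma (σ : R ≃+* R) (Y Yc : R) (nS : ℕ) (hY : Y * Yc = (nS : R) ^ 2) (hne : Y ≠ 0)
    (h : ∀ P : Ideal R, P.IsPrime → (nS : R) ∈ P → FixI σ P) : ∃ η : Rˣ, σ Y = (η : R) * Y := by
  have hI : Ideal.span {Y} ≠ ⊥ := by
    intro hb
    exact hne (Ideal.span_singleton_eq_bot.mp hb)
  have hf : FixI σ (Ideal.span {Y}) := by
    apply fix_of_primes σ _ hI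
    intro P hP hle
    apply h P hP
    have hYP : Y ∈ P := hle (Ideal.subset_span (by simp))
    have h3 : (nS : R) ^ 2 ∈ P := by
      rw [← hY]
      exact P.mul_mem_right Yc hYP
    exact hP.mem_of_pow_mem 2 h3
  have h1 : σ Y ∈ Ideal.span {Y} := (hf Y).mpr (Ideal.subset_span (by simp))
  have h2 : σ.symm Y ∈ Ideal.span {Y} := by
    apply (hf _).mp
    rw [RingEquiv.apply_symm_apply]
    exact Ideal.subset_span (by simp)
  rw [Ideal.mem_span_singleton] at h1 h2
  have h3 : σ Y ∣ Y := by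
    have := map_dvd σ h2
    rwa [RingEquiv.apply_symm_apply] at this
  obtain ⟨u, hu⟩ := associated_of_dvd_dvd h1 h3
  exact ⟨u, by rw [← hu]; ring⟩

end Pool.CHD
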