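import Pool.Agent.Lib.MP_f4ebb7_co.CHD.Basic

/-! CHD-Norml: normalization. If `σ_t Y = z^i Y` then some `Y' = z^m Y` is fixed by `σ_t`.

PROOF. `T = t.val`. `T ≡ 1 mod M`, `¬ T ≡ 1 mod p`. Choose `m ≡ 0 mod M`, `m ≡ m0 mod p^b` with `(T - 1) m0 + i ≡ 0 mod p^b`
(`T - 1` is prime to `p`: invert it mod `p^b`; work with integers or in `ZMod (p^b)`; `Nat.chineseRemainder` for `M`, `p^b` coprime).
`sg t (z^m Y) = z^(T m + i) Y = z^e (z^m Y)` with `e ≡ (T - 1) m + i mod N`, choose `e : ℕ` (for instance `e = (T * m + i + (N - 1) * m)`,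
since `z^((N-1) m) = z^(-m)`); `p^b ∣ e` (as `N ≡ 0`, `(N-1) m ≡ -m`). `sg t` fixes `z^e`: `T e ≡ e mod N` (mod `M`: `T ≡ 1`; mod
`p^b`: both `0`). Iterating `ℓ` times: `sg (t^ℓ) Y' = z^(e ℓ) Y'`, and `t^ℓ = 1`: `z^(e ℓ) = 1` (cancel `Y' ≠ 0`), so `N ∣ e ℓ`,
`M ∣ e ℓ`; `ℓ` prime, `ℓ ∤ M` so `M` is coprime to `ℓ` and `M ∣ e`; with `p^b ∣ e`: `N ∣ e`, `z^e = 1`. So `sg t Y' = Y'`.
-/

set_option autoImplicit false

namespace Pool.CHD

open Finset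

private theorem norml_solve {T p b M i : ℕ} (hp : p.Prime) (hM : ¬ p ∣ M) (hT : ¬ T ≡ 1 [MOD p]) :
    ∃ m : ℕ, m ≡ 0 [MOD M] ∧ T * m + i ≡ m [MOD p ^ b] := by
  have hcop : Nat.Coprime (p ^ b) M := Nat.Coprime.pow_left b ((Nat.Prime.coprime_iff_not_dvd hp).mpr hM)
  have hpz : Prime (p : ℤ) := Nat.prime_iff_prime_int.mp hp
  have hnd : ¬ (p : ℤ) ∣ (T : ℤ) - 1 := by
    intro hd
    apply hT
    have h1 : (1 : ℤ) ≡ (T : ℤ) [ZMOD (p : ℤ)] := (Int.modEq_iff_dvd).mpr hd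
    have h2 : ((1 : ℕ) : ℤ) ≡ ((T : ℕ) : ℤ) [ZMOD (p : ℤ)] := by exact_mod_cast h1
    exact (Int.natCast_modEq_iff.mp h2).symm
  have hc : IsCoprime ((T : ℤ) - 1) ((p : ℤ) ^ b) := by
    apply IsCoprime.pow_right
    exact ((Prime.coprime_iff_not_dvd hpz).mpr hnd).symm
  obtain ⟨u, v, huv⟩ := hc
  have hpb : 0 < p ^ b := pow_pos hp.pos b
  set m0 : ℤ := (-(u * i)) % ((p ^ b : ℕ) : ℤ) with hm0
  have hm0n : 0 ≤ m0 := Int.emod_nonneg _ (by exact_mod_cast hpb.ne')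
  obtain ⟨m1, hm1⟩ := Int.eq_ofNat_of_zero_le hm0n
  obtain ⟨m, hma, hmb⟩ := Nat.chineseRemainder hcop m1 0
  refine ⟨m, hmb, ?_⟩
  have e1 : ((m : ℕ) : ℤ) ≡ -(u * i) [ZMOD ((p ^ b : ℕ) : ℤ)] := by
    have h1 : ((m : ℕ) : ℤ) ≡ (m1 : ℤ) [ZMOD ((p ^ b : ℕ) : ℤ)] := Int.natCast_modEq_iff.mpr hma
    refine h1.trans ?_
    rw [← hm1, hm0]
    exact Int.mod_modEq _ _
  apply Int.natCast_modEq_iff.mp
  push_cast at e1 ⊢
  have e2 : (T : ℤ) * m + i - m ≡ ((T : ℤ) - 1) * (-(u * i)) + i [ZMOD (p : ℤ) ^ b] := by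
    have : (T : ℤ) * m + i - m = ((T : ℤ) - 1) * m + i := by ring
    rw [this]
    exact (e1.mul_left _).add_right _
  have e3 : ((T : ℤ) - 1) * (-(u * i)) + i = (p : ℤ) ^ b * (i * v) := by
    linear_combination (-(i : ℤ)) * huv
  rw [e3] at e2
  have e4 : (T : ℤ) * m + i - m ≡ 0 [ZMOD (p : ℤ) ^ b] := by
    refine e2.trans ?_
    exact (Int.modEq_zero_iff_dvd).mpr (Dvd.intro _ rfl)
  have e5 := e4.add_right (m : ℤ)
  simpa using e5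

theorem normalize {N : ℕ} [NeZero N] {R : Type} [CommRing R] [IsDomain R] (C : Cyc N R) {p b M ℓ : ℕ}
    (h : Par N p b M) (hl : ℓ.Prime) (hlM : ¬ ℓ ∣ M) {t : (ZMod N)ˣ} (ht : IsT N p M ℓ t) (Y : R) (hY : Y ≠ 0) (i : ℕ)
    (hi : C.sg t Y = C.z ^ i * Y) : ∃ m : ℕ, C.sg t (C.z ^ m * Y) = C.z ^ m * Y := by
  obtain ⟨m, hm0, hm1⟩ := norml_solve (b := b) (i := i) h.hp h.hM ht.hp
  refine ⟨m, ?_⟩
  set T := (t : ZMod N).val with hT
  have hNpos : 0 < N := NeZero.pos N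
  have hcop : Nat.Coprime (p ^ b) M :=
    Nat.Coprime.pow_left b ((Nat.Prime.coprime_iff_not_dvd h.hp).mpr h.hM)
  have hpN : p ^ b ∣ N := ⟨M, h.hN⟩
  have hMN : M ∣ N := ⟨p ^ b, by rw [h.hN, mul_comm]⟩
  have hz0 : C.z ≠ 0 := by
    intro h0
    have := C.z_pow
    rw [h0, zero_pow hNpos.ne'] at this
    exact zero_ne_one this
  set e : ℕ := T * m + i + (N - 1) * m with he
  have hem : e + m = T * m + i + N * m := by
    rw [he]
    have : (N - 1) * m + m = N * m := by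
      rw [← Nat.succ_mul, Nat.succ_eq_add_one, Nat.sub_add_cancel hNpos]
    omega
  -- p ^ b divides e
  have hpe : p ^ b ∣ e := by
    have h1 : e + m ≡ 0 + m [MOD p ^ b] := by
      rw [hem, zero_add]
      have h2 : N * m ≡ 0 [MOD p ^ b] :=
        (Nat.modEq_zero_iff_dvd).mpr (Dvd.dvd.mul_right hpN m)
      exact hm1.add h2
    exact (Nat.modEq_zero_iff_dvd).mp (Nat.ModEq.add_right_cancel' m h1)
  set Y' := C.z ^ m * Y with hY'
  have hY'0 : Y' ≠ 0 := mul_ne_zero (pow_ne_zero _ hz0) hY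
  have hsY : C.sg t Y' = C.z ^ e * Y' := by
    have hNm : C.z ^ (N * m) = 1 := by rw [pow_mul, C.z_pow, one_pow]
    rw [hY', map_mul, hi, sg_pow_z, ← mul_assoc, ← mul_assoc, ← pow_add C.z e m, hem, pow_add,
      hNm, mul_one, pow_add]
  have hsz : C.sg t (C.z ^ e) = C.z ^ e := by
    rw [sg_pow_z, z_pow_eq_iff, ← hT]
    have key : T * e ≡ e [MOD p ^ b * M] := ?_
    · rwa [← h.hN] at key
    refine (Nat.modEq_and_modEq_iff_modEq_mul hcop).mp ⟨?_, ?_⟩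
    · have h1 : e ≡ 0 [MOD p ^ b] := (Nat.modEq_zero_iff_dvd).mpr hpe
      have h2 : T * e ≡ 0 [MOD p ^ b] := (Nat.modEq_zero_iff_dvd).mpr (Dvd.dvd.mul_left hpe T)
      exact h2.trans h1.symm
    · have h1 := ht.hM.mul_right e
      rwa [one_mul] at h1
  have hit : ∀ k : ℕ, C.sg (t ^ k) Y' = C.z ^ (e * k) * Y' := by
    intro k
    induction k with
    | zero => rw [pow_zero, sg_one, mul_zero, pow_zero, one_mul]
    | succ k ih =>
      rw [pow_succ', sg_mul, ih, map_mul, hsY, pow_mul, map_pow, hsz, ← mul_assoc, ← pow_succ,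
        ← pow_mul]
  have h1 := hit ℓ
  rw [ht.hl, sg_one] at h1
  have h2 : C.z ^ (e * ℓ) = C.z ^ 0 := by
    rw [pow_zero]
    have h3 : (C.z ^ (e * ℓ) - 1) * Y' = 0 := by
      rw [sub_mul, one_mul, ← h1, sub_self]
    rcases mul_eq_zero.mp h3 with h4 | h4
    · exact sub_eq_zero.mp h4
    · exact absurd h4 hY'0
  rw [z_pow_eq_iff] at h2
  have h3 : N ∣ e * ℓ := (Nat.modEq_zero_iff_dvd).mp h2
  have hMe : M ∣ e := by
    have hc : Nat.Coprime M ℓ := ((Nat.Prime.coprime_iff_not_dvd hl).mpr hlM).symm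
    exact hc.dvd_of_dvd_mul_right (hMN.trans h3)
  have hNe : N ∣ e := by
    rw [h.hN]
    exact hcop.mul_dvd_of_dvd_of_dvd hpe hMe
  obtain ⟨k, hk⟩ := hNe
  rw [hsY, hk, pow_mul, C.z_pow, one_pow, one_mul]

end Pool.CHD
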