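import Pool.Agent.Lib.MP_f4ebb7_co.CHD.Frob
import Pool.Agent.Lib.MP_f4ebb7_co.CHD.Ded
import Pool.Agent.Lib.MP_f4ebb7_co.CHD.Norml

/-! CHD-CoreA: the quotient `Y = τ(X) X' / n0` and its normalization.

PROOF.
`core1`: `X ≠ 0` since `X * cj X = nS n0 ≠ 0`. `div_lemma` with `σ = sg τ`, `Xc = cj X`; a prime ideal containing `n0` contains a
prime `q ∣ n0` (`exists_prime_mem`) and is fixed by `frob`. So `sg τ X * cj X = n0 * Y`. Absolute values: `nsq` for `X`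
(`n = nS * n0`) and for `sg τ X` (`sg s (sg τ X) = sg (s τ) X`), `io_sg_cj`, `‖conj‖`:
`n0 ‖io (sg s Y)‖ = ‖io (sg (s τ) X)‖ ‖io (sg s X)‖ = nS n0`.
`core2`: `Y * cj Y = nS ^ 2` (both sides agree after `io` by `io_cj` and the absolute value at `s = 1`; `io_inj`), `unit_lemma` with
`σ = sg t`, primes containing `nS` are fixed (`exists_prime_mem`, `frob`); `η` has all absolute values `1`
(`sg s (sg t Y) = sg (s t) Y`), so `η = z^i` (`C.kron`); `normalize`.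
-/

set_option autoImplicit false

namespace Pool.CHD

open Finset

variable {N : ℕ} [NeZero N] {R : Type} [CommRing R] [IsDedekindDomain R] [CharZero R] (C : Cyc N R)

theorem core1 {p b M : ℕ} (h : Par N p b M) {τ : (ZMod N)ˣ} (hτ : IsTau N p τ) (X : R) (nS n0 : ℕ) (hn : nS * n0 ≠ 0)
    (hX : X * C.cj X = (nS : R) * (n0 : R)) (h0 : ∀ q : ℕ, q.Prime → q ∣ n0 → Fx N q τ) :
    ∃ Y : R, C.sg τ X * C.cj X = (n0 : R) * Y ∧ ∀ s : (ZMod N)ˣ, ‖C.io (C.sg s Y)‖ = nS := by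
  have _ := h
  have _ := hτ
  have hn0 : n0 ≠ 0 := fun h1 => hn (by rw [h1, mul_zero])
  have hXn : X * C.cj X = ((nS * n0 : ℕ) : R) := by
    rw [hX, Nat.cast_mul]
  have hX0 : X ≠ 0 := by
    intro h1
    rw [h1, zero_mul] at hXn
    exact hn (Nat.cast_eq_zero.1 hXn.symm)
  obtain ⟨Y, hY⟩ := div_lemma (C.sg τ) X (C.cj X) nS n0 hX hX0 (by
    intro P hP hmem
    obtain ⟨q, hq, hqd, hqP⟩ := exists_prime_mem n0 hn0 P hP hmem
    exact frob C q hq τ (h0 q hq hqd) P hP hqP)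
  refine ⟨Y, hY, fun s => ?_⟩
  have h1 : C.io (C.sg (s * τ) X) * (starRingEnd ℂ) (C.io (C.sg s X)) = (n0 : ℂ) * C.io (C.sg s Y) := by
    rw [sg_mul, ← io_sg_cj, ← map_mul, ← map_mul, hY, map_mul, map_mul, map_natCast, map_natCast]
  have h2 := congrArg (fun x : ℂ => ‖x‖) h1
  simp only [norm_mul, RCLike.norm_conj, Complex.norm_natCast] at h2
  have h3 := nsq C X (nS * n0) hXn (s * τ)
  have h4 := nsq C X (nS * n0) hXn s
  have h5 : ‖C.io (C.sg (s * τ) X)‖ = ‖C.io (C.sg s X)‖ := by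
    have h6 : ‖C.io (C.sg (s * τ) X)‖ ^ 2 = ‖C.io (C.sg s X)‖ ^ 2 := by rw [h3, h4]
    exact (pow_left_inj₀ (norm_nonneg _) (norm_nonneg _) two_ne_zero).1 h6
  rw [h5, ← pow_two, h4] at h2
  push_cast at h2
  have h7 : (n0 : ℝ) ≠ 0 := Nat.cast_ne_zero.2 hn0
  have h8 : (n0 : ℝ) * ‖C.io (C.sg s Y)‖ = (n0 : ℝ) * nS := by rw [← h2]; ring
  exact mul_left_cancel₀ h7 h8

theorem core2 {p b M ℓ : ℕ} (h : Par N p b M) (hl : ℓ.Prime) (hlM : ¬ ℓ ∣ M) {t : (ZMod N)ˣ} (ht : IsT N p M ℓ t)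
    (nS : ℕ) (hnS : nS ≠ 0) (hS : ∀ q : ℕ, q.Prime → q ∣ nS → Fx N q t) (Y : R)
    (hY : ∀ s : (ZMod N)ˣ, ‖C.io (C.sg s Y)‖ = nS) : ∃ m : ℕ, C.sg t (C.z ^ m * Y) = C.z ^ m * Y := by
  have hS0 : (nS : ℝ) ≠ 0 := Nat.cast_ne_zero.2 hnS
  have hY0 : Y ≠ 0 := by
    rintro rfl
    have h1 := hY 1
    rw [map_zero, map_zero, norm_zero] at h1
    exact hS0 h1.symm
  have hYY : Y * C.cj Y = (nS : R) ^ 2 := by
    apply C.io_inj
    have h1 := hY 1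
    rw [sg_one] at h1
    rw [map_mul, io_cj, Complex.mul_conj, Complex.normSq_eq_norm_sq, h1, map_pow, map_natCast]
    push_cast
    rfl
  obtain ⟨η, hη⟩ := unit_lemma (C.sg t) Y (C.cj Y) nS hYY hY0 (by
    intro P hP hmem
    obtain ⟨q, hq, hqd, hqP⟩ := exists_prime_mem nS hnS P hP hmem
    exact frob C q hq t (hS q hq hqd) P hP hqP)
  obtain ⟨i, hi⟩ := C.kron (η : R) (by
    intro s
    have h1 : C.io (C.sg (s * t) Y) = C.io (C.sg s (η : R)) * C.io (C.sg s Y) := by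
      rw [sg_mul, hη, map_mul, map_mul]
    have h2 := congrArg (fun x : ℂ => ‖x‖) h1
    simp only [norm_mul] at h2
    rw [hY, hY] at h2
    have h3 : ‖C.io (C.sg s (η : R))‖ * nS = 1 * nS := by rw [one_mul]; exact h2.symm
    exact mul_right_cancel₀ hS0 h3)
  rw [hi] at hη
  exact normalize C h hl hlM ht Y hY0 i hη

end Pool.CHD
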