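import Pool.Agent.Lib.MP_f4ebb7_co.CHD.Base
import Pool.Agent.Lib.MP_f4ebb7_co.CHD.Core
import Pool.Agent.Lib.MP_f4ebb7_co.CHD.DSX
import Pool.Agent.Lib.MP_f4ebb7_co.CHD.Coef
import Pool.Agent.Lib.MP_f4ebb7_co.CHD.ArB
import Pool.Agent.Lib.MP_f4ebb7_co.CHD.ArC

/-! CHD-Crit: the criterion (assembly).

PROOF. Let `N = 4 u²`, `D` a difference set of order `u²` in `ZMod N`. `b = 2 v_p(u) ≥ 2`, `M = N / p^b`: `Par N p b M`. `cyc_exists N`, `C`.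
`f i = if i ∈ D then 1 else 0`, `X = ∑ f i z^i = ∑_{d ∈ D} z^d`, `X * cj X = u²` (`dsx`), `u² = nS n0`, `nS = (sm z u)²`, `n0 = (u / sm z u)²`.
A prime `q ∣ n0` is `> z` or equal... : `q ∣ u / sm z u` implies `z < q`; `pow_tau`/`pow_tau_p`. A prime `q ∣ nS` is `≤ z` and divides `u`,
`q ≠ p` since `z < p`; `exists_t`. `core`, `coef` with `B = 1`, `n = u²`: `p φ(N) u² ≤ N²`, `N = 4u²`: `p φ(N) ≤ 4 N`, contradiction.
Primes `s ∣ M` are `2` or divide `u`, and are `≠ p`.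
-/

set_option autoImplicit false

namespace Pool.CHD

open Finset

private theorem crit_prime_dvd_prod {A : Finset ℕ} {v : ℕ → ℕ} (hA : ∀ r ∈ A, r.Prime) {q : ℕ}
    (hq : q.Prime) (h : q ∣ ∏ r ∈ A, r ^ v r) : q ∈ A := by
  obtain ⟨r, hr, h1⟩ := (Prime.dvd_finsetProd_iff hq.prime _).1 h
  have h2 : q = r := (Nat.prime_dvd_prime_iff_eq hq (hA r hr)).1 (hq.dvd_of_dvd_pow h1)
  rwa [h2]

private theorem crit_split (z u : ℕ) (hu : 1 ≤ u) :
    u = sm z u * ∏ r ∈ u.primeFactors.filter (fun r => ¬ r ≤ z), r ^ (u.factorization r) := by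
  have h1 : ∏ r ∈ u.primeFactors, r ^ (u.factorization r) = u := by
    have h := Nat.prod_factorization_pow_eq_self (n := u) (by omega)
    exact h
  unfold sm
  rw [Finset.prod_filter_mul_prod_filter_not]
  exact h1.symm

theorem crit (u p ℓ z : ℕ) (hu : 1 ≤ u) (hp : p.Prime) (hp2 : p ≠ 2) (hpu : p ∣ u) (hl : ℓ.Prime) (hlp : ℓ ∣ p - 1) (hzp : z < p)
    (hl2 : ℓ ≠ 2)
    (c1 : ∀ r : ℕ, r.Prime → r ∣ u → r ≠ p → ¬ p ∣ r - 1)
    (c2 : ∀ r : ℕ, r.Prime → r ∣ u → r ≠ p → z < r → ¬ r ^ (p - 1) ≡ 1 [MOD p ^ 2])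
    (c3 : ∀ r : ℕ, r.Prime → r ∣ u → r ≠ p → ¬ ℓ ∣ r ∧ ¬ ℓ ∣ r - 1)
    (c4 : ∀ r : ℕ, r.Prime → r ∣ u → r ≤ z → ¬ r ^ ((p - 1) / ℓ) ≡ 1 [MOD p])
    (c5 : (sm z u) ^ 4 < ℓ)
    (c6 : 4 * (4 * u ^ 2) < p * Nat.totient (4 * u ^ 2)) : ¬ HD u := by
  rintro ⟨D, l, hD, hcard⟩
  have hne : NeZero (4 * u ^ 2) := ⟨by positivity⟩
  have hpos : 0 < u ^ 2 := by positivity
  -- the factorization of `N`
  set v : ℕ := u.factorization p with hv
  have hv1 : 1 ≤ v := (hp.dvd_iff_one_le_factorization (by omega)).1 hpu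
  set u' : ℕ := u / p ^ v with hu'
  have hue : p ^ v * u' = u := Nat.ordProj_mul_ordCompl_eq_self u p
  have hpu' : ¬ p ∣ u' := Nat.not_dvd_ordCompl hp (by omega)
  have hu'u : u' ∣ u := Dvd.intro_left _ hue
  have h4 : ∀ q : ℕ, q.Prime → q ∣ 4 → q = 2 := fun q hq h =>
    (Nat.prime_dvd_prime_iff_eq hq Nat.prime_two).1 (hq.dvd_of_dvd_pow (show q ∣ 2 ^ 2 from h))
  have hdM : ∀ q : ℕ, q.Prime → q ∣ 4 * u' ^ 2 → q = 2 ∨ (q ∣ u ∧ q ≠ p) := by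
    intro q hq h
    rcases (Nat.Prime.dvd_mul hq).1 h with h1 | h1
    · exact Or.inl (h4 q hq h1)
    · have h2 : q ∣ u' := hq.dvd_of_dvd_pow h1
      exact Or.inr ⟨h2.trans hu'u, fun e => hpu' (e ▸ h2)⟩
  have hPar : Par (4 * u ^ 2) p (2 * v) (4 * u' ^ 2) := by
    refine ⟨hp, hp2, by omega, ?_, ?_⟩
    · conv_lhs => rw [← hue]
      ring
    · intro h
      rcases hdM p hp h with h1 | ⟨_, h1⟩
      · exact hp2 h1
      · exact h1 rfl
  have hp3 : 3 ≤ p := by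
    have := hp.two_le
    omega
  have hlp' : ℓ ≤ p - 1 := Nat.le_of_dvd (by omega) hlp
  have hlM : ¬ ℓ ∣ 4 * u' ^ 2 := by
    intro h
    rcases hdM ℓ hl h with h1 | ⟨h1, h2⟩
    · exact hl2 h1
    · exact (c3 ℓ hl h1 h2).1 dvd_rfl
  have hsl : ∀ s : ℕ, s.Prime → s ∣ 4 * u' ^ 2 → ¬ ℓ ∣ s - 1 := by
    intro s hs h
    rcases hdM s hs h with h1 | ⟨h1, h2⟩
    · rw [h1]
      intro h3
      exact hl.one_lt.ne' (Nat.dvd_one.1 h3)
    · exact (c3 s hs h1 h2).2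
  have hsp : ∀ s : ℕ, s.Prime → s ∣ 4 * u' ^ 2 → ¬ p ∣ s - 1 := by
    intro s hs h
    rcases hdM s hs h with h1 | ⟨h1, h2⟩
    · rw [h1]
      intro h3
      exact hp.one_lt.ne' (Nat.dvd_one.1 h3)
    · exact c1 s hs h1 h2
  obtain ⟨R, _, _, _, _, ⟨C⟩⟩ := cyc_exists (4 * u ^ 2) ⟨2 * u ^ 2, by ring⟩
  obtain ⟨τ, hτ⟩ := exists_tau hPar
  obtain ⟨t, ht, htq⟩ := exists_t hPar hl hlp hlM hsl
  -- the smooth part
  have hsplit := crit_split z u hu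
  set w : ℕ := ∏ r ∈ u.primeFactors.filter (fun r => ¬ r ≤ z), r ^ (u.factorization r) with hw
  have hsm : ∀ q : ℕ, q.Prime → q ∣ sm z u → q ∣ u ∧ q ≤ z := by
    intro q hq h
    unfold sm at h
    have h1 := crit_prime_dvd_prod
      (fun r hr => Nat.prime_of_mem_primeFactors (Finset.mem_filter.1 hr).1) hq h
    rw [Finset.mem_filter] at h1
    exact ⟨Nat.dvd_of_mem_primeFactors h1.1, h1.2⟩
  have hwq : ∀ q : ℕ, q.Prime → q ∣ w → q ∣ u ∧ z < q := by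
    intro q hq h
    have h1 := crit_prime_dvd_prod
      (fun r hr => Nat.prime_of_mem_primeFactors (Finset.mem_filter.1 hr).1) hq h
    rw [Finset.mem_filter] at h1
    exact ⟨Nat.dvd_of_mem_primeFactors h1.1, not_le.1 h1.2⟩
  have hnn : (sm z u) ^ 2 * w ^ 2 = u ^ 2 := by
    rw [← mul_pow, ← hsplit]
  have hX := dsx C (by nlinarith) D l (u ^ 2) hD hcard
  have hX2 : (∑ d ∈ D, C.z ^ d.val) * C.cj (∑ d ∈ D, C.z ^ d.val) =
      (((sm z u) ^ 2 : ℕ) : R) * ((w ^ 2 : ℕ) : R) := by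
    rw [hX, ← hnn, Nat.cast_mul]
  obtain ⟨k, hk⟩ := core C hPar hl hlM hτ ht (∑ d ∈ D, C.z ^ d.val) ((sm z u) ^ 2) (w ^ 2)
    (by rw [hnn]; exact hpos.ne') hX2
    (by
      intro q hq h
      obtain ⟨h1, h2⟩ := hwq q hq (hq.dvd_of_dvd_pow h)
      by_cases hqp : q = p
      · rw [hqp]
        exact pow_tau_p hPar hτ
      · exact pow_tau hPar hsp hτ q hq hqp (c2 q hq h1 hqp h2))
    (by
      intro q hq h
      obtain ⟨h1, h2⟩ := hsm q hq (hq.dvd_of_dvd_pow h)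
      exact htq q hq (by omega) (c4 q hq h1 h2))
    (by
      rw [← pow_mul]
      exact c5)
  have hXf : (∑ i : ZMod (4 * u ^ 2), (((if i ∈ D then 1 else 0 : ℤ)) : R) * C.z ^ i.val) =
      ∑ d ∈ D, C.z ^ d.val := by
    rw [← Finset.sum_filter_add_sum_filter_not Finset.univ (fun i => i ∈ D)]
    have h1 : ∑ i ∈ Finset.univ.filter (fun i => ¬ i ∈ D),
        (((if i ∈ D then 1 else 0 : ℤ)) : R) * C.z ^ i.val = 0 := by
      refine Finset.sum_eq_zero fun i hi => ?_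
      rw [Finset.mem_filter] at hi
      rw [if_neg hi.2, Int.cast_zero, zero_mul]
    rw [h1, add_zero]
    have h2 : Finset.univ.filter (fun i => i ∈ D) = D := by
      ext i
      simp
    rw [h2]
    refine Finset.sum_congr rfl fun i hi => ?_
    rw [if_pos hi, Int.cast_one, one_mul]
  have hfin := coef C hPar hτ (fun i => if i ∈ D then 1 else 0) 1 (u ^ 2)
    (by
      intro i
      by_cases h : i ∈ D
      · simp [h]
      · simp [h])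
    (by
      intro s
      rw [hXf]
      exact nsq C _ _ hX s)
    k
    (by
      rw [hXf]
      exact hk)
  have h1 : p * Nat.totient (4 * u ^ 2) * u ^ 2 ≤ 4 * (4 * u ^ 2) * u ^ 2 := by
    calc p * Nat.totient (4 * u ^ 2) * u ^ 2 = p * (Nat.totient (4 * u ^ 2) * u ^ 2) := by ring
      _ ≤ (4 * u ^ 2) ^ 2 * 1 ^ 2 := hfin
      _ = 4 * (4 * u ^ 2) * u ^ 2 := by ring
  have h2 := Nat.le_of_mul_le_mul_right h1 hpos
  omega

end Pool.CHD
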