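import Pool.Agent.Lib.MP_f4ebb7_co.CHD.Basic

/-! CHD-DSXG: the element attached to a difference set in an abelian group `G` and a surjection `f : G → ℤ/N`.

PROOF. As DSX (see the proved `CHD_mod_DSX.lean`), with `e (f g)` instead of `e g`: `∑_{g : G} z^((f g).val) = 0`: choose `g0` with `f g0 = 1`; multiplying the sum by `z`
(`z^((f (g + g0)).val) = z^((f g).val) * z`) permutes it, and `z ≠ 1` (`1 < N`, `z_prim`); `R` is a domain.
-/

set_option autoImplicit false

namespace Pool.CHD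

open Finset

theorem dsxG {N : ℕ} [NeZero N] {R : Type} [CommRing R] [IsDomain R] (C : Cyc N R) (hN : 1 < N) {G : Type} [AddCommGroup G]
    [Fintype G] [DecidableEq G] (f : G →+ ZMod N) (hf : Function.Surjective f) (D : Finset G) (l n : ℕ)
    (hD : IsDS G D l) (hk : D.card = n + l) :
    (∑ d ∈ D, C.z ^ (f d).val) * C.cj (∑ d ∈ D, C.z ^ (f d).val) = (n : R) := by
  have hcj : ∀ d : ZMod N, C.cj (C.z ^ d.val) = C.z ^ (-d).val := by
    intro d
    unfold Cyc.cj
    rw [sg_pow_z, z_pow_eq_iff, ← ZMod.natCast_eq_natCast_iff, Nat.cast_mul, ZMod.natCast_zmod_val,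
      ZMod.natCast_zmod_val, ZMod.natCast_zmod_val, Units.val_neg, Units.val_one, neg_one_mul]
  have hmul : ∀ a b : ZMod N, C.z ^ a.val * C.z ^ b.val = C.z ^ (a + b).val := by
    intro a b
    rw [← pow_add, z_pow_eq_iff, ZMod.val_add]
    exact (Nat.mod_modEq _ _).symm
  have hsum0 : ∑ g : G, C.z ^ (f g).val = 0 := by
    obtain ⟨g0, hg0⟩ := hf 1
    have h1 : C.z * ∑ g : G, C.z ^ (f g).val = ∑ g : G, C.z ^ (f g).val := by
      rw [Finset.mul_sum]
      refine Fintype.sum_equiv (Equiv.addLeft g0) _ _ (fun g => ?_)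
      have h2 := hmul 1 (f g)
      have h3 : C.z ^ (1 : ZMod N).val = C.z := by
        have h4 : C.z ^ (1 : ZMod N).val = C.z ^ 1 := by
          rw [z_pow_eq_iff, ZMod.val_one_eq_one_mod]
          exact Nat.mod_modEq _ _
        rw [h4, pow_one]
      rw [h3] at h2
      rw [h2, Equiv.coe_addLeft, map_add, hg0]
    have hz1 : C.z ≠ 1 := by
      intro h2
      have h3 : C.z ^ 1 = C.z ^ 0 := by rw [pow_one, pow_zero, h2]
      rw [z_pow_eq_iff] at h3
      have h4 : 1 % N = 0 % N := h3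
      rw [Nat.mod_eq_of_lt hN, Nat.zero_mod] at h4
      exact one_ne_zero h4
    have h5 : (C.z - 1) * ∑ g : G, C.z ^ (f g).val = 0 := by
      rw [sub_mul, h1, one_mul, sub_self]
    rcases mul_eq_zero.1 h5 with h6 | h6
    · exact absurd (sub_eq_zero.1 h6) hz1
    · exact h6
  have hcjs : C.cj (∑ d ∈ D, C.z ^ (f d).val) = ∑ d ∈ D, C.z ^ (f (-d)).val := by
    have h1 : C.cj (∑ d ∈ D, C.z ^ (f d).val) = ∑ d ∈ D, C.cj (C.z ^ (f d).val) := by
      unfold Cyc.cj
      rw [map_sum]
    rw [h1]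
    exact Finset.sum_congr rfl fun d _ => by rw [hcj, map_neg]
  rw [hcjs, Finset.sum_mul_sum, ← Finset.sum_product']
  have h1 : ∀ p ∈ D ×ˢ D, C.z ^ (f p.1).val * C.z ^ (f (-p.2)).val = C.z ^ (f (p.1 - p.2)).val := by
    intro p _
    rw [hmul, sub_eq_add_neg, map_add]
  rw [Finset.sum_congr rfl h1]
  have h2 := (Finset.sum_fiberwise (s := D ×ˢ D) (g := fun p : G × G => p.1 - p.2)
    (f := fun p => C.z ^ (f (p.1 - p.2)).val)).symm
  rw [h2]
  have h3 : ∀ g : G, ∑ p ∈ (D ×ˢ D).filter (fun p => p.1 - p.2 = g), C.z ^ (f (p.1 - p.2)).val =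
      (l : R) * C.z ^ (f g).val + (if g = 0 then (n : R) * C.z ^ (f g).val else 0) := by
    intro g
    have h4 : ∑ p ∈ (D ×ˢ D).filter (fun p => p.1 - p.2 = g), C.z ^ (f (p.1 - p.2)).val =
        ∑ p ∈ (D ×ˢ D).filter (fun p => p.1 - p.2 = g), C.z ^ (f g).val := by
      refine Finset.sum_congr rfl fun p hp => ?_
      rw [(Finset.mem_filter.1 hp).2]
    rw [h4, Finset.sum_const, nsmul_eq_mul]
    by_cases hg : g = 0
    · rw [if_pos hg]
      have h5 : ((D ×ˢ D).filter (fun p => p.1 - p.2 = g)).card = D.card := by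
        rw [hg]
        symm
        refine Finset.card_bij (fun d _ => (d, d)) ?_ ?_ ?_
        · intro d hd
          exact Finset.mem_filter.2 ⟨Finset.mem_product.2 ⟨hd, hd⟩, sub_self d⟩
        · intro d _ d' _ h6
          exact (Prod.mk.inj h6).1
        · intro p hp
          obtain ⟨hp1, hp2⟩ := Finset.mem_filter.1 hp
          refine ⟨p.1, (Finset.mem_product.1 hp1).1, ?_⟩
          rw [sub_eq_zero] at hp2
          exact Prod.ext rfl hp2
      rw [h5, hk]
      push_cast
      ring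
    · rw [if_neg hg, hD g hg, add_zero]
  rw [Finset.sum_congr rfl (fun g _ => h3 g), Finset.sum_add_distrib, ← Finset.mul_sum, hsum0, mul_zero, zero_add,
    Finset.sum_ite_eq' Finset.univ (0 : G), if_pos (Finset.mem_univ _), map_zero, ZMod.val_zero, pow_zero, mul_one]

end Pool.CHD
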