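import Pool.Agent.Lib.MP_f4ebb7_co.CHD.Defs

/-! CHD-Sm: the smooth part.

PROOF. `sm z m = ∏_{r ∈ m.primeFactors, r ≤ z} r^(v_r m)` divides `m = ∏_{r ∈ m.primeFactors} r^(v_r m)` (`Nat.factorization_prod_pow_eq_self`,
`Finset.prod_dvd_prod_of_subset`); `m / sm z m = ∏_{r > z}`. `sm_mul`: for `a, b ≠ 0` `sm z (a b) = sm z a * sm z b` (write `sm z m = ∏_{r ∈ (range (z+1)).filter Prime} r^(v_r m)`, the
factors with `r ∤ m` are `1`; `Nat.factorization_mul`). `sm_pow`, `sm_le`: `sm z m ≤ m`.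
-/

set_option autoImplicit false

namespace Pool.CHD

open Finset

theorem sm_pos (z m : ℕ) : 0 < sm z m := by
  unfold sm
  refine Finset.prod_pos fun r hr => ?_
  exact pow_pos (Nat.prime_of_mem_primeFactors (Finset.mem_filter.1 hr).1).pos _

private theorem sm_split (z m : ℕ) (hm : m ≠ 0) :
    sm z m * (∏ r ∈ m.primeFactors.filter (fun r => ¬ r ≤ z), r ^ (m.factorization r)) = m := by
  unfold sm
  rw [Finset.prod_filter_mul_prod_filter_not]
  exact Nat.prod_factorization_pow_eq_self hm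

theorem sm_dvd (z m : ℕ) (hm : m ≠ 0) : sm z m ∣ m :=
  ⟨_, (sm_split z m hm).symm⟩

theorem sm_le (z m : ℕ) (hm : m ≠ 0) : sm z m ≤ m :=
  Nat.le_of_dvd (Nat.pos_of_ne_zero hm) (sm_dvd z m hm)

private theorem prime_prod (m q : ℕ) (s : Finset ℕ) (hs : s ⊆ m.primeFactors) (hq : q.Prime)
    (h : q ∣ ∏ r ∈ s, r ^ (m.factorization r)) : q ∈ s := by
  rw [Prime.dvd_finsetProd_iff hq.prime] at h
  obtain ⟨r, hr, hqr⟩ := h
  have h1 : q ∣ r := hq.dvd_of_dvd_pow hqr
  have h2 : r.Prime := Nat.prime_of_mem_primeFactors (hs hr)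
  rw [(Nat.prime_dvd_prime_iff_eq hq h2).1 h1]
  exact hr

theorem prime_sm (z m q : ℕ) (hq : q.Prime) (h : q ∣ sm z m) : q ≤ z ∧ q ∣ m := by
  have h1 := prime_prod m q _ (Finset.filter_subset _ _) hq h
  rw [Finset.mem_filter] at h1
  exact ⟨h1.2, Nat.dvd_of_mem_primeFactors h1.1⟩

theorem prime_cosm (z m q : ℕ) (hm : m ≠ 0) (hq : q.Prime) (h : q ∣ m / sm z m) : z < q ∧ q ∣ m := by
  have h0 : m / sm z m = ∏ r ∈ m.primeFactors.filter (fun r => ¬ r ≤ z), r ^ (m.factorization r) := by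
    apply Nat.div_eq_of_eq_mul_right (sm_pos z m)
    exact (sm_split z m hm).symm
  rw [h0] at h
  have h1 := prime_prod m q _ (Finset.filter_subset _ _) hq h
  rw [Finset.mem_filter] at h1
  exact ⟨not_le.1 h1.2, Nat.dvd_of_mem_primeFactors h1.1⟩

private theorem sm_range (z m : ℕ) (hm : m ≠ 0) :
    sm z m = ∏ r ∈ (Finset.range (z + 1)).filter Nat.Prime, r ^ (m.factorization r) := by
  unfold sm
  refine Finset.prod_subset ?_ ?_
  · intro r hr
    rw [Finset.mem_filter] at hr ⊢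
    rw [Finset.mem_range]
    exact ⟨by omega, Nat.prime_of_mem_primeFactors hr.1⟩
  · intro r hr hr'
    rw [Finset.mem_filter, Finset.mem_range] at hr
    have h1 : ¬ r ∣ m := by
      intro h
      apply hr'
      rw [Finset.mem_filter]
      exact ⟨Nat.mem_primeFactors.2 ⟨hr.2, h, hm⟩, by omega⟩
    rw [Nat.factorization_eq_zero_of_not_dvd h1, pow_zero]

theorem sm_mul (z a b : ℕ) (ha : a ≠ 0) (hb : b ≠ 0) : sm z (a * b) = sm z a * sm z b := by
  rw [sm_range z a ha, sm_range z b hb, sm_range z (a * b) (mul_ne_zero ha hb),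
    ← Finset.prod_mul_distrib]
  refine Finset.prod_congr rfl fun r _ => ?_
  rw [Nat.factorization_mul ha hb, Finsupp.add_apply, pow_add]

theorem sm_pow (z a k : ℕ) (ha : a ≠ 0) : sm z (a ^ k) = sm z a ^ k := by
  induction k with
  | zero =>
    rw [pow_zero, pow_zero]
    unfold sm
    simp
  | succ k ih =>
    rw [pow_succ, sm_mul z _ _ (pow_ne_zero k ha) ha, ih, pow_succ]

end Pool.CHD
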