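import Pool.Agent.Lib.MP_f4ebb7_co.CHD.Base
import Pool.Agent.Lib.MP_f4ebb7_co.CHD.Core
import Pool.Agent.Lib.MP_f4ebb7_co.CHD.DSXG
import Pool.Agent.Lib.MP_f4ebb7_co.CHD.Coef
import Pool.Agent.Lib.MP_f4ebb7_co.CHD.ArB
import Pool.Agent.Lib.MP_f4ebb7_co.CHD.ArC
import Pool.Agent.Lib.MP_f4ebb7_co.CHD.Sm

/-! CHD-CritG: the criterion for a group `G` of order `4u²` with a surjection onto `ℤ/N`.

PROOF. As the proved `CHD_mod_Crit.lean` (copy it and adapt). `X = ∑_{d ∈ D} z^((f d).val) = ∑_i c i z^i`, `c i = #{d ∈ D : f d = i} ≤ #{g : f g = i} = B = 4u²/N` (all fibres of a surjective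
homomorphism have the same size; `N * B = 4u²`). `dsxG` with `n = u²`, `core` with `nS = (sm z u)²`, `n0 = (u / sm z u)²`, `coef` with `B`:
`p φ(N) u² ≤ N² B² = (4u²)² = 16 u⁴`, so `p φ(N) ≤ 16 u² = 4 (4 u²)`, contradiction with `c6`. `1 < N` since `p ∣ N`. Primes `s ∣ M` divide `N`, so they are `2` or divide `u`, and `≠ p`.
-/

set_option autoImplicit false

namespace Pool.CHD

open Finset

private theorem critG_prime_dvd_prod {A : Finset ℕ} {v : ℕ → ℕ} (hA : ∀ r ∈ A, r.Prime) {q : ℕ}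
    (hq : q.Prime) (h : q ∣ ∏ r ∈ A, r ^ v r) : q ∈ A := by
  obtain ⟨r, hr, h1⟩ := (Prime.dvd_finsetProd_iff hq.prime _).1 h
  have h2 : q = r := (Nat.prime_dvd_prime_iff_eq hq (hA r hr)).1 (hq.dvd_of_dvd_pow h1)
  rwa [h2]

private theorem critG_split (z u : ℕ) (hu : 1 ≤ u) :
    u = sm z u * ∏ r ∈ u.primeFactors.filter (fun r => ¬ r ≤ z), r ^ (u.factorization r) := by
  have h1 : ∏ r ∈ u.primeFactors, r ^ (u.factorization r) = u := by
    have h := Nat.prod_factorization_pow_eq_self (n := u) (by omega)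
    exact h
  unfold sm
  rw [Finset.prod_filter_mul_prod_filter_not]
  exact h1.symm

theorem critG (N u p b M ℓ z : ℕ) [NeZero N] (hNe : Even N) (h : Par N p b M) (hu : 1 ≤ u)
    (hNu : ∀ q : ℕ, q.Prime → q ∣ N → q = 2 ∨ q ∣ u) (hNB : N ∣ 4 * u ^ 2)
    {G : Type} [AddCommGroup G] [Fintype G] [DecidableEq G] (hG : Fintype.card G = 4 * u ^ 2)
    (f : G →+ ZMod N) (hf : Function.Surjective f) (D : Finset G) (l : ℕ) (hD : IsDS G D l) (hk : D.card = u ^ 2 + l)
    (hl : ℓ.Prime) (hlp : ℓ ∣ p - 1) (hzp : z < p) (hl2 : ℓ ≠ 2)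
    (c1 : ∀ r : ℕ, r.Prime → r ∣ u → r ≠ p → ¬ p ∣ r - 1)
    (c2 : ∀ r : ℕ, r.Prime → r ∣ u → r ≠ p → z < r → ¬ r ^ (p - 1) ≡ 1 [MOD p ^ 2])
    (c3 : ∀ r : ℕ, r.Prime → r ∣ u → r ≠ p → ¬ ℓ ∣ r ∧ ¬ ℓ ∣ r - 1)
    (c4 : ∀ r : ℕ, r.Prime → r ∣ u → r ≤ z → ¬ r ^ ((p - 1) / ℓ) ≡ 1 [MOD p])
    (c5 : (sm z u) ^ 4 < ℓ)
    (c6 : 4 * (4 * u ^ 2) < p * Nat.totient N) : False := by
  have hpos : 0 < u ^ 2 := by positivity
  have hNpos : 0 < N := Nat.pos_of_ne_zero (NeZero.ne N)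
  have hpN : p ∣ N := by
    rw [h.hN]
    exact Dvd.dvd.mul_right (dvd_pow_self p (by have := h.hb; omega)) M
  have hMN : M ∣ N := ⟨p ^ b, by rw [h.hN, mul_comm]⟩
  have hp := h.hp
  have hp2 := h.hp2
  have hN1 : 1 < N := lt_of_lt_of_le hp.one_lt (Nat.le_of_dvd hNpos hpN)
  have hdM : ∀ q : ℕ, q.Prime → q ∣ M → q = 2 ∨ (q ∣ u ∧ q ≠ p) := by
    intro q hq h1
    rcases hNu q hq (h1.trans hMN) with h2 | h2
    · exact Or.inl h2
    · exact Or.inr ⟨h2, fun e => h.hM (e ▸ h1)⟩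
  have hlM : ¬ ℓ ∣ M := by
    intro h
    rcases hdM ℓ hl h with h1 | ⟨h1, h2⟩
    · exact hl2 h1
    · exact (c3 ℓ hl h1 h2).1 dvd_rfl
  have hsl : ∀ s : ℕ, s.Prime → s ∣ M → ¬ ℓ ∣ s - 1 := by
    intro s hs h
    rcases hdM s hs h with h1 | ⟨h1, h2⟩
    · rw [h1]
      intro h3
      exact hl.one_lt.ne' (Nat.dvd_one.1 h3)
    · exact (c3 s hs h1 h2).2
  have hsp : ∀ s : ℕ, s.Prime → s ∣ M → ¬ p ∣ s - 1 := by
    intro s hs h
    rcases hdM s hs h with h1 | ⟨h1, h2⟩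
    · rw [h1]
      intro h3
      exact hp.one_lt.ne' (Nat.dvd_one.1 h3)
    · exact c1 s hs h1 h2
  obtain ⟨R, _, _, _, _, ⟨C⟩⟩ := cyc_exists N hNe
  obtain ⟨τ, hτ⟩ := exists_tau h
  obtain ⟨t, ht, htq⟩ := exists_t h hl hlp hlM hsl
  -- the smooth part
  have hsplit := critG_split z u hu
  set w : ℕ := ∏ r ∈ u.primeFactors.filter (fun r => ¬ r ≤ z), r ^ (u.factorization r) with hw
  have hsm : ∀ q : ℕ, q.Prime → q ∣ sm z u → q ∣ u ∧ q ≤ z := by
    intro q hq h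
    unfold sm at h
    have h1 := critG_prime_dvd_prod
      (fun r hr => Nat.prime_of_mem_primeFactors (Finset.mem_filter.1 hr).1) hq h
    rw [Finset.mem_filter] at h1
    exact ⟨Nat.dvd_of_mem_primeFactors h1.1, h1.2⟩
  have hwq : ∀ q : ℕ, q.Prime → q ∣ w → q ∣ u ∧ z < q := by
    intro q hq h
    have h1 := critG_prime_dvd_prod
      (fun r hr => Nat.prime_of_mem_primeFactors (Finset.mem_filter.1 hr).1) hq h
    rw [Finset.mem_filter] at h1
    exact ⟨Nat.dvd_of_mem_primeFactors h1.1, not_le.1 h1.2⟩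
  have hnn : (sm z u) ^ 2 * w ^ 2 = u ^ 2 := by
    rw [← mul_pow, ← hsplit]
  have hX := dsxG C hN1 f hf D l (u ^ 2) hD hk
  have hX2 : (∑ d ∈ D, C.z ^ (f d).val) * C.cj (∑ d ∈ D, C.z ^ (f d).val) =
      (((sm z u) ^ 2 : ℕ) : R) * ((w ^ 2 : ℕ) : R) := by
    rw [hX, ← hnn, Nat.cast_mul]
  obtain ⟨k, hk'⟩ := core C h hl hlM hτ ht (∑ d ∈ D, C.z ^ (f d).val) ((sm z u) ^ 2) (w ^ 2)
    (by rw [hnn]; exact hpos.ne') hX2
    (by
      intro q hq h3
      obtain ⟨h1, h2⟩ := hwq q hq (hq.dvd_of_dvd_pow h3)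
      by_cases hqp : q = p
      · rw [hqp]
        exact pow_tau_p h hτ
      · exact pow_tau h hsp hτ q hq hqp (c2 q hq h1 hqp h2))
    (by
      intro q hq h3
      obtain ⟨h1, h2⟩ := hsm q hq (hq.dvd_of_dvd_pow h3)
      exact htq q hq (by omega) (c4 q hq h1 h2))
    (by
      rw [← pow_mul]
      exact c5)
  -- the coefficients
  obtain ⟨B, hB⟩ := hNB
  have hfib : ∀ i : ZMod N, (univ.filter (fun g : G => f g = i)).card = B := by
    have h0 : ∀ i j : ZMod N, (univ.filter (fun g : G => f g = i)).card ≤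
        (univ.filter (fun g : G => f g = j)).card := by
      intro i j
      obtain ⟨g0, hg0⟩ := hf (j - i)
      refine Finset.card_le_card_of_injOn (fun g => g + g0) ?_ ?_
      · intro g hg
        rw [Finset.mem_coe, Finset.mem_filter] at hg
        rw [Finset.mem_coe, Finset.mem_filter]
        refine ⟨Finset.mem_univ _, ?_⟩
        rw [map_add, hg.2, hg0]
        abel
      · intro g _ g' _ hgg
        exact add_right_cancel hgg
    have h1 : ∀ i j : ZMod N, (univ.filter (fun g : G => f g = i)).card =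
        (univ.filter (fun g : G => f g = j)).card := fun i j => le_antisymm (h0 i j) (h0 j i)
    have h2 : Fintype.card G = ∑ i : ZMod N, (univ.filter (fun g : G => f g = i)).card := by
      rw [← Finset.card_univ]
      exact Finset.card_eq_sum_card_fiberwise (f := fun g => f g) (t := univ)
        (fun g _ => Finset.mem_coe.2 (Finset.mem_univ _))
    intro i
    rw [Finset.sum_congr rfl (fun j _ => h1 j i), Finset.sum_const, smul_eq_mul, Finset.card_univ,
      ZMod.card, hG, hB] at h2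
    exact (Nat.eq_of_mul_eq_mul_left hNpos h2).symm
  have hXf : (∑ i : ZMod N, ((((D.filter (fun d => f d = i)).card : ℤ)) : R) * C.z ^ i.val) =
      ∑ d ∈ D, C.z ^ (f d).val := by
    rw [← Finset.sum_fiberwise (s := D) (g := fun d => f d) (f := fun d => C.z ^ (f d).val)]
    refine Finset.sum_congr rfl fun i _ => ?_
    have h1 : ∀ d ∈ D.filter (fun d => f d = i), C.z ^ (f d).val = C.z ^ i.val := by
      intro d hd
      rw [(Finset.mem_filter.1 hd).2]
    rw [Finset.sum_congr rfl h1, Finset.sum_const, nsmul_eq_mul]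
    push_cast
    rfl
  have hfin := coef C h hτ (fun i => ((D.filter (fun d => f d = i)).card : ℤ)) B (u ^ 2)
    (by
      intro i
      have h1 : (D.filter (fun d => f d = i)).card ≤ B := by
        rw [← hfib i]
        exact Finset.card_le_card (Finset.filter_subset_filter _ (Finset.subset_univ D))
      rw [abs_of_nonneg (Int.natCast_nonneg _)]
      exact_mod_cast h1)
    (by
      intro s
      rw [hXf]
      exact nsq C _ _ hX s)
    k
    (by
      rw [hXf]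
      exact hk')
  have h1 : p * Nat.totient N * u ^ 2 ≤ 4 * (4 * u ^ 2) * u ^ 2 := by
    calc p * Nat.totient N * u ^ 2 = p * (Nat.totient N * u ^ 2) := by ring
      _ ≤ N ^ 2 * B ^ 2 := hfin
      _ = (N * B) ^ 2 := by ring
      _ = (4 * u ^ 2) ^ 2 := by rw [← hB]
      _ = 4 * (4 * u ^ 2) * u ^ 2 := by ring
  have h2 := Nat.le_of_mul_le_mul_right h1 hpos
  omega

end Pool.CHD
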