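import Pool.Agent.Lib.MP_f4ebb7_co.PS
import Pool.Agent.Lib.MP_f4ebb7_co.HTA

/-! CHD-Defs (circulant Hadamard matrices of almost all orders): definitions. Do not change. -/

set_option autoImplicit false

namespace Pool.CHD

open Finset

/-- What is used of the ring of integers `ℤ[ζ_N]` of the `N`-th cyclotomic field (`N` even). -/
structure Cyc (N : ℕ) [NeZero N] (R : Type) [CommRing R] where
  z : R
  z_pow : z ^ N = 1
  sg : (ZMod N)ˣ → (R ≃+* R)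
  sg_z : ∀ t, sg t z = z ^ (t : ZMod N).val
  io : R →+* ℂ
  io_inj : Function.Injective io
  io_z : io z = Complex.exp (2 * Real.pi * Complex.I / N)
  span : ∀ x : R, ∃ c : ZMod N → ℤ, x = ∑ i : ZMod N, (c i : R) * z ^ i.val
  one_le : ∀ x : R, x ≠ 0 → 1 ≤ ∏ t : (ZMod N)ˣ, ‖io (sg t x)‖
  kron : ∀ x : R, (∀ t, ‖io (sg t x)‖ = 1) → ∃ i : ℕ, x = z ^ i

/-- complex conjugation -/
def Cyc.cj {N : ℕ} [NeZero N] {R : Type} [CommRing R] (C : Cyc N R) (x : R) : R := C.sg (-1) x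

/-- the root of unity `ζ_p = ζ_N ^ (N/p)` -/
def Cyc.zp {N : ℕ} [NeZero N] {R : Type} [CommRing R] (C : Cyc N R) (p : ℕ) : R := C.z ^ (N / p)

/-- the ideal `I` is fixed by `σ` -/
def FixI {R : Type} [CommRing R] (σ : R ≃+* R) (I : Ideal R) : Prop := ∀ x, σ x ∈ I ↔ x ∈ I

/-- `t` is a power of `q` modulo a `w` with `N = q ^ a * w` -/
def Fx (N q : ℕ) (t : (ZMod N)ˣ) : Prop :=
  ∃ a w j : ℕ, N = q ^ a * w ∧ (t : ZMod N).val ≡ q ^ j [MOD w]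

/-- `N = p ^ b * M`, `p` an odd prime, `b ≥ 2`, `p ∤ M` -/
structure Par (N p b M : ℕ) : Prop where
  hp : p.Prime
  hp2 : p ≠ 2
  hb : 2 ≤ b
  hN : N = p ^ b * M
  hM : ¬ p ∣ M

/-- `τ = σ_{1 + N/p}` -/
def IsTau (N p : ℕ) (τ : (ZMod N)ˣ) : Prop := (τ : ZMod N) = 1 + ((N / p : ℕ) : ZMod N)

/-- `t ≡ 1 mod M`, `t^ℓ = 1`, `t - 1` prime to `p` -/
structure IsT (N p M ℓ : ℕ) (t : (ZMod N)ˣ) : Prop where
  hM : (t : ZMod N).val ≡ 1 [MOD M]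
  hl : t ^ ℓ = 1
  hp : ¬ (t : ZMod N).val ≡ 1 [MOD p]

/-- `c` are the components of `y` under `τ` -/
structure IsComp {N : ℕ} [NeZero N] {R : Type} [CommRing R] (C : Cyc N R) (p : ℕ) [NeZero p] (τ : (ZMod N)ˣ)
    (y : R) (c : ZMod p → R) : Prop where
  sum : y = ∑ r : ZMod p, c r
  eig : ∀ r, C.sg τ (c r) = C.zp p ^ r.val * c r

/-- `D` is a difference set with parameter `l` in `G` -/
def IsDS (G : Type) [AddCommGroup G] [DecidableEq G] (D : Finset G) (l : ℕ) : Prop :=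
  ∀ g : G, g ≠ 0 → ((D ×ˢ D).filter (fun p => p.1 - p.2 = g)).card = l

/-- `ℤ/4u²` contains a difference set of order `u²` -/
def HD (u : ℕ) : Prop := ∃ (D : Finset (ZMod (4 * u ^ 2))) (l : ℕ), IsDS (ZMod (4 * u ^ 2)) D l ∧ D.card = u ^ 2 + l

/-- the first row of a circulant Hadamard matrix of order `v` -/
def CHM (v : ℕ) : Prop := ∃ a : Fin v → ℤ, (∀ i, a i = 1 ∨ a i = -1) ∧
  Matrix.circulant a * (Matrix.circulant a).transpose = (v : ℤ) • (1 : Matrix (Fin v) (Fin v) ℤ)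

/-! ## counting -/

/-- `p` is a prime such that `p - 1` has a prime factor `> p^(1/2 + η)` -/
def Pe (η : ℝ) (p : ℕ) : Prop := p.Prime ∧ ∃ ℓ : ℕ, ℓ.Prime ∧ ℓ ∣ p - 1 ∧ (p : ℝ) ^ (1 / 2 + η) < ℓ

/-- `∑_{p ≤ X, p ≡ 1 mod d} log p` -/
noncomputable def tp (X d : ℕ) : ℝ := ∑ p ∈ (Icc 1 X).filter (fun p => p.Prime ∧ p ≡ 1 [MOD d]), Real.log p

/-- the primes `r ≤ N` with `r^(p-1) ≡ 1 mod p²` -/
def Wf (p N : ℕ) : Finset ℕ := (Icc 1 N).filter (fun r => r.Prime ∧ r ^ (p - 1) ≡ 1 [MOD p ^ 2])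

/-- the `z`-smooth part of `m` -/
def sm (z m : ℕ) : ℕ := ∏ r ∈ m.primeFactors.filter (fun r => r ≤ z), r ^ (m.factorization r)

/-- two prime factors that are `0` or `1` modulo a `d > D` -/
def B13 (D m : ℕ) : Prop := ∃ d p r : ℕ, D < d ∧ p.Prime ∧ r.Prime ∧ p ≠ r ∧ p ∣ m ∧ r ∣ m ∧
  (d ∣ p ∨ d ∣ p - 1) ∧ (d ∣ r ∨ d ∣ r - 1)

/-- a Wieferich type pair of prime factors `p > y`, `r > z` -/
def B2 (y z m : ℕ) : Prop := ∃ p r : ℕ, p.Prime ∧ r.Prime ∧ p ≠ r ∧ p ∣ m ∧ r ∣ m ∧ y < p ∧ z < r ∧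
  r ^ (p - 1) ≡ 1 [MOD p ^ 2]

/-- a prime factor `p > y` modulo which some `r ≤ z` has a small order -/
def B4 (η : ℝ) (y z m : ℕ) : Prop := ∃ p r k : ℕ, p.Prime ∧ p ∣ m ∧ y < p ∧ 2 ≤ r ∧ r ≤ z ∧ 1 ≤ k ∧
  (k : ℝ) ≤ (p : ℝ) ^ (1 / 2 - η) ∧ p ∣ r ^ k - 1

end Pool.CHD
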