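import Pool.Agent.Lib.MP_f4ebb7_co.CHD.Comp

/-! CHD-Energy: an element all of whose conjugates have absolute value `m` has at most `m²` nonzero components.

PROOF. `E w = ∑_t ‖io (sg t w)‖²`. (1) `w ≠ 0`: `E w ≥ φ(N)`: `‖..‖² ≥ 1 + log ‖..‖²` (`Real.log_le_sub_one_of_pos`), sum:
`E w ≥ card + log (∏ ‖..‖²) ≥ card` by `C.one_le` (`Real.log_prod`, all factors positive since `io`, `sg t` are injective);
`Fintype.card (ZMod N)ˣ` is left as it is.
(2) `∑_r E (c r) = E y`. For every `i`: `E y = ∑_t ‖io (sg (t * τ^i) y)‖²` (`Equiv.mulRight`, `Fintype.sum_equiv`)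
`= ∑_t ‖∑_r ω_t^(r i) b_{t,r}‖²` with `b_{t,r} = io (sg t (c r))`, `ω_t = io (sg t (zp))` a primitive `p`-th root of unity
(`sg (t * τ^i) = sg t ∘ sg (τ^i)`, `sg (τ^i) (c r) = zp^(r i) c r` by induction with `tau_zp`). Sum over `i ∈ range p` and divide
by `p`: for fixed `t`: `∑_{i<p} ‖∑_r ω^(r i) b_r‖² = p ∑_r ‖b_r‖²` (expand the square: `‖a‖² = a * conj a`, interchange,
`∑_{i<p} ω^((r - s) i) = p` if `r = s`, else `0`).
(3) `few`: `card {r | c r ≠ 0} * φ ≤ ∑_r E (c r) = E y = φ m²`.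
-/

set_option autoImplicit false

namespace Pool.CHD

open Finset

variable {N : ℕ} [NeZero N] {R : Type} [CommRing R] [IsDomain R] [CharZero R] (C : Cyc N R)

theorem energy_ge (w : R) (hw : w ≠ 0) :
    (Fintype.card (ZMod N)ˣ : ℝ) ≤ ∑ t : (ZMod N)ˣ, ‖C.io (C.sg t w)‖ ^ 2 := by
  have hpos : ∀ t : (ZMod N)ˣ, 0 < ‖C.io (C.sg t w)‖ := by
    intro t
    apply norm_pos_iff.2
    intro h0
    apply hw
    have h1 : C.sg t w = 0 := by
      apply C.io_inj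
      rw [h0, map_zero]
    exact (map_eq_zero_iff _ (C.sg t).injective).1 h1
  have h1 : ∀ t : (ZMod N)ˣ, 1 + 2 * Real.log ‖C.io (C.sg t w)‖ ≤ ‖C.io (C.sg t w)‖ ^ 2 := by
    intro t
    have h2 := Real.log_le_sub_one_of_pos (pow_pos (hpos t) 2)
    rw [Real.log_pow] at h2
    push_cast at h2
    linarith
  have h2 : ∑ t : (ZMod N)ˣ, (1 + 2 * Real.log ‖C.io (C.sg t w)‖) ≤ ∑ t : (ZMod N)ˣ, ‖C.io (C.sg t w)‖ ^ 2 :=
    Finset.sum_le_sum (fun t _ => h1 t)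
  have h3 : ∑ t : (ZMod N)ˣ, (1 + 2 * Real.log ‖C.io (C.sg t w)‖)
      = (Fintype.card (ZMod N)ˣ : ℝ) + 2 * Real.log (∏ t : (ZMod N)ˣ, ‖C.io (C.sg t w)‖) := by
    rw [Finset.sum_add_distrib, ← Finset.mul_sum, Real.log_prod (fun t _ => (hpos t).ne')]
    simp
  have h4 : 0 ≤ Real.log (∏ t : (ZMod N)ˣ, ‖C.io (C.sg t w)‖) := Real.log_nonneg (C.one_le w hw)
  linarith

theorem parseval_aux {p : ℕ} [NeZero p] {ω : ℂ} (hω : IsPrimitiveRoot ω p) (b : ZMod p → ℂ) :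
    ∑ i ∈ range p, ‖∑ r : ZMod p, ω ^ (r.val * i) * b r‖ ^ 2 = (p : ℝ) * ∑ r : ZMod p, ‖b r‖ ^ 2 := by
  have hp0 : p ≠ 0 := NeZero.ne p
  have hω0 : ω ≠ 0 := hω.ne_zero hp0
  have hconj : (starRingEnd ℂ) ω = ω⁻¹ := by
    have h1 : ‖ω‖ = 1 := hω.norm'_eq_one hp0
    rw [← Complex.inv_eq_conj h1]
  have hsum : ∀ r s : ZMod p, r ≠ s → ∑ i ∈ range p, (ω ^ r.val * (ω⁻¹) ^ s.val) ^ i = 0 := by
    intro r s hrs
    have hne : ω ^ r.val * (ω⁻¹) ^ s.val ≠ 1 := by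
      intro h
      apply hrs
      have h2 : ω ^ r.val = ω ^ s.val := by
        rw [inv_pow] at h
        field_simp at h
        exact h
      have h3 := hω.pow_inj (ZMod.val_lt r) (ZMod.val_lt s) h2
      exact ZMod.val_injective p h3
    have hone : (ω ^ r.val * (ω⁻¹) ^ s.val) ^ p = 1 := by
      rw [mul_pow, ← pow_mul, ← pow_mul, mul_comm r.val, mul_comm s.val, pow_mul, pow_mul, inv_pow, hω.pow_eq_one]
      simp
    have hg := geom_sum_mul (ω ^ r.val * (ω⁻¹) ^ s.val) p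
    rw [hone, sub_self] at hg
    rcases mul_eq_zero.1 hg with h | h
    · exact h
    · exact absurd (sub_eq_zero.1 h) hne
  have hC : (((∑ i ∈ range p, ‖∑ r : ZMod p, ω ^ (r.val * i) * b r‖ ^ 2 : ℝ)) : ℂ)
      = (((p : ℝ) * ∑ r : ZMod p, ‖b r‖ ^ 2 : ℝ) : ℂ) := by
    have h1 : ∀ x : ℂ, (((‖x‖ ^ 2 : ℝ)) : ℂ) = x * (starRingEnd ℂ) x := by
      intro x
      rw [Complex.mul_conj, Complex.normSq_eq_norm_sq]
    rw [Complex.ofReal_sum, Complex.ofReal_mul, Complex.ofReal_sum]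
    simp_rw [h1]
    have h2 : ∀ i ∈ range p, (∑ r : ZMod p, ω ^ (r.val * i) * b r) * (starRingEnd ℂ) (∑ r : ZMod p, ω ^ (r.val * i) * b r)
        = ∑ r : ZMod p, ∑ s : ZMod p, (b r * (starRingEnd ℂ) (b s)) * (ω ^ r.val * (ω⁻¹) ^ s.val) ^ i := by
      intro i _
      rw [map_sum, Finset.sum_mul_sum]
      refine Finset.sum_congr rfl (fun r _ => Finset.sum_congr rfl (fun s _ => ?_))
      rw [map_mul, map_pow, hconj, mul_pow, ← pow_mul, ← pow_mul]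
      ring
    rw [Finset.sum_congr rfl h2, Finset.sum_comm]
    rw [Finset.mul_sum]
    refine Finset.sum_congr rfl (fun r _ => ?_)
    rw [Finset.sum_comm]
    simp_rw [← Finset.mul_sum]
    rw [Finset.sum_eq_single r]
    · have h3 : ω ^ r.val * (ω⁻¹) ^ r.val = 1 := by
        rw [← mul_pow, mul_inv_cancel₀ hω0, one_pow]
      rw [h3]
      simp
      ring
    · intro s _ hs
      rw [hsum r s (Ne.symm hs), mul_zero]
    · intro h
      exact absurd (Finset.mem_univ r) h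
  exact_mod_cast hC

theorem tau_iter_comp {p b M : ℕ} [NeZero p] (h : Par N p b M) {τ : (ZMod N)ˣ} (hτ : IsTau N p τ) {y : R}
    {c : ZMod p → R} (hc : IsComp C p τ y c) (r : ZMod p) (i : ℕ) :
    C.sg (τ ^ i) (c r) = C.zp p ^ (r.val * i) * c r := by
  induction i with
  | zero => rw [pow_zero, sg_one, mul_zero, pow_zero, one_mul]
  | succ i ih =>
    rw [pow_succ', sg_mul, ih, map_mul, tau_zp C h hτ, hc.eig, Nat.mul_succ, pow_add, mul_assoc]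

theorem energy_sum {p b M : ℕ} [NeZero p] (h : Par N p b M) {τ : (ZMod N)ˣ} (hτ : IsTau N p τ) {y : R}
    {c : ZMod p → R} (hc : IsComp C p τ y c) :
    ∑ r : ZMod p, ∑ t : (ZMod N)ˣ, ‖C.io (C.sg t (c r))‖ ^ 2 = ∑ t : (ZMod N)ˣ, ‖C.io (C.sg t y)‖ ^ 2 := by
  have hp0 : (p : ℝ) ≠ 0 := by exact_mod_cast NeZero.ne p
  have hpN : p ∣ N := by
    rw [h.hN]
    exact Dvd.dvd.mul_right (dvd_pow_self p (by have := h.hb; omega)) M
  have h1 : ∀ i ∈ range p, ∑ t : (ZMod N)ˣ, ‖C.io (C.sg t y)‖ ^ 2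
      = ∑ t : (ZMod N)ˣ, ‖∑ r : ZMod p, (C.io (C.sg t (C.zp p))) ^ (r.val * i) * C.io (C.sg t (c r))‖ ^ 2 := by
    intro i _
    symm
    refine Fintype.sum_equiv (Equiv.mulRight (τ ^ i)) _ _ (fun t => ?_)
    rw [Equiv.coe_mulRight, sg_mul]
    have h2 : C.sg (τ ^ i) y = ∑ r : ZMod p, C.zp p ^ (r.val * i) * c r := by
      conv_lhs => rw [hc.sum]
      rw [map_sum]
      exact Finset.sum_congr rfl (fun r _ => tau_iter_comp C h hτ hc r i)
    rw [h2, map_sum, map_sum]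
    congr 2
    refine Finset.sum_congr rfl (fun r _ => ?_)
    rw [map_mul, map_mul, map_pow, map_pow]
  have h2 : (p : ℝ) * ∑ t : (ZMod N)ˣ, ‖C.io (C.sg t y)‖ ^ 2
      = (p : ℝ) * ∑ r : ZMod p, ∑ t : (ZMod N)ˣ, ‖C.io (C.sg t (c r))‖ ^ 2 := by
    have h3 : (p : ℝ) * ∑ t : (ZMod N)ˣ, ‖C.io (C.sg t y)‖ ^ 2
        = ∑ i ∈ range p, ∑ t : (ZMod N)ˣ, ‖C.io (C.sg t y)‖ ^ 2 := by
      rw [Finset.sum_const, Finset.card_range, nsmul_eq_mul]
    rw [h3, Finset.sum_congr rfl h1, Finset.sum_comm]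
    rw [Finset.sum_comm (s := (univ : Finset (ZMod p))), Finset.mul_sum]
    refine Finset.sum_congr rfl (fun t _ => ?_)
    apply parseval_aux
    have h4 : IsPrimitiveRoot (C.zp p) p := zp_prim C p hpN
    have h5 : IsPrimitiveRoot (C.sg t (C.zp p)) p := h4.map_of_injective (C.sg t).injective
    exact h5.map_of_injective C.io_inj
  exact (mul_left_cancel₀ hp0 h2).symm

open Classical in
theorem few {p b M : ℕ} [NeZero p] (h : Par N p b M) {τ : (ZMod N)ˣ} (hτ : IsTau N p τ) {y : R}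
    {c : ZMod p → R} (hc : IsComp C p τ y c) (m : ℕ) (hm : ∀ t : (ZMod N)ˣ, ‖C.io (C.sg t y)‖ = m) :
    (univ.filter (fun r : ZMod p => c r ≠ 0)).card ≤ m ^ 2 := by
  have hcard : (0 : ℝ) < (Fintype.card (ZMod N)ˣ : ℝ) := by
    exact_mod_cast Fintype.card_pos
  have h1 : ((univ.filter (fun r : ZMod p => c r ≠ 0)).card : ℝ) * (Fintype.card (ZMod N)ˣ : ℝ)
      ≤ ∑ r : ZMod p, ∑ t : (ZMod N)ˣ, ‖C.io (C.sg t (c r))‖ ^ 2 := by
    calc ((univ.filter (fun r : ZMod p => c r ≠ 0)).card : ℝ) * (Fintype.card (ZMod N)ˣ : ℝ)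
        = ∑ r ∈ univ.filter (fun r : ZMod p => c r ≠ 0), (Fintype.card (ZMod N)ˣ : ℝ) := by
          rw [Finset.sum_const, nsmul_eq_mul]
      _ ≤ ∑ r ∈ univ.filter (fun r : ZMod p => c r ≠ 0), ∑ t : (ZMod N)ˣ, ‖C.io (C.sg t (c r))‖ ^ 2 := by
          refine Finset.sum_le_sum (fun r hr => ?_)
          exact energy_ge C (c r) (Finset.mem_filter.1 hr).2
      _ ≤ ∑ r : ZMod p, ∑ t : (ZMod N)ˣ, ‖C.io (C.sg t (c r))‖ ^ 2 := by
          refine Finset.sum_le_sum_of_subset_of_nonneg (Finset.filter_subset _ _) (fun r _ _ => ?_)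
          exact Finset.sum_nonneg (fun t _ => sq_nonneg _)
  rw [energy_sum C h hτ hc] at h1
  have h2 : ∑ t : (ZMod N)ˣ, ‖C.io (C.sg t y)‖ ^ 2 = (m : ℝ) ^ 2 * (Fintype.card (ZMod N)ˣ : ℝ) := by
    rw [Finset.sum_congr rfl (fun t _ => by rw [hm t])]
    rw [Finset.sum_const, nsmul_eq_mul, Finset.card_univ]
    ring
  rw [h2] at h1
  have h3 := le_of_mul_le_mul_right h1 hcard
  exact_mod_cast h3

end Pool.CHD
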