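import Pool.Agent.Lib.MP_f4ebb7_co.CHD.Defs

/-! CHD-Had: a circulant Hadamard matrix of order `v > 1` gives `v = 4u²` and a difference set of order `u²` in `ZMod v`.

PROOF. `a : Fin v → ℤ`, entries `±1`; the `(i, j)` entry of `A Aᵀ` is `∑_k a (i - k) a (j - k)`, so (`i = g`, `j = 0`, substitute) for `g ≠ 0`:
`∑_k a (k + g) a k = 0`, and for `g = 0` it is `v`. Sum over all `g`: `(∑ a)² = v`. `D = {a = 1}`, `K = #D`, `λ_g = #{(d, d') ∈ D² : d - d' = g}`
`= #{k : a k = 1, a (k + g) = 1}`. `a k = 2·1_D(k) - 1`: `∑_k a (k+g) a k = 4 λ_g - 4 K + v`, so `4 (K - λ_g) = v` for `g ≠ 0`. As `v > 1` there is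
`g ≠ 0`: `4 ∣ v`, `v = 4 n`, `K = n + l`, `l = λ_g` the same for all `g ≠ 0`. `v = w²` is a square and even, so `w = 2u`, `v = 4u²`, `n = u²`.
For `v = n' + 1`, `ZMod v` is `Fin v` definitionally (`cases v`; `ZMod (n'+1) = Fin (n'+1)`), `subst` `v = 4 * u^2` needs care: first
prove the statement `∃ D l, IsDS (ZMod v) D l ∧ D.card = u^2 + l` for `v`, then `subst`/`▸` with `hv : v = 4 * u^2`.
-/

set_option autoImplicit false

namespace Pool.CHD

open Finset

private theorem had_corr {k : ℕ} (a : ZMod (k + 1) → ℤ)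
    (h : ∀ i j : ZMod (k + 1), ∑ l : ZMod (k + 1), a (i - l) * a (j - l) =
      if i = j then ((k + 1 : ℕ) : ℤ) else 0) (g : ZMod (k + 1)) :
    ∑ x : ZMod (k + 1), a (x + g) * a x = if g = 0 then ((k + 1 : ℕ) : ℤ) else 0 := by
  rw [← h g 0, ← Equiv.sum_comp (Equiv.neg (ZMod (k + 1)))]
  refine Finset.sum_congr rfl fun x _ => ?_
  rw [Equiv.neg_apply, zero_sub, neg_add_eq_sub]

private theorem had_lam {k : ℕ} (D : Finset (ZMod (k + 1))) (g : ZMod (k + 1)) :
    (((D ×ˢ D).filter (fun p => p.1 - p.2 = g)).card : ℤ) =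
      ∑ x : ZMod (k + 1), (if x + g ∈ D then (1 : ℤ) else 0) * (if x ∈ D then 1 else 0) := by
  have h1 : ((D ×ˢ D).filter (fun p => p.1 - p.2 = g)).card =
      (univ.filter (fun x : ZMod (k + 1) => x + g ∈ D ∧ x ∈ D)).card := by
    refine Finset.card_bij' (fun p _ => p.2) (fun x _ => (x + g, x)) ?_ ?_ ?_ ?_
    · intro p hp
      rw [mem_filter, mem_product] at hp
      rw [mem_filter]
      refine ⟨mem_univ _, ?_, hp.1.2⟩
      have h2 : p.2 + g = p.1 := by
        rw [← hp.2]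
        abel
      rw [h2]
      exact hp.1.1
    · intro x hx
      rw [mem_filter] at hx
      rw [mem_filter, mem_product]
      refine ⟨⟨hx.2.1, hx.2.2⟩, ?_⟩
      change x + g - x = g
      abel
    · intro p hp
      rw [mem_filter] at hp
      have h2 : p.2 + g = p.1 := by
        rw [← hp.2]
        abel
      exact Prod.ext h2 rfl
    · intro x _
      rfl
  rw [h1, Finset.card_filter]
  push_cast
  refine Finset.sum_congr rfl fun x _ => ?_
  by_cases hx : x ∈ D <;> by_cases hy : x + g ∈ D <;> simp [hx, hy]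

private theorem had_core {k : ℕ} (hk : 1 ≤ k) (a : ZMod (k + 1) → ℤ)
    (ha : ∀ i, a i = 1 ∨ a i = -1)
    (h : ∀ i j : ZMod (k + 1), ∑ l : ZMod (k + 1), a (i - l) * a (j - l) =
      if i = j then ((k + 1 : ℕ) : ℤ) else 0) :
    ∃ u : ℕ, 1 ≤ u ∧ k + 1 = 4 * u ^ 2 ∧ ∃ (D : Finset (ZMod (k + 1))) (l : ℕ),
      IsDS (ZMod (k + 1)) D l ∧ D.card = u ^ 2 + l := by
  classical
  have hc := had_corr a h
  set D : Finset (ZMod (k + 1)) := univ.filter fun x => a x = 1 with hD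
  have haD : ∀ x, a x = 2 * (if x ∈ D then (1 : ℤ) else 0) - 1 := by
    intro x
    by_cases hx : x ∈ D
    · rw [if_pos hx, (mem_filter.1 hx).2]
      norm_num
    · rw [if_neg hx]
      rcases ha x with h1 | h1
      · exact absurd (by rw [hD, mem_filter]; exact ⟨mem_univ _, h1⟩ : x ∈ D) hx
      · rw [h1]
        norm_num
  have hcardD : ∑ x : ZMod (k + 1), (if x ∈ D then (1 : ℤ) else 0) = (D.card : ℤ) := by
    rw [Finset.sum_ite_mem, univ_inter, Finset.sum_const, nsmul_eq_mul, mul_one]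
  have hshift : ∀ g : ZMod (k + 1), ∑ x : ZMod (k + 1), (if x + g ∈ D then (1 : ℤ) else 0) =
      (D.card : ℤ) := by
    intro g
    rw [← hcardD]
    exact Equiv.sum_comp (Equiv.addRight g) (fun x => if x ∈ D then (1 : ℤ) else 0)
  have hlam : ∀ g : ZMod (k + 1), ∑ x : ZMod (k + 1), a (x + g) * a x =
      4 * (((D ×ˢ D).filter (fun p => p.1 - p.2 = g)).card : ℤ) - 4 * D.card +
        ((k + 1 : ℕ) : ℤ) := by
    intro g
    rw [had_lam]
    have h1 : ∀ x : ZMod (k + 1), a (x + g) * a x =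
        4 * ((if x + g ∈ D then (1 : ℤ) else 0) * (if x ∈ D then 1 else 0)) -
          2 * (if x + g ∈ D then (1 : ℤ) else 0) - 2 * (if x ∈ D then (1 : ℤ) else 0) + 1 := by
      intro x
      rw [haD (x + g), haD x]
      ring
    rw [Finset.sum_congr rfl fun x _ => h1 x, Finset.sum_add_distrib, Finset.sum_sub_distrib,
      Finset.sum_sub_distrib, ← Finset.mul_sum, ← Finset.mul_sum, ← Finset.mul_sum, hshift,
      hcardD, Finset.sum_const, Finset.card_univ, ZMod.card]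
    simp only [nsmul_eq_mul, mul_one]
    ring
  -- the sum of the entries
  have hsq : (∑ x : ZMod (k + 1), a x) * (∑ x : ZMod (k + 1), a x) = ((k + 1 : ℕ) : ℤ) := by
    have h1 : ∑ g : ZMod (k + 1), ∑ x : ZMod (k + 1), a (x + g) * a x = ((k + 1 : ℕ) : ℤ) := by
      rw [Finset.sum_congr rfl fun g _ => hc g, Finset.sum_ite_eq' univ (0 : ZMod (k + 1))]
      simp
    rw [Finset.sum_comm] at h1
    rw [← h1, Finset.mul_sum]
    refine Finset.sum_congr rfl fun x _ => ?_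
    rw [← Finset.sum_mul]
    congr 1
    exact (Equiv.sum_comp (Equiv.addLeft x) a).symm
  set w : ℤ := ∑ x : ZMod (k + 1), a x with hw
  have hone : (1 : ZMod (k + 1)) ≠ 0 := by
    have : Fact (1 < k + 1) := ⟨by omega⟩
    exact one_ne_zero
  have hg : ∀ g : ZMod (k + 1), g ≠ 0 →
      4 * ((D.card : ℤ) - (((D ×ˢ D).filter (fun p => p.1 - p.2 = g)).card : ℤ)) =
        ((k + 1 : ℕ) : ℤ) := by
    intro g hg0
    have h1 := hlam g
    rw [hc g, if_neg hg0] at h1
    linarith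
  set l : ℕ := ((D ×ˢ D).filter (fun p => p.1 - p.2 = (1 : ZMod (k + 1)))).card with hl
  have h1 := hg 1 hone
  have hev : (2 : ℤ) ∣ w := by
    have h2 : (2 : ℤ) ∣ w * w := by
      rw [hsq, ← h1]
      exact ⟨2 * ((D.card : ℤ) - l), by ring⟩
    rcases (Int.prime_two.dvd_mul).1 h2 with h3 | h3 <;> exact h3
  obtain ⟨w', hw'⟩ := hev
  have hnat : ((w'.natAbs : ℕ) : ℤ) ^ 2 = w' ^ 2 := Int.natAbs_sq w'
  have hv : ((k + 1 : ℕ) : ℤ) = 4 * ((w'.natAbs : ℕ) : ℤ) ^ 2 := by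
    rw [hnat, ← hsq, hw']
    ring
  have hvn : k + 1 = 4 * w'.natAbs ^ 2 := by exact_mod_cast hv
  have hK : ∀ g : ZMod (k + 1), g ≠ 0 →
      D.card = w'.natAbs ^ 2 + ((D ×ˢ D).filter (fun p => p.1 - p.2 = g)).card := by
    intro g hg0
    have h2 := hg g hg0
    rw [hv] at h2
    have h3 : (D.card : ℤ) = ((w'.natAbs : ℕ) : ℤ) ^ 2 +
        (((D ×ˢ D).filter (fun p => p.1 - p.2 = g)).card : ℤ) := by linarith
    exact_mod_cast h3
  refine ⟨w'.natAbs, ?_, hvn, D, l, ?_, hK 1 hone⟩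
  · rcases Nat.eq_zero_or_pos w'.natAbs with h0 | h0
    · rw [h0] at hvn
      omega
    · exact h0
  · intro g hg0
    have h2 := hK g hg0
    have h3 := hK 1 hone
    rw [← hl] at h3
    omega

theorem had (v : ℕ) (hv : 2 ≤ v) (h : CHM v) : ∃ u : ℕ, 1 ≤ u ∧ v = 4 * u ^ 2 ∧ HD u := by
  obtain ⟨k, rfl⟩ : ∃ k, v = k + 1 := ⟨v - 1, by omega⟩
  obtain ⟨a, ha, hA⟩ := h
  have h1 : ∀ i j : Fin (k + 1), ∑ l : Fin (k + 1), a (i - l) * a (j - l) =
      if i = j then ((k + 1 : ℕ) : ℤ) else 0 := by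
    intro i j
    have h2 := congrFun (congrFun hA i) j
    rw [Matrix.mul_apply] at h2
    simp only [Matrix.transpose_apply, Matrix.circulant_apply, Matrix.smul_apply,
      Matrix.one_apply, smul_eq_mul] at h2
    rw [h2]
    split_ifs <;> simp
  obtain ⟨u, hu, hvu, hP⟩ := had_core (k := k) (by omega) a ha h1
  refine ⟨u, hu, hvu, ?_⟩
  unfold HD
  rw [← hvu]
  exact hP

end Pool.CHD
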