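import Pool.Agent.Lib.MP_f4ebb7_co.CHD.Main
import Pool.Agent.Lib.MP_f4ebb7_co.CHD.Had

/-! CHD-Final: the number of orders of circulant Hadamard matrices.

PROOF. `main 1 1` gives `C`. A `v ∈ [1, x]` with `CHM v` is `1` or `v = 4u²` with `HD u`, `1 ≤ u ≤ √x/2` (`had`). So the count is at most `1 + #{u ≤ s : HD u}`, `s = Nat.sqrt x / 2`
(or `s = Nat.sqrt x`, simpler: `u ≤ Nat.sqrt x`). For `x ≥ 4`: `s = Nat.sqrt x ≥ 2`, `#{u ≤ s : HD u} ≤ C s/(log s)^θ`, and `log s ≥ (1/4) log x` (`s ≥ √x/2 ≥ x^(1/4)` for `x ≥ 16`), so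
`≤ C 4^θ √x/(log x)^θ` for `θ ≥ 0`; for `θ < 0` use `(log s)^(-θ) ≤ (log x)^(-θ)`. And `1 ≤ C' √x/(log x)^θ` for all `x ≥ 2` with a suitable `C'` (`(log x)^θ ≤ C' √x`). Small `x`: trivially.
-/

set_option autoImplicit false

namespace Pool.CHD

open Finset

private theorem log_rpow_le (θ : ℝ) (hθ : θ < 1 / 2) (x : ℕ) (hx : 2 ≤ x) :
    Real.log x ^ θ ≤ (2 + Real.log 2 ^ θ) * Real.sqrt x := by
  have hx2 : (2 : ℝ) ≤ x := by exact_mod_cast hx
  have hl2 : 0 < Real.log 2 := Real.log_pos (by norm_num)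
  have hlx : Real.log 2 ≤ Real.log x := Real.log_le_log (by norm_num) hx2
  have hl : 0 < Real.log x := lt_of_lt_of_le hl2 hlx
  have hs1 : 1 ≤ Real.sqrt x := by
    rw [show (1 : ℝ) = Real.sqrt 1 by simp]
    exact Real.sqrt_le_sqrt (by linarith)
  have hs0 : 0 < Real.sqrt x := by linarith
  have h2p : 0 < Real.log 2 ^ θ := Real.rpow_pos_of_pos hl2 _
  rcases le_or_gt 0 θ with h0 | h0
  · have h1 : Real.log x ^ θ ≤ 2 * Real.sqrt x := by
      rcases le_or_gt (Real.log x) 1 with h | h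
      · have := Real.rpow_le_one hl.le h h0
        linarith
      · have h3 : Real.log x ^ θ ≤ Real.log x ^ (1 : ℝ) :=
          Real.rpow_le_rpow_of_exponent_le h.le (by linarith)
        rw [Real.rpow_one] at h3
        have h4 : Real.log (Real.sqrt x) ≤ Real.sqrt x - 1 := Real.log_le_sub_one_of_pos hs0
        rw [Real.log_sqrt (by linarith)] at h4
        linarith
    have h5 : 0 ≤ Real.log 2 ^ θ * Real.sqrt x := by positivity
    linarith
  · have h1 : Real.log x ^ θ ≤ Real.log 2 ^ θ :=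
      Real.rpow_le_rpow_of_nonpos hl2 hlx h0.le
    have h2 : Real.log 2 ^ θ * 1 ≤ Real.log 2 ^ θ * Real.sqrt x :=
      mul_le_mul_of_nonneg_left hs1 h2p.le
    linarith

private theorem log_sqrt_le (θ : ℝ) (x s : ℕ) (hs : 2 ≤ s) (h1 : s * s ≤ x)
    (h2 : x < (s + 1) * (s + 1)) :
    Real.log x ^ θ ≤ 4 ^ |θ| * Real.log s ^ θ := by
  have hs2 : (2 : ℝ) ≤ s := by exact_mod_cast hs
  have hsx : (s : ℝ) ≤ x := by
    have : s ≤ x := le_trans (Nat.le_mul_self s) h1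
    exact_mod_cast this
  have hl2 : 0 < Real.log s := Real.log_pos (by linarith)
  have hle : Real.log s ≤ Real.log x := Real.log_le_log (by linarith) hsx
  have hl : 0 < Real.log x := lt_of_lt_of_le hl2 hle
  have hp : 0 < Real.log s ^ θ := Real.rpow_pos_of_pos hl2 _
  rcases le_or_gt 0 θ with h0 | h0
  · rw [abs_of_nonneg h0, ← Real.mul_rpow (by norm_num) hl2.le]
    refine Real.rpow_le_rpow hl.le ?_ h0
    have h3 : x ≤ s ^ 4 := by
      have h4 : s + 1 ≤ s * s := by nlinarith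
      calc x ≤ (s + 1) * (s + 1) := h2.le
        _ ≤ (s * s) * (s * s) := Nat.mul_le_mul h4 h4
        _ = s ^ 4 := by ring
    have h5 : (x : ℝ) ≤ (s : ℝ) ^ 4 := by exact_mod_cast h3
    calc Real.log x ≤ Real.log ((s : ℝ) ^ 4) := Real.log_le_log (by linarith) h5
      _ = 4 * Real.log s := by rw [Real.log_pow]; norm_num
  · have h3 : Real.log x ^ θ ≤ Real.log s ^ θ :=
      Real.rpow_le_rpow_of_nonpos hl2 hle h0.le
    have h4 : (1 : ℝ) ≤ 4 ^ |θ| := Real.one_le_rpow (by norm_num) (abs_nonneg _)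
    calc Real.log x ^ θ ≤ 1 * Real.log s ^ θ := by linarith
      _ ≤ 4 ^ |θ| * Real.log s ^ θ := mul_le_mul_of_nonneg_right h4 hp.le

open Classical in
private theorem chm_card (x : ℕ) :
    ((Icc 1 x).filter (fun v => CHM v)).card ≤
      1 + ((Icc 1 (Nat.sqrt x)).filter (fun m => HD (1 * m ^ 1))).card := by
  have h : (Icc 1 x).filter (fun v => CHM v) ⊆
      {1} ∪ ((Icc 1 (Nat.sqrt x)).filter (fun m => HD (1 * m ^ 1))).image
        (fun u => 4 * u ^ 2) := by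
    intro v hv
    rw [mem_filter, mem_Icc] at hv
    obtain ⟨⟨h1, h2⟩, h3⟩ := hv
    rw [mem_union, mem_singleton, mem_image]
    rcases Nat.lt_or_ge v 2 with h4 | h4
    · left; omega
    · right
      obtain ⟨u, hu1, hu2, hu3⟩ := had v h4 h3
      refine ⟨u, ?_, hu2.symm⟩
      rw [mem_filter, mem_Icc, one_mul, pow_one]
      refine ⟨⟨hu1, ?_⟩, hu3⟩
      rw [Nat.le_sqrt]
      nlinarith
  calc ((Icc 1 x).filter (fun v => CHM v)).card ≤ _ := card_le_card h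
    _ ≤ _ := card_union_le _ _
    _ ≤ _ := by
      rw [card_singleton]
      exact Nat.add_le_add_left card_image_le 1

open Classical in
theorem chm_count (θ : ℝ) (hθ : θ < 1 / 2) : ∃ C : ℝ, 0 < C ∧ ∀ x : ℕ, 2 ≤ x →
    (((Icc 1 x).filter (fun v => CHM v)).card : ℝ) ≤ C * (Real.sqrt x / Real.log x ^ θ) := by
  obtain ⟨C0, hC0, hM⟩ := main 1 1 le_rfl le_rfl θ hθ
  have hl2 : 0 < Real.log 2 := Real.log_pos (by norm_num)
  have h2p : 0 < Real.log 2 ^ θ := Real.rpow_pos_of_pos hl2 _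
  have h4p : 0 < (4 : ℝ) ^ |θ| := Real.rpow_pos_of_pos (by norm_num) _
  refine ⟨3 * (2 + Real.log 2 ^ θ) + C0 * 4 ^ |θ|, by positivity, fun x hx => ?_⟩
  have hx2 : (2 : ℝ) ≤ x := by exact_mod_cast hx
  have hl : 0 < Real.log x := Real.log_pos (by linarith)
  have hlp : 0 < Real.log x ^ θ := Real.rpow_pos_of_pos hl _
  have hsx : 0 < Real.sqrt x := Real.sqrt_pos.2 (by linarith)
  have hone : 1 ≤ (2 + Real.log 2 ^ θ) * (Real.sqrt x / Real.log x ^ θ) := by
    rw [← mul_div_assoc, le_div_iff₀ hlp, one_mul]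
    exact log_rpow_le θ hθ x hx
  have hq : 0 < Real.sqrt x / Real.log x ^ θ := div_pos hsx hlp
  rcases Nat.lt_or_ge x 4 with h4 | h4
  · have h5 : ((Icc 1 x).filter (fun v => CHM v)).card ≤ 3 := by
      calc ((Icc 1 x).filter (fun v => CHM v)).card ≤ (Icc 1 x).card := card_filter_le _ _
        _ = x := by simp
        _ ≤ 3 := by omega
    have h6 : (((Icc 1 x).filter (fun v => CHM v)).card : ℝ) ≤ 3 := by exact_mod_cast h5
    have h7 : 0 ≤ C0 * 4 ^ |θ| * (Real.sqrt x / Real.log x ^ θ) := by positivity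
    rw [add_mul]
    linarith
  · have hs : 2 ≤ Nat.sqrt x := by
      rw [Nat.le_sqrt]; omega
    have h5 : (((Icc 1 x).filter (fun v => CHM v)).card : ℝ) ≤
        1 + (((Icc 1 (Nat.sqrt x)).filter (fun m => HD (1 * m ^ 1))).card : ℝ) := by
      exact_mod_cast chm_card x
    have h6 := hM (Nat.sqrt x) hs
    have hs2 : (2 : ℝ) ≤ (Nat.sqrt x : ℝ) := by exact_mod_cast hs
    have hls : 0 < Real.log (Nat.sqrt x : ℝ) := Real.log_pos (by linarith)
    have hlsp : 0 < Real.log (Nat.sqrt x : ℝ) ^ θ := Real.rpow_pos_of_pos hls _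
    have h7 : (Nat.sqrt x : ℝ) ≤ Real.sqrt x := Real.nat_sqrt_le_real_sqrt
    have h8 := log_sqrt_le θ x (Nat.sqrt x) hs (Nat.sqrt_le x) (Nat.lt_succ_sqrt x)
    have h9 : (Nat.sqrt x : ℝ) / Real.log (Nat.sqrt x : ℝ) ^ θ ≤
        4 ^ |θ| * (Real.sqrt x / Real.log x ^ θ) := by
      rw [← mul_div_assoc, div_le_div_iff₀ hlsp hlp]
      calc (Nat.sqrt x : ℝ) * Real.log x ^ θ ≤
          Real.sqrt x * (4 ^ |θ| * Real.log (Nat.sqrt x : ℝ) ^ θ) :=
            mul_le_mul h7 h8 hlp.le hsx.le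
        _ = 4 ^ |θ| * Real.sqrt x * Real.log (Nat.sqrt x : ℝ) ^ θ := by ring
    have h10 : C0 * ((Nat.sqrt x : ℝ) / Real.log (Nat.sqrt x : ℝ) ^ θ) ≤
        C0 * (4 ^ |θ| * (Real.sqrt x / Real.log x ^ θ)) := mul_le_mul_of_nonneg_left h9 hC0.le
    rw [add_mul]
    nlinarith [h5, h6, h10, hone]

end Pool.CHD
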