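import Pool.Agent.Lib.MP_f4ebb7_co.CHD.Basic

/-! CHD-Frob: `Fx N q t` implies that every prime ideal containing the prime `q` is fixed by `σ_t`.

PROOF. Let `N = q ^ a * w`, `T = t.val ≡ q ^ j mod w`. Claim (1): `q ∣ (sg t x) ^ (q ^ a) - x ^ (q ^ (a + j))` for every `x : R`.
In `R ⧸ (q)` (a ring of characteristic `q`: `CharP`, or use `add_pow_prime_pow_eq`-type lemmas for divisibility:
`add_pow_char_pow`, `sum_pow_char_pow` in the quotient ring `R ⧸ Ideal.span {(q : R)}`; if `q` is a unit in `R` the quotient is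
trivial and there is nothing to prove, but it is not needed to know this) the map `y ↦ y ^ q ^ k` is a ring homomorphism
(`iterateFrobenius`). So it is enough (`span`) to check: integers: `c ^ (q ^ k) = c` in the quotient (`ZMod` Fermat:
`Int.ModEq`, or: both sides are ring homomorphisms `R →+* R ⧸ (q)`, and two homomorphisms that agree at `z` agree, `hom_ext`!).
So define `f = (iterateFrobenius _ q a).comp ((mk).comp (sg t))`, `g = (iterateFrobenius _ q (a + j)).comp mk`, and check
`f z = g z`: `z ^ (T * q ^ a) = z ^ (q ^ (a + j))` in `R` because `T * q ^ a ≡ q ^ j * q ^ a mod w * q ^ a = N`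
(`Nat.ModEq.mul_right'`) and `z_pow_eq_iff`.
(`CharP (R ⧸ (q)) q` needs `q` not a unit; this holds if there is a prime ideal `P ∋ q`, as here. Alternatively work directly
in `R ⧸ P`, a domain of characteristic `q` (`CharP` from `(q : R) ∈ P`, `P ≠ ⊤`): the same two homs into `R ⧸ P`.)
(2) If `x ∈ P` then `(sg t x) ^ (q ^ a) ∈ P`, so `sg t x ∈ P` (`Ideal.IsPrime.mem_of_pow_mem`).
(3) Converse: `t ^ k = 1` for `k = orderOf t ≥ 1`; if `sg t x ∈ P` then applying (2) `k - 1` times, `sg (t ^ k) x = x ∈ P`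
(`sg_mul`, `sg_one`).
-/

set_option autoImplicit false

namespace Pool.CHD

open Finset

theorem frob_key {N : ℕ} [NeZero N] {R : Type} [CommRing R] (C : Cyc N R) (q : ℕ) (hq : q.Prime) (t : (ZMod N)ˣ)
    (h : Fx N q t) (P : Ideal R) (hP : P.IsPrime) (hqP : (q : R) ∈ P) (x : R) (hx : x ∈ P) : C.sg t x ∈ P := by
  obtain ⟨a, w, j, hN, hT⟩ := h
  haveI : Fact q.Prime := ⟨hq⟩
  haveI := hP
  have hq0 : ((q : ℕ) : R ⧸ P) = 0 := by
    rw [← map_natCast (Ideal.Quotient.mk P)]
    exact Ideal.Quotient.eq_zero_iff_mem.mpr hqP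
  haveI : Nontrivial (R ⧸ P) := Ideal.Quotient.nontrivial_iff.mpr hP.ne_top
  haveI : CharP (R ⧸ P) q := (CharP.charP_iff_prime_eq_zero hq).mpr hq0
  have hfg : (iterateFrobenius (R ⧸ P) q a).comp ((Ideal.Quotient.mk P).comp (C.sg t : R →+* R)) =
      (iterateFrobenius (R ⧸ P) q (a + j)).comp (Ideal.Quotient.mk P) := by
    refine hom_ext C _ _ ?_
    simp only [RingHom.comp_apply, iterateFrobenius_def, RingHom.coe_coe]
    rw [C.sg_z, ← map_pow, ← map_pow, ← pow_mul]
    congr 1
    rw [z_pow_eq_iff]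
    have h5 := hT.mul_right' (q ^ a)
    rw [← pow_add, add_comm j a, mul_comm w, ← hN] at h5
    exact h5
  have h1 := RingHom.congr_fun hfg x
  simp only [RingHom.comp_apply, iterateFrobenius_def, RingHom.coe_coe] at h1
  rw [Ideal.Quotient.eq_zero_iff_mem.mpr hx, zero_pow (pow_ne_zero _ hq.ne_zero), ← map_pow,
    Ideal.Quotient.eq_zero_iff_mem] at h1
  exact hP.mem_of_pow_mem _ h1

theorem frob {N : ℕ} [NeZero N] {R : Type} [CommRing R] (C : Cyc N R) (q : ℕ) (hq : q.Prime) (t : (ZMod N)ˣ)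
    (h : Fx N q t) (P : Ideal R) (hP : P.IsPrime) (hqP : (q : R) ∈ P) : FixI (C.sg t) P := by
  intro x
  refine ⟨fun hx => ?_, frob_key C q hq t h P hP hqP x⟩
  have hk : 0 < orderOf t := orderOf_pos t
  have h2 : ∀ k : ℕ, C.sg (t ^ k) (C.sg t x) ∈ P := by
    intro k
    induction k with
    | zero => rw [pow_zero, sg_one]; exact hx
    | succ k ih =>
      rw [pow_succ', sg_mul]
      exact frob_key C q hq t h P hP hqP _ ih
  have h3 := h2 (orderOf t - 1)
  rw [← sg_mul, ← pow_succ, Nat.sub_add_cancel hk, pow_orderOf_eq_one, sg_one] at h3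
  exact h3

end Pool.CHD
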