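import Pool.Agent.Lib.MP_f4ebb7_co.CHD.Defs

/-! CHD-GLarge: Goldfeld's argument, large primes.

PROOF. `∑_{ℓ ∈ (R, X] prime} Λ(ℓ) tp X ℓ = ∑_{p ≤ X prime} log p ∑_{ℓ ∈ (R, X] prime, ℓ ∣ p - 1} log ℓ` (interchange; `p ≡ 1 [MOD ℓ] ↔ ℓ ∣ p - 1`). For a prime `p ≤ X` there is at
most one prime `ℓ > R` with `ℓ ∣ p - 1`: two of them would give `ℓ ℓ' ∣ p - 1 < X`, but `ℓ ℓ' > R² ≥ X`. So the inner sum is `≤ log X`, and it is `0` unless
there is such an `ℓ`; then `Pe η p` since `p^(1/2+η) ≤ X^(1/2+η) ≤ R < ℓ`. So the total is `≤ log X ∑_{p ≤ X, Pe η p} log p = log X * thP (Pe η) X`.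
-/

set_option autoImplicit false

namespace Pool.CHD

open Finset

private theorem glarge_sq {η : ℝ} (hη : 0 < η) {X R : ℕ} (hX : 1 ≤ X)
    (hR : (X : ℝ) ^ (1 / 2 + η) ≤ R) : X ≤ R * R := by
  have hX' : (1 : ℝ) ≤ X := by exact_mod_cast hX
  have h0 : (0 : ℝ) ≤ (X : ℝ) ^ (1 / 2 + η) := by positivity
  have h1 : (X : ℝ) ≤ (X : ℝ) ^ (1 / 2 + η) * (X : ℝ) ^ (1 / 2 + η) := by
    rw [← Real.rpow_add (by linarith)]
    calc (X : ℝ) = (X : ℝ) ^ (1 : ℝ) := (Real.rpow_one _).symm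
      _ ≤ _ := Real.rpow_le_rpow_of_exponent_le hX' (by linarith)
  have h2 : (X : ℝ) ≤ (R : ℝ) * R := h1.trans (mul_le_mul hR hR h0 (h0.trans hR))
  exact_mod_cast h2

open scoped Classical in
private theorem glarge_inner {η : ℝ} (hη : 0 < η) {X R : ℕ} (hX : 1 ≤ X)
    (hR : (X : ℝ) ^ (1 / 2 + η) ≤ R) {p : ℕ} (hp : p.Prime) (hpX : p ≤ X) :
    ∑ d ∈ ((Ioc R X).filter Nat.Prime).filter (fun d => p ≡ 1 [MOD d]),
      ArithmeticFunction.vonMangoldt d ≤ if Pe η p then Real.log X else 0 := by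
  set D := ((Ioc R X).filter Nat.Prime).filter (fun d => p ≡ 1 [MOD d]) with hD
  have hmem : ∀ d ∈ D, R < d ∧ d ≤ X ∧ d.Prime ∧ d ∣ p - 1 := by
    intro d hd
    rw [hD, mem_filter, mem_filter, mem_Ioc] at hd
    exact ⟨hd.1.1.1, hd.1.1.2, hd.1.2, (Nat.modEq_iff_dvd' hp.one_lt.le).1 hd.2.symm⟩
  have hcard : D.card ≤ 1 := by
    rw [card_le_one]
    intro d hd d' hd'
    by_contra hne
    obtain ⟨h1, _, h3, h4⟩ := hmem d hd
    obtain ⟨h1', _, h3', h4'⟩ := hmem d' hd'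
    have hcop : Nat.Coprime d d' := (Nat.coprime_primes h3 h3').2 hne
    have hdvd : d * d' ∣ p - 1 := hcop.mul_dvd_of_dvd_of_dvd h4 h4'
    have hle := Nat.le_of_dvd (by have := hp.two_le; omega) hdvd
    have hsq := glarge_sq hη hX hR
    have h5 : R * R ≤ d * d' := Nat.mul_le_mul h1.le h1'.le
    have := hp.two_le
    omega
  rcases D.eq_empty_or_nonempty with h0 | ⟨d, hd⟩
  · rw [h0, sum_empty]
    split_ifs
    · exact Real.log_natCast_nonneg X
    · exact le_rfl
  · obtain ⟨h1, h2, h3, h4⟩ := hmem d hd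
    have hDd : D = {d} := by
      refine (eq_singleton_iff_unique_mem).2 ⟨hd, fun x hx => ?_⟩
      exact (card_le_one.1 hcard) x hx d hd
    have hPe : Pe η p := by
      refine ⟨hp, d, h3, h4, ?_⟩
      have h5 : (p : ℝ) ^ (1 / 2 + η) ≤ (X : ℝ) ^ (1 / 2 + η) :=
        Real.rpow_le_rpow (Nat.cast_nonneg p) (by exact_mod_cast hpX) (by linarith)
      have h6 : (R : ℝ) < d := by exact_mod_cast h1
      linarith
    rw [if_pos hPe, hDd, sum_singleton, ArithmeticFunction.vonMangoldt_apply_prime h3]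
    exact Real.log_le_log (by exact_mod_cast h3.pos) (by exact_mod_cast h2)

theorem g_large (η : ℝ) (hη : 0 < η) (X R : ℕ) (hX : 1 ≤ X) (hR : (X : ℝ) ^ (1 / 2 + η) ≤ R) :
    ∑ d ∈ (Ioc R X).filter Nat.Prime, ArithmeticFunction.vonMangoldt d * tp X d ≤
      Real.log X * Pool.Agent.Lib.MP_f4ebb7_co.thP (Pe η) X := by
  classical
  have h1 : ∑ d ∈ (Ioc R X).filter Nat.Prime, ArithmeticFunction.vonMangoldt d * tp X d =
      ∑ p ∈ (Icc 1 X).filter Nat.Prime, Real.log p *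
        ∑ d ∈ ((Ioc R X).filter Nat.Prime).filter (fun d => p ≡ 1 [MOD d]),
          ArithmeticFunction.vonMangoldt d := by
    have e1 : ∀ d ∈ (Ioc R X).filter Nat.Prime, ArithmeticFunction.vonMangoldt d * tp X d =
        ∑ p ∈ (Icc 1 X).filter Nat.Prime,
          if p ≡ 1 [MOD d] then Real.log p * ArithmeticFunction.vonMangoldt d else 0 := by
      intro d _
      unfold tp
      rw [← filter_filter, sum_filter, mul_sum]
      apply sum_congr rfl
      intro p _
      split_ifs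
      · ring
      · rw [mul_zero]
    rw [sum_congr rfl e1, sum_comm]
    apply sum_congr rfl
    intro p _
    rw [mul_sum]
    symm
    rw [sum_filter]
  rw [h1]
  calc ∑ p ∈ (Icc 1 X).filter Nat.Prime, Real.log p *
        ∑ d ∈ ((Ioc R X).filter Nat.Prime).filter (fun d => p ≡ 1 [MOD d]),
          ArithmeticFunction.vonMangoldt d
      ≤ ∑ p ∈ (Icc 1 X).filter Nat.Prime, Real.log p * (if Pe η p then Real.log X else 0) := by
        apply sum_le_sum
        intro p hp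
        rw [mem_filter, mem_Icc] at hp
        apply mul_le_mul_of_nonneg_left _ (Real.log_natCast_nonneg p)
        exact glarge_inner hη hX hR hp.2 hp.1.2
    _ = Real.log X * Pool.Agent.Lib.MP_f4ebb7_co.thP (Pe η) X := by
        unfold Pool.Agent.Lib.MP_f4ebb7_co.thP
        have hset : (Icc 1 X).filter Nat.Prime = Nat.primesLE X := by
          ext p
          rw [mem_filter, mem_Icc, Nat.mem_primesLE]
          constructor
          · rintro ⟨⟨_, h⟩, hp⟩
            exact ⟨h, hp⟩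
          · rintro ⟨h, hp⟩
            exact ⟨⟨hp.one_lt.le, h⟩, hp⟩
        rw [hset, mul_sum, sum_filter]
        apply sum_congr rfl
        intro p _
        split_ifs
        · ring
        · rw [mul_zero]

end Pool.CHD
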