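import Pool.Agent.Lib.MP_f4ebb7_co.CHD.Defs
import Pool.Agent.Lib.MP_dd84fd_nt.SW.SWPsi

/-! CHD-GLow: Goldfeld's argument, the lower bound and the identity for `S(X) = ∑_{p ≤ X} log p log(p-1)`.

PROOF. `g_id`: `log (p-1) = ∑_{d ∣ p-1} Λ(d)` (`ArithmeticFunction.vonMangoldt_sum`, `p ≥ 2`), interchange the sums: for a prime `p ≤ X` and `1 ≤ d ≤ X`:
`d ∣ p - 1 ↔ p ≡ 1 [MOD d]` (`Nat.modEq_iff_dvd'`), divisors of `p - 1` are `≤ X`.
`g_low`: let `δ = min (1/4) (ε/8)`, `θ(X) = ∑_{p ≤ X} log p`. `Pool.MP_dd84fd_nt.SW.sw_theta 1 0` with `r = 1`, `c = 1`: `θ(X) ≥ X - X/log X`;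
`θ(⌊δX⌋) ≤ log 4 * δ X` (`thP_le` with `P = True`, or `Chebyshev.theta_le_log4_mul_x`). For `δ X < p`: `log (p - 1) ≥ log (δX/2) = log X + log (δ/2)` (if `δ X ≥ 2`).
So `S(X) ≥ (X - X/log X - 2δX)(log X + log (δ/2)) ≥ (1 - ε) X log X` for large `X`.
-/

set_option autoImplicit false

namespace Pool.CHD

open Finset

theorem g_id (X : ℕ) : ∑ p ∈ (Icc 1 X).filter Nat.Prime, Real.log p * Real.log ((p - 1 : ℕ) : ℝ) =
    ∑ d ∈ Icc 1 X, ArithmeticFunction.vonMangoldt d * tp X d := by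
  have h1 : ∀ d ∈ Icc 1 X, ArithmeticFunction.vonMangoldt d * tp X d =
      ∑ p ∈ (Icc 1 X).filter Nat.Prime,
        if d ∣ p - 1 then Real.log p * ArithmeticFunction.vonMangoldt d else 0 := by
    intro d _
    unfold tp
    rw [Finset.mul_sum, ← Finset.sum_filter, Finset.filter_filter]
    apply Finset.sum_congr
    · apply Finset.filter_congr
      intro p _
      constructor
      · rintro ⟨hp, hd⟩
        exact ⟨hp, (Nat.modEq_iff_dvd' hp.one_lt.le).1 hd.symm⟩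
      · rintro ⟨hp, hd⟩
        exact ⟨hp, ((Nat.modEq_iff_dvd' hp.one_lt.le).2 hd).symm⟩
    · intro p _
      ring
  rw [Finset.sum_congr rfl h1, Finset.sum_comm]
  apply Finset.sum_congr rfl
  intro p hp
  rw [mem_filter, mem_Icc] at hp
  rw [← Finset.sum_filter, ← Finset.mul_sum]
  congr 1
  rw [← ArithmeticFunction.vonMangoldt_sum]
  apply Finset.sum_congr _ (fun _ _ => rfl)
  ext d
  rw [Nat.mem_divisors, mem_filter, mem_Icc]
  have h2 := hp.2.two_le
  constructor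
  · rintro ⟨h3, h4⟩
    refine ⟨⟨Nat.pos_of_dvd_of_pos h3 (by omega), ?_⟩, h3⟩
    have := Nat.le_of_dvd (by omega) h3
    omega
  · rintro ⟨_, h3⟩
    exact ⟨h3, by omega⟩

private theorem gl_primes (m : ℕ) : (Icc 1 m).filter Nat.Prime = Nat.primesLE m := by
  ext q
  rw [mem_filter, mem_Icc, Nat.mem_primesLE]
  constructor
  · rintro ⟨⟨_, h1⟩, h2⟩
    exact ⟨h1, h2⟩
  · rintro ⟨h1, h2⟩
    exact ⟨⟨h2.one_lt.le, h1⟩, h2⟩

private theorem gl_theta_le (m : ℕ) : ∑ p ∈ (Icc 1 m).filter Nat.Prime, Real.log p ≤ 2 * m := by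
  rw [gl_primes]
  have h1 := Chebyshev.theta_le_log4_mul_x (x := (m : ℝ)) (Nat.cast_nonneg m)
  rw [Chebyshev.theta_eq_sum_primesLE_log] at h1
  have hl4 : Real.log 4 ≤ 2 := by
    have h9 : Real.log 4 = 2 * Real.log 2 := by
      rw [show (4 : ℝ) = 2 ^ 2 by norm_num, Real.log_pow]; push_cast; ring
    have := Real.log_two_lt_d9
    linarith
  have h2 : Real.log 4 * m ≤ 2 * m := mul_le_mul_of_nonneg_right hl4 (Nat.cast_nonneg _)
  refine le_trans ?_ h2
  exact h1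

theorem g_low (ε : ℝ) (hε : 0 < ε) : ∃ X0 : ℕ, ∀ X : ℕ, X0 ≤ X →
    (1 - ε) * (X * Real.log X) ≤ ∑ p ∈ (Icc 1 X).filter Nat.Prime, Real.log p * Real.log ((p - 1 : ℕ) : ℝ) := by
  obtain ⟨X1, hX1⟩ := Pool.MP_dd84fd_nt.SW.sw_theta 1 0
  obtain ⟨δ, hδ⟩ : ∃ δ : ℝ, δ = min (1 / 4) (ε / 8) := ⟨_, rfl⟩
  have hδ0 : 0 < δ := by rw [hδ]; exact lt_min (by norm_num) (by linarith)
  have hδ1 : δ ≤ 1 / 4 := by rw [hδ]; exact min_le_left _ _
  have hδ2 : δ ≤ ε / 8 := by rw [hδ]; exact min_le_right _ _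
  obtain ⟨c, hc⟩ : ∃ c : ℝ, c = -Real.log (δ / 2) := ⟨_, rfl⟩
  have hc0 : 0 ≤ c := by
    rw [hc]
    have := Real.log_nonpos (by positivity : 0 ≤ δ / 2) (by linarith)
    linarith
  have hev1 : ∀ᶠ X : ℕ in Filter.atTop, max (c + 1) ((1 + c) / (3 * ε / 4)) ≤ Real.log X :=
    (Real.tendsto_log_atTop.comp tendsto_natCast_atTop_atTop).eventually_ge_atTop _
  have hev2 : ∀ᶠ X : ℕ in Filter.atTop, 2 / δ ≤ (X : ℝ) :=
    tendsto_natCast_atTop_atTop.eventually_ge_atTop _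
  obtain ⟨X2, hX2⟩ := Filter.eventually_atTop.1 hev1
  obtain ⟨X3, hX3⟩ := Filter.eventually_atTop.1 hev2
  refine ⟨max X1 (max X2 X3), ?_⟩
  intro X hX
  have ha := hX1 X (le_trans (le_max_left _ _) hX) 1 1 le_rfl (by simp) (Nat.coprime_one_left _)
  have hb := hX2 X (le_trans (le_trans (le_max_left _ _) (le_max_right _ _)) hX)
  have hd := hX3 X (le_trans (le_trans (le_max_right _ _) (le_max_right _ _)) hX)
  obtain ⟨L, hL⟩ : ∃ L : ℝ, L = Real.log X := ⟨_, rfl⟩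
  rw [← hL] at hb ha ⊢
  have hL1 : c + 1 ≤ L := (le_max_left _ _).trans hb
  have hL2 : (1 + c) / (3 * ε / 4) ≤ L := (le_max_right _ _).trans hb
  have hL0 : 0 < L := by linarith
  have hX0 : (0 : ℝ) < X := lt_of_lt_of_le (by positivity) hd
  have hδX : 2 ≤ δ * X := by
    rw [div_le_iff₀ hδ0] at hd
    linarith
  -- theta
  have hθ : (X : ℝ) - X / L ≤ ∑ p ∈ (Icc 1 X).filter Nat.Prime, Real.log p := by
    have h1 : (Icc 1 X).filter (fun n => n.Prime ∧ n ≡ 1 [MOD 1]) = (Icc 1 X).filter Nat.Prime := by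
      apply Finset.filter_congr
      intro n _
      simp [Nat.modEq_one]
    rw [h1, Nat.totient_one, Nat.cast_one, div_one, pow_one] at ha
    have := (abs_le.1 ha).1
    linarith
  have hθ2 : ∑ p ∈ (Icc 1 ⌊δ * X⌋₊).filter Nat.Prime, Real.log p ≤ 2 * (δ * X) := by
    refine (gl_theta_le _).trans ?_
    exact mul_le_mul_of_nonneg_left (Nat.floor_le (by positivity)) (by norm_num)
  have hfl : ⌊δ * X⌋₊ ≤ X := by
    apply Nat.floor_le_of_le
    nlinarith
  have hsplit : ∑ p ∈ (Icc 1 X).filter Nat.Prime, Real.log p =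
      ∑ p ∈ (Icc 1 ⌊δ * X⌋₊).filter Nat.Prime, Real.log p +
        ∑ p ∈ (Icc 1 X).filter (fun p => p.Prime ∧ ⌊δ * X⌋₊ < p), Real.log p := by
    rw [← Finset.sum_union]
    · apply Finset.sum_congr _ (fun _ _ => rfl)
      ext q
      simp only [mem_union, mem_filter, mem_Icc]
      constructor
      · rintro ⟨⟨h1, h2⟩, h3⟩
        rcases Nat.lt_or_ge ⌊δ * X⌋₊ q with h4 | h4
        · right; exact ⟨⟨h1, h2⟩, h3, h4⟩
        · left; exact ⟨⟨h1, h4⟩, h3⟩
      · rintro (⟨⟨h1, h2⟩, h3⟩ | ⟨⟨h1, h2⟩, h3, _⟩)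
        · exact ⟨⟨h1, h2.trans hfl⟩, h3⟩
        · exact ⟨⟨h1, h2⟩, h3⟩
    · rw [Finset.disjoint_left]
      intro q hq hq'
      simp only [mem_filter, mem_Icc] at hq hq'
      omega
  have hLc : 0 ≤ L - c := by linarith
  calc (1 - ε) * (X * L) ≤ ((X : ℝ) - X / L - 2 * (δ * X)) * (L - c) := by
        have h1 : (1 + c) ≤ L * (3 * ε / 4) := by
          rwa [div_le_iff₀ (by positivity)] at hL2
        have h2 : ((X : ℝ) - X / L - 2 * (δ * X)) * (L - c) =
            X * ((1 - 2 * δ) * L - 1 - c * (1 - 2 * δ) + c / L) := by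
          field_simp
          ring
        have h3 : 0 ≤ c / L := by positivity
        have h4 : (1 - ε) * L ≤ (1 - 2 * δ) * L - 1 - c * (1 - 2 * δ) + c / L := by
          have h5 : 2 * δ * L ≤ ε / 4 * L := mul_le_mul_of_nonneg_right (by linarith) hL0.le
          have h6 : 0 ≤ c * δ := by positivity
          nlinarith
        rw [h2]
        calc (1 - ε) * (X * L) = X * ((1 - ε) * L) := by ring
          _ ≤ _ := mul_le_mul_of_nonneg_left h4 hX0.le
    _ ≤ (∑ p ∈ (Icc 1 X).filter (fun p => p.Prime ∧ ⌊δ * X⌋₊ < p), Real.log p) * (L - c) := by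
        apply mul_le_mul_of_nonneg_right _ hLc
        linarith
    _ = ∑ p ∈ (Icc 1 X).filter (fun p => p.Prime ∧ ⌊δ * X⌋₊ < p), Real.log p * (L - c) := by
        rw [Finset.sum_mul]
    _ ≤ ∑ p ∈ (Icc 1 X).filter (fun p => p.Prime ∧ ⌊δ * X⌋₊ < p),
          Real.log p * Real.log ((p - 1 : ℕ) : ℝ) := by
        apply Finset.sum_le_sum
        intro p hp
        rw [mem_filter, mem_Icc] at hp
        obtain ⟨_, hp1, hp2⟩ := hp
        apply mul_le_mul_of_nonneg_left _ (Real.log_natCast_nonneg p)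
        rw [Nat.floor_lt (by positivity)] at hp2
        have h7 : δ / 2 * X ≤ ((p - 1 : ℕ) : ℝ) := by
          rw [Nat.cast_sub hp1.one_lt.le]
          push_cast
          have h8 : (2 : ℝ) ≤ p := by exact_mod_cast hp1.two_le
          linarith
        calc L - c = Real.log (δ / 2 * X) := by
              rw [Real.log_mul (by positivity) hX0.ne', hc, hL]
              ring
          _ ≤ _ := Real.log_le_log (by positivity) h7
    _ ≤ _ := by
        apply Finset.sum_le_sum_of_subset_of_nonneg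
        · intro q hq
          rw [mem_filter] at hq ⊢
          exact ⟨hq.1, hq.2.1⟩
        · intro q _ _
          exact mul_nonneg (Real.log_natCast_nonneg _) (Real.log_natCast_nonneg _)

end Pool.CHD
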