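import Pool.Agent.Lib.MP_f4ebb7_co.CHD.BTP
import Pool.Agent.Lib.MP_67663b_nt.OddB.Mert
import Pool.Agent.Lib.MP_e426f4_ag.TWL.MertLow

/-! CHD-GMid: Goldfeld's argument, primes of medium size.

PROOF. `btp`: each term is at most `log ℓ * C X/ℓ` (`ArithmeticFunction.vonMangoldt_apply_prime`, `ℓ ≤ R ≤ X^(3/4)`). `∑_{Q < ℓ ≤ R} log ℓ/ℓ =
∑_{ℓ ≤ R} - ∑_{ℓ ≤ Q} ≤ (log R + log 4) - (log Q - C1)` by `Pool.MP_67663b_nt.Mert.log_sum_le R` and `Pool.Agent.Lib.MP_e426f4_ag.TWL.mertens_low`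
(sums over `Nat.primesLE`; `(Ioc Q R).filter Nat.Prime = primesLE R \ primesLE Q`). Take the constant `C * (1 + log 4 + C1)`, `log (R/Q) ≥ 0`.
-/

set_option autoImplicit false

namespace Pool.CHD

open Finset

theorem g_mid : ∃ C : ℝ, 0 < C ∧ ∀ X Q R : ℕ, 2 ≤ X → 1 ≤ Q → Q ≤ R → (R : ℝ) ≤ (X : ℝ) ^ (3 / 4 : ℝ) →
    ∑ d ∈ (Ioc Q R).filter Nat.Prime, ArithmeticFunction.vonMangoldt d * tp X d ≤
      C * X * (Real.log (R / Q) + 1) := by
  obtain ⟨C0, hC0, h0⟩ := btp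
  obtain ⟨C1, hC1, h1⟩ := Pool.Agent.Lib.MP_e426f4_ag.TWL.mertens_low
  have hl4 : 0 ≤ Real.log 4 := Real.log_nonneg (by norm_num)
  refine ⟨C0 * (1 + Real.log 4 + C1), by positivity, ?_⟩
  intro X Q R hX hQ hQR hR
  have hQ0 : (0 : ℝ) < Q := by exact_mod_cast hQ
  have hR0 : (0 : ℝ) < R := by exact_mod_cast (lt_of_lt_of_le hQ hQR)
  have hXX : (0 : ℝ) ≤ (X : ℝ) := Nat.cast_nonneg X
  have hterm : ∀ d ∈ (Ioc Q R).filter Nat.Prime,
      ArithmeticFunction.vonMangoldt d * tp X d ≤ (C0 * X) * (Real.log d / d) := by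
    intro d hd
    rw [Finset.mem_filter, Finset.mem_Ioc] at hd
    obtain ⟨⟨_, hdR⟩, hdp⟩ := hd
    have hdR' : (d : ℝ) ≤ (X : ℝ) ^ (3 / 4 : ℝ) := le_trans (by exact_mod_cast hdR) hR
    have h2 := h0 X d hX hdp hdR'
    rw [ArithmeticFunction.vonMangoldt_apply_prime hdp]
    have h3 : 0 ≤ Real.log d := Real.log_natCast_nonneg d
    calc Real.log d * tp X d ≤ Real.log d * (C0 * (X / d)) := mul_le_mul_of_nonneg_left h2 h3
      _ = (C0 * X) * (Real.log d / d) := by ring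
  have hset : (Ioc Q R).filter Nat.Prime = Nat.primesLE R \ Nat.primesLE Q := by
    ext d
    simp only [Finset.mem_filter, Finset.mem_Ioc, Finset.mem_sdiff, Nat.mem_primesLE]
    constructor
    · rintro ⟨⟨ha, hb⟩, hp⟩
      exact ⟨⟨hb, hp⟩, fun h => absurd h.1 (not_le.2 ha)⟩
    · rintro ⟨⟨hb, hp⟩, hn⟩
      refine ⟨⟨?_, hb⟩, hp⟩
      by_contra hc
      exact hn ⟨not_lt.1 hc, hp⟩
  have hsub : Nat.primesLE Q ⊆ Nat.primesLE R := by
    intro d hd
    rw [Nat.mem_primesLE] at hd ⊢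
    exact ⟨hd.1.trans hQR, hd.2⟩
  have hsum : ∑ d ∈ (Ioc Q R).filter Nat.Prime, Real.log d / d ≤
      Real.log (R / Q) + Real.log 4 + C1 := by
    rw [hset]
    have h4 := Finset.sum_sdiff (f := fun d : ℕ => Real.log d / d) hsub
    have h5 := Pool.MP_67663b_nt.Mert.log_sum_le R (le_trans hQ hQR)
    have h6 := h1 Q hQ
    rw [Real.log_div hR0.ne' hQ0.ne']
    linarith
  have hlog : 0 ≤ Real.log (R / Q) := by
    apply Real.log_nonneg
    rw [le_div_iff₀ hQ0, one_mul]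
    exact_mod_cast hQR
  calc ∑ d ∈ (Ioc Q R).filter Nat.Prime, ArithmeticFunction.vonMangoldt d * tp X d
      ≤ ∑ d ∈ (Ioc Q R).filter Nat.Prime, (C0 * X) * (Real.log d / d) := Finset.sum_le_sum hterm
    _ = (C0 * X) * ∑ d ∈ (Ioc Q R).filter Nat.Prime, Real.log d / d := by rw [Finset.mul_sum]
    _ ≤ (C0 * X) * (Real.log (R / Q) + Real.log 4 + C1) :=
        mul_le_mul_of_nonneg_left hsum (by positivity)
    _ ≤ (C0 * X) * ((1 + Real.log 4 + C1) * (Real.log (R / Q) + 1)) := by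
        apply mul_le_mul_of_nonneg_left _ (by positivity)
        have h7 : 0 ≤ (Real.log 4 + C1) * Real.log (R / Q) := by positivity
        have h8 : (1 + Real.log 4 + C1) * (Real.log (R / Q) + 1) =
          (Real.log (R / Q) + Real.log 4 + C1) + (Real.log 4 + C1) * Real.log (R / Q) + 1 := by ring
        rw [h8]
        linarith
    _ = C0 * (1 + Real.log 4 + C1) * X * (Real.log (R / Q) + 1) := by ring

end Pool.CHD
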