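import Pool.Agent.Lib.MP_f4ebb7_co.CHD.Defs

/-! CHD-GPow: Goldfeld's argument, prime powers that are not primes.

PROOF. `tp X d ≤ (X/d) log X` (`tp_le`): the primes `n ≤ X`, `n ≡ 1 mod d`, are among the `1 + d m`, `1 ≤ m ≤ X/d` (`n ≥ 2`; for `d = 1` trivial), each has
`log n ≤ log X`. So the sum is at most `X log X ∑_{d ∈ (Q, X], d not prime} Λ(d)/d`. A `d` with `Λ(d) ≠ 0` that is not prime is `ℓ^k`, `k ≥ 2`,
`ℓ ≤ √X ≤ X`. For a prime `ℓ` let `k0 ≥ 2` be minimal with `ℓ^k0 > Q`: `∑_{k ≥ k0} ℓ^(-k) ≤ 2 ℓ^(-k0) ≤ 2 min(1/Q, 1/ℓ²)`. So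
`∑ Λ(d)/d ≤ ∑_{ℓ ≤ X} log ℓ * 2 min(1/Q, 1/ℓ²) ≤ 2 log X (∑_{ℓ ≤ √Q} 1/Q + ∑_{ℓ > √Q} 1/ℓ²) ≤ 2 log X * 4/√Q`
(`∑_{n > t} 1/n² ≤ 2/t`-type, sum over all integers; with `s = Nat.sqrt Q`, `∑_{n > s} 1/n² ≤ 1/s`, `1/s ≤ 2/√Q`).
Enumeration of the prime powers `d = ℓ^k ≤ X` as in LamPhi (`d ↦ (d.minFac, factorization)` injective), or: group by `ℓ = d.minFac`
(`Finset.sum_fiberwise`), the fibre of `ℓ` is contained in the image of `k ↦ ℓ^k`, `k ∈ Ico k0 (log X + 1)`.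
-/

set_option autoImplicit false

namespace Pool.CHD

open Finset

theorem tp_le (X d : ℕ) (hd : 1 ≤ d) : tp X d ≤ X / d * Real.log X := by
  unfold tp
  set S := (Icc 1 X).filter (fun p => p.Prime ∧ p ≡ 1 [MOD d]) with hS
  have h1 : ∀ p ∈ S, Real.log p ≤ Real.log X := by
    intro p hp
    rw [hS, mem_filter, mem_Icc] at hp
    exact Real.log_le_log (by exact_mod_cast hp.1.1) (by exact_mod_cast hp.1.2)
  have h2 : S.card ≤ X / d := by
    have h3 : S.card ≤ (Icc 1 (X / d)).card := by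
      refine card_le_card_of_injOn (fun p => (p - 1) / d) ?_ ?_
      · intro p hp
        rw [mem_coe, hS, mem_filter, mem_Icc] at hp
        rw [mem_coe, mem_Icc]
        have h4 : d ∣ p - 1 := (Nat.modEq_iff_dvd' hp.1.1).1 hp.2.2.symm
        have h5 := hp.2.1.two_le
        refine ⟨Nat.div_pos (Nat.le_of_dvd (by omega) h4) hd, ?_⟩
        exact Nat.div_le_div_right (by omega)
      · intro p hp p' hp' hpp
        rw [mem_coe, hS, mem_filter, mem_Icc] at hp hp'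
        have h4 : d ∣ p - 1 := (Nat.modEq_iff_dvd' hp.1.1).1 hp.2.2.symm
        have h4' : d ∣ p' - 1 := (Nat.modEq_iff_dvd' hp'.1.1).1 hp'.2.2.symm
        have h5 : (p - 1) / d = (p' - 1) / d := hpp
        have h6 := Nat.div_mul_cancel h4
        have h6' := Nat.div_mul_cancel h4'
        rw [h5] at h6
        omega
    rwa [Nat.card_Icc, Nat.add_sub_cancel] at h3
  have h3 : (S.card : ℝ) ≤ X / d := by
    have h4 : ((X / d : ℕ) : ℝ) ≤ (X : ℝ) / d := Nat.cast_div_le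
    exact (by exact_mod_cast h2 : (S.card : ℝ) ≤ ((X / d : ℕ) : ℝ)).trans h4
  calc ∑ p ∈ S, Real.log p ≤ S.card • Real.log X := sum_le_card_nsmul _ _ _ h1
    _ = (S.card : ℝ) * Real.log X := nsmul_eq_mul _ _
    _ ≤ X / d * Real.log X := mul_le_mul_of_nonneg_right h3 (Real.log_natCast_nonneg X)

theorem tp_nonneg (X d : ℕ) : 0 ≤ tp X d := by
  unfold tp
  exact sum_nonneg fun p _ => Real.log_natCast_nonneg p

/-- the base of the prime power -/
theorem gpow_form {d : ℕ} (h : ArithmeticFunction.vonMangoldt d ≠ 0) (hp : ¬ d.Prime) :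
    ∃ l k : ℕ, l.Prime ∧ 2 ≤ k ∧ d = l ^ k := by
  rw [ArithmeticFunction.vonMangoldt_ne_zero_iff, isPrimePow_nat_iff] at h
  obtain ⟨l, k, hl, hk, rfl⟩ := h
  refine ⟨l, k, hl, ?_, rfl⟩
  by_contra hk2
  have : k = 1 := by omega
  rw [this, pow_one] at hp
  exact hp hl

/-- the map `ℓ ^ k ↦ (ℓ ^ (k / 2), k mod 2)` -/
def gpow_map (d : ℕ) : ℕ × ℕ :=
  (d.minFac ^ (d.factorization d.minFac / 2), d.factorization d.minFac % 2)

theorem gpow_map_eq {l k : ℕ} (hl : l.Prime) (hk : 2 ≤ k) :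
    gpow_map (l ^ k) = (l ^ (k / 2), k % 2) := by
  unfold gpow_map
  rw [hl.pow_minFac (by omega)]
  have h1 : (l ^ k).factorization l = k := by
    rw [hl.factorization_pow, Finsupp.single_eq_same]
  rw [h1]

theorem gpow_back {l k : ℕ} (hl : l.Prime) (hk : 2 ≤ k) :
    l ^ k = (l ^ (k / 2)) ^ 2 * (l ^ (k / 2)).minFac ^ (k % 2) := by
  rw [hl.pow_minFac (by omega), ← pow_mul, ← pow_add]
  congr 1
  omega

theorem gpow_min (Q X : ℕ) (hQ : 1 ≤ Q) :
    ∑ m ∈ Icc 1 X, min (1 / (Q : ℝ)) (1 / (m : ℝ) ^ 2) ≤ 3 / Real.sqrt Q := by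
  set s := Nat.sqrt Q with hs
  have hs1 : 1 ≤ s := Nat.sqrt_pos.2 hQ
  have hQr : (0 : ℝ) < Q := by exact_mod_cast hQ
  have hsr : (0 : ℝ) < s := by exact_mod_cast hs1
  have hsq : 0 < Real.sqrt Q := Real.sqrt_pos.2 hQr
  have h1 : (s : ℝ) ≤ Real.sqrt Q := by
    refine Real.le_sqrt_of_sq_le ?_
    exact_mod_cast Nat.sqrt_le' Q
  have h2 : Real.sqrt Q ≤ 2 * s := by
    have h3 : Real.sqrt Q ≤ s + 1 := by
      rw [Real.sqrt_le_left (by positivity)]
      have := Nat.lt_succ_sqrt' Q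
      exact_mod_cast this.le
    have h4 : (1 : ℝ) ≤ s := by exact_mod_cast hs1
    linarith
  have hsub : Icc 1 X ⊆ Icc 1 s ∪ Ioc s (max s X) := by
    intro m hm
    rw [mem_Icc] at hm
    rw [mem_union, mem_Icc, mem_Ioc]
    have := le_max_right s X
    omega
  have hnn : ∀ m : ℕ, 0 ≤ min (1 / (Q : ℝ)) (1 / (m : ℝ) ^ 2) := fun m =>
    le_min (by positivity) (by positivity)
  calc ∑ m ∈ Icc 1 X, min (1 / (Q : ℝ)) (1 / (m : ℝ) ^ 2)
      ≤ ∑ m ∈ Icc 1 s ∪ Ioc s (max s X), min (1 / (Q : ℝ)) (1 / (m : ℝ) ^ 2) :=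
        sum_le_sum_of_subset_of_nonneg hsub fun m _ _ => hnn m
    _ ≤ ∑ m ∈ Icc 1 s, min (1 / (Q : ℝ)) (1 / (m : ℝ) ^ 2) +
        ∑ m ∈ Ioc s (max s X), min (1 / (Q : ℝ)) (1 / (m : ℝ) ^ 2) := by
        have := sum_union_inter (s₁ := Icc 1 s) (s₂ := Ioc s (max s X))
          (f := fun m : ℕ => min (1 / (Q : ℝ)) (1 / (m : ℝ) ^ 2))
        have h5 : 0 ≤ ∑ m ∈ Icc 1 s ∩ Ioc s (max s X), min (1 / (Q : ℝ)) (1 / (m : ℝ) ^ 2) :=
          sum_nonneg fun m _ => hnn m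
        linarith
    _ ≤ 1 / Real.sqrt Q + 2 / Real.sqrt Q := by
        refine add_le_add ?_ ?_
        · refine (sum_le_card_nsmul _ _ _ fun m _ => min_le_left _ _).trans ?_
          rw [Nat.card_Icc, Nat.add_sub_cancel, nsmul_eq_mul, mul_one_div, div_le_div_iff₀ hQr hsq,
            one_mul]
          calc (s : ℝ) * Real.sqrt Q ≤ Real.sqrt Q * Real.sqrt Q :=
                mul_le_mul_of_nonneg_right h1 hsq.le
            _ = Q := Real.mul_self_sqrt hQr.le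
        · have h3 : ∑ m ∈ Ioc s (max s X), min (1 / (Q : ℝ)) (1 / (m : ℝ) ^ 2) ≤
              ∑ m ∈ Ioc s (max s X), ((m : ℝ) ^ 2)⁻¹ := by
            refine sum_le_sum fun m _ => ?_
            rw [← one_div]
            exact min_le_right _ _
          refine h3.trans ((sum_Ioc_inv_sq_le_sub (α := ℝ) (by omega) (le_max_left _ _)).trans ?_)
          have h4 : (0 : ℝ) ≤ ((max s X : ℕ) : ℝ)⁻¹ := by positivity
          have h5 : (s : ℝ)⁻¹ ≤ 2 / Real.sqrt Q := by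
            rw [inv_eq_one_div, div_le_div_iff₀ hsr hsq, one_mul]
            exact h2
          linarith
    _ = 3 / Real.sqrt Q := by ring

theorem g_pow (X Q : ℕ) (hQ : 1 ≤ Q) (hX : 1 ≤ X) :
    ∑ d ∈ (Ioc Q X).filter (fun d => ¬ d.Prime), ArithmeticFunction.vonMangoldt d * tp X d ≤
      8 * X * Real.log X ^ 2 / Real.sqrt Q := by
  have hlog : 0 ≤ Real.log X := Real.log_natCast_nonneg X
  have hQr : (0 : ℝ) < Q := by exact_mod_cast hQ
  set S := ((Ioc Q X).filter (fun d => ¬ d.Prime)).filter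
    (fun d => ArithmeticFunction.vonMangoldt d ≠ 0) with hS
  have h1 : ∑ d ∈ (Ioc Q X).filter (fun d => ¬ d.Prime), ArithmeticFunction.vonMangoldt d * tp X d =
      ∑ d ∈ S, ArithmeticFunction.vonMangoldt d * tp X d := by
    rw [hS]
    symm
    refine sum_filter_of_ne fun d _ hne h0 => ?_
    exact hne (by rw [h0, zero_mul])
  have hmem : ∀ d ∈ S, Q < d ∧ d ≤ X ∧ ∃ l k : ℕ, l.Prime ∧ 2 ≤ k ∧ d = l ^ k := by
    intro d hd
    rw [hS, mem_filter, mem_filter, mem_Ioc] at hd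
    exact ⟨hd.1.1.1, hd.1.1.2, gpow_form hd.2 hd.1.2⟩
  have h2 : ∀ d ∈ S, ArithmeticFunction.vonMangoldt d * tp X d ≤
      X * Real.log X ^ 2 * min (1 / (Q : ℝ)) (1 / ((gpow_map d).1 : ℝ) ^ 2) := by
    intro d hd
    obtain ⟨hQd, hdX, l, k, hl, hk, hdl⟩ := hmem d hd
    have hd0 : (0 : ℝ) < d := by
      have : 0 < d := by omega
      exact_mod_cast this
    have e1 : ArithmeticFunction.vonMangoldt d ≤ Real.log X :=
      ArithmeticFunction.vonMangoldt_le_log.trans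
        (Real.log_le_log hd0 (by exact_mod_cast hdX))
    have e2 := tp_le X d (by omega)
    have e3 : 1 / (d : ℝ) ≤ min (1 / (Q : ℝ)) (1 / ((gpow_map d).1 : ℝ) ^ 2) := by
      refine le_min (one_div_le_one_div_of_le hQr (by exact_mod_cast hQd.le)) ?_
      rw [hdl, gpow_map_eq hl hk]
      have h5 : 0 < l ^ (k / 2) := pow_pos hl.pos _
      have h6 : (l ^ (k / 2)) ^ 2 ≤ l ^ k := by
        rw [← pow_mul]
        exact Nat.pow_le_pow_right hl.pos (by omega)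
      refine one_div_le_one_div_of_le (by positivity) ?_
      exact_mod_cast h6
    calc ArithmeticFunction.vonMangoldt d * tp X d ≤ Real.log X * (X / d * Real.log X) :=
          mul_le_mul e1 e2 (tp_nonneg X d) hlog
      _ = X * Real.log X ^ 2 * (1 / d) := by ring
      _ ≤ _ := mul_le_mul_of_nonneg_left e3 (by positivity)
  have hinj : Set.InjOn gpow_map (S : Set ℕ) := by
    intro d hd d' hd' hdd
    obtain ⟨_, _, l, k, hl, hk, rfl⟩ := hmem d hd
    obtain ⟨_, _, l', k', hl', hk', rfl⟩ := hmem d' hd'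
    rw [gpow_map_eq hl hk, gpow_map_eq hl' hk', Prod.mk.injEq] at hdd
    rw [gpow_back hl hk, gpow_back hl' hk', hdd.1, hdd.2]
  have hsub : S.image gpow_map ⊆ Icc 1 X ×ˢ range 2 := by
    intro t ht
    obtain ⟨d, hd, rfl⟩ := mem_image.1 ht
    obtain ⟨_, hdX, l, k, hl, hk, rfl⟩ := hmem d hd
    rw [gpow_map_eq hl hk, mem_product, mem_Icc, mem_range]
    refine ⟨⟨pow_pos hl.pos _, ?_⟩, Nat.mod_lt _ (by norm_num)⟩
    exact (Nat.pow_le_pow_right hl.pos (Nat.div_le_self k 2)).trans hdX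
  have h3 : ∑ d ∈ S, min (1 / (Q : ℝ)) (1 / ((gpow_map d).1 : ℝ) ^ 2) ≤ 2 * (3 / Real.sqrt Q) := by
    rw [← sum_image (f := fun t : ℕ × ℕ => min (1 / (Q : ℝ)) (1 / (t.1 : ℝ) ^ 2)) hinj]
    refine (sum_le_sum_of_subset_of_nonneg hsub fun t _ _ =>
      le_min (by positivity) (by positivity)).trans ?_
    rw [sum_product_right]
    simp only
    rw [sum_const, card_range, nsmul_eq_mul]
    push_cast
    exact mul_le_mul_of_nonneg_left (gpow_min Q X hQ) (by norm_num)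
  rw [h1]
  calc ∑ d ∈ S, ArithmeticFunction.vonMangoldt d * tp X d
      ≤ ∑ d ∈ S, X * Real.log X ^ 2 * min (1 / (Q : ℝ)) (1 / ((gpow_map d).1 : ℝ) ^ 2) :=
        sum_le_sum h2
    _ = X * Real.log X ^ 2 * ∑ d ∈ S, min (1 / (Q : ℝ)) (1 / ((gpow_map d).1 : ℝ) ^ 2) := by
        rw [mul_sum]
    _ ≤ X * Real.log X ^ 2 * (2 * (3 / Real.sqrt Q)) :=
        mul_le_mul_of_nonneg_left h3 (by positivity)
    _ = 6 * (X * Real.log X ^ 2 / Real.sqrt Q) := by ring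
    _ ≤ 8 * (X * Real.log X ^ 2 / Real.sqrt Q) :=
        mul_le_mul_of_nonneg_right (by norm_num) (by positivity)
    _ = _ := by ring

end Pool.CHD
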