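import Pool.Agent.Lib.MP_f4ebb7_co.CHD.LamPhi
import Pool.Agent.Lib.BV.BVTheta

/-! CHD-GSmall: Goldfeld's argument, small moduli (Bombieri-Vinogradov).

PROOF. `Pool.BV.bv_theta 1` gives `B, X1`. For `X ≥ X0` let `Q = ⌊√X / (log X)^B⌋₊` (`Nat.floor_le`). `tp X d = Et X d 1 + X/φ(d)`
(definition of `Pool.BV.Et`; the filters are the same: `n.Prime ∧ n ≡ 1 [MOD d]`). `∑ Λ(d) |Et X d 1| ≤ log X ∑ |Et X d 1| ≤ log X * X/log X = X`
(`a = fun _ => 1`, `y = fun _ => X`; `ArithmeticFunction.vonMangoldt_le_log`, `log d ≤ log X`; `Nat.coprime_one_left`).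
`∑ Λ(d) X/φ(d) ≤ X (log Q + C) ≤ X (log X / 2 + C)` by `lam_phi` (`Q ≤ √X`, `log √X = log X / 2`; if `Q = 0` the sum is empty).
-/

set_option autoImplicit false

namespace Pool.CHD

open Finset

theorem g_small : ∃ (B : ℕ) (C : ℝ) (X0 : ℕ), 0 < C ∧ ∀ X : ℕ, X0 ≤ X →
    ∑ d ∈ Icc 1 ⌊Real.sqrt X / Real.log X ^ B⌋₊, ArithmeticFunction.vonMangoldt d * tp X d ≤
      X * Real.log X / 2 + C * X := by
  obtain ⟨B, X1, h⟩ := Pool.BV.bv_theta 1
  obtain ⟨C, hC, hlp⟩ := lam_phi
  refine ⟨B, C + 1, max X1 3, by linarith, fun X hX => ?_⟩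
  have hX1 : X1 ≤ X := (le_max_left _ _).trans hX
  have hX3 : 3 ≤ X := (le_max_right _ _).trans hX
  have hX3r : (3 : ℝ) ≤ X := by exact_mod_cast hX3
  have hX0 : (0 : ℝ) < X := by linarith
  have hL : 1 ≤ Real.log X := by
    rw [Real.le_log_iff_exp_le hX0]
    have := Real.exp_one_lt_d9
    linarith
  have hL0 : 0 < Real.log X := by linarith
  have hs0 : 0 ≤ Real.sqrt X := Real.sqrt_nonneg _
  have hLB : 1 ≤ Real.log X ^ B := one_le_pow₀ hL
  set Q := ⌊Real.sqrt X / Real.log X ^ B⌋₊ with hQ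
  have hQle : (Q : ℝ) ≤ Real.sqrt X / Real.log X ^ B := Nat.floor_le (by positivity)
  have hQs : (Q : ℝ) ≤ Real.sqrt X := hQle.trans (div_le_self hs0 hLB)
  have hsX : Real.sqrt X ≤ X := by
    rw [Real.sqrt_le_left hX0.le]
    nlinarith
  have hbv := h X Q hX1 hQle (fun _ => 1) (fun _ => X) (fun q => Nat.coprime_one_left q)
    (fun _ => le_rfl)
  rw [pow_one] at hbv
  rcases Nat.eq_zero_or_pos Q with hQ0 | hQ0
  · rw [hQ0]
    simp only [Finset.Icc_eq_empty_of_lt Nat.zero_lt_one, Finset.sum_empty]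
    positivity
  · have hlQ : Real.log Q ≤ Real.log X / 2 := by
      have h1 : Real.log Q ≤ Real.log (Real.sqrt X) :=
        Real.log_le_log (by exact_mod_cast hQ0) hQs
      rwa [Real.log_sqrt hX0.le] at h1
    have hterm : ∀ d ∈ Icc 1 Q, ArithmeticFunction.vonMangoldt d * tp X d ≤
        Real.log X * |Pool.BV.Et X d 1| +
          X * (ArithmeticFunction.vonMangoldt d / (Nat.totient d : ℝ)) := by
      intro d hd
      rw [mem_Icc] at hd
      have e1 : tp X d = Pool.BV.Et X d 1 + X / (Nat.totient d : ℝ) := by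
        unfold tp Pool.BV.Et
        ring
      have e2 : ArithmeticFunction.vonMangoldt d ≤ Real.log X := by
        refine ArithmeticFunction.vonMangoldt_le_log.trans ?_
        refine Real.log_le_log (by exact_mod_cast hd.1) ?_
        have : (d : ℝ) ≤ Q := by exact_mod_cast hd.2
        linarith
      have e3 : 0 ≤ ArithmeticFunction.vonMangoldt d := ArithmeticFunction.vonMangoldt_nonneg
      have e4 : ArithmeticFunction.vonMangoldt d * Pool.BV.Et X d 1 ≤
          Real.log X * |Pool.BV.Et X d 1| :=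
        (mul_le_mul_of_nonneg_left (le_abs_self _) e3).trans
          (mul_le_mul_of_nonneg_right e2 (abs_nonneg _))
      rw [e1]
      calc ArithmeticFunction.vonMangoldt d * (Pool.BV.Et X d 1 + X / (Nat.totient d : ℝ))
          = ArithmeticFunction.vonMangoldt d * Pool.BV.Et X d 1 +
            X * (ArithmeticFunction.vonMangoldt d / (Nat.totient d : ℝ)) := by ring
        _ ≤ _ := by linarith
    refine (sum_le_sum hterm).trans ?_
    rw [sum_add_distrib, ← mul_sum, ← mul_sum]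
    have e5 : Real.log X * ∑ d ∈ Icc 1 Q, |Pool.BV.Et X d 1| ≤ X := by
      calc Real.log X * ∑ d ∈ Icc 1 Q, |Pool.BV.Et X d 1| ≤ Real.log X * (X / Real.log X) :=
            mul_le_mul_of_nonneg_left hbv hL0.le
        _ = X := by field_simp
    have e6 : (X : ℝ) * ∑ d ∈ Icc 1 Q,
        ArithmeticFunction.vonMangoldt d / (Nat.totient d : ℝ) ≤ X * (Real.log X / 2 + C) := by
      refine mul_le_mul_of_nonneg_left ?_ hX0.le
      exact (hlp Q hQ0).trans (by linarith)
    calc _ ≤ (X : ℝ) + X * (Real.log X / 2 + C) := add_le_add e5 e6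
      _ = _ := by ring

end Pool.CHD
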