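import Pool.Agent.Lib.MP_f4ebb7_co.CHD.GSmall
import Pool.Agent.Lib.MP_f4ebb7_co.CHD.GPow
import Pool.Agent.Lib.MP_f4ebb7_co.CHD.GMid
import Pool.Agent.Lib.MP_f4ebb7_co.CHD.GLow
import Pool.Agent.Lib.MP_f4ebb7_co.CHD.GLarge

/-! CHD-Gold: Goldfeld's theorem (assembly).

PROOF. `C2` from `g_mid`, `B, C1` from `g_small`. `δ = 1/2 - κ > 0`, `η = min (1/8) (δ/(4 C2 + 4))`, `ε = δ/4`. `Q = ⌊√X/(log X)^B⌋₊`, `R = ⌈X^(1/2+η)⌉₊`
(`Q ≤ R ≤ X^(3/4)`, `Q ≥ √X/(2 (log X)^B) ≥ 1` for large `X`). Split `Icc 1 X = Icc 1 Q ∪ (Q, X] nonprime ∪ (Q, R] prime ∪ (R, X] prime`: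
`(1 - ε) X log X ≤ (X log X)/2 + C1 X + 8 X (log X)²/√Q + C2 X (log (R/Q) + 1) + log X * thP (Pe η) X`.
`log (R/Q) ≤ η log X + B log log X + log 4` (`R ≤ 2 X^(1/2+η)`); `8 (log X)²/√Q ≤ 1` for large `X`. Divide by `X log X`: `thP/X ≥ 1/2 - ε - C2 η - o(1) ≥ κ`
(`C2 η ≤ δ/4`, the rest is `≤ δ/4` for large `X`).
-/

set_option autoImplicit false

namespace Pool.CHD

open Finset

private theorem gold_ev (B : ℕ) (K C δ : ℝ) (hδ : 0 < δ) : ∃ X0 : ℕ, ∀ X : ℕ, X0 ≤ X →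
    3 ≤ X ∧ 1 ≤ Real.log X ∧ 128 * Real.log X ^ (B + 4) ≤ Real.sqrt X ∧
      2 ≤ (X : ℝ) ^ (1 / 8 : ℝ) ∧ K + C * Real.log (Real.log X) ≤ δ / 2 * Real.log X := by
  have h1 : ∀ᶠ x : ℝ in Filter.atTop, 1 ≤ Real.log x :=
    Real.tendsto_log_atTop.eventually_ge_atTop 1
  have h2 : ∀ᶠ x : ℝ in Filter.atTop, 128 * Real.log x ^ (B + 4) ≤ Real.sqrt x := by
    have h3 := (isLittleO_log_rpow_rpow_atTop (((B + 4 : ℕ)) : ℝ) (s := 1 / 2)
      (by norm_num)).bound (c := 1 / 128) (by norm_num)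
    filter_upwards [h3, Filter.eventually_ge_atTop (1 : ℝ)] with x hx hx1
    rw [Real.rpow_natCast, Real.norm_eq_abs, Real.norm_eq_abs,
      abs_of_nonneg (pow_nonneg (Real.log_nonneg hx1) _), abs_of_nonneg (by positivity),
      ← Real.sqrt_eq_rpow] at hx
    linarith
  have h3 : ∀ᶠ x : ℝ in Filter.atTop, 2 ≤ x ^ (1 / 8 : ℝ) :=
    (tendsto_rpow_atTop (by norm_num)).eventually_ge_atTop 2
  have h4 : ∀ᶠ x : ℝ in Filter.atTop, K + C * Real.log (Real.log x) ≤ δ / 2 * Real.log x := by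
    have h5 := (Real.isLittleO_log_id_atTop.comp_tendsto Real.tendsto_log_atTop).bound
      (c := δ / (4 * (|C| + 1))) (by positivity)
    have h6 : ∀ᶠ x : ℝ in Filter.atTop, 4 * K / δ ≤ Real.log x :=
      Real.tendsto_log_atTop.eventually_ge_atTop _
    filter_upwards [h5, h6, h1] with x hx hx2 hx1
    simp only [Function.comp_apply, id_eq, Real.norm_eq_abs] at hx
    rw [abs_of_nonneg (by linarith : 0 ≤ Real.log x)] at hx
    rw [div_le_iff₀ hδ] at hx2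
    have h7 : C * Real.log (Real.log x) ≤ |C| * |Real.log (Real.log x)| := by
      rw [← abs_mul]
      exact le_abs_self _
    have h8 : |C| * |Real.log (Real.log x)| ≤ |C| * (δ / (4 * (|C| + 1)) * Real.log x) :=
      mul_le_mul_of_nonneg_left hx (abs_nonneg C)
    have h9 : |C| * (δ / (4 * (|C| + 1)) * Real.log x) ≤ δ / 4 * Real.log x := by
      have h10 : |C| * (δ / (4 * (|C| + 1))) ≤ δ / 4 := by
        have hC : 0 ≤ |C| := abs_nonneg C
        rw [mul_div_assoc', div_le_div_iff₀ (by positivity) (by norm_num)]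
        nlinarith
      calc |C| * (δ / (4 * (|C| + 1)) * Real.log x) = |C| * (δ / (4 * (|C| + 1))) * Real.log x := by
            ring
        _ ≤ δ / 4 * Real.log x := mul_le_mul_of_nonneg_right h10 (by linarith)
    linarith
  have hall := (tendsto_natCast_atTop_atTop (R := ℝ)).eventually
    (h1.and (h2.and (h3.and (h4.and (Filter.eventually_ge_atTop (3 : ℝ))))))
  obtain ⟨X0, hX0⟩ := Filter.eventually_atTop.1 hall
  refine ⟨X0, fun X hX => ?_⟩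
  obtain ⟨e1, e2, e3, e4, e5⟩ := hX0 X hX
  exact ⟨by exact_mod_cast e5, e1, e2, e3, e4⟩

private theorem gold_split (f : ℕ → ℝ) {Q R X : ℕ} (hQR : Q ≤ R) (hRX : R ≤ X) :
    ∑ d ∈ Icc 1 X, f d = ∑ d ∈ Icc 1 Q, f d + ∑ d ∈ (Ioc Q X).filter (fun d => ¬ d.Prime), f d +
      ∑ d ∈ (Ioc Q R).filter Nat.Prime, f d + ∑ d ∈ (Ioc R X).filter Nat.Prime, f d := by
  have h1 : ∑ d ∈ Icc 1 Q, f d + ∑ d ∈ Ioc Q X, f d = ∑ d ∈ Icc 1 X, f d :=
    Finset.sum_Ioc_consecutive f (Nat.zero_le Q) (hQR.trans hRX)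
  have h2 := Finset.sum_filter_add_sum_filter_not (Ioc Q X) Nat.Prime f
  have h3 : ∑ d ∈ (Ioc Q R).filter Nat.Prime, f d + ∑ d ∈ (Ioc R X).filter Nat.Prime, f d =
      ∑ d ∈ (Ioc Q X).filter Nat.Prime, f d := by
    rw [sum_filter, sum_filter, sum_filter]
    exact Finset.sum_Ioc_consecutive (fun d => if d.Prime then f d else 0) hQR hRX
  linarith

theorem gold (κ : ℝ) (hκ : κ < 1 / 2) : ∃ η : ℝ, 0 < η ∧ η < 1 / 4 ∧ ∃ X0 : ℕ, ∀ X : ℕ, X0 ≤ X →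
    κ * X ≤ Pool.Agent.Lib.MP_f4ebb7_co.thP (Pe η) X := by
  obtain ⟨C2, hC2, hmid⟩ := g_mid
  obtain ⟨B, C1, X1, hC1, hsmall⟩ := g_small
  set δ : ℝ := 1 / 2 - κ with hδdef
  have hδ : 0 < δ := by rw [hδdef]; linarith
  set η : ℝ := min (1 / 8) (δ / (4 * C2 + 4)) with hηdef
  have hη0 : 0 < η := by
    rw [hηdef]
    exact lt_min (by norm_num) (by positivity)
  have hη8 : η ≤ 1 / 8 := min_le_left _ _
  have hηC : C2 * η ≤ δ / 4 := by
    have h1 : η ≤ δ / (4 * C2 + 4) := min_le_right _ _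
    have h2 : C2 * η ≤ C2 * (δ / (4 * C2 + 4)) := mul_le_mul_of_nonneg_left h1 hC2.le
    have h3 : C2 * (δ / (4 * C2 + 4)) ≤ δ / 4 := by
      rw [mul_div_assoc', div_le_div_iff₀ (by positivity) (by norm_num)]
      nlinarith
    linarith
  obtain ⟨X2, hlow⟩ := g_low (δ / 4) (by positivity)
  obtain ⟨X3, hev⟩ := gold_ev B (C1 + 1 + C2 * (Real.log 4 + 1)) (C2 * B) δ hδ
  refine ⟨η, hη0, by linarith, max X1 (max X2 X3), ?_⟩
  intro X hX
  have hXX1 : X1 ≤ X := (le_max_left _ _).trans hX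
  have hXX2 : X2 ≤ X := (le_max_left _ _).trans ((le_max_right _ _).trans hX)
  have hXX3 : X3 ≤ X := (le_max_right _ _).trans ((le_max_right _ _).trans hX)
  obtain ⟨hX3, hL1, hLs, hX8, hK⟩ := hev X hXX3
  have hs := hsmall X hXX1
  have hl := hlow X hXX2
  rw [g_id] at hl
  set L : ℝ := Real.log X with hL
  have hX1r : (1 : ℝ) ≤ X := by
    have : 1 ≤ X := by omega
    exact_mod_cast this
  have hX0r : (0 : ℝ) < X := by linarith
  have hL0 : 0 < L := by linarith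
  have hLB : 0 < L ^ B := pow_pos hL0 B
  have hLB1 : 1 ≤ L ^ B := one_le_pow₀ hL1
  have hL4 : 1 ≤ L ^ 4 := one_le_pow₀ hL1
  -- the parameters
  set y : ℝ := Real.sqrt X / L ^ B with hy
  set Q : ℕ := ⌊y⌋₊ with hQ
  set R : ℕ := ⌈(X : ℝ) ^ (1 / 2 + η)⌉₊ with hR
  have hy128 : 128 * L ^ 4 ≤ y := by
    rw [hy, le_div_iff₀ hLB]
    calc 128 * L ^ 4 * L ^ B = 128 * L ^ (B + 4) := by ring
      _ ≤ Real.sqrt X := hLs
  have hy0 : 0 ≤ y := by linarith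
  have hQle : (Q : ℝ) ≤ y := Nat.floor_le hy0
  have hQgt : y - 1 < Q := by
    have := Nat.lt_floor_add_one y
    rw [← hQ] at this
    linarith
  have hQ64 : 64 * L ^ 4 ≤ Q := by linarith
  have hQhalf : y / 2 ≤ Q := by linarith
  have hQ0 : (0 : ℝ) < Q := by linarith
  have hQ1 : 1 ≤ Q := by
    have : 0 < Q := by exact_mod_cast hQ0
    omega
  have hxp : (1 : ℝ) ≤ (X : ℝ) ^ (1 / 2 + η) := Real.one_le_rpow hX1r (by linarith)
  have hRge : (X : ℝ) ^ (1 / 2 + η) ≤ R := Nat.le_ceil _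
  have hRlt : (R : ℝ) < (X : ℝ) ^ (1 / 2 + η) + 1 := Nat.ceil_lt_add_one (by linarith)
  have hR2 : (R : ℝ) ≤ 2 * (X : ℝ) ^ (1 / 2 + η) := by linarith
  have hR34 : (R : ℝ) ≤ (X : ℝ) ^ (3 / 4 : ℝ) := by
    have h1 : (X : ℝ) ^ (1 / 2 + η) ≤ (X : ℝ) ^ (5 / 8 : ℝ) :=
      Real.rpow_le_rpow_of_exponent_le hX1r (by linarith)
    have h2 : (X : ℝ) ^ (3 / 4 : ℝ) = (X : ℝ) ^ (1 / 8 : ℝ) * (X : ℝ) ^ (5 / 8 : ℝ) := by
      rw [← Real.rpow_add hX0r]
      norm_num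
    have h3 : (0 : ℝ) ≤ (X : ℝ) ^ (5 / 8 : ℝ) := by positivity
    rw [h2]
    nlinarith
  have hRX : R ≤ X := by
    have h1 : (X : ℝ) ^ (3 / 4 : ℝ) ≤ X := by
      calc (X : ℝ) ^ (3 / 4 : ℝ) ≤ (X : ℝ) ^ (1 : ℝ) :=
            Real.rpow_le_rpow_of_exponent_le hX1r (by norm_num)
        _ = X := Real.rpow_one _
    exact_mod_cast hR34.trans h1
  have hQR : Q ≤ R := by
    have h1 : y ≤ Real.sqrt X := div_le_self (Real.sqrt_nonneg _) hLB1
    have h2 : Real.sqrt X ≤ (X : ℝ) ^ (1 / 2 + η) := by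
      rw [Real.sqrt_eq_rpow]
      exact Real.rpow_le_rpow_of_exponent_le hX1r (by linarith)
    exact_mod_cast hQle.trans (h1.trans (h2.trans hRge))
  -- the four parts
  have hp := g_pow X Q hQ1 (by omega)
  have hm := hmid X Q R (by omega) hQ1 hQR hR34
  have hg := g_large η hη0 X R (by omega) hRge
  rw [gold_split (fun d => ArithmeticFunction.vonMangoldt d * tp X d) hQR hRX] at hl
  have hp' : 8 * X * L ^ 2 / Real.sqrt Q ≤ X := by
    have h1 : 8 * L ^ 2 ≤ Real.sqrt Q := by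
      apply Real.le_sqrt_of_sq_le
      have h0 : (8 * L ^ 2) ^ 2 = 64 * L ^ 4 := by ring
      rw [h0]
      exact hQ64
    have h2 : 0 < Real.sqrt Q := Real.sqrt_pos.2 hQ0
    rw [div_le_iff₀ h2]
    calc 8 * (X : ℝ) * L ^ 2 = X * (8 * L ^ 2) := by ring
      _ ≤ X * Real.sqrt Q := mul_le_mul_of_nonneg_left h1 hX0r.le
  have hlogRQ : Real.log ((R : ℝ) / Q) ≤ Real.log 4 + η * L + B * Real.log L := by
    have h1 : (R : ℝ) / Q ≤ 4 * (X : ℝ) ^ η * L ^ B := by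
      rw [div_le_iff₀ hQ0]
      have hsq : Real.sqrt X * (X : ℝ) ^ η = (X : ℝ) ^ (1 / 2 + η) := by
        rw [Real.sqrt_eq_rpow, ← Real.rpow_add hX0r]
      have h2 : 4 * (X : ℝ) ^ η * L ^ B * (y / 2) = 2 * (X : ℝ) ^ (1 / 2 + η) := by
        rw [hy, ← hsq]
        field_simp
        ring
      calc (R : ℝ) ≤ 2 * (X : ℝ) ^ (1 / 2 + η) := hR2
        _ = 4 * (X : ℝ) ^ η * L ^ B * (y / 2) := h2.symm
        _ ≤ 4 * (X : ℝ) ^ η * L ^ B * Q := mul_le_mul_of_nonneg_left hQhalf (by positivity)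
    have hR0 : (0 : ℝ) < R := by linarith
    calc Real.log ((R : ℝ) / Q) ≤ Real.log (4 * (X : ℝ) ^ η * L ^ B) :=
          Real.log_le_log (by positivity) h1
      _ = Real.log 4 + η * L + B * Real.log L := by
          rw [Real.log_mul (by positivity) (by positivity), Real.log_mul (by norm_num)
            (by positivity), Real.log_rpow hX0r, Real.log_pow]
  have hm' : C2 * X * (Real.log ((R : ℝ) / Q) + 1) ≤
      C2 * X * (Real.log 4 + η * L + B * Real.log L + 1) :=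
    mul_le_mul_of_nonneg_left (by linarith) (by positivity)
  -- conclusion
  have hfin : (1 - δ / 4) * (X * L) ≤ X * L / 2 + C1 * X + X +
      C2 * X * (Real.log 4 + η * L + B * Real.log L + 1) +
      L * Pool.Agent.Lib.MP_f4ebb7_co.thP (Pe η) X := by
    linarith
  have h5 : C2 * η * (X * L) ≤ δ / 4 * (X * L) :=
    mul_le_mul_of_nonneg_right hηC (by positivity)
  have h6 : (C1 + 1 + C2 * (Real.log 4 + 1) + C2 * B * Real.log L) * X ≤ δ / 2 * L * X :=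
    mul_le_mul_of_nonneg_right hK hX0r.le
  have h7 : L * (κ * X) ≤ L * Pool.Agent.Lib.MP_f4ebb7_co.thP (Pe η) X := by
    have h8 : κ = 1 / 2 - δ := by rw [hδdef]; ring
    rw [h8]
    nlinarith
  exact le_of_mul_le_mul_left h7 hL0

end Pool.CHD
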