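import Pool.Agent.Lib.MP_f4ebb7_co.CHD.Crit
import Pool.Agent.Lib.MP_f4ebb7_co.CHD.Sm
import Pool.Agent.Lib.MP_d16eef_co.Phi

/-! CHD-Good: an `m` outside the exceptional sets.

PROOF. `¬ NoExact` gives a prime `p` with `Pe η p`, `y < p`, `p ∣ m`; `Pe`: a prime `ℓ ∣ p - 1`, `ℓ > p^(1/2+η) > p^(1/2) > y^(1/2) ≥ D`. `u = c m^k`, apply `crit u p ℓ z`.
`z ≤ D ≤ D² ≤ y < p` (`D ≥ 2`), `p ≠ 2`, `ℓ > D ≥ 2`. A prime `r ∣ u` divides `c` or `m`. If `r ∣ c`: `r ≤ c ≤ z ≤ D`, so `0 < r - 1 < r < ℓ, p`: no divisibility (c1), (c3); (c2) is void.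
If `r ∣ m`, `r ≠ p`: (c1): otherwise `B13` with `d = p`; (c3): otherwise `B13` with `d = ℓ` (`ℓ ∣ p - 1`); (c2): `¬ B2`.
(c4): `r ≤ z`, `r^((p-1)/ℓ) ≡ 1 mod p`: `B4` with `k' = (p-1)/ℓ ≥ 1`, `k' ≤ p / p^(1/2+η) = p^(1/2-η)`.
(c5): `sm z u = sm z c * (sm z m)^k ≤ c T^k` (`sm_mul`, `sm_pow`, `sm_le`), so `(sm z u)^4 ≤ (c T^k)^4 ≤ D < ℓ`.
(c6): `N = 4u² ≤ (ω(N) + 1) φ(N)` (`RunMult.totient_lower`), `2^ω(N) ≤ N` so `ω(N) ≤ Nat.log 2 N ≤ Nat.log 2 (4 (c x^k)²)`; `4 (ω + 1) ≤ y < p`.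
-/

set_option autoImplicit false

namespace Pool.CHD

open Finset

theorem good (c k x y z D T m : ℕ) (η : ℝ) (hη : 0 < η) (hc : 1 ≤ c) (hk : 1 ≤ k) (hm : 1 ≤ m) (hmx : m ≤ x)
    (hcz : c ≤ z) (hz : 2 ≤ z) (hzD : z ≤ D) (hDy : D ^ 2 ≤ y) (hT : (c * T ^ k) ^ 4 ≤ D)
    (h6 : 4 * (Nat.log 2 (4 * (c * x ^ k) ^ 2) + 1) ≤ y)
    (hE0 : ¬ Pool.Agent.Lib.MP_f4ebb7_co.NoExact (fun q => Pe η q ∧ y < q) m)
    (h13 : ¬ B13 D m) (h2 : ¬ B2 y z m) (h4 : ¬ B4 η y z m) (h5 : sm z m ≤ T) : ¬ HD (c * m ^ k) := by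
  have h2' := h2
  clear h2
  obtain ⟨p, hp, ⟨⟨_, ℓ, hl, hlp, hlη⟩, hyp⟩, hpm, _⟩ : ∃ q, q.Prime ∧ (Pe η q ∧ y < q) ∧ q ∣ m ∧ ¬ q ^ 2 ∣ m := by
    unfold Pool.Agent.Lib.MP_f4ebb7_co.NoExact at hE0
    push Not at hE0
    exact hE0
  have hD2 : 2 ≤ D := hz.trans hzD
  have hDp : D ^ 2 < p := by omega
  have hDD : D < p := by nlinarith
  have hp4 : 4 < p := by nlinarith
  have hp0 : (0 : ℝ) < p := by exact_mod_cast hp.pos
  have hp1 : (1 : ℝ) ≤ p := by exact_mod_cast hp.one_lt.le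
  have hDl : D < ℓ := by
    have h1 : (D : ℝ) ≤ (p : ℝ) ^ (1 / 2 : ℝ) := by
      rw [← Real.sqrt_eq_rpow]
      refine Real.le_sqrt_of_sq_le ?_
      exact_mod_cast hDp.le
    have h2 : (p : ℝ) ^ (1 / 2 : ℝ) ≤ (p : ℝ) ^ (1 / 2 + η) :=
      Real.rpow_le_rpow_of_exponent_le hp1 (by linarith)
    have h3 : (D : ℝ) < ℓ := by linarith
    exact_mod_cast h3
  have hu : 1 ≤ c * m ^ k := Nat.mul_pos hc (pow_pos hm k)
  have hpu : p ∣ c * m ^ k := dvd_mul_of_dvd_right (dvd_pow hpm (by omega)) c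
  have hru : ∀ r : ℕ, r.Prime → r ∣ c * m ^ k → r ≤ z ∧ r ∣ c ∨ r ∣ m := by
    intro r hr h
    rcases (Nat.Prime.dvd_mul hr).1 h with h1 | h1
    · exact Or.inl ⟨(Nat.le_of_dvd hc h1).trans hcz, h1⟩
    · exact Or.inr (hr.dvd_of_dvd_pow h1)
  have hsmall : ∀ r : ℕ, r.Prime → r ≤ z → ∀ q : ℕ, D < q → ¬ q ∣ r - 1 := by
    intro r hr hrz q hq h
    have h1 := hr.two_le
    have h2 := Nat.le_of_dvd (by omega) h
    omega
  have hpl : 0 < p - 1 := by omega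
  refine crit (c * m ^ k) p ℓ z hu hp (by omega) hpu hl hlp (by omega) (by omega) ?_ ?_ ?_ ?_ ?_ ?_
  · intro r hr h hrp h1
    rcases hru r hr h with ⟨h2, _⟩ | h2
    · exact hsmall r hr h2 p hDD h1
    · exact h13 ⟨p, p, r, hDD, hp, hr, Ne.symm hrp, hpm, h2, Or.inl dvd_rfl, Or.inr h1⟩
  · intro r hr h hrp hzr h1
    rcases hru r hr h with ⟨h2, _⟩ | h2
    · omega
    · exact h2' ⟨p, r, hp, hr, Ne.symm hrp, hpm, h2, hyp, hzr, h1⟩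
  · intro r hr h hrp
    rcases hru r hr h with ⟨h2, _⟩ | h2
    · refine ⟨?_, hsmall r hr h2 ℓ hDl⟩
      intro h3
      have := Nat.le_of_dvd hr.pos h3
      omega
    · constructor
      · intro h3
        exact h13 ⟨ℓ, p, r, hDl, hp, hr, Ne.symm hrp, hpm, h2, Or.inr hlp, Or.inl h3⟩
      · intro h3
        exact h13 ⟨ℓ, p, r, hDl, hp, hr, Ne.symm hrp, hpm, h2, Or.inr hlp, Or.inr h3⟩
  · intro r hr h hrz h1
    refine h4 ⟨p, r, (p - 1) / ℓ, hp, hpm, hyp, hr.two_le, hrz, ?_, ?_, ?_⟩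
    · exact Nat.div_pos (Nat.le_of_dvd hpl hlp) hl.pos
    · have hl0 : (0 : ℝ) < (p : ℝ) ^ (1 / 2 + η) := Real.rpow_pos_of_pos hp0 _
      have e1 : (((p - 1) / ℓ : ℕ) : ℝ) ≤ (p : ℝ) / ℓ := by
        refine (Nat.cast_div_le (α := ℝ)).trans ?_
        refine div_le_div_of_nonneg_right ?_ (by positivity)
        exact_mod_cast Nat.sub_le p 1
      have e2 : (p : ℝ) / ℓ ≤ (p : ℝ) / (p : ℝ) ^ (1 / 2 + η) :=
        div_le_div_of_nonneg_left hp0.le hl0 hlη.le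
      have e3 : (p : ℝ) / (p : ℝ) ^ (1 / 2 + η) = (p : ℝ) ^ (1 / 2 - η) := by
        rw [div_eq_iff hl0.ne', ← Real.rpow_add hp0]
        have : (1 / 2 - η + (1 / 2 + η) : ℝ) = 1 := by ring
        rw [this, Real.rpow_one]
      linarith
    · have e1 : 1 ≤ r ^ ((p - 1) / ℓ) := Nat.one_le_pow _ _ hr.pos
      exact (Nat.modEq_iff_dvd' e1).1 h1.symm
  · have e1 : sm z (c * m ^ k) ≤ c * T ^ k := by
      rw [sm_mul z _ _ (by omega) (pow_ne_zero k (by omega)), sm_pow z _ _ (by omega)]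
      exact Nat.mul_le_mul (sm_le z c (by omega)) (Nat.pow_le_pow_left h5 k)
    calc (sm z (c * m ^ k)) ^ 4 ≤ (c * T ^ k) ^ 4 := Nat.pow_le_pow_left e1 4
      _ ≤ D := hT
      _ < ℓ := hDl
  · have hN : 1 ≤ 4 * (c * m ^ k) ^ 2 := by
      have := pow_pos (show 0 < c * m ^ k from hu) 2
      omega
    have e1 := RunMult.totient_lower (4 * (c * m ^ k) ^ 2) hN
    have e2 : 2 ^ (4 * (c * m ^ k) ^ 2).primeFactors.card ≤ 4 * (c * m ^ k) ^ 2 := by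
      calc 2 ^ (4 * (c * m ^ k) ^ 2).primeFactors.card
          = ∏ _r ∈ (4 * (c * m ^ k) ^ 2).primeFactors, 2 := by rw [prod_const]
        _ ≤ ∏ r ∈ (4 * (c * m ^ k) ^ 2).primeFactors, r :=
            prod_le_prod' fun r hr => (Nat.prime_of_mem_primeFactors hr).two_le
        _ ≤ 4 * (c * m ^ k) ^ 2 := Nat.le_of_dvd (by omega) (Nat.prod_primeFactors_dvd _)
    have e3 : 4 * (c * m ^ k) ^ 2 ≤ 4 * (c * x ^ k) ^ 2 := by
      refine Nat.mul_le_mul le_rfl (Nat.pow_le_pow_left ?_ 2)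
      exact Nat.mul_le_mul le_rfl (Nat.pow_le_pow_left hmx k)
    have e4 : (4 * (c * m ^ k) ^ 2).primeFactors.card ≤ Nat.log 2 (4 * (c * x ^ k) ^ 2) :=
      Nat.le_log_of_pow_le (by norm_num) (e2.trans e3)
    have e5 : 0 < Nat.totient (4 * (c * m ^ k) ^ 2) := Nat.totient_pos.2 (by omega)
    calc 4 * (4 * (c * m ^ k) ^ 2)
        ≤ 4 * (((4 * (c * m ^ k) ^ 2).primeFactors.card + 1) * Nat.totient (4 * (c * m ^ k) ^ 2)) :=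
          Nat.mul_le_mul le_rfl e1
      _ = (4 * ((4 * (c * m ^ k) ^ 2).primeFactors.card + 1)) * Nat.totient (4 * (c * m ^ k) ^ 2) := by ring
      _ ≤ y * Nat.totient (4 * (c * m ^ k) ^ 2) :=
          Nat.mul_le_mul (by omega) le_rfl
      _ < p * Nat.totient (4 * (c * m ^ k) ^ 2) := Nat.mul_lt_mul_of_pos_right hyp e5

end Pool.CHD
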