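import Pool.Agent.Lib.MP_f4ebb7_co.CHD.PDefs

/-! CHD-PBAf: a perfect binary array gives a difference set in `ℤ_s × ℤ_t`; the surjection onto `ℤ/lcm(s,t)`.

PROOF. `pba_ds`: `D = {(i, j) : a i j = 1}`, as in the proved `CHD_mod_Had.lean`: for `g ≠ 0`: `0 = ∑ a(x) a(x + g) = 4 λ_g - 4 K + s t`, so `4 (K - λ_g) = s t = 4 u²`, `K = u² + λ_g`
(here `λ_g = #{(d, d') ∈ D² : d - d' = g}`, all equal; if `s t = 4u²` then `s t ≥ 4 > 1`, so there is `g ≠ 0`).
`surj`: `N = lcm s t`, `f (i, j) = i * (N/s) + j * (N/t)` (`ZMod.lift s`/`ZMod.castAddHom`-like: the homomorphism `ℤ → ZMod N`, `k ↦ k * (N/s)` kills `s`). The image contains `N/s` and `N/t`, which are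
coprime (`Nat.lcm`: `gcd (N/s) (N/t) = 1`), so by Bezout it contains `1`.
-/

set_option autoImplicit false

namespace Pool.CHD

open Finset

private theorem pbaf_lam {G : Type} [AddCommGroup G] [Fintype G] [DecidableEq G] (D : Finset G) (g : G) :
    (((D ×ˢ D).filter (fun p => p.1 - p.2 = g)).card : ℤ) =
      ∑ x : G, (if x + g ∈ D then (1 : ℤ) else 0) * (if x ∈ D then 1 else 0) := by
  have h1 : ((D ×ˢ D).filter (fun p => p.1 - p.2 = g)).card =
      (univ.filter (fun x : G => x + g ∈ D ∧ x ∈ D)).card := by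
    refine Finset.card_bij' (fun p _ => p.2) (fun x _ => (x + g, x)) ?_ ?_ ?_ ?_
    · intro p hp
      rw [mem_filter, mem_product] at hp
      rw [mem_filter]
      refine ⟨mem_univ _, ?_, hp.1.2⟩
      have h2 : p.2 + g = p.1 := by
        rw [← hp.2]
        abel
      rw [h2]
      exact hp.1.1
    · intro x hx
      rw [mem_filter] at hx
      rw [mem_filter, mem_product]
      refine ⟨⟨hx.2.1, hx.2.2⟩, ?_⟩
      change x + g - x = g
      abel
    · intro p hp
      rw [mem_filter] at hp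
      have h2 : p.2 + g = p.1 := by
        rw [← hp.2]
        abel
      exact Prod.ext h2 rfl
    · intro x _
      rfl
  rw [h1, Finset.card_filter]
  push_cast
  refine Finset.sum_congr rfl fun x _ => ?_
  by_cases hx : x ∈ D <;> by_cases hy : x + g ∈ D <;> simp [hx, hy]

private theorem pbaf_core {G : Type} [AddCommGroup G] [Fintype G] [DecidableEq G] (u : ℕ)
    (hG : Fintype.card G = 4 * u ^ 2) (g0 : G) (hg0 : g0 ≠ 0) (a : G → ℤ) (ha : ∀ i, a i = 1 ∨ a i = -1)
    (h : ∀ g : G, g ≠ 0 → ∑ x : G, a (x + g) * a x = 0) :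
    ∃ (D : Finset G) (l : ℕ), IsDS G D l ∧ D.card = u ^ 2 + l := by
  classical
  set D : Finset G := univ.filter fun x => a x = 1 with hD
  have haD : ∀ x, a x = 2 * (if x ∈ D then (1 : ℤ) else 0) - 1 := by
    intro x
    by_cases hx : x ∈ D
    · rw [if_pos hx, (mem_filter.1 hx).2]
      norm_num
    · rw [if_neg hx]
      rcases ha x with h1 | h1
      · exact absurd (by rw [hD, mem_filter]; exact ⟨mem_univ _, h1⟩ : x ∈ D) hx
      · rw [h1]
        norm_num
  have hcardD : ∑ x : G, (if x ∈ D then (1 : ℤ) else 0) = (D.card : ℤ) := by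
    rw [Finset.sum_ite_mem, univ_inter, Finset.sum_const, nsmul_eq_mul, mul_one]
  have hshift : ∀ g : G, ∑ x : G, (if x + g ∈ D then (1 : ℤ) else 0) =
      (D.card : ℤ) := by
    intro g
    rw [← hcardD]
    exact Equiv.sum_comp (Equiv.addRight g) (fun x => if x ∈ D then (1 : ℤ) else 0)
  have hlam : ∀ g : G, ∑ x : G, a (x + g) * a x =
      4 * (((D ×ˢ D).filter (fun p => p.1 - p.2 = g)).card : ℤ) - 4 * D.card +
        ((4 * u ^ 2 : ℕ) : ℤ) := by
    intro g
    rw [pbaf_lam]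
    have h1 : ∀ x : G, a (x + g) * a x =
        4 * ((if x + g ∈ D then (1 : ℤ) else 0) * (if x ∈ D then 1 else 0)) -
          2 * (if x + g ∈ D then (1 : ℤ) else 0) - 2 * (if x ∈ D then (1 : ℤ) else 0) + 1 := by
      intro x
      rw [haD (x + g), haD x]
      ring
    rw [Finset.sum_congr rfl fun x _ => h1 x, Finset.sum_add_distrib, Finset.sum_sub_distrib,
      Finset.sum_sub_distrib, ← Finset.mul_sum, ← Finset.mul_sum, ← Finset.mul_sum, hshift,
      hcardD, Finset.sum_const, Finset.card_univ, hG]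
    simp only [nsmul_eq_mul, mul_one]
    ring
  have hK : ∀ g : G, g ≠ 0 →
      D.card = u ^ 2 + ((D ×ˢ D).filter (fun p => p.1 - p.2 = g)).card := by
    intro g hg
    have h1 := hlam g
    rw [h g hg] at h1
    push_cast at h1
    have h3 : (D.card : ℤ) = ((u : ℕ) : ℤ) ^ 2 +
        (((D ×ˢ D).filter (fun p => p.1 - p.2 = g)).card : ℤ) := by linarith
    exact_mod_cast h3
  refine ⟨D, ((D ×ˢ D).filter (fun p => p.1 - p.2 = g0)).card, ?_, hK g0 hg0⟩
  intro g hg
  have h2 := hK g hg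
  have h3 := hK g0 hg0
  omega

theorem pba_ds (s t u : ℕ) [NeZero s] [NeZero t] (hst : s * t = 4 * u ^ 2) (a : ZMod s → ZMod t → ℤ) (ha : IsPBA s t a) :
    ∃ (D : Finset (ZMod s × ZMod t)) (l : ℕ), IsDS (ZMod s × ZMod t) D l ∧ D.card = u ^ 2 + l := by
  have hcard : Fintype.card (ZMod s × ZMod t) = 4 * u ^ 2 := by
    rw [Fintype.card_prod, ZMod.card, ZMod.card, hst]
  have hspos : 0 < s := Nat.pos_of_ne_zero (NeZero.ne s)
  have htpos : 0 < t := Nat.pos_of_ne_zero (NeZero.ne t)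
  have hu : 0 < u := by
    rcases Nat.eq_zero_or_pos u with h0 | h0
    · rw [h0] at hst
      have h1 : 0 < s * t := Nat.mul_pos hspos htpos
      omega
    · exact h0
  have h1 : 1 < Fintype.card (ZMod s × ZMod t) := by
    rw [hcard]
    nlinarith
  haveI : Nontrivial (ZMod s × ZMod t) := Fintype.one_lt_card_iff_nontrivial.1 h1
  obtain ⟨g0, hg0⟩ := exists_ne (0 : ZMod s × ZMod t)
  refine pbaf_core u hcard g0 hg0 (fun x => a x.1 x.2) (fun x => ha.1 x.1 x.2) ?_
  intro g hg
  have h2 : g.1 ≠ 0 ∨ g.2 ≠ 0 := by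
    by_contra h3
    push Not at h3
    exact hg (Prod.ext h3.1 h3.2)
  have h3 := ha.2 g.1 g.2 h2
  rw [Fintype.sum_prod_type, ← h3]
  refine Finset.sum_congr rfl fun i _ => Finset.sum_congr rfl fun j _ => ?_
  change a (i + g.1) (j + g.2) * a i j = a i j * a (i + g.1) (j + g.2)
  ring

theorem surj (s t : ℕ) [NeZero s] [NeZero t] : ∃ f : (ZMod s × ZMod t) →+ ZMod (Nat.lcm s t), Function.Surjective f := by
  have hspos : 0 < s := Nat.pos_of_ne_zero (NeZero.ne s)
  have htpos : 0 < t := Nat.pos_of_ne_zero (NeZero.ne t)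
  set N := Nat.lcm s t with hN
  have hNpos : 0 < N := Nat.lcm_pos hspos htpos
  haveI : NeZero N := ⟨hNpos.ne'⟩
  obtain ⟨x, hx⟩ : s ∣ N := Nat.dvd_lcm_left s t
  obtain ⟨y, hy⟩ : t ∣ N := Nat.dvd_lcm_right s t
  have hcop : Nat.Coprime x y := by
    have hd := Nat.gcd_dvd_left x y
    have hd' := Nat.gcd_dvd_right x y
    obtain ⟨x', hx'⟩ := hd
    obtain ⟨y', hy'⟩ := hd'
    set d := Nat.gcd x y with hdd
    have hdpos : 0 < d := by
      refine Nat.gcd_pos_of_pos_left _ ?_
      rcases Nat.eq_zero_or_pos x with h0 | h0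
      · rw [h0, mul_zero] at hx
        omega
      · exact h0
    have h1 : s * x' = t * y' := by
      have h2 : d * (s * x') = d * (t * y') := by
        calc d * (s * x') = s * (d * x') := by ring
          _ = s * x := by rw [← hx']
          _ = t * y := by rw [← hx, hy]
          _ = t * (d * y') := by rw [← hy']
          _ = d * (t * y') := by ring
      exact Nat.eq_of_mul_eq_mul_left hdpos h2
    have h2 : N ∣ s * x' := Nat.lcm_dvd (dvd_mul_right s x') (h1 ▸ dvd_mul_right t y')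
    have h3 : 0 < s * x' := by
      refine Nat.mul_pos hspos ?_
      rcases Nat.eq_zero_or_pos x' with h0 | h0
      · rw [h0, mul_zero] at hx'
        rw [hx', mul_zero] at hx
        omega
      · exact h0
    have h4 := Nat.le_of_dvd h3 h2
    have h5 : N = d * (s * x') := by
      calc N = s * x := hx
        _ = s * (d * x') := by rw [← hx']
        _ = d * (s * x') := by ring
    have h6 : d = 1 := by
      by_contra h7
      have h8 : 2 ≤ d := by omega
      nlinarith
    exact h6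
  have e1 : (x : ZMod N) * (s : ZMod N) = 0 := by
    rw [← Nat.cast_mul, mul_comm, ← hx]
    exact ZMod.natCast_self N
  have e2 : (y : ZMod N) * (t : ZMod N) = 0 := by
    rw [← Nat.cast_mul, mul_comm, ← hy]
    exact ZMod.natCast_self N
  let f1 : ZMod s →+ ZMod N := ZMod.lift s ⟨(zmultiplesHom (ZMod N)) (x : ZMod N), by
    rw [zmultiplesHom_apply, natCast_zsmul, nsmul_eq_mul, mul_comm]
    exact e1⟩
  let f2 : ZMod t →+ ZMod N := ZMod.lift t ⟨(zmultiplesHom (ZMod N)) (y : ZMod N), by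
    rw [zmultiplesHom_apply, natCast_zsmul, nsmul_eq_mul, mul_comm]
    exact e2⟩
  have hf1 : ∀ k : ℤ, f1 (k : ZMod s) = (k : ZMod N) * (x : ZMod N) := by
    intro k
    have h1 : f1 (k : ZMod s) = k • (x : ZMod N) := ZMod.lift_coe s _ k
    rw [h1, zsmul_eq_mul]
  have hf2 : ∀ k : ℤ, f2 (k : ZMod t) = (k : ZMod N) * (y : ZMod N) := by
    intro k
    have h1 : f2 (k : ZMod t) = k • (y : ZMod N) := ZMod.lift_coe t _ k
    rw [h1, zsmul_eq_mul]
  refine ⟨f1.coprod f2, ?_⟩
  intro c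
  have hb : ((x : ℤ) * Nat.gcdA x y + y * Nat.gcdB x y) = 1 := by
    have h1 := Nat.gcd_eq_gcd_ab x y
    rw [hcop] at h1
    rw [← h1]
    rfl
  refine ⟨(((c.val : ℤ) * Nat.gcdA x y : ℤ), ((c.val : ℤ) * Nat.gcdB x y : ℤ)), ?_⟩
  rw [AddMonoidHom.coprod_apply, hf1, hf2]
  have h2 : (((c.val : ℤ) * Nat.gcdA x y : ℤ) : ZMod N) * (x : ZMod N) +
      (((c.val : ℤ) * Nat.gcdB x y : ℤ) : ZMod N) * (y : ZMod N) =
      ((((c.val : ℤ) * ((x : ℤ) * Nat.gcdA x y + y * Nat.gcdB x y)) : ℤ) : ZMod N) := by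
    push_cast
    ring
  rw [h2, hb, mul_one]
  push_cast
  exact ZMod.natCast_zmod_val c

end Pool.CHD
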