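import Pool.Agent.Lib.MP_f4ebb7_co.CHD.CritG
import Pool.Agent.Lib.MP_f4ebb7_co.CHD.PBAf
import Pool.Agent.Lib.MP_d16eef_co.Phi

/-! CHD-GoodG: an `m` outside the exceptional sets, perfect binary arrays.

PROOF. As the module Good (see `CHD_mod_Good.lean` when it is there), with `critG` for `N = lcm s t`, `g = gcd s t`, `N g = s t = 4u²`, `u = c m^k`.
`¬ NoExact` gives a prime `p` with `Pe η p`, `y < p`, `p ∣ m`; `Pe`: a prime `ℓ ∣ p - 1`, `ℓ > p^(1/2+η) > y^(1/2) ≥ D`. `p ∤ g` (`0 < g ≤ G0 ≤ y < p`), so `v_p(N) = v_p(4u²) = 2 v_p(u) ≥ 2`: `Par N p b M`.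
`N` even (`4 ∣ s t`, so `s` or `t` is even). Primes of `N` divide `4u²`. A prime `r ∣ u` divides `c` (then `r ≤ z ≤ D`) or `m`. (c1)-(c5) as in Good:
If `r ∣ c`: `r ≤ z ≤ D`, so `0 < r - 1 < r < ℓ, p`: (c1), (c3) hold; (c2) is void. If `r ∣ m`, `r ≠ p`: (c1): else `B13` with `d = p`; (c3): else `B13` with `d = ℓ`; (c2): `¬ B2`.
(c4): `r ≤ z`, `r^((p-1)/ℓ) ≡ 1 mod p`: `B4` with `k' = (p-1)/ℓ ≥ 1`, `k' ≤ p^(1/2-η)`. (c5): `sm z u = sm z c * (sm z m)^k ≤ c T^k`, `(c T^k)^4 ≤ D < ℓ`.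
(c6): `N ≤ (ω(N) + 1) φ(N)` (`RunMult.totient_lower`), `ω(N) ≤ Nat.log 2 N ≤ Nat.log 2 (4 (c x^k)²)`, `4 (4u²) = 4 N g ≤ 4 (ω + 1) G0 φ(N) ≤ y φ(N) < p φ(N)`.
`Fintype.card (ZMod s × ZMod t) = s t`. (`HasPBA`: obtain the instances, `pba_ds`, `surj`.)
-/

set_option autoImplicit false

namespace Pool.CHD

open Finset

private theorem omega_le (N : ℕ) (hN : N ≠ 0) : N.primeFactors.card ≤ Nat.log 2 N := by
  apply Nat.le_log_of_pow_le (by norm_num)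
  have h1 : 2 ^ N.primeFactors.card ≤ ∏ r ∈ N.primeFactors, r :=
    Finset.pow_card_le_prod _ _ _ fun r hr => (Nat.prime_of_mem_primeFactors hr).two_le
  exact le_trans h1 (Nat.le_of_dvd (Nat.pos_of_ne_zero hN) (Nat.prod_primeFactors_dvd N))

private theorem D_lt (η : ℝ) (hη : 0 < η) (p ℓ y D : ℕ) (hyp : y < p) (hDy : D ^ 2 ≤ y)
    (h : (p : ℝ) ^ (1 / 2 + η) < ℓ) : D < ℓ := by
  have hp1 : (1 : ℝ) ≤ p := by
    have : 1 ≤ p := by omega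
    exact_mod_cast this
  have h1 : (D : ℝ) ≤ (p : ℝ) ^ (1 / 2 : ℝ) := by
    rw [← Real.sqrt_eq_rpow]
    apply Real.le_sqrt_of_sq_le
    have : D ^ 2 ≤ p := by omega
    exact_mod_cast this
  have h2 : (p : ℝ) ^ (1 / 2 : ℝ) ≤ (p : ℝ) ^ (1 / 2 + η) :=
    Real.rpow_le_rpow_of_exponent_le hp1 (by linarith)
  have h3 : (D : ℝ) < ℓ := by linarith
  exact_mod_cast h3

private theorem k_le (η : ℝ) (p ℓ : ℕ) (hp : 1 ≤ p) (hl : 0 < ℓ)
    (h : (p : ℝ) ^ (1 / 2 + η) < ℓ) : (((p - 1) / ℓ : ℕ) : ℝ) ≤ (p : ℝ) ^ (1 / 2 - η) := by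
  have hp0 : (0 : ℝ) < p := by
    have : 0 < p := by omega
    exact_mod_cast this
  have hl0 : (0 : ℝ) < ℓ := by exact_mod_cast hl
  have h1 : (((p - 1) / ℓ : ℕ) : ℝ) ≤ ((p - 1 : ℕ) : ℝ) / ℓ := Nat.cast_div_le
  have h2 : ((p - 1 : ℕ) : ℝ) ≤ p := by
    have : p - 1 ≤ p := Nat.sub_le _ _
    exact_mod_cast this
  have h3 : ((p - 1 : ℕ) : ℝ) / ℓ ≤ (p : ℝ) / ℓ := div_le_div_of_nonneg_right h2 hl0.le
  have h4 : (p : ℝ) / ℓ ≤ (p : ℝ) ^ (1 / 2 - η) := by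
    rw [div_le_iff₀ hl0]
    have h5 : (p : ℝ) ^ (1 / 2 - η) * (p : ℝ) ^ (1 / 2 + η) = p := by
      rw [← Real.rpow_add hp0]
      have : (1 / 2 - η) + (1 / 2 + η) = (1 : ℝ) := by ring
      rw [this, Real.rpow_one]
    calc (p : ℝ) = (p : ℝ) ^ (1 / 2 - η) * (p : ℝ) ^ (1 / 2 + η) := h5.symm
      _ ≤ (p : ℝ) ^ (1 / 2 - η) * ℓ :=
        mul_le_mul_of_nonneg_left h.le (Real.rpow_nonneg hp0.le _)
  linarith

private theorem not_dvd_of_lt {a b : ℕ} (h0 : 0 < b) (h : b < a) : ¬ a ∣ b := fun hd =>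
  absurd (Nat.le_of_dvd h0 hd) (not_le.2 h)

theorem goodG (c k x y z D T m G0 s t : ℕ) (η : ℝ) (hη : 0 < η) (hc : 1 ≤ c) (hk : 1 ≤ k) (hm : 1 ≤ m) (hmx : m ≤ x)
    (hcz : ∀ q : ℕ, q.Prime → q ∣ c → q ≤ z) (hz : 2 ≤ z) (hzD : z ≤ D) (hDy : D ^ 2 ≤ y) (hT : (c * T ^ k) ^ 4 ≤ D)
    (hst : s * t = 4 * (c * m ^ k) ^ 2) (hg : Nat.gcd s t ≤ G0)
    (h6 : 4 * (Nat.log 2 (4 * (c * x ^ k) ^ 2) + 1) * G0 ≤ y)
    (hE0 : ¬ Pool.Agent.Lib.MP_f4ebb7_co.NoExact (fun q => Pe η q ∧ y < q) m)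
    (h13 : ¬ B13 D m) (h2 : ¬ B2 y z m) (h4 : ¬ B4 η y z m) (h5 : sm z m ≤ T) : ¬ HasPBA s t := by
  rintro ⟨is, it, a, ha⟩
  set u : ℕ := c * m ^ k with hu_def
  have hu : 1 ≤ u := Nat.mul_pos hc (pow_pos hm k)
  obtain ⟨Ds, l, hDs, hcard⟩ := pba_ds s t u hst a ha
  have hs0 : s ≠ 0 := NeZero.ne s
  have ht0 : t ≠ 0 := NeZero.ne t
  set N : ℕ := Nat.lcm s t with hN_def
  have hN0 : N ≠ 0 := Nat.lcm_ne_zero hs0 ht0
  have hNz : NeZero N := ⟨hN0⟩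
  obtain ⟨f, hf⟩ : ∃ f : (ZMod s × ZMod t) →+ ZMod N, Function.Surjective f := surj s t
  set g : ℕ := Nat.gcd s t with hg_def
  have hg0 : 0 < g := Nat.gcd_pos_of_pos_left _ (Nat.pos_of_ne_zero hs0)
  have hNg : N * g = 4 * u ^ 2 := by
    rw [← hst, mul_comm N g]
    exact Nat.gcd_mul_lcm s t
  have hNdvd : N ∣ 4 * u ^ 2 := ⟨g, hNg.symm⟩
  -- the prime
  have hE1 : ∃ p : ℕ, p.Prime ∧ (Pe η p ∧ y < p) ∧ p ∣ m := by
    by_contra hcon
    apply hE0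
    intro q hq hQ hqm
    exact absurd ⟨q, hq, hQ, hqm⟩ hcon
  obtain ⟨p, hp, ⟨⟨_, ℓ, hl, hlp, hlbig⟩, hyp⟩, hpm⟩ := hE1
  have hDl : D < ℓ := D_lt η hη p ℓ y D hyp hDy hlbig
  have hDD : D ≤ D ^ 2 := by nlinarith
  have hzp : z < p := by omega
  have hDp : D < p := by omega
  have hp2 : p ≠ 2 := by omega
  have hl2 : ℓ ≠ 2 := by omega
  have hG0 : 1 ≤ G0 := le_trans hg0 hg
  have hG0y : G0 ≤ y := by
    refine le_trans ?_ h6
    exact Nat.le_mul_of_pos_left _ (by positivity)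
  have hpg : ¬ p ∣ g := not_dvd_of_lt hg0 (by omega)
  have hpu : p ∣ u := Dvd.dvd.mul_left (dvd_pow hpm (by omega)) c
  have hp2N : p ^ 2 ∣ N := by
    have h1 : p ^ 2 ∣ N * g := by
      rw [hNg]
      exact Dvd.dvd.mul_left (pow_dvd_pow_of_dvd hpu 2) 4
    exact (Nat.Coprime.pow_left 2 ((Nat.Prime.coprime_iff_not_dvd hp).2 hpg)).dvd_of_dvd_mul_right h1
  have hPar : Par N p (N.factorization p) (N / p ^ N.factorization p) := by
    refine ⟨hp, hp2, ?_, ?_, ?_⟩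
    · exact (hp.pow_dvd_iff_le_factorization hN0).1 hp2N
    · exact (Nat.ordProj_mul_ordCompl_eq_self N p).symm
    · exact Nat.not_dvd_ordCompl hp hN0
  have hNe : Even N := by
    have h1 : 2 ∣ s * t := by
      rw [hst]
      exact ⟨2 * u ^ 2, by ring⟩
    rcases (Nat.Prime.dvd_mul Nat.prime_two).1 h1 with h | h
    · exact even_iff_two_dvd.2 (dvd_trans h (Nat.dvd_lcm_left s t))
    · exact even_iff_two_dvd.2 (dvd_trans h (Nat.dvd_lcm_right s t))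
  have hNu : ∀ q : ℕ, q.Prime → q ∣ N → q = 2 ∨ q ∣ u := by
    intro q hq hqN
    rcases (Nat.Prime.dvd_mul hq).1 (dvd_trans hqN hNdvd) with h | h
    · left
      have h1 : q ∣ 2 ^ 2 := by
        norm_num
        exact h
      exact (Nat.prime_dvd_prime_iff_eq hq Nat.prime_two).1 (hq.dvd_of_dvd_pow h1)
    · right
      exact hq.dvd_of_dvd_pow h
  have hru : ∀ r : ℕ, r.Prime → r ∣ u → r ≤ z ∨ r ∣ m := by
    intro r hr h
    rcases (Nat.Prime.dvd_mul hr).1 h with h | h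
    · exact Or.inl (hcz r hr h)
    · exact Or.inr (hr.dvd_of_dvd_pow h)
  have hGcard : Fintype.card (ZMod s × ZMod t) = 4 * u ^ 2 := by
    rw [Fintype.card_prod, ZMod.card, ZMod.card, hst]
  have hNle : N ≤ 4 * (c * x ^ k) ^ 2 := by
    refine le_trans (Nat.le_of_dvd (by positivity) hNdvd) ?_
    exact Nat.mul_le_mul_left 4 (Nat.pow_le_pow_left
      (Nat.mul_le_mul_left c (Nat.pow_le_pow_left hmx k)) 2)
  refine critG N u p _ _ ℓ z hNe hPar hu hNu hNdvd hGcard f hf Ds l hDs hcard hl hlp hzp hl2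
    ?_ ?_ ?_ ?_ ?_ ?_
  · intro r hr hru' hrp hd
    have hr2 := hr.two_le
    rcases hru r hr hru' with h | h
    · exact not_dvd_of_lt (by omega) (by omega) hd
    · exact h13 ⟨p, p, r, hDp, hp, hr, fun e => hrp e.symm, hpm, h, Or.inl dvd_rfl, Or.inr hd⟩
  · intro r hr hru' hrp hzr hd
    rcases hru r hr hru' with h | h
    · omega
    · exact h2 ⟨p, r, hp, hr, fun e => hrp e.symm, hpm, h, hyp, hzr, hd⟩
  · intro r hr hru' hrp
    have hr2 := hr.two_le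
    rcases hru r hr hru' with h | h
    · exact ⟨not_dvd_of_lt (by omega) (by omega), not_dvd_of_lt (by omega) (by omega)⟩
    · refine ⟨fun hd => ?_, fun hd => ?_⟩
      · exact h13 ⟨ℓ, p, r, hDl, hp, hr, fun e => hrp e.symm, hpm, h, Or.inr hlp, Or.inl hd⟩
      · exact h13 ⟨ℓ, p, r, hDl, hp, hr, fun e => hrp e.symm, hpm, h, Or.inr hlp, Or.inr hd⟩
  · intro r hr _ hrz hd
    apply h4
    refine ⟨p, r, (p - 1) / ℓ, hp, hpm, hyp, hr.two_le, hrz, ?_, ?_, ?_⟩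
    · exact Nat.div_pos (Nat.le_of_dvd (by omega) hlp) hl.pos
    · exact k_le η p ℓ hp.one_lt.le hl.pos hlbig
    · exact (Nat.modEq_iff_dvd' (Nat.one_le_pow _ _ hr.pos)).1 hd.symm
  · have h1 : sm z u ≤ c * T ^ k := by
      rw [hu_def, sm_mul z c (m ^ k) (by omega) (pow_ne_zero k (by omega)),
        sm_pow z m k (by omega)]
      exact Nat.mul_le_mul (sm_le z c (by omega)) (Nat.pow_le_pow_left h5 k)
    have h2' : (sm z u) ^ 4 ≤ (c * T ^ k) ^ 4 := Nat.pow_le_pow_left h1 4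
    omega
  · have h1 := Pool.CHD.omega_le N hN0
    have h3 : Nat.log 2 N ≤ Nat.log 2 (4 * (c * x ^ k) ^ 2) := Nat.log_mono_right hNle
    have h4' := RunMult.totient_lower N (by omega)
    have hphi : 0 < Nat.totient N := Nat.totient_pos.2 (by omega)
    have h7 : 4 * (4 * u ^ 2) ≤ y * Nat.totient N := by
      rw [← hNg]
      calc 4 * (N * g) ≤ 4 * (((N.primeFactors.card + 1) * N.totient) * G0) :=
            Nat.mul_le_mul_left 4 (Nat.mul_le_mul h4' hg)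
        _ = (4 * (N.primeFactors.card + 1) * G0) * N.totient := by ring
        _ ≤ y * N.totient := by
            apply Nat.mul_le_mul_right
            refine le_trans ?_ h6
            apply Nat.mul_le_mul_right
            omega
    have h8 : y * Nat.totient N < p * Nat.totient N := Nat.mul_lt_mul_of_pos_right hyp hphi
    omega

end Pool.CHD
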