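import Pool.Agent.Lib.MP_f4ebb7_co.CHD.Defs
import Pool.Agent.Lib.MP_67663b_nt.OddB.Mert

/-! CHD-LamPhi: `∑_{d ≤ Q} Λ(d)/φ(d) ≤ log Q + C`.

PROOF. `Λ(d) ≠ 0` only for prime powers `d = ℓ^k`, `k ≥ 1`, `φ(ℓ^k) = ℓ^(k-1) (ℓ-1)`, `ℓ ≤ Q`, and `k ≤ Nat.log 2 Q`: the sum is at most
`∑_{ℓ ≤ Q prime} log ℓ ∑_{k ≥ 1} 1/(ℓ^(k-1) (ℓ-1)) = ∑_ℓ log ℓ * ℓ/(ℓ-1)²` (geometric series), and
`ℓ/(ℓ-1)² = 1/ℓ + (2ℓ-1)/(ℓ (ℓ-1)²) ≤ 1/ℓ + 8/ℓ²`. `∑_{ℓ ≤ Q} log ℓ/ℓ ≤ log Q + log 4` (`Pool.MP_67663b_nt.Mert.log_sum_le`, sum over `Nat.primesLE Q`), and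
`∑ log ℓ/ℓ²` converges (`log ℓ ≤ 2 √ℓ`, `Real.summable_nat_rpow_inv`). To enumerate: map `d ↦ (d.minFac, d.factorization d.minFac)` is injective on prime
powers, into `primesLE Q ×ˢ Icc 1 (Nat.log 2 Q)`, or bound the sum over `d ∈ Icc 1 Q` by the double sum over
`(ℓ, k)` via `Finset.sum_le_sum_of_injOn`/`Finset.sum_image`. (`Λ(ℓ^k) = log ℓ`: `ArithmeticFunction.vonMangoldt_apply_pow`,
`vonMangoldt_apply_prime`, `vonMangoldt_eq_zero_iff`.)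
-/

set_option autoImplicit false

namespace Pool.CHD

open Finset

private theorem lp_nonneg (d : ℕ) :
    0 ≤ ArithmeticFunction.vonMangoldt d / (Nat.totient d : ℝ) :=
  div_nonneg ArithmeticFunction.vonMangoldt_nonneg (Nat.cast_nonneg _)

/-- the sum is at most the sum over pairs (prime, exponent) -/
private theorem lp_pairs (Q : ℕ) :
    ∑ d ∈ Icc 1 Q, ArithmeticFunction.vonMangoldt d / (Nat.totient d : ℝ) ≤
      ∑ x ∈ Nat.primesLE Q ×ˢ Icc 1 (Nat.log 2 Q),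
        ArithmeticFunction.vonMangoldt (x.1 ^ x.2) / (Nat.totient (x.1 ^ x.2) : ℝ) := by
  classical
  set S := Nat.primesLE Q ×ˢ Icc 1 (Nat.log 2 Q) with hS
  set f : ℕ × ℕ → ℕ := fun x => x.1 ^ x.2 with hf
  set g : ℕ → ℝ := fun d => ArithmeticFunction.vonMangoldt d / (Nat.totient d : ℝ) with hg
  have hg0 : ∀ d, 0 ≤ g d := fun d => lp_nonneg d
  have h1 : ∑ d ∈ Icc 1 Q, g d ≤ ∑ d ∈ S.image f, g d := by
    rw [← Finset.sum_filter_ne_zero]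
    refine Finset.sum_le_sum_of_subset_of_nonneg ?_ fun d _ _ => hg0 d
    intro d hd
    obtain ⟨hd1, hd2⟩ := mem_filter.1 hd
    rw [mem_Icc] at hd1
    have hpp : IsPrimePow d := by
      by_contra hn
      apply hd2
      simp only [hg]
      rw [ArithmeticFunction.vonMangoldt_eq_zero_iff.2 hn, zero_div]
    rw [isPrimePow_nat_iff] at hpp
    obtain ⟨l, k, hl, hk, rfl⟩ := hpp
    refine mem_image.2 ⟨(l, k), ?_, rfl⟩
    rw [hS, mem_product, Nat.mem_primesLE, mem_Icc]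
    refine ⟨⟨?_, hl⟩, hk, ?_⟩
    · exact (Nat.le_self_pow (by omega) l).trans hd1.2
    · apply Nat.le_log_of_pow_le (by norm_num)
      exact (Nat.pow_le_pow_left hl.two_le k).trans hd1.2
  refine h1.trans ?_
  rw [show ∑ x ∈ S, ArithmeticFunction.vonMangoldt (x.1 ^ x.2) / (Nat.totient (x.1 ^ x.2) : ℝ) =
    ∑ x ∈ S, g (f x) from rfl, Finset.sum_comp g f]
  refine Finset.sum_le_sum fun d hd => ?_
  have h2 : 1 ≤ #{a ∈ S | f a = d} := by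
    obtain ⟨x, hx, hxd⟩ := mem_image.1 hd
    exact Finset.card_pos.2 ⟨x, mem_filter.2 ⟨hx, hxd⟩⟩
  rw [nsmul_eq_mul]
  have h3 : (1 : ℝ) ≤ ((#{a ∈ S | f a = d} : ℕ) : ℝ) := by exact_mod_cast h2
  calc g d = 1 * g d := (one_mul _).symm
    _ ≤ _ := mul_le_mul_of_nonneg_right h3 (hg0 d)

private theorem lp_geom (l K : ℕ) (hl : 2 ≤ l) :
    ∑ k ∈ Icc 1 K, ((1 : ℝ) / l) ^ (k - 1) ≤ l / ((l : ℝ) - 1) := by
  have hl' : (2 : ℝ) ≤ l := by exact_mod_cast hl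
  have h1 : ∑ k ∈ Icc 1 K, ((1 : ℝ) / l) ^ (k - 1) = ∑ k ∈ range K, ((1 : ℝ) / l) ^ k := by
    rw [Finset.sum_bij (fun k _ => k - 1)]
    · intro k hk
      rw [mem_Icc] at hk
      rw [mem_range]
      omega
    · intro a ha b hb hab
      rw [mem_Icc] at ha hb
      omega
    · intro b hb
      rw [mem_range] at hb
      exact ⟨b + 1, by rw [mem_Icc]; omega, by omega⟩
    · intro k _
      rfl
  rw [h1]
  have h2 : (1 : ℝ) / l < 1 := by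
    rw [div_lt_one (by linarith)]
    linarith
  have h3 : (0 : ℝ) ≤ 1 / l := by positivity
  have h4 := (summable_geometric_of_lt_one h3 h2).sum_le_tsum (range K)
    (fun i _ => pow_nonneg h3 i)
  rw [tsum_geometric_of_lt_one h3 h2] at h4
  refine h4.trans (le_of_eq ?_)
  have : (l : ℝ) - 1 ≠ 0 := by linarith
  have : (l : ℝ) ≠ 0 := by linarith
  field_simp

private theorem lp_prime (l K : ℕ) (hl : l.Prime) :
    ∑ k ∈ Icc 1 K, ArithmeticFunction.vonMangoldt (l ^ k) / (Nat.totient (l ^ k) : ℝ) ≤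
      Real.log l / l + 16 * (1 / (l : ℝ) ^ (3 / 2 : ℝ)) := by
  have hl2 : (2 : ℝ) ≤ l := by exact_mod_cast hl.two_le
  have hl0 : (0 : ℝ) < l := by linarith
  have hlog : 0 ≤ Real.log l := Real.log_nonneg (by linarith)
  have h1 : ∀ k ∈ Icc 1 K, ArithmeticFunction.vonMangoldt (l ^ k) / (Nat.totient (l ^ k) : ℝ) =
      Real.log l / ((l : ℝ) - 1) * ((1 : ℝ) / l) ^ (k - 1) := by
    intro k hk
    rw [mem_Icc] at hk
    rw [ArithmeticFunction.vonMangoldt_apply_pow (by omega),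
      ArithmeticFunction.vonMangoldt_apply_prime hl, Nat.totient_prime_pow hl (by omega)]
    rw [Nat.cast_mul, Nat.cast_pow, Nat.cast_sub hl.one_le, Nat.cast_one, one_div, inv_pow]
    have : (l : ℝ) - 1 ≠ 0 := by linarith
    have : (l : ℝ) ^ (k - 1) ≠ 0 := by positivity
    field_simp
  rw [Finset.sum_congr rfl h1, ← Finset.mul_sum]
  have h2 := lp_geom l K hl.two_le
  have h3 : 0 ≤ Real.log l / ((l : ℝ) - 1) := div_nonneg hlog (by linarith)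
  refine (mul_le_mul_of_nonneg_left h2 h3).trans ?_
  have h4 : Real.log l / ((l : ℝ) - 1) * (l / ((l : ℝ) - 1)) ≤
      Real.log l / l + Real.log l * (8 / (l : ℝ) ^ 2) := by
    have h5 : (l : ℝ) / ((l : ℝ) - 1) ^ 2 ≤ 1 / l + 8 / (l : ℝ) ^ 2 := by
      rw [div_add_div _ _ (by positivity) (by positivity), div_le_div_iff₀
        (pow_pos (by linarith) 2) (by positivity)]
      nlinarith [mul_nonneg (sub_nonneg.2 hl2) (sq_nonneg ((l : ℝ) - 2)),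
        mul_nonneg hl0.le (sub_nonneg.2 hl2), sq_nonneg ((l : ℝ) - 2),
        mul_nonneg (mul_nonneg hl0.le hl0.le) (sub_nonneg.2 hl2),
        mul_nonneg (mul_nonneg hl0.le (sub_nonneg.2 hl2)) (sub_nonneg.2 hl2)]
    calc Real.log l / ((l : ℝ) - 1) * (l / ((l : ℝ) - 1)) =
        Real.log l * (l / ((l : ℝ) - 1) ^ 2) := by
          rw [div_mul_div_comm, ← pow_two, mul_div_assoc]
      _ ≤ Real.log l * (1 / l + 8 / (l : ℝ) ^ 2) := mul_le_mul_of_nonneg_left h5 hlog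
      _ = Real.log l / l + Real.log l * (8 / (l : ℝ) ^ 2) := by ring
  refine h4.trans (add_le_add le_rfl ?_)
  have h6 : Real.log l ≤ 2 * (l : ℝ) ^ (1 / 2 : ℝ) := by
    have h7 := Real.log_le_rpow_div hl0.le (ε := 1 / 2) (by norm_num)
    calc Real.log l ≤ (l : ℝ) ^ (1 / 2 : ℝ) / (1 / 2) := h7
      _ = 2 * (l : ℝ) ^ (1 / 2 : ℝ) := by ring
  have h8 : (l : ℝ) ^ (3 / 2 : ℝ) * (l : ℝ) ^ (1 / 2 : ℝ) = (l : ℝ) ^ 2 := by
    rw [← Real.rpow_add hl0, ← Real.rpow_natCast]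
    norm_num
  have h9 : 0 < (l : ℝ) ^ (3 / 2 : ℝ) := Real.rpow_pos_of_pos hl0 _
  have h10 : 0 < (l : ℝ) ^ (1 / 2 : ℝ) := Real.rpow_pos_of_pos hl0 _
  calc Real.log l * (8 / (l : ℝ) ^ 2) ≤ 2 * (l : ℝ) ^ (1 / 2 : ℝ) * (8 / (l : ℝ) ^ 2) := by
        apply mul_le_mul_of_nonneg_right h6 (by positivity)
    _ = 16 * (1 / (l : ℝ) ^ (3 / 2 : ℝ)) := by
        rw [← h8]
        field_simp
        ring

theorem lam_phi : ∃ C : ℝ, 0 < C ∧ ∀ Q : ℕ, 1 ≤ Q →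
    ∑ d ∈ Icc 1 Q, ArithmeticFunction.vonMangoldt d / (Nat.totient d : ℝ) ≤ Real.log Q + C := by
  have hsum : Summable (fun n : ℕ => 1 / (n : ℝ) ^ (3 / 2 : ℝ)) :=
    Real.summable_one_div_nat_rpow.2 (by norm_num)
  have hnn : ∀ n : ℕ, 0 ≤ 1 / (n : ℝ) ^ (3 / 2 : ℝ) := fun n => by positivity
  have hT : 0 ≤ ∑' n : ℕ, 1 / (n : ℝ) ^ (3 / 2 : ℝ) := tsum_nonneg hnn
  have hlog4 : 0 < Real.log 4 := Real.log_pos (by norm_num)
  refine ⟨Real.log 4 + 16 * ∑' n : ℕ, 1 / (n : ℝ) ^ (3 / 2 : ℝ), by positivity, fun Q hQ => ?_⟩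
  refine (lp_pairs Q).trans ?_
  rw [Finset.sum_product]
  calc ∑ l ∈ Nat.primesLE Q, ∑ k ∈ Icc 1 (Nat.log 2 Q),
        ArithmeticFunction.vonMangoldt (l ^ k) / (Nat.totient (l ^ k) : ℝ)
      ≤ ∑ l ∈ Nat.primesLE Q, (Real.log l / l + 16 * (1 / (l : ℝ) ^ (3 / 2 : ℝ))) := by
        refine Finset.sum_le_sum fun l hl => ?_
        rw [Nat.mem_primesLE] at hl
        exact lp_prime l _ hl.2
    _ = ∑ l ∈ Nat.primesLE Q, Real.log l / l +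
        16 * ∑ l ∈ Nat.primesLE Q, 1 / (l : ℝ) ^ (3 / 2 : ℝ) := by
        rw [Finset.sum_add_distrib, Finset.mul_sum]
    _ ≤ (Real.log Q + Real.log 4) + 16 * ∑' n : ℕ, 1 / (n : ℝ) ^ (3 / 2 : ℝ) := by
        refine add_le_add (Pool.MP_67663b_nt.Mert.log_sum_le Q hQ) ?_
        refine mul_le_mul_of_nonneg_left ?_ (by norm_num)
        exact hsum.sum_le_tsum _ fun n _ => hnn n
    _ = Real.log Q + (Real.log 4 + 16 * ∑' n : ℕ, 1 / (n : ℝ) ^ (3 / 2 : ℝ)) := by ring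

end Pool.CHD
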