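import Pool.Agent.Lib.MP_f4ebb7_co.CHD.Defs

/-! CHD-PSum: partial summation.

PROOF. As `ps_ind`/`ps` in `Pool/Agent/Lib/MP_f4ebb7_co/PS.lean` (namespace `Pool.Agent.Lib.MP_f4ebb7_co`: `ff`, `step_id`, `loglog_step`, `ff_sub_nonneg`, `thP_le`, `thP_nonneg`,
`one_le_log` can be used), with `κ m` instead of `m/2 - m/(log m)²` (simpler: no `err_step`). By induction on `M ≥ y`:
`κ (loglog (M+1) - loglog (y+1)) + κ (y ff y - M ff M) ≤ reP P M - reP P y - thP P M * ff M + thP P y * ff y`; step: `step_id`, and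
`thP P M (ff M - ff (M+1)) ≥ κ M (ff M - ff (M+1))`, `loglog_step`. Then `y ff y ≥ 0`, `M ff M = 1/log M ≤ 1`, `thP P y * ff y ≤ log 4 / log y ≤ 2`, `κ ≤ 1`.
Finally `reP (fun q => P q ∧ y < q) M = reP P M - reP P y` (the primes `≤ y` and `> y`).
-/

set_option autoImplicit false

namespace Pool.CHD

open Finset

open Pool.Agent.Lib.MP_f4ebb7_co in
private theorem psum_ind (P : ℕ → Prop) (κ : ℝ) (hκ : 0 ≤ κ) (y : ℕ) (hy : 3 ≤ y)
    (hθ : ∀ m : ℕ, y ≤ m → κ * m ≤ thP P m) (M : ℕ) (hyM : y ≤ M) :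
    κ * (Real.log (Real.log ((M + 1 : ℕ) : ℝ)) - Real.log (Real.log ((y + 1 : ℕ) : ℝ)))
      + κ * (y * ff y - M * ff M)
      ≤ reP P M - reP P y - thP P M * ff M + thP P y * ff y := by
  induction M, hyM using Nat.le_induction with
  | base => simp
  | succ M hyM ih =>
    have hM3 : 3 ≤ M := by omega
    have h1 := step_id P hM3
    have h2 := loglog_step hM3
    have h4 := hθ M hyM
    have h5 := ff_sub_nonneg hM3
    have h6 := mul_le_mul_of_nonneg_right h4 h5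
    have h7 := mul_le_mul_of_nonneg_left h2 hκ
    have h8 : reP P (M + 1) = reP P M + (thP P (M + 1) - thP P M) * ff (M + 1) := by linarith
    rw [h8]
    have h9 : M + 1 + 1 = M + 2 := by ring
    rw [h9]
    have h10 : (((M + 1 : ℕ) : ℝ)) * ff (M + 1) = M * ff (M + 1) + ff (M + 1) := by
      push_cast
      ring
    rw [h10]
    nlinarith

open Pool.Agent.Lib.MP_f4ebb7_co in
private theorem reP_split (P : ℕ → Prop) {y M : ℕ} (h : y ≤ M) :
    reP P M = reP (fun q => P q ∧ y < q) M + reP P y := by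
  classical
  unfold reP
  rw [← Finset.sum_union]
  · apply Finset.sum_congr _ (fun _ _ => rfl)
    ext q
    simp only [mem_union, mem_filter, Nat.mem_primesLE]
    constructor
    · rintro ⟨⟨h1, h2⟩, h3⟩
      rcases Nat.lt_or_ge y q with h4 | h4
      · left; exact ⟨⟨h1, h2⟩, h3, h4⟩
      · right; exact ⟨⟨h4, h2⟩, h3⟩
    · rintro (⟨⟨h1, h2⟩, h3, _⟩ | ⟨⟨h1, h2⟩, h3⟩)
      · exact ⟨⟨h1, h2⟩, h3⟩
      · exact ⟨⟨h1.trans h, h2⟩, h3⟩
  · rw [Finset.disjoint_left]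
    intro q hq hq'
    simp only [mem_filter, Nat.mem_primesLE] at hq hq'
    omega

theorem psum (P : ℕ → Prop) (κ : ℝ) (hκ : 0 ≤ κ) (hκ1 : κ ≤ 1) (y : ℕ) (hy : 3 ≤ y)
    (h : ∀ m : ℕ, y ≤ m → κ * m ≤ Pool.Agent.Lib.MP_f4ebb7_co.thP P m) (M : ℕ) (hM : y ≤ M) :
    κ * (Real.log (Real.log M) - Real.log (Real.log ((y + 1 : ℕ) : ℝ))) - 6 ≤
      Pool.Agent.Lib.MP_f4ebb7_co.reP (fun q => P q ∧ y < q) M := by
  classical
  have h1 := psum_ind P κ hκ y hy h M hM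
  have h0 := reP_split P hM
  have hM3 : 3 ≤ M := by omega
  have hly := Pool.Agent.Lib.MP_f4ebb7_co.one_le_log hy
  have hlM := Pool.Agent.Lib.MP_f4ebb7_co.one_le_log hM3
  have hy' : (0 : ℝ) < y := by exact_mod_cast (by omega : 0 < y)
  have hM' : (0 : ℝ) < M := by exact_mod_cast (by omega : 0 < M)
  have h2 : (y : ℝ) * Pool.Agent.Lib.MP_f4ebb7_co.ff y = 1 / Real.log y := by
    unfold Pool.Agent.Lib.MP_f4ebb7_co.ff; field_simp
  have h3 : (M : ℝ) * Pool.Agent.Lib.MP_f4ebb7_co.ff M = 1 / Real.log M := by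
    unfold Pool.Agent.Lib.MP_f4ebb7_co.ff; field_simp
  have h5 : 1 / Real.log (y : ℝ) ≤ 1 := by rw [div_le_one (by linarith)]; exact hly
  have h5' : 1 / Real.log (M : ℝ) ≤ 1 := by rw [div_le_one (by linarith)]; exact hlM
  have h6 : 0 ≤ 1 / Real.log (M : ℝ) := by positivity
  have h6' : 0 ≤ 1 / Real.log (y : ℝ) := by positivity
  have h7 : 0 ≤ Pool.Agent.Lib.MP_f4ebb7_co.thP P M * Pool.Agent.Lib.MP_f4ebb7_co.ff M :=
    mul_nonneg (Pool.Agent.Lib.MP_f4ebb7_co.thP_nonneg P M)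
      (by unfold Pool.Agent.Lib.MP_f4ebb7_co.ff; positivity)
  have hl4 : Real.log 4 ≤ 2 := by
    have h9 : Real.log 4 = 2 * Real.log 2 := by
      rw [show (4 : ℝ) = 2 ^ 2 by norm_num, Real.log_pow]; push_cast; ring
    have := Real.log_two_lt_d9
    linarith
  have h9 : Pool.Agent.Lib.MP_f4ebb7_co.thP P y * Pool.Agent.Lib.MP_f4ebb7_co.ff y ≤ 2 := by
    calc Pool.Agent.Lib.MP_f4ebb7_co.thP P y * Pool.Agent.Lib.MP_f4ebb7_co.ff y
        ≤ (Real.log 4 * y) * Pool.Agent.Lib.MP_f4ebb7_co.ff y :=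
          mul_le_mul_of_nonneg_right (Pool.Agent.Lib.MP_f4ebb7_co.thP_le P y)
            (by unfold Pool.Agent.Lib.MP_f4ebb7_co.ff; positivity)
      _ = Real.log 4 * (1 / Real.log y) := by rw [mul_assoc, h2]
      _ ≤ 2 * 1 := mul_le_mul hl4 h5 (by positivity) (by norm_num)
      _ = 2 := by norm_num
  have h10 : Real.log (Real.log M) ≤ Real.log (Real.log ((M + 1 : ℕ) : ℝ)) := by
    refine Real.log_le_log (by linarith) (Real.log_le_log hM' ?_)
    push_cast; linarith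
  rw [h2, h3] at h1
  have h11 : κ * (Real.log (Real.log M) - Real.log (Real.log ((y + 1 : ℕ) : ℝ))) ≤
      κ * (Real.log (Real.log ((M + 1 : ℕ) : ℝ)) - Real.log (Real.log ((y + 1 : ℕ) : ℝ))) :=
    mul_le_mul_of_nonneg_left (by linarith) hκ
  have h12 : -1 ≤ κ * (1 / Real.log (y : ℝ) - 1 / Real.log (M : ℝ)) := by nlinarith
  linarith

end Pool.CHD
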