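import Pool.Agent.Lib.MP_f4ebb7_co.CHD.Good
import Pool.Agent.Lib.MP_f4ebb7_co.CHD.Asy
import Pool.Agent.Lib.MP_f4ebb7_co.CHD.Gold
import Pool.Agent.Lib.MP_f4ebb7_co.CHD.PSum
import Pool.Agent.Lib.MP_f4ebb7_co.CHD.CB2
import Pool.Agent.Lib.MP_f4ebb7_co.CHD.CB13
import Pool.Agent.Lib.MP_f4ebb7_co.CHD.CB4
import Pool.Agent.Lib.MP_f4ebb7_co.CHD.CB5
import Pool.Agent.Lib.MP_f4ebb7_co.HTB

/-! CHD-Main: the count.

PROOF. We may assume `0 < θ` (for `θ ≤ 0` use the bound for `θ = 1/4`, `log x ≥ log 2 > 0`, or the trivial bound: `count ≤ x`; `(log x)^θ` for `θ ≤ 0` is bounded by `max (log 2 ^ θ) 1`).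
`κ = (θ + 1/2)/2 ∈ (θ, 1/2)`, `β = 1 - θ/κ ∈ (0, 1)`, so `κ (1 - β) = θ`. `gold κ`: `η, X0`. `x0` from `asy_a β c k (max X0 3)`, `asy_b β η`. For `x ≥ x0` put
`y = yy β x`, `z = zz x`, `D = Nat.sqrt y` (`D² ≤ y`), `K = kk β x`, `T = z^K`. By `good`, the set is contained in
`SQ (fun q => Pe η q ∧ y < q) x ∪ {B13 D} ∪ {B2 y z} ∪ {B4 η y z} ∪ {T < sm z m}`. `hall_tenenbaum` and `psum` (`h` from `gold`, `y ≥ X0`):
`#SQ ≤ C x exp(-(κ (loglog x - loglog (y+1)) - 6)) ≤ C x exp(6 + κ) exp(-κ (1 - β) loglog x) = C' x / (log x)^θ`. The other four are `≤ C'' x/log x ≤ C'' x/(log x)^θ` (`cb13, cb2, cb4, cb5`, `asy_b`).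
For `2 ≤ x < x0`: the count is `≤ x ≤ C x/(log x)^θ` with `C ≥ (log x0)^θ` (`Real.rpow_le_rpow`).
-/

set_option autoImplicit false

namespace Pool.CHD

open Finset

open Classical in
private theorem main_triv (c k x : ℕ) :
    (((Icc 1 x).filter (fun m => HD (c * m ^ k))).card : ℝ) ≤ x := by
  have h1 : ((Icc 1 x).filter (fun m => HD (c * m ^ k))).card ≤ (Icc 1 x).card :=
    card_le_card (filter_subset _ _)
  rw [Nat.card_Icc, Nat.add_sub_cancel] at h1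
  exact_mod_cast h1

open Classical in
private theorem main_sq (C0 θ β κ η : ℝ) (x y : ℕ) (hC0 : 0 < C0)
    (hC : ∀ (Q : ℕ → Prop) (M : ℕ), 1 ≤ M →
      ((Pool.Agent.Lib.MP_f4ebb7_co.SQ Q M).card : ℝ) ≤
        C0 * M * Real.exp (-∑ q ∈ (Nat.primesLE M).filter Q, (1 : ℝ) / q))
    (hκ : 0 < κ) (hκ1 : κ ≤ 1) (hθ : κ * (1 - β) = θ) (hx : 3 ≤ x) (hy : 3 ≤ y) (hyx : y ≤ x)
    (hg : ∀ m : ℕ, y ≤ m → κ * m ≤ Pool.Agent.Lib.MP_f4ebb7_co.thP (Pe η) m)
    (hb : Real.log (Real.log ((y + 1 : ℕ) : ℝ)) ≤ β * Real.log (Real.log x) + 1) :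
    ((Pool.Agent.Lib.MP_f4ebb7_co.SQ (fun q => Pe η q ∧ y < q) x).card : ℝ) ≤
      C0 * Real.exp 7 * (x / Real.log x ^ θ) := by
  have hx1 : (1 : ℝ) < x := by
    have : 1 < x := by omega
    exact_mod_cast this
  have hL : 0 < Real.log x := Real.log_pos hx1
  have h1 : ((Pool.Agent.Lib.MP_f4ebb7_co.SQ (fun q => Pe η q ∧ y < q) x).card : ℝ) ≤
      C0 * x * Real.exp (-Pool.Agent.Lib.MP_f4ebb7_co.reP (fun q => Pe η q ∧ y < q) x) :=
    hC (fun q => Pe η q ∧ y < q) x (by omega)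
  have h2 := psum (Pe η) κ hκ.le hκ1 y hy hg x hyx
  have h3 : Real.exp (-Pool.Agent.Lib.MP_f4ebb7_co.reP (fun q => Pe η q ∧ y < q) x) ≤
      Real.exp (7 - θ * Real.log (Real.log x)) := by
    apply Real.exp_le_exp.2
    have e1 : κ * (Real.log (Real.log x) - Real.log (Real.log ((y + 1 : ℕ) : ℝ))) ≥
        κ * (Real.log (Real.log x) - (β * Real.log (Real.log x) + 1)) :=
      mul_le_mul_of_nonneg_left (by linarith) hκ.le
    have e2 : κ * (Real.log (Real.log x) - (β * Real.log (Real.log x) + 1)) =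
        θ * Real.log (Real.log x) - κ := by
      rw [← hθ]; ring
    linarith
  have h4 : Real.exp (7 - θ * Real.log (Real.log x)) = Real.exp 7 / Real.log x ^ θ := by
    rw [Real.exp_sub, Real.rpow_def_of_pos hL, mul_comm θ]
  rw [h4] at h3
  calc ((Pool.Agent.Lib.MP_f4ebb7_co.SQ (fun q => Pe η q ∧ y < q) x).card : ℝ)
      ≤ C0 * x * Real.exp (-Pool.Agent.Lib.MP_f4ebb7_co.reP (fun q => Pe η q ∧ y < q) x) := h1
    _ ≤ C0 * x * (Real.exp 7 / Real.log x ^ θ) := by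
        refine mul_le_mul_of_nonneg_left h3 (by positivity)
    _ = C0 * Real.exp 7 * (x / Real.log x ^ θ) := by ring

open Classical in
private theorem main_pos (c k : ℕ) (hc : 1 ≤ c) (hk : 1 ≤ k) (θ : ℝ) (hθ0 : 0 < θ) (hθ : θ < 1 / 2) :
    ∃ C : ℝ, 0 < C ∧ ∀ x : ℕ, 2 ≤ x →
    (((Icc 1 x).filter (fun m => HD (c * m ^ k))).card : ℝ) ≤ C * (x / Real.log x ^ θ) := by
  set κ : ℝ := (θ + 1 / 2) / 2 with hκd
  have hκ0 : 0 < κ := by rw [hκd]; linarith
  have hκθ : θ < κ := by rw [hκd]; linarith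
  have hκ2 : κ < 1 / 2 := by rw [hκd]; linarith
  set β : ℝ := 1 - θ / κ with hβd
  have hβ0 : 0 < β := by
    rw [hβd, sub_pos, div_lt_one hκ0]
    exact hκθ
  have hβ1 : β < 1 := by
    rw [hβd]
    have : 0 < θ / κ := by positivity
    linarith
  have hκβ : κ * (1 - β) = θ := by
    rw [hβd]
    field_simp
    ring
  obtain ⟨η, hη, hη4, X0, hX0⟩ := gold κ hκ2
  obtain ⟨C0, hC0, hHT⟩ := Pool.Agent.Lib.MP_f4ebb7_co.hall_tenenbaum
  obtain ⟨C2, hC2, h2⟩ := cb2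
  obtain ⟨C4, hC4, h4⟩ := cb4 η hη hη4
  obtain ⟨x1, hx1⟩ := asy_a β hβ0 hβ1 c k (max X0 3)
  obtain ⟨x2, hx2⟩ := asy_b β η hβ0 hβ1 hη
  set x0 : ℕ := max (max x1 x2) 3 with hx0
  have hlx0 : 0 < Real.log x0 := by
    apply Real.log_pos
    have : 1 < x0 := by omega
    exact_mod_cast this
  refine ⟨C0 * Real.exp 7 + (4 + 2 * C2 + C4 + 1) + Real.log x0 ^ θ, by positivity, ?_⟩
  intro x hx
  have hxp : (1 : ℝ) < x := by
    have : 1 < x := by omega
    exact_mod_cast this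
  have hxp0 : (0 : ℝ) < x := by linarith
  have hL : 0 < Real.log x := Real.log_pos hxp
  have hLθ : 0 < Real.log x ^ θ := Real.rpow_pos_of_pos hL θ
  have hA : 0 < (x : ℝ) / Real.log x ^ θ := by positivity
  rcases Nat.lt_or_ge x x0 with hxx | hxx
  · have h5 : Real.log x ^ θ ≤ Real.log x0 ^ θ := by
      apply Real.rpow_le_rpow hL.le _ hθ0.le
      apply Real.log_le_log hxp0
      exact_mod_cast hxx.le
    have h6 : (x : ℝ) ≤ Real.log x0 ^ θ * (x / Real.log x ^ θ) := by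
      have e1 : (x : ℝ) = Real.log x ^ θ * (x / Real.log x ^ θ) := by field_simp
      calc (x : ℝ) = Real.log x ^ θ * (x / Real.log x ^ θ) := e1
        _ ≤ Real.log x0 ^ θ * (x / Real.log x ^ θ) := mul_le_mul_of_nonneg_right h5 hA.le
    have h7 := main_triv c k x
    have h8 : 0 ≤ (C0 * Real.exp 7 + (4 + 2 * C2 + C4 + 1)) * (x / Real.log x ^ θ) := by positivity
    nlinarith
  · have a0 := hx1 x (by omega)
    have b0 := hx2 x (by omega)
    obtain ⟨a1, a2, a3, a4, a5, a6, a7, a8, a9⟩ := a0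
    obtain ⟨b1, b2, b3, b4, b5⟩ := b0
    set y : ℕ := yy β x with hy
    set z : ℕ := zz x with hz
    set K : ℕ := kk β x with hK
    set D : ℕ := Nat.sqrt y with hD
    have hL1 : 1 ≤ Real.log x := by
      have e1 : Real.exp 1 ≤ x := by
        have e2 : (3 : ℝ) ≤ x := by exact_mod_cast a1
        have e3 := Real.exp_one_lt_d9
        linarith
      have := Real.log_le_log (Real.exp_pos 1) e1
      rwa [Real.log_exp] at this
    have hLA : (x : ℝ) * (1 / Real.log x) ≤ x / Real.log x ^ θ := by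
      rw [mul_one_div]
      apply div_le_div_of_nonneg_left hxp0.le hLθ
      calc Real.log x ^ θ ≤ Real.log x ^ (1 : ℝ) :=
            Real.rpow_le_rpow_of_exponent_le hL1 (by linarith)
        _ = Real.log x := Real.rpow_one _
    have hD1 : 1 ≤ D := by omega
    have s1 := main_sq C0 θ β κ η x y hC0 hHT hκ0 (by linarith) hκβ a1 a6 a7
      (fun m hm => hX0 m (by omega)) b5
    have s2 := cb13 x D (by omega) hD1
    have s3 := h2 x y z a1 (by omega) a3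
    have s4 := h4 x y z (by omega) a6 a3
    have s5 := cb5 x z (z ^ K) K a3 le_rfl
    have t2 : 4 * (x : ℝ) * (1 + Real.log x) ^ 2 / D ≤ 4 * (x / Real.log x ^ θ) := by
      calc 4 * (x : ℝ) * (1 + Real.log x) ^ 2 / D = 4 * x * ((1 + Real.log x) ^ 2 / D) := by ring
        _ ≤ 4 * x * (1 / Real.log x) := mul_le_mul_of_nonneg_left b1 (by positivity)
        _ = 4 * (x * (1 / Real.log x)) := by ring
        _ ≤ 4 * (x / Real.log x ^ θ) := by linarith
    have t3 : C2 * x * Real.log x ^ 2 * ((z : ℝ) ^ (-(1 / 4) : ℝ) + (y : ℝ) ^ (-(1 / 2) : ℝ)) ≤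
        2 * C2 * (x / Real.log x ^ θ) := by
      calc C2 * x * Real.log x ^ 2 * ((z : ℝ) ^ (-(1 / 4) : ℝ) + (y : ℝ) ^ (-(1 / 2) : ℝ))
          = C2 * x * (Real.log x ^ 2 * ((z : ℝ) ^ (-(1 / 4) : ℝ) + (y : ℝ) ^ (-(1 / 2) : ℝ))) := by ring
        _ ≤ C2 * x * (2 / Real.log x) := mul_le_mul_of_nonneg_left b2 (by positivity)
        _ = 2 * C2 * (x * (1 / Real.log x)) := by ring
        _ ≤ 2 * C2 * (x / Real.log x ^ θ) := mul_le_mul_of_nonneg_left hLA (by positivity)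
    have t4 : C4 * x * (z : ℝ) ^ 2 * (y : ℝ) ^ (-(2 * η)) ≤ C4 * (x / Real.log x ^ θ) := by
      calc C4 * x * (z : ℝ) ^ 2 * (y : ℝ) ^ (-(2 * η)) = C4 * x * ((z : ℝ) ^ 2 * (y : ℝ) ^ (-(2 * η))) := by ring
        _ ≤ C4 * x * (1 / Real.log x) := mul_le_mul_of_nonneg_left b3 (by positivity)
        _ = C4 * (x * (1 / Real.log x)) := by ring
        _ ≤ C4 * (x / Real.log x ^ θ) := mul_le_mul_of_nonneg_left hLA (by positivity)
    have t5 : (x : ℝ) * z * (2 / 3 : ℝ) ^ K ≤ x / Real.log x ^ θ := by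
      calc (x : ℝ) * z * (2 / 3 : ℝ) ^ K = x * (z * (2 / 3 : ℝ) ^ K) := by ring
        _ ≤ x * (1 / Real.log x) := mul_le_mul_of_nonneg_left b4 hxp0.le
        _ ≤ x / Real.log x ^ θ := hLA
    have hsub : (Icc 1 x).filter (fun m => HD (c * m ^ k)) ⊆
        Pool.Agent.Lib.MP_f4ebb7_co.SQ (fun q => Pe η q ∧ y < q) x ∪
          ((Icc 1 x).filter (fun m => B13 D m) ∪ ((Icc 1 x).filter (fun m => B2 y z m) ∪
            ((Icc 1 x).filter (fun m => B4 η y z m) ∪ (Icc 1 x).filter (fun m => z ^ K < sm z m)))) := by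
      intro m hm
      rw [mem_filter, mem_Icc] at hm
      obtain ⟨⟨hm1, hm2⟩, hm3⟩ := hm
      by_contra hcon
      simp only [mem_union, mem_filter, mem_Icc, not_or, not_and, Pool.Agent.Lib.MP_f4ebb7_co.mem_SQ] at hcon
      obtain ⟨n1, n2, n3, n4, n5⟩ := hcon
      exact good c k x y z D (z ^ K) m η hη hc hk hm1 hm2 a2 a3 a4 (Nat.sqrt_le' y) a8 a9
        (n1 hm1 hm2) (n2 ⟨hm1, hm2⟩) (n3 ⟨hm1, hm2⟩) (n4 ⟨hm1, hm2⟩) (not_lt.1 (n5 ⟨hm1, hm2⟩)) hm3
    have hcard : (((Icc 1 x).filter (fun m => HD (c * m ^ k))).card : ℝ) ≤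
        ((Pool.Agent.Lib.MP_f4ebb7_co.SQ (fun q => Pe η q ∧ y < q) x).card : ℝ) +
          ((((Icc 1 x).filter (fun m => B13 D m)).card : ℝ) +
          ((((Icc 1 x).filter (fun m => B2 y z m)).card : ℝ) +
          ((((Icc 1 x).filter (fun m => B4 η y z m)).card : ℝ) +
          (((Icc 1 x).filter (fun m => z ^ K < sm z m)).card : ℝ)))) := by
      have e1 := card_le_card hsub
      have e2 := e1.trans ((card_union_le _ _).trans (Nat.add_le_add le_rfl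
        ((card_union_le _ _).trans (Nat.add_le_add le_rfl
        ((card_union_le _ _).trans (Nat.add_le_add le_rfl (card_union_le _ _)))))))
      exact_mod_cast e2
    have hfin : (((Icc 1 x).filter (fun m => HD (c * m ^ k))).card : ℝ) ≤
        (C0 * Real.exp 7 + (4 + 2 * C2 + C4 + 1)) * (x / Real.log x ^ θ) := by
      linarith
    have h8 : 0 ≤ Real.log x0 ^ θ * (x / Real.log x ^ θ) := by positivity
    linarith

open Classical in
theorem main (c k : ℕ) (hc : 1 ≤ c) (hk : 1 ≤ k) (θ : ℝ) (hθ : θ < 1 / 2) : ∃ C : ℝ, 0 < C ∧ ∀ x : ℕ, 2 ≤ x →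
    (((Icc 1 x).filter (fun m => HD (c * m ^ k))).card : ℝ) ≤ C * (x / Real.log x ^ θ) := by
  rcases lt_or_ge 0 θ with h | h
  · exact main_pos c k hc hk θ h hθ
  · refine ⟨Real.log 2 ^ θ, Real.rpow_pos_of_pos (Real.log_pos (by norm_num)) θ, ?_⟩
    intro x hx
    have hx2 : (2 : ℝ) ≤ x := by exact_mod_cast hx
    have hl2 : 0 < Real.log 2 := Real.log_pos (by norm_num)
    have hl : Real.log 2 ≤ Real.log x := Real.log_le_log (by norm_num) hx2
    have hL : 0 < Real.log x := by linarith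
    have h1 : Real.log x ^ θ ≤ Real.log 2 ^ θ := Real.rpow_le_rpow_of_nonpos hl2 hl h
    have hLθ : 0 < Real.log x ^ θ := Real.rpow_pos_of_pos hL θ
    calc (((Icc 1 x).filter (fun m => HD (c * m ^ k))).card : ℝ) ≤ x := main_triv c k x
      _ = Real.log x ^ θ * (x / Real.log x ^ θ) := by field_simp
      _ ≤ Real.log 2 ^ θ * (x / Real.log x ^ θ) := mul_le_mul_of_nonneg_right h1 (by positivity)

end Pool.CHD
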