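import Pool.Agent.Lib.MP_f4ebb7_co.CHD.GoodG
import Pool.Agent.Lib.MP_f4ebb7_co.CHD.AsyG
import Pool.Agent.Lib.MP_f4ebb7_co.CHD.Gold
import Pool.Agent.Lib.MP_f4ebb7_co.CHD.PSum
import Pool.Agent.Lib.MP_f4ebb7_co.CHD.CB2
import Pool.Agent.Lib.MP_f4ebb7_co.CHD.CB13
import Pool.Agent.Lib.MP_f4ebb7_co.CHD.CB4
import Pool.Agent.Lib.MP_f4ebb7_co.CHD.CB5
import Pool.Agent.Lib.MP_f4ebb7_co.HTB

/-! CHD-MainG: perfect binary arrays, the count.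

PROOF. `gold κ`: `η, X0`; `C0` from `hall_tenenbaum`. `C = 32^κ (C0 exp(6 + κ) + 1) + 32`. Let `0 < δ ≤ 1`. If `32 δ > 1`: `C δ^κ ≥ 32^κ δ^κ ≥ 1` and the count is `≤ x`. Otherwise
`δ1 = 32 δ ≤ 1`. `x0` from `asyg_a δ1 (max X0 3)`, `asyg_b δ1 η`. For `x ≥ x0` put
`y = yg δ1 x`, `z = zz x`, `D = Nat.sqrt y`, `K = kk (1/2) x`, `T = z^K`, `G0 = yg (δ1/2) x`. If `m ≤ x` is in the set: `c = 2^a 3^b ≤ m^δ ≤ x^(δ1/16)`, `s t = 4 (c m²)²`, `gcd s t ≤ m^δ ≤ x^(δ1/2)`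
so `gcd s t ≤ G0` (floor). The primes of `c` are `≤ 3 ≤ z`. So by `goodG` (`k = 2`) `m` is in `SQ (fun q => Pe η q ∧ y < q) x ∪ {B13 D} ∪ {B2 y z} ∪ {B4 η y z} ∪ {T < sm z m}`.
`#SQ ≤ C0 x exp(-(κ (loglog x - loglog (y+1)) - 6)) ≤ C0 x exp(6 + κ) δ1^κ` (`psum`, `asyg_b`: `exp(-κ (loglog x - log δ1 - loglog x - 1)) = exp(κ) δ1^κ`); the other four are `≤ C'' x/log x ≤ δ1^κ x` for
`x` large, depending on `δ1` (`cb13, cb2, cb4, cb5`, `asyg_b`). Total `≤ (C0 exp(6 + κ) + 1) δ1^κ x`.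
-/

set_option autoImplicit false

namespace Pool.CHD

open Finset

/-- the exceptional set, for fixed parameters -/
private theorem mg_subset (η : ℝ) (hη : 0 < η) (δ δ1 : ℝ) (hδ : 0 < δ) (hd : δ1 = 32 * δ)
    (x z D y K G0 : ℕ) (hx3 : 3 ≤ x) (hz3 : 3 ≤ z) (hzD : z ≤ D) (hDy : D ^ 2 ≤ y)
    (hG0 : ∀ g : ℕ, (g : ℝ) ≤ (x : ℝ) ^ (δ1 / 2) → g ≤ G0)
    (hc : ∀ c : ℕ, (c : ℝ) ≤ (x : ℝ) ^ (δ1 / 16) → (c * (z ^ K) ^ 2) ^ 4 ≤ D ∧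
      4 * (Nat.log 2 (4 * (c * x ^ 2) ^ 2) + 1) * G0 ≤ y)
    (m : ℕ) (hm1 : 1 ≤ m) (hmx : m ≤ x)
    (h : ∃ a b s t : ℕ, ((2 ^ a * 3 ^ b : ℕ) : ℝ) ≤ (m : ℝ) ^ δ ∧
      s * t = 4 * 2 ^ (2 * a) * 3 ^ (2 * b) * m ^ 4 ∧ ((Nat.gcd s t : ℕ) : ℝ) ≤ (m : ℝ) ^ δ ∧
        HasPBA s t) :
    Pool.Agent.Lib.MP_f4ebb7_co.NoExact (fun q => Pe η q ∧ y < q) m ∨ B13 D m ∨ B2 y z m ∨
      B4 η y z m ∨ z ^ K < sm z m := by
  obtain ⟨a, b, s, t, hab, hst, hg, hP⟩ := h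
  by_contra hcon
  simp only [not_or, not_lt] at hcon
  obtain ⟨h1, h2, h3, h4, h5⟩ := hcon
  have hx1 : (1 : ℝ) ≤ x := by exact_mod_cast (by omega : 1 ≤ x)
  have hmx' : (m : ℝ) ≤ x := by exact_mod_cast hmx
  have hm0 : (0 : ℝ) ≤ m := Nat.cast_nonneg m
  have e1 : (m : ℝ) ^ δ ≤ (x : ℝ) ^ (δ1 / 16) :=
    (Real.rpow_le_rpow hm0 hmx' hδ.le).trans
      (Real.rpow_le_rpow_of_exponent_le hx1 (by rw [hd]; linarith))
  have e2 : (m : ℝ) ^ δ ≤ (x : ℝ) ^ (δ1 / 2) :=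
    (Real.rpow_le_rpow hm0 hmx' hδ.le).trans
      (Real.rpow_le_rpow_of_exponent_le hx1 (by rw [hd]; linarith))
  obtain ⟨h6, h7⟩ := hc (2 ^ a * 3 ^ b) (hab.trans e1)
  refine goodG (2 ^ a * 3 ^ b) 2 x y z D (z ^ K) m G0 s t η hη ?_ (by norm_num) hm1 hmx ?_
    (by omega) hzD hDy h6 ?_ (hG0 _ (hg.trans e2)) h7 h1 h2 h3 h4 h5 hP
  · exact Nat.mul_pos (pow_pos (by norm_num) a) (pow_pos (by norm_num) b)
  · intro q hq hqc
    rcases (Nat.Prime.dvd_mul hq).1 hqc with h8 | h8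
    · have := (Nat.prime_dvd_prime_iff_eq hq Nat.prime_two).1 (hq.dvd_of_dvd_pow h8)
      omega
    · have := (Nat.prime_dvd_prime_iff_eq hq Nat.prime_three).1 (hq.dvd_of_dvd_pow h8)
      omega
  · rw [hst]
    ring

open Classical in
/-- the count of the exceptional set, for fixed parameters -/
private theorem mg_count (η : ℝ) (x z D y K : ℕ) :
    (({m : ℕ | 1 ≤ m ∧ m ≤ x ∧
        (Pool.Agent.Lib.MP_f4ebb7_co.NoExact (fun q => Pe η q ∧ y < q) m ∨ B13 D m ∨ B2 y z m ∨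
          B4 η y z m ∨ z ^ K < sm z m)}.ncard : ℕ) : ℝ) ≤
      ((Pool.Agent.Lib.MP_f4ebb7_co.SQ (fun q => Pe η q ∧ y < q) x).card : ℝ) +
        ((Icc 1 x).filter (fun m => B13 D m)).card + ((Icc 1 x).filter (fun m => B2 y z m)).card +
        ((Icc 1 x).filter (fun m => B4 η y z m)).card +
        ((Icc 1 x).filter (fun m => z ^ K < sm z m)).card := by
  set A0 := Pool.Agent.Lib.MP_f4ebb7_co.SQ (fun q => Pe η q ∧ y < q) x with hA0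
  set A1 := (Icc 1 x).filter (fun m => B13 D m) with hA1
  set A2 := (Icc 1 x).filter (fun m => B2 y z m) with hA2
  set A3 := (Icc 1 x).filter (fun m => B4 η y z m) with hA3
  set A4 := (Icc 1 x).filter (fun m => z ^ K < sm z m) with hA4
  have h1 : {m : ℕ | 1 ≤ m ∧ m ≤ x ∧
        (Pool.Agent.Lib.MP_f4ebb7_co.NoExact (fun q => Pe η q ∧ y < q) m ∨ B13 D m ∨ B2 y z m ∨
          B4 η y z m ∨ z ^ K < sm z m)} ⊆ ((A0 ∪ A1 ∪ A2 ∪ A3 ∪ A4 : Finset ℕ) : Set ℕ) := by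
    rintro m ⟨hm1, hmx, hm⟩
    have hI : m ∈ Icc 1 x := mem_Icc.2 ⟨hm1, hmx⟩
    rw [Finset.mem_coe]
    simp only [mem_union]
    rcases hm with h | h | h | h | h
    · exact Or.inl (Or.inl (Or.inl (Or.inl
        ((Pool.Agent.Lib.MP_f4ebb7_co.mem_SQ _ _ _).2 ⟨hm1, hmx, h⟩))))
    · exact Or.inl (Or.inl (Or.inl (Or.inr (mem_filter.2 ⟨hI, h⟩))))
    · exact Or.inl (Or.inl (Or.inr (mem_filter.2 ⟨hI, h⟩)))
    · exact Or.inl (Or.inr (mem_filter.2 ⟨hI, h⟩))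
    · exact Or.inr (mem_filter.2 ⟨hI, h⟩)
  have h2 := Set.ncard_le_ncard h1 (Finset.finite_toSet _)
  rw [Set.ncard_coe_finset] at h2
  have h3 : (A0 ∪ A1 ∪ A2 ∪ A3 ∪ A4).card ≤ A0.card + A1.card + A2.card + A3.card + A4.card := by
    have e1 := card_union_le (A0 ∪ A1 ∪ A2 ∪ A3) A4
    have e2 := card_union_le (A0 ∪ A1 ∪ A2) A3
    have e3 := card_union_le (A0 ∪ A1) A2
    have e4 := card_union_le A0 A1
    omega
  exact_mod_cast h2.trans h3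

private theorem mg_trivial (S : Set ℕ) (x : ℕ) (hS : ∀ m ∈ S, 1 ≤ m ∧ m ≤ x) :
    ((S.ncard : ℕ) : ℝ) ≤ x := by
  have h1 : S ⊆ ((Icc 1 x : Finset ℕ) : Set ℕ) := by
    intro m hm
    rw [Finset.mem_coe, mem_Icc]
    exact hS m hm
  have h2 := Set.ncard_le_ncard h1 (Finset.finite_toSet _)
  rw [Set.ncard_coe_finset, Nat.card_Icc] at h2
  have h3 : S.ncard ≤ x := by omega
  exact_mod_cast h3

theorem mainG (κ : ℝ) (hκ0 : 0 < κ) (hκ : κ < 1 / 2) : ∃ C : ℝ, ∀ δ : ℝ, 0 < δ → δ ≤ 1 → ∃ x0 : ℕ, ∀ x : ℕ, x0 ≤ x →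
    (({m : ℕ | 1 ≤ m ∧ m ≤ x ∧ ∃ a b s t : ℕ, ((2 ^ a * 3 ^ b : ℕ) : ℝ) ≤ (m : ℝ) ^ δ ∧
      s * t = 4 * 2 ^ (2 * a) * 3 ^ (2 * b) * m ^ 4 ∧ ((Nat.gcd s t : ℕ) : ℝ) ≤ (m : ℝ) ^ δ ∧ HasPBA s t}.ncard : ℕ) : ℝ)
      ≤ C * δ ^ κ * x := by
  classical
  obtain ⟨η, hη0, hη4, X0, hgold⟩ := gold κ hκ
  obtain ⟨C0, hC0, hHT⟩ := Pool.Agent.Lib.MP_f4ebb7_co.hall_tenenbaum
  obtain ⟨C2, hC2, hcb2⟩ := cb2
  obtain ⟨C4, hC4, hcb4⟩ := cb4 η hη0 hη4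
  refine ⟨(32 : ℝ) ^ κ * (C0 * Real.exp (6 + κ) + 1), ?_⟩
  intro δ hδ hδ1
  have h32 : (0 : ℝ) < (32 : ℝ) ^ κ := Real.rpow_pos_of_pos (by norm_num) _
  have hE : 0 < C0 * Real.exp (6 + κ) := mul_pos hC0 (Real.exp_pos _)
  by_cases hbig : 1 < 32 * δ
  · refine ⟨0, fun x _ => ?_⟩
    have h1 : (1 : ℝ) ≤ (32 : ℝ) ^ κ * (C0 * Real.exp (6 + κ) + 1) * δ ^ κ := by
      have h2 : (1 : ℝ) ≤ (32 : ℝ) ^ κ * δ ^ κ := by
        rw [← Real.mul_rpow (by norm_num) hδ.le]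
        exact Real.one_le_rpow hbig.le hκ0.le
      have h3 : (0 : ℝ) ≤ δ ^ κ := Real.rpow_nonneg hδ.le _
      nlinarith [mul_nonneg h32.le h3, mul_nonneg (mul_nonneg h32.le h3) hE.le]
    have h4 := mg_trivial {m : ℕ | 1 ≤ m ∧ m ≤ x ∧ ∃ a b s t : ℕ,
      ((2 ^ a * 3 ^ b : ℕ) : ℝ) ≤ (m : ℝ) ^ δ ∧
      s * t = 4 * 2 ^ (2 * a) * 3 ^ (2 * b) * m ^ 4 ∧ ((Nat.gcd s t : ℕ) : ℝ) ≤ (m : ℝ) ^ δ ∧
      HasPBA s t} x (fun m hm => ⟨hm.1, hm.2.1⟩)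
    exact h4.trans (le_mul_of_one_le_left (Nat.cast_nonneg x) h1)
  · push Not at hbig
    set δ1 : ℝ := 32 * δ with hd
    have hδ10 : 0 < δ1 := by positivity
    obtain ⟨xa, hxa⟩ := asyg_a δ1 hδ10 hbig (max X0 3)
    obtain ⟨xb, hxb⟩ := asyg_b δ1 η hδ10 hbig hη0
    have hdk : 0 < δ1 ^ κ := Real.rpow_pos_of_pos hδ10 _
    -- the remaining terms
    set C5 : ℝ := 4 + 2 * C2 + C4 + 1 with hC5
    have hC50 : 0 < C5 := by positivity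
    obtain ⟨xc, hxc⟩ : ∃ xc : ℕ, ∀ x : ℕ, xc ≤ x → C5 / δ1 ^ κ ≤ Real.log x := by
      have h1 : Filter.Tendsto (fun x : ℕ => Real.log (x : ℝ)) Filter.atTop Filter.atTop :=
        Real.tendsto_log_atTop.comp tendsto_natCast_atTop_atTop
      exact Filter.eventually_atTop.1 (h1.eventually_ge_atTop _)
    refine ⟨max xa (max xb xc), fun x hx => ?_⟩
    have hx1 : xa ≤ x := (le_max_left _ _).trans hx
    have hx2 : xb ≤ x := ((le_max_left _ _).trans (le_max_right _ _)).trans hx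
    have hx3 : xc ≤ x := ((le_max_right _ _).trans (le_max_right _ _)).trans hx
    obtain ⟨g1, g2, g3, g4, g5, g6, g7⟩ := hxa x hx1
    obtain ⟨b1, b2, b3, b4, b5⟩ := hxb x hx2
    have hlogx := hxc x hx3
    have hxR : (0 : ℝ) < x := by exact_mod_cast (by omega : 0 < x)
    have hlog0 : 0 < Real.log x := lt_of_lt_of_le (by positivity) hlogx
    have hX0y : X0 ≤ yg δ1 x := (le_max_left _ _).trans g4
    have hD1 : 1 ≤ Nat.sqrt (yg δ1 x) := by omega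
    -- inclusion
    have hsub : {m : ℕ | 1 ≤ m ∧ m ≤ x ∧ ∃ a b s t : ℕ,
        ((2 ^ a * 3 ^ b : ℕ) : ℝ) ≤ (m : ℝ) ^ δ ∧
        s * t = 4 * 2 ^ (2 * a) * 3 ^ (2 * b) * m ^ 4 ∧ ((Nat.gcd s t : ℕ) : ℝ) ≤ (m : ℝ) ^ δ ∧
        HasPBA s t} ⊆ {m : ℕ | 1 ≤ m ∧ m ≤ x ∧
        (Pool.Agent.Lib.MP_f4ebb7_co.NoExact (fun q => Pe η q ∧ yg δ1 x < q) m ∨
          B13 (Nat.sqrt (yg δ1 x)) m ∨ B2 (yg δ1 x) (zz x) m ∨
          B4 η (yg δ1 x) (zz x) m ∨ zz x ^ kk (1 / 2) x < sm (zz x) m)} := by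
      rintro m ⟨hm1, hmx, hm⟩
      refine ⟨hm1, hmx, ?_⟩
      refine mg_subset η hη0 δ δ1 hδ hd x (zz x) (Nat.sqrt (yg δ1 x)) (yg δ1 x) (kk (1 / 2) x)
        (yg (δ1 / 2) x) g1 g2 g3 (Nat.sqrt_le' _) ?_ g7 m hm1 hmx hm
      intro g hg
      exact Nat.le_floor hg
    have hfin : {m : ℕ | 1 ≤ m ∧ m ≤ x ∧
        (Pool.Agent.Lib.MP_f4ebb7_co.NoExact (fun q => Pe η q ∧ yg δ1 x < q) m ∨
          B13 (Nat.sqrt (yg δ1 x)) m ∨ B2 (yg δ1 x) (zz x) m ∨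
          B4 η (yg δ1 x) (zz x) m ∨ zz x ^ kk (1 / 2) x < sm (zz x) m)}.Finite :=
      Set.Finite.subset (Set.finite_Icc 1 x) fun m hm => ⟨hm.1, hm.2.1⟩
    have hcard := Set.ncard_le_ncard hsub hfin
    have hcard' : (({m : ℕ | 1 ≤ m ∧ m ≤ x ∧ ∃ a b s t : ℕ,
        ((2 ^ a * 3 ^ b : ℕ) : ℝ) ≤ (m : ℝ) ^ δ ∧
        s * t = 4 * 2 ^ (2 * a) * 3 ^ (2 * b) * m ^ 4 ∧ ((Nat.gcd s t : ℕ) : ℝ) ≤ (m : ℝ) ^ δ ∧
        HasPBA s t}.ncard : ℕ) : ℝ) ≤ _ :=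
      (Nat.cast_le.2 hcard).trans
        (mg_count η x (zz x) (Nat.sqrt (yg δ1 x)) (yg δ1 x) (kk (1 / 2) x))
    refine hcard'.trans ?_
    -- the main term
    have hmain : ((Pool.Agent.Lib.MP_f4ebb7_co.SQ (fun q => Pe η q ∧ yg δ1 x < q) x).card : ℝ) ≤
        C0 * Real.exp (6 + κ) * δ1 ^ κ * x := by
      have h1 := hHT (fun q => Pe η q ∧ yg δ1 x < q) x (by omega)
      have h2 := psum (Pe η) κ hκ0.le (by linarith) (yg δ1 x) g5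
        (fun m hm => hgold m (hX0y.trans hm)) x g6
      unfold Pool.Agent.Lib.MP_f4ebb7_co.reP at h2
      have h6 : ∀ Sg N : ℝ, κ * (Real.log (Real.log x) -
          Real.log (Real.log ((yg δ1 x + 1 : ℕ) : ℝ))) - 6 ≤ Sg →
          N ≤ C0 * x * Real.exp (-Sg) → N ≤ C0 * Real.exp (6 + κ) * δ1 ^ κ * x := by
        intro Sg N hS hN
        have h3 : -Sg ≤ κ * Real.log δ1 + (6 + κ) := by
          have h7 := mul_le_mul_of_nonneg_left b5 hκ0.le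
          linarith
        have h4 : Real.exp (κ * Real.log δ1 + (6 + κ)) = Real.exp (6 + κ) * δ1 ^ κ := by
          rw [Real.exp_add, Real.rpow_def_of_pos hδ10, mul_comm κ]
          ring
        have h5 := Real.exp_le_exp.2 h3
        rw [h4] at h5
        calc N ≤ C0 * x * Real.exp (-Sg) := hN
          _ ≤ C0 * x * (Real.exp (6 + κ) * δ1 ^ κ) :=
              mul_le_mul_of_nonneg_left h5 (by positivity)
          _ = C0 * Real.exp (6 + κ) * δ1 ^ κ * x := by ring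
      exact h6 _ _ h2 h1
    have k13 := cb13 x (Nat.sqrt (yg δ1 x)) (by omega) hD1
    have k2 := hcb2 x (yg δ1 x) (zz x) g1 (by omega) (by omega)
    have k4 := hcb4 x (yg δ1 x) (zz x) (by omega) g5 (by omega)
    have k5 := cb5 x (zz x) (zz x ^ kk (1 / 2) x) (kk (1 / 2) x) (by omega) le_rfl
    have l13 : 4 * x * (1 + Real.log x) ^ 2 / (Nat.sqrt (yg δ1 x) : ℝ) ≤ 4 * x / Real.log x := by
      calc 4 * x * (1 + Real.log x) ^ 2 / (Nat.sqrt (yg δ1 x) : ℝ)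
          = 4 * x * ((1 + Real.log x) ^ 2 / (Nat.sqrt (yg δ1 x) : ℝ)) := by ring
        _ ≤ 4 * x * (1 / Real.log x) := mul_le_mul_of_nonneg_left b1 (by positivity)
        _ = 4 * x / Real.log x := by ring
    have l2 : C2 * x * Real.log x ^ 2 * ((zz x : ℝ) ^ (-(1 / 4) : ℝ) +
        (yg δ1 x : ℝ) ^ (-(1 / 2) : ℝ)) ≤ 2 * C2 * x / Real.log x := by
      calc C2 * x * Real.log x ^ 2 * ((zz x : ℝ) ^ (-(1 / 4) : ℝ) +
          (yg δ1 x : ℝ) ^ (-(1 / 2) : ℝ))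
          = C2 * x * (Real.log x ^ 2 * ((zz x : ℝ) ^ (-(1 / 4) : ℝ) +
            (yg δ1 x : ℝ) ^ (-(1 / 2) : ℝ))) := by ring
        _ ≤ C2 * x * (2 / Real.log x) := mul_le_mul_of_nonneg_left b2 (by positivity)
        _ = 2 * C2 * x / Real.log x := by ring
    have l4 : C4 * x * (zz x : ℝ) ^ 2 * (yg δ1 x : ℝ) ^ (-(2 * η)) ≤ C4 * x / Real.log x := by
      calc C4 * x * (zz x : ℝ) ^ 2 * (yg δ1 x : ℝ) ^ (-(2 * η))
          = C4 * x * ((zz x : ℝ) ^ 2 * (yg δ1 x : ℝ) ^ (-(2 * η))) := by ring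
        _ ≤ C4 * x * (1 / Real.log x) := mul_le_mul_of_nonneg_left b3 (by positivity)
        _ = C4 * x / Real.log x := by ring
    have l5 : (x : ℝ) * zz x * (2 / 3 : ℝ) ^ kk (1 / 2) x ≤ x / Real.log x := by
      calc (x : ℝ) * zz x * (2 / 3 : ℝ) ^ kk (1 / 2) x
          = x * ((zz x : ℝ) * (2 / 3 : ℝ) ^ kk (1 / 2) x) := by ring
        _ ≤ x * (1 / Real.log x) := mul_le_mul_of_nonneg_left b4 hxR.le
        _ = x / Real.log x := by ring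
    have hrest : 4 * x / Real.log x + 2 * C2 * x / Real.log x + C4 * x / Real.log x +
        x / Real.log x ≤ δ1 ^ κ * x := by
      have e1 : 4 * x / Real.log x + 2 * C2 * x / Real.log x + C4 * x / Real.log x +
        x / Real.log x = C5 / Real.log x * x := by
        rw [hC5]; ring
      rw [e1]
      refine mul_le_mul_of_nonneg_right ?_ hxR.le
      rw [div_le_iff₀ hlog0]
      rw [div_le_iff₀ hdk] at hlogx
      linarith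
    have hfinal : (32 : ℝ) ^ κ * (C0 * Real.exp (6 + κ) + 1) * δ ^ κ * x =
        C0 * Real.exp (6 + κ) * δ1 ^ κ * x + δ1 ^ κ * x := by
      rw [hd, Real.mul_rpow (by norm_num) hδ.le]
      ring
    rw [hfinal]
    linarith [hmain, k13, k2, k4, k5, l13, l2, l4, l5, hrest]

end Pool.CHD
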