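import Pool.Agent.Lib.MP_f4ebb7_co.CHD.Defs

/-! CHD-PDefs (perfect binary arrays, MP_82ec8b_co): definitions. Do not change. -/

set_option autoImplicit false

namespace Pool.CHD

open Finset

/-- a perfect binary array -/
def IsPBA (s t : ℕ) [NeZero s] [NeZero t] (a : ZMod s → ZMod t → ℤ) : Prop :=
  (∀ i j, a i j = 1 ∨ a i j = -1) ∧
  ∀ u v, (u ≠ 0 ∨ v ≠ 0) → ∑ i, ∑ j, a i j * a (i + u) (j + v) = 0

/-- a perfect binary array of size `s × t` exists -/
def HasPBA (s t : ℕ) : Prop := ∃ (_ : NeZero s) (_ : NeZero t) (a : ZMod s → ZMod t → ℤ), IsPBA s t a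

end Pool.CHD
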