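import Pool.Agent.Lib.MP_f4ebb7_co.CHD.Defs

/-! CHD-WfC: the number of primes `r ≤ N` with `r^(p-1) ≡ 1 mod p²`.

PROOF. `wf_choose`: map a `t`-subset `S` of `Wf p N` to `∏_{r ∈ S} r`. Injective (unique factorization: `S` = primeFactors of the product,
`Nat.primeFactors_prod`), the product is in `[1, N^t]` and satisfies `m^(p-1) ≡ 1 mod p²`. The number of `m ∈ Icc 1 (N^t)` with `m^(p-1) ≡ 1 mod p²` is at most
`(p-1) (N^t/p² + 1)`: in each block of `p²` consecutive integers there are at most `p - 1` such `m`: they are units mod `p²` and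
`(ZMod (p^2))ˣ` is cyclic (`ZMod.isCyclic_units_of_prime_pow` for odd `p`; for `p = 2` `ZMod.isCyclic_units_four`), `IsCyclic.card_pow_eq_one_le`. (Count `m` through the pair
`(m / p², m mod p²)` with `m / p² ≤ N^t / p²`.)
`wf_two` (`p ≤ N`): `t = 2`: `W (W-1)/2 ≤ (p-1)(N²/p² + 1) ≤ 2 N²/p` (`(p-1)/p² ≤ 1/p`, `p - 1 ≤ N²/p`), `(W-1)² ≤ 4N²/p`.
`wf_small` (`N < p`, `2 ≤ N`): let `t` be maximal with `N^t < p²` (`Nat.findGreatest`), `t ≥ 2` as `N² < p²`, `p² ≤ N^(t+1)`; `t log 2 ≤ 2 log p` so `t ≤ 3 log p`. `wf_choose`: `choose W t ≤ p - 1`. `Nat.pow_sub_le_descFactorial`/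
`Nat.descFactorial_eq_factorial_mul_choose`: `(W + 1 - t)^t ≤ t! choose W t ≤ t^t p` (if `W ≥ t`), so `W + 1 - t ≤ t p^(1/t)`, `W ≤ 2 t p^(1/t)` (also for `W < t`), and
`p^(1/t) ≤ N^((t+1)/(2t)) ≤ N^(3/4)`. So `W ≤ 2 t N^(3/4) ≤ 6 log p N^(3/4)`.
-/

set_option autoImplicit false

namespace Pool.CHD

open Finset

private theorem wfc_cyclic (p : ℕ) (hp : p.Prime) : IsCyclic (ZMod (p ^ 2))ˣ := by
  rcases eq_or_ne p 2 with h | h
  · subst h
    exact ZMod.isCyclic_units_four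
  · exact ZMod.isCyclic_units_of_prime_pow p hp h 2

private theorem wfc_res (p : ℕ) (hp : p.Prime) :
    ((range (p ^ 2)).filter (fun a => a ^ (p - 1) ≡ 1 [MOD p ^ 2])).card ≤ p - 1 := by
  classical
  have hc := wfc_cyclic p hp
  have hp1 : 0 < p - 1 := Nat.sub_pos_of_lt hp.one_lt
  have hne : NeZero (p ^ 2) := ⟨pow_ne_zero 2 hp.ne_zero⟩
  have h1 : (Finset.univ.filter (fun a : (ZMod (p ^ 2))ˣ => a ^ (p - 1) = 1)).card ≤ p - 1 :=
    IsCyclic.card_pow_eq_one_le hp1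
  refine le_trans ?_ h1
  have hun : ∀ a : ℕ, a ^ (p - 1) ≡ 1 [MOD p ^ 2] → IsUnit ((a : ℕ) : ZMod (p ^ 2)) := by
    intro a ha
    have h2 : ((a : ZMod (p ^ 2))) ^ (p - 1) = 1 := by
      have h3 := (ZMod.natCast_eq_natCast_iff _ _ _).2 ha
      push_cast at h3
      exact h3
    exact IsUnit.of_pow_eq_one h2 hp1.ne'
  refine Finset.card_le_card_of_injOn
    (fun a => if h : IsUnit ((a : ℕ) : ZMod (p ^ 2)) then h.unit else 1) ?_ ?_
  · intro a ha
    have ha' := (Finset.mem_filter.1 (Finset.mem_coe.1 ha)).2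
    have hu := hun a ha'
    refine Finset.mem_coe.2 (Finset.mem_filter.2 ⟨Finset.mem_univ _, ?_⟩)
    simp only [dif_pos hu]
    refine Units.ext ?_
    rw [Units.val_pow_eq_pow_val, IsUnit.unit_spec, Units.val_one]
    have h3 := (ZMod.natCast_eq_natCast_iff _ _ _).2 ha'
    push_cast at h3
    exact h3
  · intro a ha b hb hab
    have ha' := Finset.mem_filter.1 (Finset.mem_coe.1 ha)
    have hb' := Finset.mem_filter.1 (Finset.mem_coe.1 hb)
    have hua := hun a ha'.2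
    have hub := hun b hb'.2
    simp only [dif_pos hua, dif_pos hub] at hab
    have h3 := congrArg Units.val hab
    rw [IsUnit.unit_spec, IsUnit.unit_spec] at h3
    have h4 := (ZMod.natCast_eq_natCast_iff _ _ _).1 h3
    exact Nat.ModEq.eq_of_lt_of_lt h4 (Finset.mem_range.1 ha'.1) (Finset.mem_range.1 hb'.1)

private theorem wfc_count (p : ℕ) (hp : p.Prime) (M : ℕ) :
    ((Icc 1 M).filter (fun m => m ^ (p - 1) ≡ 1 [MOD p ^ 2])).card ≤
      (p - 1) * (M / p ^ 2 + 1) := by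
  have hpp : 0 < p ^ 2 := pow_pos hp.pos 2
  calc ((Icc 1 M).filter (fun m => m ^ (p - 1) ≡ 1 [MOD p ^ 2])).card
      ≤ (((range (p ^ 2)).filter (fun a => a ^ (p - 1) ≡ 1 [MOD p ^ 2])) ×ˢ
          range (M / p ^ 2 + 1)).card := by
        refine Finset.card_le_card_of_injOn (fun m => (m % p ^ 2, m / p ^ 2)) ?_ ?_
        · intro m hm
          have hm' := Finset.mem_filter.1 (Finset.mem_coe.1 hm)
          refine Finset.mem_coe.2 (Finset.mem_product.2 ⟨Finset.mem_filter.2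
            ⟨Finset.mem_range.2 (Nat.mod_lt _ hpp), ?_⟩, Finset.mem_range.2 ?_⟩)
          · exact ((Nat.mod_modEq m (p ^ 2)).pow (p - 1)).trans hm'.2
          · exact Nat.lt_succ_of_le (Nat.div_le_div_right (Finset.mem_Icc.1 hm'.1).2)
        · intro m _ m' _ h
          have h1 := (Prod.mk.inj h).1
          have h2 := (Prod.mk.inj h).2
          rw [← Nat.div_add_mod m (p ^ 2), ← Nat.div_add_mod m' (p ^ 2), h1, h2]
    _ = ((range (p ^ 2)).filter (fun a => a ^ (p - 1) ≡ 1 [MOD p ^ 2])).card *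
          (M / p ^ 2 + 1) := by
        rw [Finset.card_product, Finset.card_range]
    _ ≤ _ := Nat.mul_le_mul_right _ (wfc_res p hp)

theorem wf_choose (p : ℕ) (hp : p.Prime) (N t : ℕ) : (Wf p N).card.choose t ≤ (p - 1) * (N ^ t / p ^ 2 + 1) := by
  refine le_trans ?_ (wfc_count p hp (N ^ t))
  rw [← Finset.card_powersetCard]
  refine Finset.card_le_card_of_injOn (fun S => ∏ r ∈ S, r) ?_ ?_
  · intro S hS
    have hS' := Finset.mem_powersetCard.1 (Finset.mem_coe.1 hS)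
    have hr : ∀ r ∈ S, r ∈ Icc 1 N ∧ r.Prime ∧ r ^ (p - 1) ≡ 1 [MOD p ^ 2] := fun r hr =>
      Finset.mem_filter.1 (hS'.1 hr)
    refine Finset.mem_coe.2 (Finset.mem_filter.2 ⟨Finset.mem_Icc.2 ⟨?_, ?_⟩, ?_⟩)
    · exact Finset.prod_pos fun r h => (hr r h).2.1.pos
    · rw [← hS'.2]
      exact Finset.prod_le_pow_card _ _ _ fun r h => (Finset.mem_Icc.1 (hr r h).1).2
    · show (∏ r ∈ S, r) ^ (p - 1) ≡ 1 [MOD p ^ 2]
      rw [← Finset.prod_pow]
      have h1 : ∀ T : Finset ℕ, (∀ r ∈ T, r ^ (p - 1) ≡ 1 [MOD p ^ 2]) →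
          ∏ r ∈ T, r ^ (p - 1) ≡ 1 [MOD p ^ 2] := by
        intro T
        induction T using Finset.induction_on with
        | empty => intro _; simp [Nat.ModEq.refl]
        | insert a T ha ih =>
          intro h
          rw [Finset.prod_insert ha]
          have h2 := (h a (Finset.mem_insert_self _ _)).mul
            (ih fun r hr => h r (Finset.mem_insert_of_mem hr))
          simpa using h2
      exact h1 S fun r h => (hr r h).2.2
  · intro S hS T hT h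
    have hS' := Finset.mem_powersetCard.1 (Finset.mem_coe.1 hS)
    have hT' := Finset.mem_powersetCard.1 (Finset.mem_coe.1 hT)
    have h1 := Nat.primeFactors_prod (s := S) fun r hr => (Finset.mem_filter.1 (hS'.1 hr)).2.1
    have h2 := Nat.primeFactors_prod (s := T) fun r hr => (Finset.mem_filter.1 (hT'.1 hr)).2.1
    have h3 : (∏ r ∈ S, r) = ∏ r ∈ T, r := h
    rw [← h1, ← h2, h3]

theorem wf_two (p : ℕ) (hp : p.Prime) (N : ℕ) (hN : p ≤ N) : ((Wf p N).card : ℝ) ≤ 1 + 2 * N / Real.sqrt p := by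
  obtain ⟨W, hW⟩ : ∃ W, W = (Wf p N).card := ⟨_, rfl⟩
  rw [← hW]
  have h1 := wf_choose p hp N 2
  rw [← hW] at h1
  have hp0 : (0 : ℝ) < p := by exact_mod_cast hp.pos
  have hp1 : (1 : ℝ) ≤ p := by exact_mod_cast hp.one_lt.le
  have hNp : (p : ℝ) ≤ N := by exact_mod_cast hN
  have h2 : (((p - 1 : ℕ)) : ℝ) = (p : ℝ) - 1 := by
    rw [Nat.cast_sub hp.one_lt.le, Nat.cast_one]
  have h3 : ((N ^ 2 / p ^ 2 : ℕ) : ℝ) ≤ (N : ℝ) ^ 2 / (p : ℝ) ^ 2 := by
    refine Nat.cast_div_le.trans ?_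
    push_cast
    exact le_rfl
  have h4 : (W : ℝ) * ((W : ℝ) - 1) / 2 ≤ ((p : ℝ) - 1) * ((N : ℝ) ^ 2 / (p : ℝ) ^ 2 + 1) := by
    rw [← Nat.cast_choose_two]
    calc ((W.choose 2 : ℕ) : ℝ) ≤ (((p - 1) * (N ^ 2 / p ^ 2 + 1) : ℕ) : ℝ) := by exact_mod_cast h1
      _ = ((p : ℝ) - 1) * (((N ^ 2 / p ^ 2 : ℕ) : ℝ) + 1) := by
          rw [Nat.cast_mul, h2, Nat.cast_add, Nat.cast_one]
      _ ≤ _ := by
          refine mul_le_mul_of_nonneg_left ?_ (by linarith)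
          linarith
  have h5 : ((p : ℝ) - 1) * ((N : ℝ) ^ 2 / (p : ℝ) ^ 2 + 1) ≤ 2 * ((N : ℝ) ^ 2 / p) := by
    have h6 : ((N : ℝ) ^ 2 / (p : ℝ) ^ 2) * p = (N : ℝ) ^ 2 / p := by
      field_simp
    have h7 : (0 : ℝ) ≤ (N : ℝ) ^ 2 / (p : ℝ) ^ 2 := by positivity
    have h8 : (p : ℝ) ≤ (N : ℝ) ^ 2 / p := by
      rw [le_div_iff₀ hp0]
      nlinarith
    nlinarith
  have h6 : ((W : ℝ) - 1) ≤ 2 * N / Real.sqrt p := by
    rcases Nat.eq_zero_or_pos W with h0 | h0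
    · rw [h0]
      have : (0 : ℝ) ≤ 2 * N / Real.sqrt p := by positivity
      push_cast
      linarith
    · have hW1 : (1 : ℝ) ≤ W := by exact_mod_cast h0
      refine abs_le_of_sq_le_sq' ?_ (by positivity) |>.2
      rw [div_pow, mul_pow, Real.sq_sqrt hp0.le]
      calc ((W : ℝ) - 1) ^ 2 ≤ 2 * ((W : ℝ) * ((W : ℝ) - 1) / 2) := by nlinarith
        _ ≤ 2 * (2 * ((N : ℝ) ^ 2 / p)) := by linarith
        _ = 2 ^ 2 * (N : ℝ) ^ 2 / p := by ring
  linarith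

theorem wf_small (p : ℕ) (hp : p.Prime) (N : ℕ) (hN2 : 2 ≤ N) (hN : N < p) :
    ((Wf p N).card : ℝ) ≤ 6 * Real.log p * (N : ℝ) ^ (3 / 4 : ℝ) := by
  obtain ⟨W, hW⟩ : ∃ W, W = (Wf p N).card := ⟨_, rfl⟩
  rw [← hW]
  have hp0 : (0 : ℝ) < p := by exact_mod_cast hp.pos
  have hp1 : (1 : ℝ) < p := by exact_mod_cast hp.one_lt
  have hN0 : (0 : ℝ) < N := by
    have : (2 : ℝ) ≤ N := by exact_mod_cast hN2
    linarith
  have hN1 : (1 : ℝ) ≤ N := by
    have : (2 : ℝ) ≤ N := by exact_mod_cast hN2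
    linarith
  -- the maximal t
  obtain ⟨t, ht2, htlt, htge⟩ : ∃ t : ℕ, 2 ≤ t ∧ N ^ t < p ^ 2 ∧ p ^ 2 ≤ N ^ (t + 1) := by
    have hbd : ∃ n, p ^ 2 ≤ N ^ n := by
      refine ⟨p ^ 2, ?_⟩
      exact (Nat.lt_pow_self (by omega)).le
    have hspec := Nat.find_spec hbd
    have hmin := fun m => Nat.find_min hbd (m := m)
    set n := Nat.find hbd with hn
    have h2 : N ^ 2 < p ^ 2 := Nat.pow_lt_pow_left hN two_ne_zero
    have hn3 : 3 ≤ n := by
      by_contra hcon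
      have hle : n ≤ 2 := by omega
      have : N ^ n ≤ N ^ 2 := Nat.pow_le_pow_right (by omega) hle
      omega
    refine ⟨n - 1, by omega, ?_, ?_⟩
    · exact not_le.1 (hmin (n - 1) (by omega))
    · have h3 : n - 1 + 1 = n := by omega
      rw [h3]
      exact hspec
  have ht0 : (0 : ℝ) < t := by
    have : 0 < t := by omega
    exact_mod_cast this
  have hlog2 : (0.69 : ℝ) ≤ Real.log 2 := by
    have := Real.log_two_gt_d9
    linarith
  have hlogp : 0 < Real.log p := Real.log_pos hp1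
  have ht3 : (t : ℝ) ≤ 3 * Real.log p := by
    have h1 : (2 : ℝ) ^ t ≤ (p : ℝ) ^ 2 := by
      calc (2 : ℝ) ^ t ≤ (N : ℝ) ^ t := pow_le_pow_left₀ (by norm_num) (by exact_mod_cast hN2) _
        _ ≤ (p : ℝ) ^ 2 := by exact_mod_cast htlt.le
    have h2 := Real.log_le_log (by positivity) h1
    rw [Real.log_pow, Real.log_pow] at h2
    push_cast at h2
    nlinarith
  have hch : W.choose t ≤ p := by
    have h1 := wf_choose p hp N t
    rw [← hW, Nat.div_eq_of_lt htlt, zero_add, mul_one] at h1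
    omega
  have hpow : ((W + 1 - t : ℕ) : ℝ) ^ t ≤ (t : ℝ) ^ t * p := by
    have h1 := Nat.pow_sub_le_descFactorial W t
    rw [Nat.descFactorial_eq_factorial_mul_choose] at h1
    have h2 : (W + 1 - t) ^ t ≤ t ^ t * p :=
      h1.trans (Nat.mul_le_mul (Nat.factorial_le_pow t) hch)
    exact_mod_cast h2
  have hrt : (p : ℝ) ^ ((1 : ℝ) / t) ≤ (N : ℝ) ^ (3 / 4 : ℝ) := by
    have h1 : (p : ℝ) ^ 2 ≤ (N : ℝ) ^ (t + 1) := by exact_mod_cast htge
    have h2 : (p : ℝ) ≤ (N : ℝ) ^ (((t : ℝ) + 1) / 2) := by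
      refine abs_le_of_sq_le_sq' ?_ (by positivity) |>.2
      refine h1.trans (le_of_eq ?_)
      rw [← Real.rpow_natCast ((N : ℝ) ^ (((t : ℝ) + 1) / 2)) 2, ← Real.rpow_mul hN0.le,
        ← Real.rpow_natCast]
      congr 1
      push_cast
      ring
    calc (p : ℝ) ^ ((1 : ℝ) / t) ≤ ((N : ℝ) ^ (((t : ℝ) + 1) / 2)) ^ ((1 : ℝ) / t) :=
          Real.rpow_le_rpow hp0.le h2 (by positivity)
      _ = (N : ℝ) ^ ((((t : ℝ) + 1) / 2) * (1 / t)) := (Real.rpow_mul hN0.le _ _).symm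
      _ ≤ (N : ℝ) ^ (3 / 4 : ℝ) := by
          refine Real.rpow_le_rpow_of_exponent_le hN1 ?_
          have h3 : (2 : ℝ) ≤ t := by exact_mod_cast ht2
          rw [div_mul_div_comm, mul_one, div_le_div_iff₀ (by positivity) (by norm_num)]
          nlinarith
  have hroot : ((W + 1 - t : ℕ) : ℝ) ≤ t * (p : ℝ) ^ ((1 : ℝ) / t) := by
    have h1 : (t * (p : ℝ) ^ ((1 : ℝ) / t)) ^ t = (t : ℝ) ^ t * p := by
      rw [mul_pow, ← Real.rpow_natCast ((p : ℝ) ^ ((1 : ℝ) / t)) t, ← Real.rpow_mul hp0.le,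
        one_div_mul_cancel ht0.ne', Real.rpow_one]
    refine le_of_pow_le_pow_left₀ (n := t) (by omega) (by positivity) ?_
    rw [h1]
    exact hpow
  have hone : (1 : ℝ) ≤ (N : ℝ) ^ (3 / 4 : ℝ) := Real.one_le_rpow hN1 (by norm_num)
  have hWt : (W : ℝ) ≤ ((W + 1 - t : ℕ) : ℝ) + t := by
    have : W ≤ (W + 1 - t) + t := by omega
    exact_mod_cast this
  have h1 : t * (p : ℝ) ^ ((1 : ℝ) / t) ≤ t * (N : ℝ) ^ (3 / 4 : ℝ) :=
    mul_le_mul_of_nonneg_left hrt ht0.le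
  have h2 : (t : ℝ) ≤ t * (N : ℝ) ^ (3 / 4 : ℝ) := by nlinarith
  calc (W : ℝ) ≤ 2 * (t * (N : ℝ) ^ (3 / 4 : ℝ)) := by linarith
    _ ≤ 2 * ((3 * Real.log p) * (N : ℝ) ^ (3 / 4 : ℝ)) := by
        refine mul_le_mul_of_nonneg_left ?_ (by norm_num)
        exact mul_le_mul_of_nonneg_right ht3 (by linarith)
    _ = _ := by ring

end Pool.CHD
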