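import Pool.Agent.Lib.MP_f4ebb7_co.CHD.WfC

/-! CHD-WfS: the sum of `1/r` over these primes.

PROOF. Blocks `(2^i, 2^(i+1)]`, `i ≤ log_2 x`: with `N = 2^(i+1)`, the terms of the block with `z < r` sum to at most `#Wf p N / 2^i = 2 #Wf p N / N`, and the
block is empty unless `z < N`. `N < p`: `≤ 12 log p N^(-1/4)` (`wf_small`), and `∑_{N = 2^j > z} N^(-1/4) ≤ 7 z^(-1/4)` (geometric series,
`1/(1 - 2^(-1/4)) ≤ 7`). `N ≥ p`: `≤ 2/N + 4/√p ≤ 6/√p` (`wf_two`), at most `log_2 x + 2 ≤ 2 log x + 2` blocks. Total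
`≤ 84 log p z^(-1/4) + 6 (2 log x + 2)/√p`; `log p ≤ log x`, `log x ≥ 1`.
-/

set_option autoImplicit false

namespace Pool.CHD

open Finset

private theorem wfs_block (p : ℕ) (hp : p.Prime) (i : ℕ) :
    ((Wf p (2 ^ (i + 1))).card : ℝ) * (1 / 2 ^ i) ≤
      12 * Real.log p * ((2 : ℝ) ^ (-(1 / 4) : ℝ)) ^ (i + 1) + 6 * (p : ℝ) ^ (-(1 / 2) : ℝ) := by
  have hp0 : (0 : ℝ) < p := by exact_mod_cast hp.pos
  have hp1 : (1 : ℝ) < p := by exact_mod_cast hp.one_lt
  have hlog : 0 < Real.log p := Real.log_pos hp1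
  have hN0 : (0 : ℝ) < (2 : ℝ) ^ (i + 1) := by positivity
  have hcast : (((2 ^ (i + 1) : ℕ)) : ℝ) = (2 : ℝ) ^ (i + 1) := by push_cast; rfl
  have hhalf : (1 : ℝ) / 2 ^ i = 2 / (2 : ℝ) ^ (i + 1) := by
    rw [pow_succ]
    field_simp
  have hA : 0 ≤ 12 * Real.log p * ((2 : ℝ) ^ (-(1 / 4) : ℝ)) ^ (i + 1) := by positivity
  have hB : 0 ≤ 6 * (p : ℝ) ^ (-(1 / 2) : ℝ) := by positivity
  rcases Nat.lt_or_ge (2 ^ (i + 1)) p with h | h
  · have h2 : 2 ≤ 2 ^ (i + 1) := by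
      calc 2 = 2 ^ 1 := rfl
        _ ≤ 2 ^ (i + 1) := Nat.pow_le_pow_right (by norm_num) (by omega)
    have h1 := wf_small p hp (2 ^ (i + 1)) h2 h
    rw [hcast] at h1
    have h3 : ((2 : ℝ) ^ (-(1 / 4) : ℝ)) ^ (i + 1) = ((2 : ℝ) ^ (i + 1)) ^ (3 / 4 : ℝ) / (2 : ℝ) ^ (i + 1) := by
      rw [← Real.rpow_natCast ((2 : ℝ) ^ (-(1 / 4) : ℝ)) (i + 1), ← Real.rpow_mul (by norm_num),
        mul_comm, Real.rpow_mul (by norm_num), Real.rpow_natCast]
      rw [show (-(1 / 4) : ℝ) = 3 / 4 - 1 by norm_num, Real.rpow_sub hN0, Real.rpow_one]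
    have h4 : ((Wf p (2 ^ (i + 1))).card : ℝ) * (1 / 2 ^ i) ≤
        12 * Real.log p * ((2 : ℝ) ^ (-(1 / 4) : ℝ)) ^ (i + 1) := by
      rw [h3, hhalf]
      calc ((Wf p (2 ^ (i + 1))).card : ℝ) * (2 / (2 : ℝ) ^ (i + 1)) ≤
          (6 * Real.log p * ((2 : ℝ) ^ (i + 1)) ^ (3 / 4 : ℝ)) * (2 / (2 : ℝ) ^ (i + 1)) :=
            mul_le_mul_of_nonneg_right h1 (by positivity)
        _ = _ := by ring
    linarith
  · have h1 := wf_two p hp (2 ^ (i + 1)) h
    rw [hcast] at h1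
    have hpN : (p : ℝ) ≤ (2 : ℝ) ^ (i + 1) := by
      rw [← hcast]
      exact_mod_cast h
    have hs0 : 0 < Real.sqrt p := Real.sqrt_pos.2 hp0
    have hs1 : Real.sqrt p ≤ p := by
      rw [Real.sqrt_le_left (by linarith)]
      nlinarith
    have hr : (p : ℝ) ^ (-(1 / 2) : ℝ) = 1 / Real.sqrt p := by
      rw [Real.rpow_neg hp0.le, Real.sqrt_eq_rpow, one_div (((p : ℝ)) ^ _)]
    have h4 : ((Wf p (2 ^ (i + 1))).card : ℝ) * (1 / 2 ^ i) ≤ 6 * (p : ℝ) ^ (-(1 / 2) : ℝ) := by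
      rw [hr, hhalf]
      calc ((Wf p (2 ^ (i + 1))).card : ℝ) * (2 / (2 : ℝ) ^ (i + 1)) ≤
          (1 + 2 * (2 : ℝ) ^ (i + 1) / Real.sqrt p) * (2 / (2 : ℝ) ^ (i + 1)) :=
            mul_le_mul_of_nonneg_right h1 (by positivity)
        _ = 2 * (1 / (2 : ℝ) ^ (i + 1)) + 4 * (1 / Real.sqrt p) := by
            field_simp
            ring
        _ ≤ 2 * (1 / Real.sqrt p) + 4 * (1 / Real.sqrt p) := by
            have : 1 / (2 : ℝ) ^ (i + 1) ≤ 1 / Real.sqrt p :=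
              one_div_le_one_div_of_le hs0 (hs1.trans hpN)
            linarith
        _ = _ := by ring
    linarith

theorem wf_sum : ∃ C : ℝ, 0 < C ∧ ∀ p x z : ℕ, p.Prime → 3 ≤ x → p ≤ x → 2 ≤ z →
    ∑ r ∈ (Wf p x).filter (fun r => z < r), (1 : ℝ) / r ≤
      C * Real.log x * ((z : ℝ) ^ (-(1 / 4) : ℝ) + (p : ℝ) ^ (-(1 / 2) : ℝ)) := by
  refine ⟨84, by norm_num, ?_⟩
  intro p x z hp hx hpx hz
  have hp0 : (0 : ℝ) < p := by exact_mod_cast hp.pos
  have hp1 : (1 : ℝ) < p := by exact_mod_cast hp.one_lt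
  have hx0 : (0 : ℝ) < x := by
    have : 0 < x := by omega
    exact_mod_cast this
  have hx3 : (3 : ℝ) ≤ x := by exact_mod_cast hx
  have hz0 : (0 : ℝ) < z := by
    have : 0 < z := by omega
    exact_mod_cast this
  have hlogp : 0 < Real.log p := Real.log_pos hp1
  have hlogpx : Real.log p ≤ Real.log x := Real.log_le_log hp0 (by exact_mod_cast hpx)
  have hlogx : 1 ≤ Real.log x := by
    rw [Real.le_log_iff_exp_le hx0]
    have := Real.exp_one_lt_d9
    linarith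
  set L := Nat.log 2 x with hL
  set ρ : ℝ := (2 : ℝ) ^ (-(1 / 4) : ℝ) with hρ
  have hρ0 : 0 < ρ := by positivity
  have hρ4 : ρ ^ 4 = 1 / 2 := by
    rw [hρ, ← Real.rpow_natCast ((2 : ℝ) ^ (-(1 / 4) : ℝ)) 4, ← Real.rpow_mul (by norm_num)]
    norm_num
  have hρ7 : ρ ≤ 6 / 7 := by
    by_contra hcon
    have h1 : (6 / 7 : ℝ) < ρ := not_le.1 hcon
    have h2 : (6 / 7 : ℝ) ^ 4 < ρ ^ 4 := pow_lt_pow_left₀ h1 (by norm_num) (by norm_num)
    rw [hρ4] at h2
    norm_num at h2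
  set S := (Wf p x).filter (fun r => z < r) with hS
  have hSmem : ∀ r ∈ S, 1 ≤ r ∧ r ≤ x ∧ r.Prime ∧ r ^ (p - 1) ≡ 1 [MOD p ^ 2] ∧ z < r := by
    intro r hr
    rw [hS, mem_filter, Wf, mem_filter, mem_Icc] at hr
    exact ⟨hr.1.1.1, hr.1.1.2, hr.1.2.1, hr.1.2.2, hr.2⟩
  have hmaps : ∀ r ∈ S, Nat.log 2 r ∈ range (L + 1) := by
    intro r hr
    rw [mem_range]
    exact Nat.lt_succ_of_le (Nat.log_mono_right (hSmem r hr).2.1)
  rw [← Finset.sum_fiberwise_of_maps_to hmaps]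
  have hin : ∀ i ∈ range (L + 1), ∑ r ∈ S with Nat.log 2 r = i, (1 : ℝ) / r ≤
      (if Nat.log 2 z ≤ i then 12 * Real.log p * ρ ^ (i + 1) else 0) + 6 * (p : ℝ) ^ (-(1 / 2) : ℝ) := by
    intro i _
    by_cases hzi : Nat.log 2 z ≤ i
    · rw [if_pos hzi]
      refine le_trans ?_ (wfs_block p hp i)
      have hsub : (S.filter (fun r => Nat.log 2 r = i)) ⊆ Wf p (2 ^ (i + 1)) := by
        intro r hr
        obtain ⟨hr1, hr2⟩ := mem_filter.1 hr
        obtain ⟨a1, a2, a3, a4, a5⟩ := hSmem r hr1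
        rw [Wf, mem_filter, mem_Icc]
        refine ⟨⟨a1, ?_⟩, a3, a4⟩
        have := Nat.lt_pow_succ_log_self (b := 2) (by norm_num) r
        rw [hr2] at this
        exact this.le
      calc ∑ r ∈ S with Nat.log 2 r = i, (1 : ℝ) / r
          ≤ ∑ r ∈ S with Nat.log 2 r = i, (1 : ℝ) / 2 ^ i := by
            refine Finset.sum_le_sum ?_
            intro r hr
            obtain ⟨hr1, hr2⟩ := mem_filter.1 hr
            have a1 := (hSmem r hr1).1
            have h3 : 2 ^ i ≤ r := by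
              have := Nat.pow_log_le_self 2 (x := r) (by omega)
              rwa [hr2] at this
            exact one_div_le_one_div_of_le (by positivity) (by exact_mod_cast h3)
        _ = ((S.filter (fun r => Nat.log 2 r = i)).card : ℝ) * (1 / 2 ^ i) := by
            rw [Finset.sum_const, nsmul_eq_mul]
        _ ≤ _ := by
            refine mul_le_mul_of_nonneg_right ?_ (by positivity)
            exact_mod_cast Finset.card_le_card hsub
    · rw [if_neg hzi, zero_add]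
      have hempty : (S.filter (fun r => Nat.log 2 r = i)) = ∅ := by
        rw [Finset.filter_eq_empty_iff]
        intro r hr hri
        apply hzi
        rw [← hri]
        exact Nat.log_mono_right (hSmem r hr).2.2.2.2.le
      rw [hempty, Finset.sum_empty]
      positivity
  refine (Finset.sum_le_sum hin).trans ?_
  rw [Finset.sum_add_distrib, ← Finset.sum_filter]
  have h1 : ∑ i ∈ range (L + 1) with Nat.log 2 z ≤ i, 12 * Real.log p * ρ ^ (i + 1) ≤
      84 * Real.log x * (z : ℝ) ^ (-(1 / 4) : ℝ) := by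
    have hsub : ((range (L + 1)).filter (fun i => Nat.log 2 z ≤ i)) ⊆ Ico (Nat.log 2 z) (L + 1) := by
      intro i hi
      rw [mem_filter, mem_range] at hi
      rw [mem_Ico]
      exact ⟨hi.2, hi.1⟩
    have hzpow : ρ ^ (Nat.log 2 z + 1) ≤ (z : ℝ) ^ (-(1 / 4) : ℝ) := by
      have h3 : ρ ^ (Nat.log 2 z + 1) = ((2 : ℝ) ^ (Nat.log 2 z + 1)) ^ (-(1 / 4) : ℝ) := by
        rw [hρ, ← Real.rpow_natCast ((2 : ℝ) ^ (-(1 / 4) : ℝ)), ← Real.rpow_mul (by norm_num),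
          mul_comm, Real.rpow_mul (by norm_num), Real.rpow_natCast]
      rw [h3]
      refine Real.rpow_le_rpow_of_nonpos hz0 ?_ (by norm_num)
      have := Nat.lt_pow_succ_log_self (b := 2) (by norm_num) z
      exact_mod_cast this.le
    calc ∑ i ∈ range (L + 1) with Nat.log 2 z ≤ i, 12 * Real.log p * ρ ^ (i + 1)
        ≤ ∑ i ∈ Ico (Nat.log 2 z) (L + 1), 12 * Real.log p * ρ ^ (i + 1) := by
          refine Finset.sum_le_sum_of_subset_of_nonneg hsub ?_
          intro i _ _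
          positivity
      _ = 12 * Real.log p * ρ * ∑ i ∈ Ico (Nat.log 2 z) (L + 1), ρ ^ i := by
          rw [Finset.mul_sum]
          refine Finset.sum_congr rfl fun i _ => ?_
          rw [pow_succ]
          ring
      _ ≤ 12 * Real.log p * ρ * (ρ ^ (Nat.log 2 z) / (1 - ρ)) := by
          refine mul_le_mul_of_nonneg_left ?_ (by positivity)
          exact geom_sum_Ico_le_of_lt_one hρ0.le (by linarith)
      _ = 12 * Real.log p * (ρ ^ (Nat.log 2 z + 1) * (1 / (1 - ρ))) := by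
          rw [pow_succ]
          ring
      _ ≤ 12 * Real.log x * ((z : ℝ) ^ (-(1 / 4) : ℝ) * 7) := by
          have h7 : 1 / (1 - ρ) ≤ 7 := by
            rw [div_le_iff₀ (by linarith)]
            linarith
          have h8 : 0 ≤ 1 / (1 - ρ) := by
            have : 0 < 1 - ρ := by linarith
            positivity
          gcongr
      _ = _ := by ring
  have h2 : ∑ _i ∈ range (L + 1), 6 * (p : ℝ) ^ (-(1 / 2) : ℝ) ≤
      84 * Real.log x * (p : ℝ) ^ (-(1 / 2) : ℝ) := by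
    rw [Finset.sum_const, card_range, nsmul_eq_mul]
    have hLx : ((L : ℕ) : ℝ) ≤ 2 * Real.log x := by
      have h3 : (2 : ℝ) ^ L ≤ x := by
        have := Nat.pow_log_le_self 2 (x := x) (by omega)
        exact_mod_cast this
      have h4 := Real.log_le_log (by positivity) h3
      rw [Real.log_pow] at h4
      have h5 := Real.log_two_gt_d9
      nlinarith [Nat.cast_nonneg (α := ℝ) L]
    have h6 : (0 : ℝ) ≤ (p : ℝ) ^ (-(1 / 2) : ℝ) := by positivity
    push_cast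
    calc ((L : ℝ) + 1) * (6 * (p : ℝ) ^ (-(1 / 2) : ℝ)) = (6 * ((L : ℝ) + 1)) * (p : ℝ) ^ (-(1 / 2) : ℝ) := by ring
      _ ≤ (84 * Real.log x) * (p : ℝ) ^ (-(1 / 2) : ℝ) := by
          refine mul_le_mul_of_nonneg_right ?_ h6
          nlinarith
  calc _ ≤ 84 * Real.log x * (z : ℝ) ^ (-(1 / 4) : ℝ) + 84 * Real.log x * (p : ℝ) ^ (-(1 / 2) : ℝ) :=
        add_le_add h1 h2
    _ = _ := by ring

end Pool.CHD
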